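import Pool.Agent.MP_36bee5_al.AslRes

set_option autoImplicit false

/-!
Algebras with straightening law whose principal poset ideals are straightening closed:
ideals generated by the products along a lower set of tuples have linear quotients.
-/

namespace Pool.Agent.MP_36bee5_al.Asl

variable {K R P : Type} [Field K] [CommRing R] [Algebra K R] [PartialOrder P]

/-- The product of the variables along a list. -/
def mon (x : P → R) (l : List P) : R := (l.map x).prod

omit [PartialOrder P] in
theorem mon_nil (x : P → R) : mon x [] = 1 := by simp [mon]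

omit [PartialOrder P] in
theorem mon_cons (x : P → R) (a : P) (l : List P) : mon x (a :: l) = x a * mon x l := by
  simp [mon]

omit [PartialOrder P] in
theorem mon_append (x : P → R) (l m : List P) : mon x (l ++ m) = mon x l * mon x m := by
  simp [mon]

/-- The straightening law with the upper bound condition. -/
def Str (K : Type) [Field K] [Algebra K R] (x : P → R) : Prop :=
  ∀ α β : P, ¬ α ≤ β → ¬ β ≤ α → x α * x β ∈ Submodule.span K
    {z | ∃ γ γ' : P, γ ≤ γ' ∧ γ < α ∧ γ < β ∧ (∀ δ, α ≤ δ → β ≤ δ → γ' ≤ δ) ∧ z = x γ * x γ'}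

/-- The span of the standard monomials of length `n` with all factors below `U`. -/
def Std (K : Type) [Field K] [Algebra K R] (x : P → R) (n : ℕ) (U : Set P) : Submodule K R :=
  Submodule.span K {z | ∃ l : List P, l.Pairwise (· ≤ ·) ∧ l.length = n ∧
    (∀ a ∈ l, a ∈ lowerBounds U) ∧ z = mon x l}

theorem mul_mem_of_span {S : Set R} {W : Submodule K R} (a : R) (h : ∀ z ∈ S, a * z ∈ W) {z : R}
    (hz : z ∈ Submodule.span K S) : a * z ∈ W :=
  (Submodule.span_le (p := W.comap (LinearMap.mulLeft K a))).2 h hz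

theorem span_mul_mem {S : Set R} {W : Submodule K R} (a : R) (h : ∀ z ∈ S, z * a ∈ W) {z : R}
    (hz : z ∈ Submodule.span K S) : z * a ∈ W :=
  (Submodule.span_le (p := W.comap (LinearMap.mulRight K a))).2 h hz

theorem mon_mem_Std_of_sorted (x : P → R) {l : List P} {n : ℕ} {U : Set P}
    (h1 : l.Pairwise (· ≤ ·)) (h2 : l.length = n) (h3 : ∀ a ∈ l, a ∈ lowerBounds U) :
    mon x l ∈ Std K x n U :=
  Submodule.subset_span ⟨l, h1, h2, h3, rfl⟩

theorem mul_mem_Std [Finite P] {x : P → R} (hs : Str K x) (U : Set P) (n : ℕ) :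
    ∀ α ∈ lowerBounds U, ∀ z ∈ Std K x n U, x α * z ∈ Std K x (n + 1) U := by
  induction n with
  | zero =>
    intro α hα z hz
    refine mul_mem_of_span _ ?_ hz
    rintro _ ⟨l, -, h2, -, rfl⟩
    obtain rfl := List.length_eq_zero_iff.1 h2
    rw [← mon_cons]
    exact mon_mem_Std_of_sorted x (by simp) rfl (by simpa using hα)
  | succ n ih =>
    intro α
    induction α using WellFoundedLT.induction with
    | ind α ihα =>
      intro hα z hz
      refine mul_mem_of_span _ ?_ hz
      rintro _ ⟨l, h1, h2, h3, rfl⟩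
      obtain _ | ⟨β, l⟩ := l
      · simp at h2
      have hβ : β ∈ lowerBounds U := h3 β (by simp)
      have hl : mon x l ∈ Std K x n U :=
        mon_mem_Std_of_sorted x (List.pairwise_cons.1 h1).2 (by simpa using h2)
          (fun a ha => h3 a (by simp [ha]))
      by_cases hab : α ≤ β
      · rw [← mon_cons]
        refine mon_mem_Std_of_sorted x (List.pairwise_cons.2 ⟨fun c hc => ?_, h1⟩)
          (by simpa using h2) (fun a ha => ?_)
        · rcases List.mem_cons.1 hc with rfl | hc
          · exact hab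
          · exact hab.trans ((List.pairwise_cons.1 h1).1 c hc)
        · rcases List.mem_cons.1 ha with rfl | ha
          · exact hα
          · exact h3 a ha
      by_cases hba : β ≤ α
      · rw [mon_cons, mul_left_comm]
        exact ihα β (lt_of_le_not_ge hba hab) hβ _ (ih α hα _ hl)
      · rw [mon_cons, ← mul_assoc]
        refine span_mul_mem _ ?_ (hs α β hab hba)
        rintro _ ⟨γ, γ', -, h5, -, h6, rfl⟩
        rw [mul_assoc]
        exact ihα γ h5 (fun u hu => h5.le.trans (hα hu)) _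
          (ih γ' (fun u hu => h6 u (hα hu) (hβ hu)) _ hl)

theorem mon_mul_mem_Std [Finite P] {x : P → R} (hs : Str K x) (U : Set P) (n : ℕ) (l : List P)
    (hl : ∀ a ∈ l, a ∈ lowerBounds U) {v : R} (hv : v ∈ Std K x n U) :
    mon x l * v ∈ Std K x (l.length + n) U := by
  induction l with
  | nil => simpa [mon_nil] using hv
  | cons a l ih =>
    rw [mon_cons, mul_assoc, List.length_cons, Nat.add_right_comm]
    exact mul_mem_Std hs U _ a (hl a (by simp)) _ (ih fun c hc => hl c (by simp [hc]))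

theorem Std_mul [Finite P] {x : P → R} (hs : Str K x) (U : Set P) {m n : ℕ} {u v : R}
    (hu : u ∈ Std K x m U) (hv : v ∈ Std K x n U) : u * v ∈ Std K x (m + n) U := by
  refine span_mul_mem _ ?_ hu
  rintro _ ⟨l, -, rfl, h3, rfl⟩
  exact mon_mul_mem_Std hs U n l h3 hv

theorem mon_mem_Std [Finite P] {x : P → R} (hs : Str K x) (U : Set P) (l : List P)
    (hl : ∀ a ∈ l, a ∈ lowerBounds U) : mon x l ∈ Std K x l.length U := by
  have h := mon_mul_mem_Std hs U 0 l hl
    (mon_mem_Std_of_sorted x (l := []) (by simp) rfl (by simp))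
  simpa [mon_nil] using h

/-- The product of the variables along a tuple. -/
def pr (x : P → R) {d : ℕ} (β : Fin d → P) : R := ∏ j, x (β j)

theorem pr_mem_Std [Finite P] {x : P → R} (hs : Str K x) (U : Set P) {d : ℕ} (β : Fin d → P)
    (hβ : ∀ j, β j ∈ lowerBounds U) : pr x β ∈ Std K x d U := by
  have h := mon_mem_Std hs U (List.ofFn β) (by
    intro a ha
    obtain ⟨j, rfl⟩ := (List.mem_ofFn' _ _).1 ha
    exact hβ j)
  have e : mon x (List.ofFn β) = pr x β := by
    rw [mon, List.map_ofFn, List.prod_ofFn]; rfl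
  rwa [e, List.length_ofFn] at h

theorem push {x : P → R} (hs : Str K x) {α δ : P} (h : ¬ α ≤ δ) :
    x α * x δ ∈ Submodule.span K {z | ∃ γ γ' : P, γ < α ∧ z = x γ * x γ'} := by
  by_cases h' : δ ≤ α
  · exact Submodule.subset_span ⟨δ, α, lt_of_le_not_ge h' h, mul_comm _ _⟩
  · refine Submodule.span_mono ?_ (hs α δ h h')
    rintro _ ⟨γ, γ', -, h5, -, -, rfl⟩
    exact ⟨γ, γ', h5, rfl⟩

theorem push_pr {x : P → R} (hs : Str K x) {d : ℕ} (β : Fin d → P) {j : Fin d} {δ : P}
    (h : ¬ β j ≤ δ) : pr x β * x δ ∈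
      Submodule.span K {z | ∃ (β' : Fin d → P) (γ' : P), β' < β ∧ z = pr x β' * x γ'} := by
  classical
  have e : ∀ β' : Fin d → P, pr x β' = x (β' j) * ∏ i ∈ Finset.univ.erase j, x (β' i) :=
    fun β' => (Finset.mul_prod_erase _ (fun i => x (β' i)) (Finset.mem_univ j)).symm
  rw [e β, mul_right_comm]
  refine span_mul_mem _ ?_ (push hs h)
  rintro _ ⟨γ, γ', h5, rfl⟩
  refine Submodule.subset_span ⟨Function.update β j γ, γ', update_lt_self_iff.2 h5, ?_⟩
  rw [e, Function.update_self, mul_right_comm]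
  congr 2
  exact Finset.prod_congr rfl fun i hi => by
    rw [Function.update_of_ne (Finset.ne_of_mem_erase hi)]

/-- Sorted lists index the standard monomials. -/
abbrev SL (P : Type) [PartialOrder P] : Type := {l : List P // l.Pairwise (· ≤ ·)}

theorem map_mem_of_basis {ι : Type} (b : Module.Basis ι K R) (f : R →ₗ[K] R) (W : Submodule K R)
    (h : ∀ l, f (b l) ∈ W) (r : R) : f r ∈ W := by
  have : Submodule.span K (Set.range b) ≤ W.comap f := by
    rw [Submodule.span_le]
    rintro _ ⟨l, rfl⟩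
    exact h l
  exact this (b.span_eq ▸ Submodule.mem_top)

/-- The projection to degree `m`. -/
noncomputable def proj (x : P → R) (b : Module.Basis (SL P) K R) (m : ℕ) : R →ₗ[K] R :=
  b.constr K fun l => if l.1.length = m then mon x l.1 else 0

theorem proj_of_mem {x : P → R} {b : Module.Basis (SL P) K R} (hb : ∀ l, b l = mon x l.1)
    (m : ℕ) {n : ℕ} {z : R} (hz : z ∈ Std K x n ∅) :
    proj x b m z = if n = m then z else 0 := by
  induction hz using Submodule.span_induction with
  | mem z hz =>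
    obtain ⟨l, h1, rfl, -, rfl⟩ := hz
    have := hb ⟨l, h1⟩
    conv_lhs => rw [← this]
    rw [proj, Module.Basis.constr_basis]
  | zero => simp
  | add u v _ _ hu hv => rw [map_add, hu, hv]; split_ifs <;> simp
  | smul c u _ hu => rw [map_smul, hu]; split_ifs <;> simp

theorem mon_mem_Std_empty {x : P → R} (l : SL P) : mon x l.1 ∈ Std K x l.1.length ∅ :=
  mon_mem_Std_of_sorted x l.2 rfl (by simp)

theorem proj_mem {x : P → R} {b : Module.Basis (SL P) K R} (hb : ∀ l, b l = mon x l.1)
    (m : ℕ) (r : R) : proj x b m r ∈ Std K x m ∅ := by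
  refine map_mem_of_basis b _ _ (fun l => ?_) r
  rw [hb, proj_of_mem hb m (mon_mem_Std_empty l)]
  split_ifs with h
  · exact h ▸ mon_mem_Std_empty l
  · exact Submodule.zero_mem _

theorem proj_mul [Finite P] {x : P → R} (hs : Str K x) {b : Module.Basis (SL P) K R}
    (hb : ∀ l, b l = mon x l.1) (m : ℕ) {e : ℕ} {u : R} (hu : u ∈ Std K x e ∅) (a : R) :
    proj x b (m + e) (a * u) = proj x b m a * u := by
  have : (proj x b (m + e)) ∘ₗ LinearMap.mulRight K u = LinearMap.mulRight K u ∘ₗ proj x b m := by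
    refine b.ext fun l => ?_
    simp only [LinearMap.comp_apply, LinearMap.mulRight_apply]
    rw [hb, proj_of_mem hb _ (Std_mul hs ∅ (mon_mem_Std_empty l) hu),
      proj_of_mem hb m (mon_mem_Std_empty l)]
    by_cases h : l.1.length = m <;> simp [h]
  exact LinearMap.congr_fun this a

theorem linear_lift [Finite P] {x : P → R} (hs : Str K x) {b : Module.Basis (SL P) K R}
    (hb : ∀ l, b l = mon x l.1) (e : ℕ) {y g : R} (hy : y ∈ Std K x 1 ∅) (hg : g ∈ Std K x e ∅)
    (m : ℕ) (h : Fin m → R) (hh : ∀ j, h j ∈ Std K x e ∅) (a : Fin m → R)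
    (ha : y * g = ∑ j, a j * h j) : y * g = ∑ j, proj x b 1 (a j) * h j := by
  have h1 := congrArg (proj x b (1 + e)) ha
  rw [proj_of_mem hb _ (Std_mul hs ∅ hy hg), if_pos rfl, map_sum] at h1
  rw [h1]
  exact Finset.sum_congr rfl fun j _ => proj_mul hs hb 1 (hh j) (a j)

/-- The span of the products `pr β * mon μ` with `β` below every factor of `μ`. -/
def Nf (K : Type) [Field K] [Algebra K R] (x : P → R) {d : ℕ} (E : Set (Fin d → P)) :
    Submodule K R :=
  Submodule.span K {z | ∃ β ∈ E, ∃ μ : List P, μ.Pairwise (· ≤ ·) ∧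
    (∀ j, β j ∈ lowerBounds {a | a ∈ μ}) ∧ z = pr x β * mon x μ}

theorem exists_factor (x : P → R) {d : ℕ} (β : Fin d → P) (l : List P)
    (h : ¬ ∀ j, β j ∈ lowerBounds {a | a ∈ l}) :
    ∃ (j : Fin d) (δ : P) (t : R), ¬ β j ≤ δ ∧ mon x l = x δ * t := by
  by_contra hcon
  refine h fun j δ hδ => ?_
  by_contra hj
  obtain ⟨s, t, rfl⟩ := List.mem_iff_append.1 (show δ ∈ l from hδ)
  exact hcon ⟨j, δ, mon x s * mon x t, hj, by rw [mon_append, mon_cons, mul_left_comm]⟩

theorem pr_mul_mem_Nf [Finite P] {x : P → R} (hs : Str K x) {b : Module.Basis (SL P) K R}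
    (hb : ∀ l, b l = mon x l.1) {d : ℕ} {E : Set (Fin d → P)} (hE : IsLowerSet E)
    (β : Fin d → P) : β ∈ E → ∀ r : R, pr x β * r ∈ Nf K x E := by
  induction β using WellFoundedLT.induction with
  | ind β ih =>
    intro hβ r
    refine map_mem_of_basis b (LinearMap.mulLeft K (pr x β)) _ (fun l => ?_) r
    rw [LinearMap.mulLeft_apply, hb]
    by_cases h : ∀ j, β j ∈ lowerBounds {a | a ∈ l.1}
    · exact Submodule.subset_span ⟨β, hβ, l.1, l.2, h, rfl⟩
    · obtain ⟨j, δ, t, hj, e⟩ := exists_factor x β l.1 h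
      rw [e, ← mul_assoc]
      refine span_mul_mem _ ?_ (push_pr hs β hj)
      rintro _ ⟨β', γ', hlt, rfl⟩
      rw [mul_assoc]
      exact ih β' hlt (hE hlt.le hβ) _

theorem mem_Nf [Finite P] {x : P → R} (hs : Str K x) {b : Module.Basis (SL P) K R}
    (hb : ∀ l, b l = mon x l.1) {d : ℕ} {E : Set (Fin d → P)} (hE : IsLowerSet E) {z : R}
    (hz : z ∈ Ideal.span (pr x '' E)) : z ∈ Nf K x E := by
  have : ∀ r : R, z * r ∈ Nf K x E := by
    induction hz using Submodule.span_induction with
    | mem z hz =>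
      obtain ⟨β, hβ, rfl⟩ := hz
      exact pr_mul_mem_Nf hs hb hE β hβ
    | zero => simp
    | add u v _ _ hu hv => intro r; rw [add_mul]; exact Submodule.add_mem _ (hu r) (hv r)
    | smul c u _ hu => intro r; rw [smul_eq_mul, mul_comm c, mul_assoc]; exact hu _
  simpa using this 1

open Classical in
/-- The coefficient of the tail `μ` after the first `d` factors. -/
noncomputable def coef (x : P → R) (b : Module.Basis (SL P) K R) (d : ℕ) (μ : List P) :
    R →ₗ[K] R :=
  b.constr K fun l => if l.1.drop d = μ then mon x (l.1.take d) else 0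

open Classical in
theorem coef_mul {x : P → R} {b : Module.Basis (SL P) K R} (hb : ∀ l, b l = mon x l.1) (d : ℕ)
    (μ : List P) {ν : List P} (hν : ν.Pairwise (· ≤ ·)) {p : R}
    (hp : p ∈ Std K x d {a | a ∈ ν}) :
    coef x b d μ (p * mon x ν) = if ν = μ then p else 0 := by
  induction hp using Submodule.span_induction with
  | mem z hz =>
    obtain ⟨l, h1, rfl, h3, rfl⟩ := hz
    have := hb ⟨l ++ ν, List.pairwise_append.2 ⟨h1, hν, fun a ha c hc => h3 a ha hc⟩⟩
    rw [← mon_append, ← this, coef, Module.Basis.constr_basis]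
    simp
  | zero => simp
  | add u v _ _ hu hv => rw [add_mul, map_add, hu, hv]; split_ifs <;> simp
  | smul c u _ hu => rw [smul_mul_assoc, map_smul, hu]; split_ifs <;> simp

theorem coef_mem [Finite P] {x : P → R} (hs : Str K x) {b : Module.Basis (SL P) K R}
    (hb : ∀ l, b l = mon x l.1) {d : ℕ} {E : Set (Fin d → P)} (hE : IsLowerSet E) (μ : List P)
    {z : R} (hz : z ∈ Ideal.span (pr x '' E)) :
    coef x b d μ z ∈ Submodule.span K (pr x '' E) := by
  refine (Submodule.span_le (p := (Submodule.span K (pr x '' E)).comap (coef x b d μ))).2 ?_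
    (mem_Nf hs hb hE hz)
  rintro _ ⟨β, hβ, ν, hν, h, rfl⟩
  show coef x b d μ _ ∈ Submodule.span K (pr x '' E)
  rw [coef_mul hb d μ hν (pr_mem_Std hs _ β h)]
  split_ifs
  · exact Submodule.subset_span ⟨β, hβ, rfl⟩
  · exact Submodule.zero_mem _

theorem x_mul_pr_mem {x : P → R} (hs : Str K x) {d : ℕ} {E : Set (Fin d → P)} (β : Fin d → P)
    (hlt : ∀ β' < β, β' ∈ E) {j : Fin d} {δ : P} (h : ¬ β j ≤ δ) :
    x δ * pr x β ∈ Ideal.span (pr x '' E) := by
  rw [mul_comm]
  refine (Submodule.span_le (p := (Ideal.span (pr x '' E)).restrictScalars K)).2 ?_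
    (push_pr hs β h)
  rintro _ ⟨β', γ', h', rfl⟩
  exact Ideal.mul_mem_right _ _ (Ideal.subset_span ⟨β', hlt β' h', rfl⟩)

theorem colon [Finite P] {x : P → R} (hs : Str K x) {b : Module.Basis (SL P) K R}
    (hb : ∀ l, b l = mon x l.1) {d : ℕ} {E : Set (Fin d → P)} (hE : IsLowerSet E)
    (β : Fin d → P) (hlt : ∀ β' < β, β' ∈ E) (hnot : pr x β ∉ Submodule.span K (pr x '' E))
    (r : R) : r ∈ Ideal.span (x '' {δ | ∃ j, ¬ β j ≤ δ}) ↔
      r * pr x β ∈ Ideal.span (pr x '' E) := by
  classical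
  constructor
  · intro hr
    induction hr using Submodule.span_induction with
    | mem z hz =>
      obtain ⟨δ, ⟨j, hj⟩, rfl⟩ := hz
      exact x_mul_pr_mem hs β hlt hj
    | zero => simp
    | add u v _ _ hu hv => rw [add_mul]; exact Ideal.add_mem _ hu hv
    | smul c u _ hu => rw [smul_eq_mul, mul_assoc]; exact Ideal.mul_mem_left _ _ hu
  · intro hr
    have hzero : ∀ μ : SL P, (∀ j, β j ∈ lowerBounds {a | a ∈ μ.1}) → b.repr r μ = 0 := by
      intro μ hμ
      have key := map_mem_of_basis b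
        ((b.coord μ).smulRight (pr x β) - coef x b d μ.1 ∘ₗ LinearMap.mulRight K (pr x β))
        (Submodule.span K (pr x '' E)) (fun l => by
          simp only [LinearMap.sub_apply, LinearMap.smulRight_apply, LinearMap.comp_apply,
            LinearMap.mulRight_apply, Module.Basis.coord_apply, Module.Basis.repr_self,
            Finsupp.single_apply]
          rw [hb]
          by_cases h : ∀ j, β j ∈ lowerBounds {a | a ∈ l.1}
          · rw [mul_comm, coef_mul hb d μ.1 l.2 (pr_mem_Std hs _ β h)]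
            by_cases e : l = μ
            · simp [e]
            · have e' : l.1 ≠ μ.1 := fun h' => e (Subtype.ext h')
              simp [e, e']
          · have e : l ≠ μ := fun h' => h (h' ▸ hμ)
            obtain ⟨j, δ, t, hj, e'⟩ := exists_factor x β l.1 h
            rw [if_neg e, zero_smul, zero_sub, e', mul_right_comm]
            exact Submodule.neg_mem _ (coef_mem hs hb hE _
              (Ideal.mul_mem_right _ _ (x_mul_pr_mem hs β hlt hj)))) r
      simp only [LinearMap.sub_apply, LinearMap.smulRight_apply, LinearMap.comp_apply,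
        LinearMap.mulRight_apply, Module.Basis.coord_apply] at key
      have h2 := Submodule.add_mem _ key (coef_mem hs hb hE μ.1 hr)
      rw [sub_add_cancel] at h2
      by_contra hne
      exact hnot ((Submodule.smul_mem_iff _ hne).1 h2)
    refine (Submodule.span_le
      (p := (Ideal.span (x '' {δ | ∃ j, ¬ β j ≤ δ})).restrictScalars K)).2 ?_
      (b.mem_span_repr_support r)
    rintro _ ⟨l, hl, rfl⟩
    have h : ¬ ∀ j, β j ∈ lowerBounds {a | a ∈ l.1} := fun h =>
      Finsupp.mem_support_iff.1 hl (hzero l h)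
    obtain ⟨j, δ, t, hj, e'⟩ := exists_factor x β l.1 h
    show b l ∈ Ideal.span _
    rw [hb, e']
    exact Ideal.mul_mem_right _ _ (Ideal.subset_span ⟨δ, ⟨j, hj⟩, rfl⟩)

/-- The ideals generated by lower sets of variables. -/
def Filt (x : P → R) : Set (Ideal R) := {I | ∃ Ω : Set P, IsLowerSet Ω ∧ I = Ideal.span (x '' Ω)}

theorem lq [Finite P] {x : P → R} (hs : Str K x) {b : Module.Basis (SL P) K R}
    (hb : ∀ l, b l = mon x l.1) {d : ℕ} (T : Set (Fin d → P)) (hT : IsLowerSet T) :
    LQ (Filt x) (Std K x d ∅ : Set R) (Ideal.span (pr x '' T)) := by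
  induction T using WellFoundedLT.induction with
  | ind T ih =>
    rcases T.eq_empty_or_nonempty with rfl | hne
    · rw [Set.image_empty, Ideal.span_empty]
      exact LQ.bot
    obtain ⟨β, hβ⟩ := (Set.toFinite T).exists_maximal hne
    have hE : IsLowerSet (T \ {β}) := by
      rintro u v hvu ⟨hu, hu'⟩
      refine ⟨hT hvu hu, fun hv => hu' ?_⟩
      obtain rfl : v = β := hv
      exact le_antisymm (hβ.2 hu hvu) hvu
    have hlt : T \ {β} < T := Set.sdiff_singleton_ssubset.2 hβ.1
    have ih' := ih _ hlt hE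
    have hT' : pr x '' T = insert (pr x β) (pr x '' (T \ {β})) := by
      rw [← Set.image_insert_eq, Set.insert_sdiff_singleton, Set.insert_eq_of_mem hβ.1]
    by_cases hin : pr x β ∈ Submodule.span K (pr x '' (T \ {β}))
    · have : pr x β ∈ Ideal.span (pr x '' (T \ {β})) :=
        (Submodule.span_le (p := (Ideal.span (pr x '' (T \ {β}))).restrictScalars K)).2
          Ideal.subset_span hin
      rw [hT', Ideal.span, Submodule.span_insert_eq_span this]
      exact ih'
    · rw [hT', Ideal.span, Submodule.span_insert, sup_comm]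
      refine LQ.step _ _ (Ideal.span (x '' {δ | ∃ j, ¬ β j ≤ δ})) ih'
        (pr_mem_Std hs ∅ β (by simp)) ⟨_, ?_, rfl⟩ (fun r => ?_)
      · rintro u v hvu ⟨j, hj⟩
        exact ⟨j, fun h => hj (h.trans hvu)⟩
      · exact colon hs hb hE β (fun β' h' => ⟨hT h'.le hβ.1, h'.ne⟩) hin r

omit [PartialOrder P] in
theorem image_one (x : P → R) (Ω : Set P) : pr x '' {β : Fin 1 → P | β 0 ∈ Ω} = x '' Ω := by
  ext z
  constructor
  · rintro ⟨β, hβ, rfl⟩
    exact ⟨β 0, hβ, by simp [pr]⟩
  · rintro ⟨a, ha, rfl⟩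
    exact ⟨fun _ => a, ha, by simp [pr]⟩

theorem lq_filt [Finite P] {x : P → R} (hs : Str K x) {b : Module.Basis (SL P) K R}
    (hb : ∀ l, b l = mon x l.1) (C : Ideal R) (hC : C ∈ Filt x) :
    LQ (Filt x) (Std K x 1 ∅ : Set R) C := by
  obtain ⟨Ω, hΩ, rfl⟩ := hC
  rw [← image_one]
  exact lq hs hb _ fun u v hvu hu => hΩ (hvu 0) hu

theorem resolution [Finite P] {x : P → R} (hs : Str K x) {b : Module.Basis (SL P) K R}
    (hb : ∀ l, b l = mon x l.1) {d : ℕ} (T : Set (Fin d → P)) (hT : IsLowerSet T) :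
    ∃ (c : ℕ → ℕ) (g : Fin (c 0) → R) (A : (i : ℕ) → Matrix (Fin (c i)) (Fin (c (i + 1))) R),
      (∀ j, g j ∈ Std K x d ∅) ∧ (∀ i a e, A i a e ∈ Std K x 1 ∅) ∧
      Ideal.span (Set.range g) = Ideal.span (pr x '' T) ∧
      (∀ v : Fin (c 0) → R, ∑ j, v j * g j = 0 ↔ ∃ w, (A 0).mulVec w = v) ∧
      (∀ (i : ℕ) (v : Fin (c (i + 1)) → R),
        (A i).mulVec v = 0 ↔ ∃ w, (A (i + 1)).mulVec w = v) :=
  exists_resolution (F := Filt x) (Std K x 1 ∅).toAddSubgroup (proj x b 1) (proj_mem hb 1)
    (lq_filt hs hb) (fun _ hy _ hg m h hh a ha => linear_lift hs hb 1 hy hg m h hh a ha)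
    (Std K x d ∅ : Set R) (fun _ hy _ hg m h hh a ha => linear_lift hs hb d hy hg m h hh a ha)
    _ (lq hs hb T hT)

theorem colon_one [Finite P] {x : P → R} (hs : Str K x) {b : Module.Basis (SL P) K R}
    (hb : ∀ l, b l = mon x l.1) (Ω : Set P) (hΩ : IsLowerSet Ω) (α : P) (hα : α ∉ Ω)
    (hlt : ∀ γ < α, γ ∈ Ω) (r : R) :
    r * x α ∈ Ideal.span (x '' Ω) ↔ r ∈ Ideal.span (x '' {δ | ¬ α ≤ δ}) := by
  have h := colon hs hb (E := {β : Fin 1 → P | β 0 ∈ Ω}) (fun u v hvu hu => hΩ (hvu 0) hu)
    (fun _ => α) (fun β' h' => hlt _ (by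
      refine lt_of_le_of_ne (h'.le 0) fun e => h'.ne ?_
      funext i
      rw [Subsingleton.elim i 0]
      exact e)) (by
      rw [image_one]
      let s : P → SL P := fun a => ⟨[a], by simp⟩
      have hx : ∀ a, x a = b (s a) := fun a => by rw [hb]; simp [s, mon]
      have e1 : pr x (fun _ : Fin 1 => α) = b (s α) := by rw [← hx]; simp [pr]
      have e2 : x '' Ω = b '' (s '' Ω) := by
        rw [Set.image_image]
        exact Set.image_congr fun a _ => hx a
      rw [e1, e2]
      refine b.linearIndependent.notMem_span_image ?_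
      rintro ⟨a, ha, e⟩
      obtain rfl : a = α := by simpa [s] using e
      exact hα ha) r
  rw [image_one] at h
  simpa [pr] using h.symm

end Pool.Agent.MP_36bee5_al.Asl
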