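import Mathlib

set_option autoImplicit false

/-!
Hibi rings of finite distributive lattices satisfy both hypotheses of
`Pool.Agent.Results.MP_36bee5_al.AslProducts.result`.
-/

namespace Pool.Agent.MP_36bee5_al.Asl

open MvPolynomial

/-- The join-meet ideal of a lattice. -/
noncomputable def hibi (K L : Type) [Field K] [Lattice L] : Ideal (MvPolynomial L K) :=
  Ideal.span {p | ∃ a b : L, p = X a * X b - X (a ⊓ b) * X (a ⊔ b)}

theorem hibi_str (K L : Type) [Field K] [Lattice L] (a b : L) (hab : ¬ a ≤ b) (hba : ¬ b ≤ a) :
    Ideal.Quotient.mk (hibi K L) (X a * X b) ∈ Submodule.span K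
      {z : MvPolynomial L K ⧸ hibi K L | ∃ c c' : L, c ≤ c' ∧ c < a ∧ c < b ∧
        (∀ e, a ≤ e → b ≤ e → c' ≤ e) ∧ z = Ideal.Quotient.mk (hibi K L) (X c * X c')} :=
  Submodule.subset_span ⟨a ⊓ b, a ⊔ b, inf_le_sup, inf_lt_left.2 hab, inf_lt_right.2 hba,
    fun _ => sup_le, Ideal.Quotient.eq.2 (Ideal.subset_span ⟨a, b, rfl⟩)⟩

theorem sum_le_length {L : Type} (v : L → ℕ) (hv : ∀ a, v a ≤ 1) (l : List L) :
    (l.map v).sum ≤ l.length := by
  induction l with
  | nil => simp
  | cons a l ih => have := hv a; simp only [List.map_cons, List.sum_cons, List.length_cons]; omega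

theorem sum_eq_length {L : Type} (v : L → ℕ) (l : List L) (hv : ∀ a ∈ l, v a = 1) :
    (l.map v).sum = l.length := by
  induction l with
  | nil => simp
  | cons a l ih =>
    have h1 := hv a (by simp)
    have h2 := ih fun c hc => hv c (by simp [hc])
    simp only [List.map_cons, List.sum_cons, List.length_cons]; omega

theorem sorted_inj {L β : Type} [Lattice L] [DecidableEq β] (f : LatticeHom L (Finset β))
    (hf : Function.Injective f) (l : List L) : ∀ m : List L, l.Pairwise (· ≤ ·) →
      m.Pairwise (· ≤ ·) → l.length = m.length →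
      (∀ i, (l.map fun a => if i ∈ f a then 1 else 0).sum =
        (m.map fun a => if i ∈ f a then 1 else 0).sum) → l = m := by
  have head : ∀ (a : L) (l : List L), (a :: l).Pairwise (· ≤ ·) → ∀ i, i ∈ f a ↔
      ((a :: l).map fun c => if i ∈ f c then 1 else 0).sum = l.length + 1 := by
    intro a l hl i
    constructor
    · intro hi
      refine sum_eq_length _ _ fun c hc => if_pos ?_
      rcases List.mem_cons.1 hc with rfl | hc
      · exact hi
      · exact OrderHomClass.mono f ((List.pairwise_cons.1 hl).1 c hc) hi
    · intro h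
      by_contra hi
      have := sum_le_length (fun c => if i ∈ f c then 1 else 0)
        (fun c => by split_ifs <;> simp) l
      simp only [List.map_cons, List.sum_cons, if_neg hi] at h
      omega
  induction l with
  | nil => intro m _ _ h _; exact (List.length_eq_zero_iff.1 h.symm).symm
  | cons a l ih =>
    intro m hl hm hlen hsum
    obtain _ | ⟨b, m⟩ := m
    · simp at hlen
    have hlen' : l.length = m.length := by simpa using hlen
    obtain rfl : a = b := hf (Finset.ext fun i => by
      rw [head a l hl, head b m hm, hsum i, hlen'])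
    rw [ih m (List.pairwise_cons.1 hl).2 (List.pairwise_cons.1 hm).2 hlen' fun i => by
      simpa using hsum i]

theorem hibi_ind (K L : Type) [Field K] [Finite L] [DistribLattice L] :
    LinearIndependent K fun l : {l : List L // l.Pairwise (· ≤ ·)} =>
      Ideal.Quotient.mk (hibi K L) (l.1.map X).prod := by
  obtain ⟨β, _, _, f, hf⟩ := exists_birkhoff_representation L
  let w : L → (Option β →₀ ℕ) := fun a => Finsupp.equivFunOnFinite.symm
    fun o => o.elim 1 fun i => if i ∈ f a then 1 else 0
  have hw : ∀ a b, w a + w b = w (a ⊓ b) + w (a ⊔ b) := by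
    intro a b
    ext o
    cases o with
    | none => simp [w]
    | some i => by_cases h1 : i ∈ f a <;> by_cases h2 : i ∈ f b <;> simp [w, h1, h2]
  let φ : MvPolynomial L K →ₐ[K] MvPolynomial (Option β) K := aeval fun a => monomial (w a) 1
  have hφ : ∀ p ∈ hibi K L, φ p = 0 := by
    intro p hp
    have : hibi K L ≤ RingHom.ker φ := by
      rw [hibi, Ideal.span_le]
      rintro _ ⟨a, b, rfl⟩
      show φ _ = 0
      simp [φ, monomial_mul, hw a b]
    exact this hp
  have hl : ∀ l : List L, φ (l.map X).prod = monomial (l.map w).sum 1 := by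
    intro l
    induction l with
    | nil => simp
    | cons a l ih =>
      rw [List.map_cons, List.prod_cons, map_mul, ih]
      simp [φ, monomial_mul]
  have hs : ∀ (l : List L) (o : Option β), (l.map w).sum o = (l.map fun a => w a o).sum := by
    intro l o
    induction l with
    | nil => simp
    | cons a l ih => simp [ih]
  refine LinearIndependent.of_comp (Ideal.Quotient.liftₐ (hibi K L) φ hφ).toLinearMap ?_
  have hinj : Function.Injective
      fun l : {l : List L // l.Pairwise (· ≤ ·)} => (l.1.map w).sum := by
    intro l m h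
    have h' : ∀ o, (l.1.map fun a => w a o).sum = (m.1.map fun a => w a o).sum := fun o => by
      rw [← hs, ← hs]; exact DFunLike.congr_fun h o
    refine Subtype.ext (sorted_inj f hf l.1 m.1 l.2 m.2 ?_ fun i => ?_)
    · simpa [w] using h' none
    · simpa [w] using h' (some i)
  have key := (basisMonomials (Option β) K).linearIndependent.comp _ hinj
  have e : (Ideal.Quotient.liftₐ (hibi K L) φ hφ).toLinearMap ∘
      (fun l : {l : List L // l.Pairwise (· ≤ ·)} =>
        Ideal.Quotient.mk (hibi K L) (l.1.map X).prod) =
      basisMonomials (Option β) K ∘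
        fun l : {l : List L // l.Pairwise (· ≤ ·)} => (l.1.map w).sum := by
    funext l
    exact hl l.1
  rw [e]
  exact key

end Pool.Agent.MP_36bee5_al.Asl
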