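import Pool.Agent.MP_36bee5_al.AslCore

set_option autoImplicit false

/-!
Transfer to quotients of polynomial rings.
-/

namespace Pool.Agent.MP_36bee5_al.Asl

open MvPolynomial

variable {K P : Type} [Field K] [PartialOrder P]

/-- The classes of the variables. -/
noncomputable abbrev xx (J : Ideal (MvPolynomial P K)) (a : P) : MvPolynomial P K ⧸ J :=
  Ideal.Quotient.mk J (X a)

omit [PartialOrder P] in
theorem mon_xx (J : Ideal (MvPolynomial P K)) (l : List P) :
    mon (xx J) l = Ideal.Quotient.mk J (l.map X).prod := by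
  rw [mon, map_list_prod, List.map_map]
  rfl

omit [PartialOrder P] in
theorem hom_list (l : List P) : ((l.map X).prod : MvPolynomial P K).IsHomogeneous l.length := by
  induction l with
  | nil => simpa using isHomogeneous_one P K
  | cons a l ih =>
    rw [List.map_cons, List.prod_cons, List.length_cons, Nat.add_comm]
    exact (isHomogeneous_X K a).mul ih

theorem hom_of_Std (J : Ideal (MvPolynomial P K)) {n : ℕ} {z : MvPolynomial P K ⧸ J}
    (hz : z ∈ Std K (xx J) n ∅) :
    ∃ p : MvPolynomial P K, p.IsHomogeneous n ∧ Ideal.Quotient.mk J p = z := by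
  induction hz using Submodule.span_induction with
  | mem z hz =>
    obtain ⟨l, -, rfl, -, rfl⟩ := hz
    exact ⟨_, hom_list l, (mon_xx J l).symm⟩
  | zero => exact ⟨0, isHomogeneous_zero P K n, map_zero _⟩
  | add u v _ _ hu hv =>
    obtain ⟨p, hp, rfl⟩ := hu
    obtain ⟨q, hq, rfl⟩ := hv
    exact ⟨p + q, hp.add hq, map_add _ _ _⟩
  | smul c u _ hu =>
    obtain ⟨p, hp, rfl⟩ := hu
    exact ⟨c • p, (homogeneousSubmodule P K n).smul_mem c hp, rfl⟩

theorem span_std [Finite P] (J : Ideal (MvPolynomial P K)) (hs : Str K (xx J)) :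
    ⊤ ≤ Submodule.span K (Set.range fun l : SL P => mon (xx J) l.1) := by
  rintro r -
  obtain ⟨p, rfl⟩ := Ideal.Quotient.mk_surjective r
  induction p using MvPolynomial.induction_on with
  | C a =>
    have : Ideal.Quotient.mk J (C a) = a • mon (xx J) ([] : List P) := by
      rw [mon_nil, ← Algebra.algebraMap_eq_smul_one]
      rfl
    rw [this]
    exact Submodule.smul_mem _ _ (Submodule.subset_span ⟨⟨[], by simp⟩, rfl⟩)
  | add p q hp hq => rw [map_add]; exact Submodule.add_mem _ hp hq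
  | mul_X p a hp =>
    rw [map_mul, mul_comm]
    refine mul_mem_of_span _ ?_ hp
    rintro _ ⟨l, rfl⟩
    refine Submodule.span_mono ?_ (mul_mem_Std hs ∅ _ a (by simp) _ (mon_mem_Std_empty l))
    rintro _ ⟨m, h1, -, -, rfl⟩
    exact ⟨⟨m, h1⟩, rfl⟩

omit [PartialOrder P] in
theorem sum_prod_span {R : Type} [CommRing R] (x : P → R) {d s : ℕ}
    (Ω : Fin s → Fin d → Set P) :
    ∑ i, ∏ k, Ideal.span (x '' Ω i k) =
      Ideal.span (pr x '' {β : Fin d → P | ∃ i, ∀ k, β k ∈ Ω i k}) := by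
  classical
  have h1 : ∀ i, ∏ k, Ideal.span (x '' Ω i k) =
      Ideal.span (pr x '' {β : Fin d → P | ∀ k, β k ∈ Ω i k}) := by
    intro i
    rw [Ideal.prod_span]
    congr 1
    ext z
    rw [Set.mem_fintype_prod]
    constructor
    · rintro ⟨g, hg, rfl⟩
      choose β hβ e using hg
      exact ⟨β, hβ, Finset.prod_congr rfl fun k _ => e k⟩
    · rintro ⟨β, hβ, rfl⟩
      exact ⟨fun k => x (β k), fun k => ⟨β k, hβ k, rfl⟩, rfl⟩
  simp only [h1]
  apply le_antisymm
  · rw [Ideal.sum_eq_sup, Finset.sup_le_iff]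
    exact fun i _ => Ideal.span_mono (Set.image_mono fun β hβ => ⟨i, hβ⟩)
  · rw [Ideal.span_le]
    rintro _ ⟨β, ⟨i, hβ⟩, rfl⟩
    rw [Ideal.sum_eq_sup]
    exact Finset.le_sup (f := fun i => Ideal.span (pr x '' {β : Fin d → P | ∀ k, β k ∈ Ω i k}))
      (Finset.mem_univ i) (Ideal.subset_span ⟨β, hβ, rfl⟩)

theorem colon_max [Finite P] {R : Type} [CommRing R] [Algebra K R] {x : P → R} (hs : Str K x)
    {b : Module.Basis (SL P) K R} (hb : ∀ l, b l = mon x l.1) (Ω : Set P) (hΩ : IsLowerSet Ω)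
    (α : P) (hα : Maximal (· ∈ Ω) α) (r : R) :
    r ∈ Ideal.span (x '' {δ | ¬ α ≤ δ}) ↔
      ∀ y ∈ Ideal.span (x '' Ω), r * y ∈ Ideal.span (x '' (Ω \ {α})) := by
  have hE : IsLowerSet (Ω \ {α}) := by
    rintro u v hvu ⟨hu, hu'⟩
    refine ⟨hΩ hvu hu, fun hv => hu' ?_⟩
    obtain rfl : v = α := hv
    exact le_antisymm (hα.2 hu hvu) hvu
  rw [← colon_one hs hb _ hE α (by simp) (fun γ h => ⟨hΩ h.le hα.1, h.ne⟩) r]
  refine ⟨fun h y hy => ?_, fun h => h _ (Ideal.subset_span ⟨α, hα.1, rfl⟩)⟩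
  induction hy using Submodule.span_induction with
  | mem z hz =>
    obtain ⟨a, ha, rfl⟩ := hz
    by_cases e : a = α
    · rw [e]; exact h
    · exact Ideal.mul_mem_left _ _ (Ideal.subset_span ⟨a, ⟨ha, e⟩, rfl⟩)
  | zero => simp
  | add u v _ _ hu hv => rw [mul_add]; exact Ideal.add_mem _ hu hv
  | smul c u _ hu => rw [smul_eq_mul, mul_left_comm]; exact Ideal.mul_mem_left _ _ hu

end Pool.Agent.MP_36bee5_al.Asl
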