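import Mathlib

set_option autoImplicit false

/-!
Linear quotients with colon ideals in a family `F` give linear resolutions.
-/

namespace Pool.Agent.MP_36bee5_al.Asl

variable {R : Type} [CommRing R]

/-- `N` is generated by a sequence of elements of `D` whose successive colon ideals lie in `F`. -/
inductive LQ (F : Set (Ideal R)) {M : Type} [AddCommGroup M] [Module R M] (D : Set M) :
    Submodule R M → Prop
  | bot : LQ F D ⊥
  | step (N : Submodule R M) (g : M) (C : Ideal R) : LQ F D N → g ∈ D → C ∈ F →
      (∀ r, r ∈ C ↔ r • g ∈ N) → LQ F D (N ⊔ Submodule.span R {g})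

theorem LQ.map {F : Set (Ideal R)} {M M' : Type} [AddCommGroup M] [Module R M] [AddCommGroup M']
    [Module R M'] {D : Set M} {D' : Set M'} (f : M →ₗ[R] M') (hf : Function.Injective f)
    (hD : ∀ v ∈ D, f v ∈ D') {N : Submodule R M} (h : LQ F D N) : LQ F D' (N.map f) := by
  induction h with
  | bot => rw [Submodule.map_bot]; exact LQ.bot
  | step N g C _ hg hC hcol ih =>
    rw [Submodule.map_sup, Submodule.map_span, Set.image_singleton]
    refine LQ.step _ _ C ih (hD g hg) hC (fun r => ?_)
    rw [hcol r, ← map_smul]
    constructor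
    · exact fun h => Submodule.mem_map_of_mem h
    · rintro ⟨w, hw, e⟩
      rwa [← hf e]

/-- Put a zero in front of a vector. -/
def shift (R : Type) [CommRing R] (m : ℕ) : (Fin m → R) →ₗ[R] (Fin (m + 1) → R) where
  toFun v := Fin.cons 0 v
  map_add' v w := by
    funext i
    cases i using Fin.cases <;> simp
  map_smul' c v := by
    funext i
    cases i using Fin.cases <;> simp

theorem shift_apply (m : ℕ) (v : Fin m → R) : shift R m v = Fin.cons 0 v := rfl

theorem shift_injective (m : ℕ) : Function.Injective (shift R m) := by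
  intro v w h
  funext i
  have := congrFun h i.succ
  simpa [shift_apply] using this

/-- The syzygies of a finite family. -/
def syz {M : Type} [AddCommGroup M] [Module R M] {m : ℕ} (h : Fin m → M) :
    Submodule R (Fin m → R) :=
  LinearMap.ker (Fintype.linearCombination R h)

theorem mem_syz {M : Type} [AddCommGroup M] [Module R M] {m : ℕ} (h : Fin m → M)
    (v : Fin m → R) : v ∈ (syz h : Submodule R (Fin m → R)) ↔ ∑ j, v j • h j = 0 := by
  simp [syz, Fintype.linearCombination_apply]

theorem exists_syz {F : Set (Ideal R)} (L : AddSubgroup R) (π : R → R) (hπ : ∀ r, π r ∈ L)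
    (hF : ∀ C ∈ F, LQ F (L : Set R) C) {M : Type} [AddCommGroup M] [Module R M] (D : Set M)
    (hD : ∀ y ∈ L, ∀ g ∈ D, ∀ (m : ℕ) (h : Fin m → M), (∀ j, h j ∈ D) → ∀ a : Fin m → R,
      y • g = ∑ j, a j • h j → y • g = ∑ j, π (a j) • h j)
    {N : Submodule R M} (hN : LQ F D N) :
    ∃ (m : ℕ) (h : Fin m → M), (∀ j, h j ∈ D) ∧ Submodule.span R (Set.range h) = N ∧
      LQ F {v : Fin m → R | ∀ j, v j ∈ L} (syz h) := by
  induction hN with
  | bot =>
    refine ⟨0, Fin.elim0, fun j => j.elim0, by simp, ?_⟩
    have : (syz (Fin.elim0 : Fin 0 → M) : Submodule R (Fin 0 → R)) = ⊥ := Subsingleton.elim _ _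
    rw [this]
    exact LQ.bot
  | step N g C _ hg hC hcol ih =>
    obtain ⟨m, h, hh, hspan, hsyz⟩ := ih
    refine ⟨m + 1, Fin.cons g h, fun j => ?_, ?_, ?_⟩
    · cases j using Fin.cases with
      | zero => simpa using hg
      | succ j => simpa using hh j
    · rw [Fin.range_cons, Submodule.span_insert, hspan, sup_comm]
    · have key : ∀ C' : Ideal R, LQ F (L : Set R) C' → C' ≤ C →
          LQ F {v : Fin (m + 1) → R | ∀ j, v j ∈ L}
            (syz (Fin.cons g h : Fin (m + 1) → M) ⊓
              Submodule.comap (LinearMap.proj (R := R) (φ := fun _ : Fin (m + 1) => R) 0) C') := by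
        intro C' hC'
        induction hC' with
        | bot =>
          intro _
          have e : (syz (Fin.cons g h : Fin (m + 1) → M) ⊓
              Submodule.comap (LinearMap.proj (R := R) (φ := fun _ : Fin (m + 1) => R) 0) ⊥)
              = (syz h : Submodule R (Fin m → R)).map (shift R m) := by
            ext v
            simp only [Submodule.mem_inf, mem_syz, Submodule.mem_comap, LinearMap.proj_apply,
              Submodule.mem_bot, Submodule.mem_map, Fin.sum_univ_succ, Fin.cons_zero,
              Fin.cons_succ]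
            constructor
            · rintro ⟨h1, h2⟩
              refine ⟨fun j => v j.succ, by simpa [h2] using h1, ?_⟩
              funext i
              cases i using Fin.cases <;> simp [shift_apply, h2]
            · rintro ⟨w, hw, rfl⟩
              simpa [shift_apply] using hw
          rw [e]
          refine LQ.map (shift R m) (shift_injective m) (fun v hv => ?_) hsyz
          intro j
          cases j using Fin.cases with
          | zero => simp [shift_apply]
          | succ j => simpa [shift_apply] using hv j
        | step C1 y C2 _ hy hC2 hcol2 ih2 =>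
          intro hle
          have hC1 : C1 ≤ C := le_trans le_sup_left hle
          have hyC : y ∈ C := hle (Submodule.mem_sup_right (Submodule.mem_span_singleton_self y))
          have hyg : y • g ∈ Submodule.span R (Set.range h) := by
            rw [hspan]; exact (hcol y).1 hyC
          obtain ⟨a, ha⟩ := (Submodule.mem_span_range_iff_exists_fun R).1 hyg
          have ha' := hD y hy g hg m h hh a ha.symm
          set v : Fin (m + 1) → R := Fin.cons y (fun j => - π (a j)) with hv
          have hv0 : v 0 = y := by simp [hv]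
          have hvs : v ∈ (syz (Fin.cons g h : Fin (m + 1) → M) :
              Submodule R (Fin (m + 1) → R)) := by
            rw [mem_syz, Fin.sum_univ_succ]
            simp [hv, ha']
          have e : (syz (Fin.cons g h : Fin (m + 1) → M) ⊓
              Submodule.comap (LinearMap.proj (R := R) (φ := fun _ : Fin (m + 1) => R) 0)
                (C1 ⊔ Submodule.span R {y}))
              = (syz (Fin.cons g h : Fin (m + 1) → M) ⊓
              Submodule.comap (LinearMap.proj (R := R) (φ := fun _ : Fin (m + 1) => R) 0) C1)
                ⊔ Submodule.span R {v} := by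
            apply le_antisymm
            · rintro w ⟨hw1, hw2⟩
              have hw2' : w 0 ∈ C1 ⊔ Submodule.span R {y} := hw2
              obtain ⟨c, hc, z, hz, hcz⟩ := Submodule.mem_sup.1 hw2'
              obtain ⟨t, rfl⟩ := Submodule.mem_span_singleton.1 hz
              have : w = (w - t • v) + t • v := by abel
              rw [this]
              refine Submodule.add_mem_sup ⟨Submodule.sub_mem _ hw1 (Submodule.smul_mem _ _ hvs), ?_⟩
                (Submodule.smul_mem _ _ (Submodule.mem_span_singleton_self v))
              show (w - t • v) 0 ∈ C1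
              have : (w - t • v) 0 = c := by
                rw [Pi.sub_apply, Pi.smul_apply, hv0, ← hcz]; abel
              rw [this]; exact hc
            · refine sup_le (inf_le_inf le_rfl (Submodule.comap_mono le_sup_left)) ?_
              rw [Submodule.span_singleton_le_iff_mem]
              refine ⟨hvs, ?_⟩
              show v 0 ∈ C1 ⊔ Submodule.span R {y}
              rw [hv0]
              exact Submodule.mem_sup_right (Submodule.mem_span_singleton_self y)
          rw [e]
          refine LQ.step _ v C2 (ih2 hC1) (fun j => ?_) hC2 (fun r => ?_)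
          · cases j using Fin.cases with
            | zero => rw [hv0]; exact hy
            | succ j => simpa [hv] using hπ (a j)
          · rw [hcol2 r]
            constructor
            · intro hr
              refine ⟨Submodule.smul_mem _ _ hvs, ?_⟩
              show (r • v) 0 ∈ C1
              rw [Pi.smul_apply, hv0]; exact hr
            · rintro ⟨-, hr⟩
              have hr' : (r • v) 0 ∈ C1 := hr
              rwa [Pi.smul_apply, hv0] at hr'
      have e : (syz (Fin.cons g h : Fin (m + 1) → M) ⊓
          Submodule.comap (LinearMap.proj (R := R) (φ := fun _ : Fin (m + 1) => R) 0) C)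
          = syz (Fin.cons g h : Fin (m + 1) → M) := by
        refine inf_eq_left.2 (fun w hw => ?_)
        show w 0 ∈ C
        rw [mem_syz, Fin.sum_univ_succ] at hw
        simp only [Fin.cons_zero, Fin.cons_succ] at hw
        rw [hcol, ← hspan, eq_neg_of_add_eq_zero_left hw]
        exact Submodule.neg_mem _ (Submodule.sum_mem _ fun j _ =>
          Submodule.smul_mem _ _ (Submodule.subset_span ⟨j, rfl⟩))
      rw [← e]
      exact key C (hF C hC) le_rfl

/-- Linear quotients with colon ideals in `F` give a linear resolution. -/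
theorem exists_resolution {F : Set (Ideal R)} (L : AddSubgroup R) (π : R → R)
    (hπ : ∀ r, π r ∈ L) (hF : ∀ C ∈ F, LQ F (L : Set R) C)
    (hL : ∀ y ∈ L, ∀ g ∈ L, ∀ (m : ℕ) (h : Fin m → R), (∀ j, h j ∈ L) → ∀ a : Fin m → R,
      y * g = ∑ j, a j * h j → y * g = ∑ j, π (a j) * h j)
    (D : Set R)
    (hD : ∀ y ∈ L, ∀ g ∈ D, ∀ (m : ℕ) (h : Fin m → R), (∀ j, h j ∈ D) → ∀ a : Fin m → R,
      y * g = ∑ j, a j * h j → y * g = ∑ j, π (a j) * h j)
    (I : Ideal R) (hI : LQ F D I) :
    ∃ (b : ℕ → ℕ) (g : Fin (b 0) → R) (A : (i : ℕ) → Matrix (Fin (b i)) (Fin (b (i + 1))) R),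
      (∀ j, g j ∈ D) ∧ (∀ i a c, A i a c ∈ L) ∧ Ideal.span (Set.range g) = I ∧
      (∀ v : Fin (b 0) → R, ∑ j, v j * g j = 0 ↔ ∃ w, (A 0).mulVec w = v) ∧
      (∀ (i : ℕ) (v : Fin (b (i + 1)) → R),
        (A i).mulVec v = 0 ↔ ∃ w, (A (i + 1)).mulVec w = v) := by
  obtain ⟨n, g, hg, hgs, hN⟩ := exists_syz L π hπ hF D hD hI
  let St : Type := {p : (k : ℕ) × Submodule R (Fin k → R) //
    LQ F {v : Fin p.1 → R | ∀ j, v j ∈ L} p.2}
  have step : ∀ s : St, ∃ (t : St) (A : Matrix (Fin s.1.1) (Fin t.1.1) R),
      (∀ a c, A a c ∈ L) ∧ (∀ v, v ∈ s.1.2 ↔ ∃ w, A.mulVec w = v) ∧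
      (∀ w, A.mulVec w = 0 ↔ w ∈ t.1.2) := by
    rintro ⟨⟨k, N'⟩, hN'⟩
    obtain ⟨m, h, hh, hspan, hsyz⟩ := exists_syz L π hπ hF {v : Fin k → R | ∀ j, v j ∈ L}
      (fun y hy g hg m h hh a ha => by
        funext i
        have := congrFun ha i
        simp only [Pi.smul_apply, smul_eq_mul, Finset.sum_apply] at this ⊢
        exact hL y hy (g i) (hg i) m (fun j => h j i) (fun j => hh j i) a this) hN'
    have hmul : ∀ w : Fin m → R,
        Matrix.mulVec (Matrix.of fun (a : Fin k) (c : Fin m) => h c a) w = ∑ j, w j • h j := by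
      intro w
      funext i
      simp [Matrix.mulVec, dotProduct, Finset.sum_apply, mul_comm]
    refine ⟨⟨⟨m, syz h⟩, hsyz⟩, Matrix.of fun a c => h c a, fun a c => hh c a, fun v => ?_,
      fun w => ?_⟩
    · have hspan' : Submodule.span R (Set.range h) = N' := hspan
      have key : ∀ u : Fin k → R, u ∈ N' ↔
          ∃ w, Matrix.mulVec (Matrix.of fun (a : Fin k) (c : Fin m) => h c a) w = u := by
        intro u
        rw [← hspan', Submodule.mem_span_range_iff_exists_fun]
        exact exists_congr fun w => by rw [hmul]
      exact key v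
    · show _ ↔ w ∈ syz h
      rw [hmul, mem_syz]
  choose next A hA1 hA2 hA3 using step
  let s : ℕ → St := fun i => Nat.rec (⟨⟨n, syz g⟩, hN⟩ : St) (fun _ t => next t) i
  refine ⟨fun i => (s i).1.1, g, fun i => A (s i), hg, fun i => hA1 (s i), hgs,
    fun v => (mem_syz g v).symm.trans (hA2 (s 0) v), fun i v => ?_⟩
  exact (hA3 (s i) v).trans (hA2 (s (i + 1)) v)

end Pool.Agent.MP_36bee5_al.Asl
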