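import Mathlib

set_option autoImplicit false

namespace Pool.Agent.MP_36bee5_al.Flag

open MvPolynomial

/-- Evaluation of a quadratic algebra at a square root. -/
def qlift {A R : Type} [CommRing A] [CommRing R] {a : A} (f : A →+* R) (u : R)
    (hu : u * u = f a) : QuadraticAlgebra A a 0 →+* R where
  toFun z := f z.re + f z.im * u
  map_one' := by simp [QuadraticAlgebra.re_one, QuadraticAlgebra.im_one]
  map_mul' z w := by
    simp only [QuadraticAlgebra.re_mul, QuadraticAlgebra.im_mul, map_add, map_mul, map_zero]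
    linear_combination (-(f z.im * f w.im)) * hu
  map_zero' := by simp
  map_add' z w := by
    simp only [QuadraticAlgebra.re_add, QuadraticAlgebra.im_add, map_add]
    ring

theorem qlift_apply {A R : Type} [CommRing A] [CommRing R] {a : A} (f : A →+* R) (u : R)
    (hu : u * u = f a) (z : QuadraticAlgebra A a 0) : qlift f u hu z = f z.re + f z.im * u := rfl

variable (K : Type) [Field K]

abbrev BB := Polynomial (Polynomial K)
noncomputable abbrev ss : BB K := Polynomial.X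
noncomputable abbrev tt : BB K := Polynomial.C Polynomial.X
abbrev A1 := QuadraticAlgebra (BB K) 0 0
abbrev A2 := QuadraticAlgebra (A1 K) ⟨0, tt K⟩ 0
abbrev MM := QuadraticAlgebra (A2 K) ⟨0, ⟨ss K, 0⟩⟩ 0
abbrev SS := MvPolynomial (Fin 5) K

noncomputable def JJ : Ideal (SS K) :=
  Ideal.span {X 1 ^ 2 - X 0 * X 3, X 2 ^ 2, X 3 ^ 2 - X 2 * X 4}

abbrev RR := SS K ⧸ JJ K

noncomputable def xx (i : Fin 5) : RR K := Ideal.Quotient.mk (JJ K) (X i)

noncomputable def II (k : ℕ) : Ideal (RR K) :=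
  Ideal.span {y | ∃ i : Fin 5, (i : ℕ) < k ∧ y = Ideal.Quotient.mk (JJ K) (X i)}

noncomputable def gen : Fin 5 → MM K :=
  ![⟨⟨⟨ss K, 0⟩, 0⟩, 0⟩, ⟨0, 1⟩, ⟨⟨⟨0, 1⟩, 0⟩, 0⟩, ⟨⟨0, 1⟩, 0⟩, ⟨⟨⟨tt K, 0⟩, 0⟩, 0⟩]

noncomputable def sc : K →+* MM K :=
  ((algebraMap (A2 K) (MM K)).comp ((algebraMap (A1 K) (A2 K)).comp
    (algebraMap (BB K) (A1 K)))).comp (Polynomial.C.comp Polynomial.C)

theorem sc_apply (c : K) : sc K c = ⟨⟨⟨Polynomial.C (Polynomial.C c), 0⟩, 0⟩, 0⟩ := rfl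

noncomputable def ev : SS K →+* MM K := eval₂Hom (sc K) (gen K)

theorem ev_X (i : Fin 5) : ev K (X i) = gen K i := by simp [ev]

theorem ev_C (c : K) : ev K (C c) = sc K c := by simp [ev]

theorem ev_J : ∀ p ∈ JJ K, ev K p = 0 := by
  intro p hp
  have : JJ K ≤ RingHom.ker (ev K) := by
    rw [JJ, Ideal.span_le]
    rintro q (rfl | rfl | rfl) <;>
      simp only [SetLike.mem_coe, RingHom.mem_ker, map_sub, map_mul, pow_two, ev_X] <;>
      ext <;> simp [gen, QuadraticAlgebra.re_one, QuadraticAlgebra.im_one]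
  exact this hp

noncomputable def phi : RR K →+* MM K := Ideal.Quotient.lift (JJ K) (ev K) (ev_J K)

theorem phi_mk (p : SS K) : phi K (Ideal.Quotient.mk (JJ K) p) = ev K p := rfl

theorem phi_xx (i : Fin 5) : phi K (xx K i) = gen K i := ev_X K i

theorem rel1 : xx K 1 * xx K 1 = xx K 0 * xx K 3 := by
  rw [xx, xx, xx, ← map_mul, ← map_mul, Ideal.Quotient.eq, ← pow_two]
  exact Ideal.subset_span (by simp)

theorem rel2 : xx K 2 * xx K 2 = 0 := by
  rw [xx, ← map_mul, Ideal.Quotient.eq_zero_iff_mem, ← pow_two]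
  exact Ideal.subset_span (by simp)

theorem rel3 : xx K 3 * xx K 3 = xx K 2 * xx K 4 := by
  rw [xx, xx, xx, ← map_mul, ← map_mul, Ideal.Quotient.eq, ← pow_two]
  exact Ideal.subset_span (by simp)

noncomputable def psi0 : BB K →+* RR K :=
  Polynomial.eval₂RingHom (Polynomial.eval₂RingHom ((Ideal.Quotient.mk (JJ K)).comp C) (xx K 4))
    (xx K 0)

theorem psi0_s : psi0 K (ss K) = xx K 0 := by simp [psi0]

theorem psi0_t : psi0 K (tt K) = xx K 4 := by simp [psi0]

theorem psi0_c (c : K) : psi0 K (Polynomial.C (Polynomial.C c)) = Ideal.Quotient.mk (JJ K) (C c) := by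
  simp [psi0]

noncomputable def psi1 : A1 K →+* RR K := qlift (psi0 K) (xx K 2) (by rw [rel2, map_zero])

noncomputable def psi2 : A2 K →+* RR K := qlift (psi1 K) (xx K 3) (by
  rw [rel3, psi1, qlift_apply, map_zero, psi0_t]; ring)

noncomputable def psi3 : MM K →+* RR K := qlift (psi2 K) (xx K 1) (by
  rw [rel1, psi2, qlift_apply, map_zero, psi1, qlift_apply, map_zero, psi0_s]; ring)

theorem psi3_apply (z : MM K) : psi3 K z =
    psi0 K z.re.re.re + psi0 K z.re.re.im * xx K 2 +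
      (psi0 K z.re.im.re + psi0 K z.re.im.im * xx K 2) * xx K 3 +
    (psi0 K z.im.re.re + psi0 K z.im.re.im * xx K 2 +
      (psi0 K z.im.im.re + psi0 K z.im.im.im * xx K 2) * xx K 3) * xx K 1 := rfl

theorem psi_phi (r : RR K) : psi3 K (phi K r) = r := by
  obtain ⟨p, rfl⟩ := Ideal.Quotient.mk_surjective r
  have : (psi3 K).comp (ev K) = Ideal.Quotient.mk (JJ K) := by
    apply MvPolynomial.ringHom_ext
    · intro c
      rw [RingHom.comp_apply, ev_C, sc_apply, psi3_apply]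
      simp [psi0_c]
    · intro i
      rw [RingHom.comp_apply, ev_X, psi3_apply]
      fin_cases i <;>
        simp [gen, psi0_s, psi0_t, QuadraticAlgebra.re_one, QuadraticAlgebra.im_one] <;> rfl
  exact RingHom.congr_fun this p

theorem xx_mem {i : Fin 5} {k : ℕ} (h : (i : ℕ) < k) : xx K i ∈ II K k :=
  Ideal.subset_span ⟨i, h, rfl⟩

theorem psi0_mem {k : ℕ} (hk : 0 < k) {c : BB K} (hc : c.coeff 0 = 0) : psi0 K c ∈ II K k := by
  obtain ⟨d, rfl⟩ := Polynomial.X_dvd_iff.2 hc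
  rw [map_mul, psi0_s]
  exact Ideal.mul_mem_right _ _ (xx_mem K hk)

/-- Coordinates description of the ideals of the flag. -/
def cond (k : ℕ) (z : MM K) : Prop :=
  (k = 0 → z = 0) ∧ z.re.re.re.coeff 0 = 0 ∧ (k ≤ 3 → z.re.im.re.coeff 0 = 0) ∧
    (k ≤ 2 → z.re.re.im.coeff 0 = 0 ∧ z.re.im.im.coeff 0 = 0) ∧
    (k ≤ 1 → z.im.re.re.coeff 0 = 0 ∧ z.im.re.im.coeff 0 = 0 ∧ z.im.im.re.coeff 0 = 0 ∧
      z.im.im.im.coeff 0 = 0)

theorem cond_mul {k : ℕ} (w : MM K) {z : MM K} (h : cond K k z) : cond K k (w * z) := by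
  obtain ⟨h0, h1, h2, h3, h4⟩ := h
  refine ⟨fun hk => by rw [h0 hk, mul_zero], by simp [h1], fun hk => by simp [h1, h2 hk],
    fun hk => ?_, fun hk => ?_⟩
  · obtain ⟨h5, h6⟩ := h3 hk
    have h7 := h2 (by omega)
    constructor <;> simp [h1, h5, h6, h7]
  · obtain ⟨h5, h6⟩ := h3 (by omega)
    have h7 := h2 (by omega)
    obtain ⟨h8, h9, h10, h11⟩ := h4 hk
    refine ⟨?_, ?_, ?_, ?_⟩ <;> simp [h1, h5, h6, h7, h8, h9, h10, h11]

theorem mem_II {k : ℕ} (hk : k ≤ 4) (r : RR K) : r ∈ II K k ↔ cond K k (phi K r) := by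
  constructor
  · intro hr
    induction hr using Submodule.span_induction with
    | mem y hy =>
      obtain ⟨i, hi, rfl⟩ := hy
      rw [phi_mk, ev_X]
      fin_cases i <;> simp at hi <;>
        refine ⟨fun h => by omega, ?_, fun h => ?_, fun h => ?_, fun h => ?_⟩ <;>
        first
          | omega
          | simp [gen, QuadraticAlgebra.re_one, QuadraticAlgebra.im_one]
    | zero => simp [cond]
    | add a b _ _ ha hb =>
      obtain ⟨a0, a1, a2, a3, a4⟩ := ha
      obtain ⟨b0, b1, b2, b3, b4⟩ := hb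
      rw [map_add]
      refine ⟨fun h => by rw [a0 h, b0 h, add_zero], by simp [a1, b1],
        fun h => by simp [a2 h, b2 h], fun h => by simp [a3 h, b3 h], fun h => by simp [a4 h, b4 h]⟩
    | smul a b _ hb =>
      rw [smul_eq_mul, map_mul]
      exact cond_mul K _ hb
  · rintro ⟨h0, h1, h2, h3, h4⟩
    rw [← psi_phi K r]
    rcases Nat.eq_zero_or_pos k with rfl | hk0
    · rw [h0 rfl, map_zero]
      exact zero_mem _
    rw [psi3_apply]
    refine add_mem (add_mem (add_mem (psi0_mem K hk0 h1) ?_) ?_) ?_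
    · by_cases h : k ≤ 2
      · exact Ideal.mul_mem_right _ _ (psi0_mem K hk0 (h3 h).1)
      · exact Ideal.mul_mem_left _ _ (xx_mem K (by simp; omega))
    · by_cases h : k ≤ 3
      · refine Ideal.mul_mem_right _ _ (add_mem (psi0_mem K hk0 (h2 h)) ?_)
        by_cases h' : k ≤ 2
        · exact Ideal.mul_mem_right _ _ (psi0_mem K hk0 (h3 h').2)
        · exact Ideal.mul_mem_left _ _ (xx_mem K (by simp; omega))
      · exact Ideal.mul_mem_left _ _ (xx_mem K (by simp; omega))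
    · by_cases h : k ≤ 1
      · obtain ⟨h5, h6, h7, h8⟩ := h4 h
        exact Ideal.mul_mem_right _ _ (add_mem (add_mem (psi0_mem K hk0 h5)
          (Ideal.mul_mem_right _ _ (psi0_mem K hk0 h6))) (Ideal.mul_mem_right _ _
          (add_mem (psi0_mem K hk0 h7) (Ideal.mul_mem_right _ _ (psi0_mem K hk0 h8)))))
      · exact Ideal.mul_mem_left _ _ (xx_mem K (by simp; omega))

theorem II_mono {k l : ℕ} (h : k ≤ l) : II K k ≤ II K l :=
  Ideal.span_mono fun _ ⟨i, hi, hy⟩ => ⟨i, hi.trans_le h, hy⟩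

theorem colon_iff (i : Fin 5) (r : RR K) :
    (∀ y ∈ II K (i + 1), r * y ∈ II K i) ↔ r * xx K i ∈ II K i := by
  refine ⟨fun h => h _ (xx_mem K (Nat.lt_succ_self _)), fun h y hy => ?_⟩
  induction hy using Submodule.span_induction with
  | mem y hy =>
    obtain ⟨j, hj, rfl⟩ := hy
    rcases Nat.lt_succ_iff_lt_or_eq.1 hj with h1 | h1
    · exact Ideal.mul_mem_left _ _ (xx_mem K h1)
    · rw [Fin.ext h1]
      exact h
  | zero => simp
  | add a b _ _ ha hb => rw [mul_add]; exact add_mem ha hb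
  | smul a b _ hb => rw [smul_eq_mul, mul_left_comm]; exact Ideal.mul_mem_left _ _ hb

theorem cancel0 {r : RR K} (h : r * xx K 0 = 0) : r = 0 := by
  have h1 := congrArg (phi K) h
  rw [map_mul, phi_xx, map_zero] at h1
  have h2 : phi K r = 0 := by
    simp only [QuadraticAlgebra.ext_iff, gen] at h1 ⊢
    simpa using h1
  rw [← psi_phi K r, h2, map_zero]

theorem cond_pos {k : ℕ} (hk : 0 < k) (z : MM K) : cond K k z ↔
    z.re.re.re.coeff 0 = 0 ∧ (k ≤ 3 → z.re.im.re.coeff 0 = 0) ∧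
    (k ≤ 2 → z.re.re.im.coeff 0 = 0 ∧ z.re.im.im.coeff 0 = 0) ∧
    (k ≤ 1 → z.im.re.re.coeff 0 = 0 ∧ z.im.re.im.coeff 0 = 0 ∧ z.im.im.re.coeff 0 = 0 ∧
      z.im.im.im.coeff 0 = 0) :=
  ⟨fun h => h.2, fun h => ⟨fun h0 => by omega, h⟩⟩

theorem flag0 (r : RR K) : r ∈ II K 0 ↔ r * xx K 0 ∈ II K 0 := by
  refine ⟨fun h => Ideal.mul_mem_right _ _ h, fun h => ?_⟩
  have h0 : II K 0 = ⊥ := by simp [II]
  rw [h0, Ideal.mem_bot] at h ⊢
  exact cancel0 K h

theorem flag1 (r : RR K) : r ∈ II K 2 ↔ r * xx K 1 ∈ II K 1 := by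
  rw [mem_II K (by norm_num), mem_II K (by norm_num), map_mul, phi_xx, cond_pos K (by norm_num),
    cond_pos K (by norm_num)]
  simp [gen, QuadraticAlgebra.re_one, QuadraticAlgebra.im_one]
  tauto

theorem flag2 (r : RR K) : r ∈ II K 3 ↔ r * xx K 2 ∈ II K 2 := by
  rw [mem_II K (by norm_num), mem_II K (by norm_num), map_mul, phi_xx, cond_pos K (by norm_num),
    cond_pos K (by norm_num)]
  simp [gen]

theorem flag3 (r : RR K) : r ∈ II K 4 ↔ r * xx K 3 ∈ II K 3 := by
  rw [mem_II K (by norm_num), mem_II K (by norm_num), map_mul, phi_xx, cond_pos K (by norm_num),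
    cond_pos K (by norm_num)]
  simp [gen, QuadraticAlgebra.re_one, QuadraticAlgebra.im_one]

theorem flag4 (r : RR K) : r ∈ II K 4 ↔ r * xx K 4 ∈ II K 4 := by
  rw [mem_II K (by norm_num), mem_II K (by norm_num), map_mul, phi_xx, cond_pos K (by norm_num),
    cond_pos K (by norm_num)]
  simp [gen]

theorem one_notMem {k : ℕ} (hk : k ≤ 4) : (1 : RR K) ∉ II K k := by
  intro h
  have h1 := ((mem_II K hk 1).1 h).2.1
  rw [map_one] at h1
  simp [QuadraticAlgebra.re_one] at h1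

theorem flag (i : Fin 5) : xx K i ∉ II K i ∧
    ∃ j ≤ 5, ∀ r, r ∈ II K j ↔ ∀ y ∈ II K (i + 1), r * y ∈ II K i := by
  have key : ∃ j ≤ 4, ∀ r, r ∈ II K j ↔ r * xx K i ∈ II K i := by
    fin_cases i
    · exact ⟨0, by norm_num, flag0 K⟩
    · exact ⟨2, by norm_num, flag1 K⟩
    · exact ⟨3, by norm_num, flag2 K⟩
    · exact ⟨4, by norm_num, flag3 K⟩
    · exact ⟨4, by norm_num, flag4 K⟩
  obtain ⟨j, hj, h⟩ := key
  refine ⟨fun h1 => one_notMem K hj ((h 1).2 (by rwa [one_mul])), j, by omega, fun r => ?_⟩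
  rw [colon_iff, h]

theorem sq_ne : II K 2 * II K 2 ≠ ⊥ := by
  intro h
  have h1 : xx K 0 * xx K 0 ∈ II K 2 * II K 2 :=
    Ideal.mul_mem_mul (xx_mem K (by simp)) (xx_mem K (by simp))
  rw [h, Ideal.mem_bot] at h1
  exact (flag K 0).1 (by rw [cancel0 K h1]; exact zero_mem _)

theorem JJ_homog : ∀ p ∈ JJ K, ∀ i : ℕ, homogeneousComponent i p ∈ JJ K := by
  let := @MvPolynomial.gradedAlgebra (Fin 5) K _
  have h : (JJ K).IsHomogeneous (homogeneousSubmodule (Fin 5) K) := by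
    apply Ideal.homogeneous_span
    rintro q (rfl | rfl | rfl)
    · exact ⟨2, ((isHomogeneous_X K 1).pow 2).sub
        ((isHomogeneous_X K 0).mul (isHomogeneous_X K 3))⟩
    · exact ⟨2, (isHomogeneous_X K 2).pow 2⟩
    · exact ⟨2, ((isHomogeneous_X K 3).pow 2).sub
        ((isHomogeneous_X K 2).mul (isHomogeneous_X K 4))⟩
  intro p hp i
  have h1 := h i hp
  rwa [← DirectSum.Decomposition.decompose'_eq, decomposition.decompose'_apply] at h1

theorem hc_succ_mul_X (d : ℕ) (p : SS K) (i : Fin 5) :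
    homogeneousComponent (d + 1) (p * X i) = homogeneousComponent d p * X i := by
  ext s
  rw [coeff_homogeneousComponent, coeff_mul_X', coeff_mul_X', coeff_homogeneousComponent]
  by_cases hi : i ∈ s.support
  · simp only [hi, if_true]
    have hle : Finsupp.single i 1 ≤ s := by
      rw [Finsupp.single_le_iff]
      exact Nat.one_le_iff_ne_zero.mpr (Finsupp.mem_support_iff.mp hi)
    have hs : s = (s - Finsupp.single i 1) + Finsupp.single i 1 := (tsub_add_cancel_of_le hle).symm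
    have hdeg : s.degree = (s - Finsupp.single i 1).degree + 1 := by
      conv_lhs => rw [hs]
      simp
    rw [hdeg]
    simp
  · simp [hi]

theorem mem_two {y : RR K} (hy : y ∈ II K 2) : ∃ a b, y = a * xx K 0 + b * xx K 1 := by
  induction hy using Submodule.span_induction with
  | mem y hy =>
    obtain ⟨i, hi, rfl⟩ := hy
    fin_cases i <;> simp at hi
    · exact ⟨1, 0, by simp [xx]⟩
    · exact ⟨0, 1, by simp [xx]⟩
  | zero => exact ⟨0, 0, by simp⟩
  | add a b _ _ ha hb =>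
    obtain ⟨a0, a1, rfl⟩ := ha
    obtain ⟨b0, b1, rfl⟩ := hb
    exact ⟨a0 + b0, a1 + b1, by ring⟩
  | smul a b _ hb =>
    obtain ⟨b0, b1, rfl⟩ := hb
    exact ⟨a * b0, a * b1, by rw [smul_eq_mul]; ring⟩

theorem mem_sq {y : RR K} (hy : y ∈ II K 2 * II K 2) :
    ∃ a b c, y = a * xx K 0 * xx K 0 + b * xx K 1 * xx K 0 + c * xx K 3 * xx K 0 := by
  refine Submodule.mul_induction_on hy (fun u hu v hv => ?_) ?_
  · obtain ⟨a0, a1, rfl⟩ := mem_two K hu
    obtain ⟨b0, b1, rfl⟩ := mem_two K hv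
    exact ⟨a0 * b0, a0 * b1 + a1 * b0, a1 * b1, by linear_combination (a1 * b1) * rel1 K⟩
  · rintro _ _ ⟨a, b, c, rfl⟩ ⟨a', b', c', rfl⟩
    exact ⟨a + a', b + b', c + c', by ring⟩

theorem quad_form {p : SS K} (hp : p.IsHomogeneous 2)
    (h : Ideal.Quotient.mk (JJ K) p ∈ II K 2 * II K 2) :
    ∃ h ∈ II K 2, ∃ γ : K, Ideal.Quotient.mk (JJ K) p =
      (h + Ideal.Quotient.mk (JJ K) (C γ) * xx K 3) * xx K 0 := by
  obtain ⟨a, b, c, habc⟩ := mem_sq K h
  obtain ⟨a, rfl⟩ := Ideal.Quotient.mk_surjective a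
  obtain ⟨b, rfl⟩ := Ideal.Quotient.mk_surjective b
  obtain ⟨c, rfl⟩ := Ideal.Quotient.mk_surjective c
  simp only [xx, ← map_mul, ← map_add] at habc
  have h1 := JJ_homog K _ (Ideal.Quotient.eq.1 habc) 2
  rw [map_sub, map_add, map_add, homogeneousComponent_eq_self hp, hc_succ_mul_X, hc_succ_mul_X,
    hc_succ_mul_X, hc_succ_mul_X, hc_succ_mul_X, hc_succ_mul_X, homogeneousComponent_zero,
    homogeneousComponent_zero, homogeneousComponent_zero] at h1
  have h2 := Ideal.Quotient.eq.2 h1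
  refine ⟨Ideal.Quotient.mk (JJ K) (C (coeff 0 a)) * xx K 0 +
    Ideal.Quotient.mk (JJ K) (C (coeff 0 b)) * xx K 1, add_mem
      (Ideal.mul_mem_left _ _ (xx_mem K (by simp))) (Ideal.mul_mem_left _ _ (xx_mem K (by simp))),
    coeff 0 c, ?_⟩
  rw [h2]
  simp only [map_add, map_mul, xx]
  ring

theorem lin_form {p : SS K} (hp : p.IsHomogeneous 1) :
    ∃ a : Fin 5 → K, p = ∑ i, C (a i) * X i := by
  have h : p ∈ Submodule.span K (Set.range (X : Fin 5 → SS K)) := by
    rw [← homogeneousSubmodule_one_eq_span_X]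
    exact hp
  obtain ⟨a, ha⟩ := (Submodule.mem_span_range_iff_exists_fun K).1 h
  exact ⟨a, by rw [← ha]; simp [smul_eq_C_mul]⟩

theorem lin_cancel {p : SS K} (hp : p.IsHomogeneous 1)
    (h : Ideal.Quotient.mk (JJ K) p * xx K 3 ∈ II K 2) : Ideal.Quotient.mk (JJ K) p ∈ II K 2 := by
  obtain ⟨a, rfl⟩ := lin_form K hp
  rw [mem_II K (by norm_num), cond_pos K (by norm_num)] at h ⊢
  rw [map_mul, phi_xx] at h
  simp only [phi_mk, Fin.sum_univ_five, map_add, map_mul, ev_C, ev_X] at h ⊢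
  simp [gen, sc_apply, QuadraticAlgebra.re_one, QuadraticAlgebra.im_one] at h ⊢
  tauto

theorem no_linear_presentation {b c : ℕ} (g : Fin b → RR K) (A : Matrix (Fin b) (Fin c) (RR K))
    (hg : ∀ j, ∃ p : SS K, p.IsHomogeneous 2 ∧ Ideal.Quotient.mk (JJ K) p = g j)
    (hA : ∀ j l, ∃ p : SS K, p.IsHomogeneous 1 ∧ Ideal.Quotient.mk (JJ K) p = A j l)
    (hspan : Ideal.span (Set.range g) = II K 2 * II K 2)
    (hex : ∀ v : Fin b → RR K, ∑ j, v j * g j = 0 ↔ ∃ w, A.mulVec w = v) : False := by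
  have h1 : ∀ j, ∃ h ∈ II K 2, ∃ γ : K,
      g j = (h + Ideal.Quotient.mk (JJ K) (C γ) * xx K 3) * xx K 0 := by
    intro j
    obtain ⟨p, hp, hpg⟩ := hg j
    rw [← hpg]
    refine quad_form K hp ?_
    rw [hpg, ← hspan]
    exact Ideal.subset_span ⟨j, rfl⟩
  choose h hh γ hγ using h1
  choose q hq hqA using hA
  have key : ∀ (v : Fin b → RR K) (e : RR K), ∑ j, v j * g j = e * xx K 3 * xx K 0 →
      (∑ j, v j * Ideal.Quotient.mk (JJ K) (C (γ j)) - e) * xx K 3 ∈ II K 2 := by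
    intro v e hv
    have h2 : (∑ j, v j * h j + (∑ j, v j * Ideal.Quotient.mk (JJ K) (C (γ j)) - e) * xx K 3) *
        xx K 0 = 0 := by
      rw [sub_mul, add_mul, sub_mul, ← hv, Finset.sum_mul, Finset.sum_mul, Finset.sum_mul,
        ← add_sub_assoc, ← Finset.sum_add_distrib, sub_eq_zero]
      refine Finset.sum_congr rfl fun j _ => ?_
      rw [hγ j]
      ring
    rw [eq_neg_of_add_eq_zero_right (cancel0 K h2)]
    exact neg_mem (sum_mem fun j _ => Ideal.mul_mem_left _ _ (hh j))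
  have hcol : ∀ l, ∑ j, A j l * Ideal.Quotient.mk (JJ K) (C (γ j)) ∈ II K 2 := by
    intro l
    have h2 := key (fun j => A j l) 0 (by
      rw [zero_mul, zero_mul]
      exact (hex _).2 ⟨Pi.single l 1, by funext j; simp⟩)
    rw [sub_zero] at h2
    have h3 : ∑ j, A j l * Ideal.Quotient.mk (JJ K) (C (γ j)) =
        Ideal.Quotient.mk (JJ K) (∑ j, q j l * C (γ j)) := by
      simp only [map_sum, map_mul, hqA]
    rw [h3] at h2 ⊢
    exact lin_cancel K (IsHomogeneous.sum _ _ _ fun j _ =>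
      (hq j l).mul (isHomogeneous_C _ (γ j))) h2
  have hmem : xx K 1 * xx K 1 ∈ Ideal.span (Set.range g) := by
    rw [hspan]
    exact Ideal.mul_mem_mul (xx_mem K (by simp)) (xx_mem K (by simp))
  obtain ⟨u, hu⟩ := Ideal.mem_span_range_iff_exists_fun.1 hmem
  have h4 := key u 1 (by rw [hu, rel1]; ring)
  obtain ⟨w, hw⟩ := (hex fun j => xx K 2 * xx K 3 * u j).1 (by
    simp only [mul_assoc (xx K 2 * xx K 3), ← Finset.mul_sum, hu]
    rw [rel1]
    linear_combination (xx K 2 * xx K 0) * rel3 K + (xx K 0 * xx K 4) * rel2 K)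
  have h5 : xx K 2 * xx K 3 * ∑ j, u j * Ideal.Quotient.mk (JJ K) (C (γ j)) ∈ II K 2 := by
    have h6 : xx K 2 * xx K 3 * ∑ j, u j * Ideal.Quotient.mk (JJ K) (C (γ j)) =
        ∑ l, w l * ∑ j, A j l * Ideal.Quotient.mk (JJ K) (C (γ j)) := by
      simp only [Finset.mul_sum]
      rw [Finset.sum_comm]
      refine Finset.sum_congr rfl fun j _ => ?_
      rw [← mul_assoc, ← congrFun hw j, Matrix.mulVec, dotProduct, Finset.sum_mul]
      refine Finset.sum_congr rfl fun l _ => ?_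
      ring
    rw [h6]
    exact sum_mem fun l _ => Ideal.mul_mem_left _ _ (hcol l)
  have h7 : xx K 2 * xx K 3 ∈ II K 2 := by
    have := sub_mem h5 (Ideal.mul_mem_left _ (xx K 2) h4)
    convert this using 1
    ring
  rw [mem_II K (by norm_num), map_mul, phi_xx, phi_xx, cond_pos K (by norm_num)] at h7
  simp [gen, QuadraticAlgebra.re_one, QuadraticAlgebra.im_one] at h7

end Pool.Agent.MP_36bee5_al.Flag
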