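import Mathlib

/-! An explicit 12-dimensional commutative ring: the algebra
`Q[w,x,y,c]/(w^2, xy, x^2 - xw, y^2 - yw, c(c + w - x))`, with basis
`1, w, x, y, xw, yw` and `c` times these. -/

set_option autoImplicit false

namespace Pool.Agent.MP_36bee5_al

@[ext]
structure Mod12 where
  e : ℚ
  w : ℚ
  x : ℚ
  y : ℚ
  p : ℚ
  q : ℚ
  ce : ℚ
  cw : ℚ
  cx : ℚ
  cy : ℚ
  cp : ℚ
  cq : ℚ

namespace Mod12

instance : Zero Mod12 := ⟨⟨0,0,0,0,0,0,0,0,0,0,0,0⟩⟩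
instance : One Mod12 := ⟨⟨1,0,0,0,0,0,0,0,0,0,0,0⟩⟩
instance : Add Mod12 := ⟨fun a b => ⟨a.e+b.e, a.w+b.w, a.x+b.x, a.y+b.y, a.p+b.p, a.q+b.q,
  a.ce+b.ce, a.cw+b.cw, a.cx+b.cx, a.cy+b.cy, a.cp+b.cp, a.cq+b.cq⟩⟩
instance : Neg Mod12 := ⟨fun a => ⟨-a.e, -a.w, -a.x, -a.y, -a.p, -a.q,
  -a.ce, -a.cw, -a.cx, -a.cy, -a.cp, -a.cq⟩⟩
instance : Mul Mod12 := ⟨fun a b =>
  ⟨a.e*b.e,
   a.e*b.w + a.w*b.e,
   a.e*b.x + a.x*b.e,
   a.e*b.y + a.y*b.e,
   a.e*b.p + a.p*b.e + a.x*b.w + a.w*b.x + a.x*b.x,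
   a.e*b.q + a.q*b.e + a.y*b.w + a.w*b.y + a.y*b.y,
   a.e*b.ce + a.ce*b.e,
   a.e*b.cw + a.w*b.ce + a.ce*b.w + a.cw*b.e - a.ce*b.ce,
   a.e*b.cx + a.x*b.ce + a.ce*b.x + a.cx*b.e + a.ce*b.ce,
   a.e*b.cy + a.y*b.ce + a.ce*b.y + a.cy*b.e,
   a.e*b.cp + a.p*b.ce + a.x*b.cw + a.w*b.cx + a.x*b.cx
     + (a.ce*b.p + a.cp*b.e + a.cx*b.w + a.cw*b.x + a.cx*b.x)
     + (a.ce*b.cw + a.cw*b.ce),
   a.e*b.cq + a.q*b.ce + a.y*b.cw + a.w*b.cy + a.y*b.cy
     + (a.ce*b.q + a.cq*b.e + a.cy*b.w + a.cw*b.y + a.cy*b.y)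
     - (a.ce*b.cy + a.cy*b.ce)⟩⟩

@[simp] theorem zero_e : (0 : Mod12).e = 0 := rfl
@[simp] theorem zero_w : (0 : Mod12).w = 0 := rfl
@[simp] theorem zero_x : (0 : Mod12).x = 0 := rfl
@[simp] theorem zero_y : (0 : Mod12).y = 0 := rfl
@[simp] theorem zero_p : (0 : Mod12).p = 0 := rfl
@[simp] theorem zero_q : (0 : Mod12).q = 0 := rfl
@[simp] theorem zero_ce : (0 : Mod12).ce = 0 := rfl
@[simp] theorem zero_cw : (0 : Mod12).cw = 0 := rfl
@[simp] theorem zero_cx : (0 : Mod12).cx = 0 := rfl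
@[simp] theorem zero_cy : (0 : Mod12).cy = 0 := rfl
@[simp] theorem zero_cp : (0 : Mod12).cp = 0 := rfl
@[simp] theorem zero_cq : (0 : Mod12).cq = 0 := rfl
@[simp] theorem one_e : (1 : Mod12).e = 1 := rfl
@[simp] theorem one_w : (1 : Mod12).w = 0 := rfl
@[simp] theorem one_x : (1 : Mod12).x = 0 := rfl
@[simp] theorem one_y : (1 : Mod12).y = 0 := rfl
@[simp] theorem one_p : (1 : Mod12).p = 0 := rfl
@[simp] theorem one_q : (1 : Mod12).q = 0 := rfl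
@[simp] theorem one_ce : (1 : Mod12).ce = 0 := rfl
@[simp] theorem one_cw : (1 : Mod12).cw = 0 := rfl
@[simp] theorem one_cx : (1 : Mod12).cx = 0 := rfl
@[simp] theorem one_cy : (1 : Mod12).cy = 0 := rfl
@[simp] theorem one_cp : (1 : Mod12).cp = 0 := rfl
@[simp] theorem one_cq : (1 : Mod12).cq = 0 := rfl
@[simp] theorem add_e (a b : Mod12) : (a+b).e = a.e+b.e := rfl
@[simp] theorem add_w (a b : Mod12) : (a+b).w = a.w+b.w := rfl
@[simp] theorem add_x (a b : Mod12) : (a+b).x = a.x+b.x := rfl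
@[simp] theorem add_y (a b : Mod12) : (a+b).y = a.y+b.y := rfl
@[simp] theorem add_p (a b : Mod12) : (a+b).p = a.p+b.p := rfl
@[simp] theorem add_q (a b : Mod12) : (a+b).q = a.q+b.q := rfl
@[simp] theorem add_ce (a b : Mod12) : (a+b).ce = a.ce+b.ce := rfl
@[simp] theorem add_cw (a b : Mod12) : (a+b).cw = a.cw+b.cw := rfl
@[simp] theorem add_cx (a b : Mod12) : (a+b).cx = a.cx+b.cx := rfl
@[simp] theorem add_cy (a b : Mod12) : (a+b).cy = a.cy+b.cy := rfl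
@[simp] theorem add_cp (a b : Mod12) : (a+b).cp = a.cp+b.cp := rfl
@[simp] theorem add_cq (a b : Mod12) : (a+b).cq = a.cq+b.cq := rfl
@[simp] theorem neg_e (a : Mod12) : (-a).e = -a.e := rfl
@[simp] theorem neg_w (a : Mod12) : (-a).w = -a.w := rfl
@[simp] theorem neg_x (a : Mod12) : (-a).x = -a.x := rfl
@[simp] theorem neg_y (a : Mod12) : (-a).y = -a.y := rfl
@[simp] theorem neg_p (a : Mod12) : (-a).p = -a.p := rfl
@[simp] theorem neg_q (a : Mod12) : (-a).q = -a.q := rfl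
@[simp] theorem neg_ce (a : Mod12) : (-a).ce = -a.ce := rfl
@[simp] theorem neg_cw (a : Mod12) : (-a).cw = -a.cw := rfl
@[simp] theorem neg_cx (a : Mod12) : (-a).cx = -a.cx := rfl
@[simp] theorem neg_cy (a : Mod12) : (-a).cy = -a.cy := rfl
@[simp] theorem neg_cp (a : Mod12) : (-a).cp = -a.cp := rfl
@[simp] theorem neg_cq (a : Mod12) : (-a).cq = -a.cq := rfl
@[simp] theorem mul_e (a b : Mod12) : (a*b).e = a.e*b.e := rfl
@[simp] theorem mul_w (a b : Mod12) : (a*b).w = a.e*b.w + a.w*b.e := rfl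
@[simp] theorem mul_x (a b : Mod12) : (a*b).x = a.e*b.x + a.x*b.e := rfl
@[simp] theorem mul_y (a b : Mod12) : (a*b).y = a.e*b.y + a.y*b.e := rfl
@[simp] theorem mul_p (a b : Mod12) :
    (a*b).p = a.e*b.p + a.p*b.e + a.x*b.w + a.w*b.x + a.x*b.x := rfl
@[simp] theorem mul_q (a b : Mod12) :
    (a*b).q = a.e*b.q + a.q*b.e + a.y*b.w + a.w*b.y + a.y*b.y := rfl
@[simp] theorem mul_ce (a b : Mod12) : (a*b).ce = a.e*b.ce + a.ce*b.e := rfl
@[simp] theorem mul_cw (a b : Mod12) :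
    (a*b).cw = a.e*b.cw + a.w*b.ce + a.ce*b.w + a.cw*b.e - a.ce*b.ce := rfl
@[simp] theorem mul_cx (a b : Mod12) :
    (a*b).cx = a.e*b.cx + a.x*b.ce + a.ce*b.x + a.cx*b.e + a.ce*b.ce := rfl
@[simp] theorem mul_cy (a b : Mod12) :
    (a*b).cy = a.e*b.cy + a.y*b.ce + a.ce*b.y + a.cy*b.e := rfl
@[simp] theorem mul_cp (a b : Mod12) :
    (a*b).cp = a.e*b.cp + a.p*b.ce + a.x*b.cw + a.w*b.cx + a.x*b.cx
     + (a.ce*b.p + a.cp*b.e + a.cx*b.w + a.cw*b.x + a.cx*b.x)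
     + (a.ce*b.cw + a.cw*b.ce) := rfl
@[simp] theorem mul_cq (a b : Mod12) :
    (a*b).cq = a.e*b.cq + a.q*b.ce + a.y*b.cw + a.w*b.cy + a.y*b.cy
     + (a.ce*b.q + a.cq*b.e + a.cy*b.w + a.cw*b.y + a.cy*b.y)
     - (a.ce*b.cy + a.cy*b.ce) := rfl

instance : CommRing Mod12 where
  add_assoc := by intros; ext <;> simp <;> ring
  zero_add := by intros; ext <;> simp
  add_zero := by intros; ext <;> simp
  add_comm := by intros; ext <;> simp <;> ring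
  neg_add_cancel := by intros; ext <;> simp
  nsmul := nsmulRec
  zsmul := zsmulRec
  mul_assoc := by intros; ext <;> simp <;> ring
  one_mul := by intros; ext <;> simp
  mul_one := by intros; ext <;> simp
  zero_mul := by intros; ext <;> simp
  mul_zero := by intros; ext <;> simp
  left_distrib := by intros; ext <;> simp <;> ring
  right_distrib := by intros; ext <;> simp <;> ring
  mul_comm := by intros; ext <;> simp <;> ring

/-- scalars -/
def sc : ℚ →+* Mod12 where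
  toFun t := ⟨t,0,0,0,0,0,0,0,0,0,0,0⟩
  map_one' := rfl
  map_mul' := by intros; ext <;> simp
  map_zero' := rfl
  map_add' := by intros; ext <;> simp

theorem sc_apply (t : ℚ) : sc t = ⟨t,0,0,0,0,0,0,0,0,0,0,0⟩ := rfl

/-- the four generators `w, x, y, c` -/
def gen : Fin 4 → Mod12
  | 0 => ⟨0,1,0,0,0,0,0,0,0,0,0,0⟩
  | 1 => ⟨0,0,1,0,0,0,0,0,0,0,0,0⟩
  | 2 => ⟨0,0,0,1,0,0,0,0,0,0,0,0⟩
  | 3 => ⟨0,0,0,0,0,0,1,0,0,0,0,0⟩

/-- projection to the degree `d` part -/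
def proj (d : ℕ) (m : Mod12) : Mod12 :=
  ⟨if d = 0 then m.e else 0,
   if d = 1 then m.w else 0, if d = 1 then m.x else 0, if d = 1 then m.y else 0,
   if d = 2 then m.p else 0, if d = 2 then m.q else 0,
   if d = 1 then m.ce else 0,
   if d = 2 then m.cw else 0, if d = 2 then m.cx else 0, if d = 2 then m.cy else 0,
   if d = 3 then m.cp else 0, if d = 3 then m.cq else 0⟩

theorem proj_add (d : ℕ) (a b : Mod12) : proj d (a + b) = proj d a + proj d b := by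
  ext <;> simp only [proj, add_e, add_w, add_x, add_y, add_p, add_q, add_ce, add_cw, add_cx,
    add_cy, add_cp, add_cq] <;> split_ifs <;> simp

theorem proj_zero_mul_gen (a : Mod12) (i : Fin 4) : proj 0 (a * gen i) = 0 := by
  fin_cases i <;> ext <;> simp [proj, gen]

theorem proj_succ_mul_gen (d : ℕ) (a : Mod12) (i : Fin 4) :
    proj (d+1) (a * gen i) = proj d a * gen i := by
  rcases d with _ | _ | _ | d <;> fin_cases i <;> ext <;> simp [proj, gen]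

theorem proj_sc (d : ℕ) (t : ℚ) : proj d (sc t) = if d = 0 then sc t else 0 := by
  rcases d with _ | d <;> ext <;> simp [proj, sc_apply]

theorem proj_zero (d : ℕ) : proj d 0 = 0 := by
  ext <;> simp [proj]

end Mod12

end Pool.Agent.MP_36bee5_al
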