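import Mathlib
import Pool.Agent.MP_36bee5_al.Model

set_option autoImplicit false

namespace Pool.Agent.MP_36bee5_al

open MvPolynomial Mod12

abbrev SS := MvPolynomial (Fin 4) ℚ

noncomputable def ev : SS →+* Mod12 := eval₂Hom sc gen

noncomputable def JJ : Ideal SS := RingHom.ker ev

abbrev RR := SS ⧸ JJ

theorem ev_C (t : ℚ) : ev (C t) = sc t := by simp [ev]
theorem ev_X (i : Fin 4) : ev (X i) = gen i := by simp [ev]

theorem hc_zero_mul_X (p : SS) (i : Fin 4) : homogeneousComponent 0 (p * X i) = 0 := by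
  rw [homogeneousComponent_zero]
  simp [coeff_mul_X']

theorem hc_succ_mul_X (d : ℕ) (p : SS) (i : Fin 4) :
    homogeneousComponent (d+1) (p * X i) = homogeneousComponent d p * X i := by
  ext s
  rw [coeff_homogeneousComponent, coeff_mul_X', coeff_mul_X', coeff_homogeneousComponent]
  by_cases hi : i ∈ s.support
  · simp only [hi, if_true]
    have hle : Finsupp.single i 1 ≤ s := by
      rw [Finsupp.single_le_iff]
      exact Nat.one_le_iff_ne_zero.mpr (Finsupp.mem_support_iff.mp hi)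
    have hs : s = (s - Finsupp.single i 1) + Finsupp.single i 1 := (tsub_add_cancel_of_le hle).symm
    have hdeg : s.degree = (s - Finsupp.single i 1).degree + 1 := by
      conv_lhs => rw [hs]
      simp
    rw [hdeg]
    simp
  · simp [hi]

theorem ev_hc (p : SS) : ∀ d : ℕ, ev (homogeneousComponent d p) = proj d (ev p) := by
  induction p using MvPolynomial.induction_on with
  | C a =>
    intro d
    rw [ev_C, proj_sc, homogeneousComponent_of_mem (isHomogeneous_C _ a)]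
    split_ifs
    · exact ev_C a
    · simp
  | add p q hp hq =>
    intro d
    rw [map_add, map_add, map_add, proj_add, hp, hq]
  | mul_X p i hp =>
    intro d
    rcases d with _ | d
    · rw [hc_zero_mul_X, map_mul, ev_X, proj_zero_mul_gen, map_zero]
    · rw [hc_succ_mul_X, map_mul, map_mul, ev_X, proj_succ_mul_gen, hp]

theorem JJ_homog : ∀ p ∈ JJ, ∀ i : ℕ, homogeneousComponent i p ∈ JJ := by
  intro p hp i
  have hp' : ev p = 0 := hp
  show ev _ = 0
  rw [ev_hc, hp', proj_zero]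

noncomputable def phi : RR →+* Mod12 := RingHom.kerLift ev

theorem phi_mk (p : SS) : phi (Ideal.Quotient.mk JJ p) = ev p := RingHom.kerLift_mk ev p

theorem phi_inj : Function.Injective phi := RingHom.kerLift_injective ev

/-- the class of a variable -/
noncomputable def vv (i : Fin 4) : RR := Ideal.Quotient.mk JJ (X i)

theorem phi_vv (i : Fin 4) : phi (vv i) = gen i := by rw [vv, phi_mk, ev_X]

theorem phi_surj : Function.Surjective phi := by
  intro m
  refine ⟨Ideal.Quotient.mk JJ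
    (C m.e + C m.w * X 0 + C m.x * X 1 + C m.y * X 2 + C m.p * (X 1 * X 0) + C m.q * (X 2 * X 0)
      + X 3 * (C m.ce + C m.cw * X 0 + C m.cx * X 1 + C m.cy * X 2 + C m.cp * (X 1 * X 0)
        + C m.cq * (X 2 * X 0))), ?_⟩
  rw [phi_mk]
  simp only [map_add, map_mul, ev_C, ev_X]
  ext <;> simp [sc_apply, gen]

/-- homogeneous elements of degree `d` -/
def Hom (d : ℕ) (r : RR) : Prop :=
  ∃ p : SS, p.IsHomogeneous d ∧ Ideal.Quotient.mk JJ p = r

theorem Hom.proj_eq {d : ℕ} {r : RR} (h : Hom d r) : proj d (phi r) = phi r := by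
  obtain ⟨p, hp, rfl⟩ := h
  rw [phi_mk, ← ev_hc, homogeneousComponent_eq_self hp]

theorem hom_vv (i : Fin 4) : Hom 1 (vv i) := ⟨X i, isHomogeneous_X _ i, rfl⟩

/-- the linear form `a = c + w - x` -/
noncomputable def aa : RR := vv 3 + vv 0 - vv 1

theorem hom_aa : Hom 1 aa :=
  ⟨X 3 + X 0 - X 1, ((isHomogeneous_X _ 3).add (isHomogeneous_X _ 0)).sub (isHomogeneous_X _ 1),
    by simp [aa, vv]⟩

theorem phi_aa : phi aa = ⟨0,1,-1,0,0,0,1,0,0,0,0,0⟩ := by
  rw [aa, sub_eq_add_neg, map_add, map_add, map_neg, phi_vv, phi_vv, phi_vv]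
  ext <;> simp [gen]

noncomputable def Ia : Ideal RR := Ideal.span {aa}
noncomputable def I1 : Ideal RR := Ideal.span {vv 3}
noncomputable def I2 : Ideal RR := I1 ⊔ Ideal.span {vv 0}
noncomputable def I3 : Ideal RR := I2 ⊔ Ideal.span {vv 1}
noncomputable def I4 : Ideal RR := I3 ⊔ Ideal.span {vv 2}

theorem mem_sup_span (I : Ideal RR) (v r : RR) :
    r ∈ I ⊔ Ideal.span {v} ↔ ∃ m : Mod12, ∃ s ∈ I, phi r = phi s + m * phi v := by
  constructor
  · intro h
    obtain ⟨s, hs, t, ht, rfl⟩ := Submodule.mem_sup.mp h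
    obtain ⟨u, rfl⟩ := Ideal.mem_span_singleton'.mp ht
    exact ⟨phi u, s, hs, by simp⟩
  · rintro ⟨m, s, hs, h⟩
    obtain ⟨u, rfl⟩ := phi_surj m
    have : r = s + u * v := phi_inj (by simpa using h)
    rw [this]
    exact Submodule.add_mem_sup hs (Ideal.mem_span_singleton'.mpr ⟨u, rfl⟩)

theorem mem_span_one (v r : RR) :
    r ∈ Ideal.span {v} ↔ ∃ m : Mod12, phi r = m * phi v := by
  constructor
  · intro h
    obtain ⟨u, rfl⟩ := Ideal.mem_span_singleton'.mp h
    exact ⟨phi u, by simp⟩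
  · rintro ⟨m, h⟩
    obtain ⟨u, rfl⟩ := phi_surj m
    have : r = u * v := phi_inj (by simpa using h)
    rw [this]
    exact Ideal.mem_span_singleton'.mpr ⟨u, rfl⟩

theorem mem_I1 (r : RR) : r ∈ I1 ↔
    (phi r).e = 0 ∧ (phi r).w = 0 ∧ (phi r).x = 0 ∧ (phi r).y = 0 ∧ (phi r).p = 0 ∧
      (phi r).q = 0 := by
  rw [I1, mem_span_one, phi_vv]
  constructor
  · rintro ⟨m, h⟩
    rw [h]
    simp [gen]
  · rintro ⟨h1, h2, h3, h4, h5, h6⟩
    refine ⟨⟨(phi r).ce, (phi r).cw, (phi r).cx, (phi r).cy, (phi r).cp, (phi r).cq,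
      0,0,0,0,0,0⟩, ?_⟩
    ext <;> simp [gen, *]

theorem mem_Ia (r : RR) : r ∈ Ia ↔
    (phi r).e = 0 ∧ (phi r).w = (phi r).ce ∧ (phi r).x = -(phi r).ce ∧ (phi r).y = 0 ∧
      (phi r).p = -(phi r).cw ∧ (phi r).q = (phi r).cy := by
  rw [Ia, mem_span_one, phi_aa]
  constructor
  · rintro ⟨m, h⟩
    rw [h]
    simp
  · rintro ⟨h1, h2, h3, h4, h5, h6⟩
    refine ⟨⟨(phi r).ce, (phi r).cw, (phi r).cx, (phi r).cy, (phi r).cp, (phi r).cq,
      0,0,0,0,0,0⟩, ?_⟩
    ext <;> simp [*]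

theorem mem_I2 (r : RR) : r ∈ I2 ↔ (phi r).e = 0 ∧ (phi r).x = 0 ∧ (phi r).y = 0 := by
  rw [I2, mem_sup_span, phi_vv]
  constructor
  · rintro ⟨m, s, hs, h⟩
    rw [mem_I1] at hs
    obtain ⟨h1, h2, h3, h4, h5, h6⟩ := hs
    rw [h]
    simp [gen, *]
  · rintro ⟨h1, h2, h3⟩
    obtain ⟨s, hs⟩ := phi_surj ⟨0,0,0,0,0,0,(phi r).ce, (phi r).cw, (phi r).cx, (phi r).cy,
      (phi r).cp, (phi r).cq⟩
    refine ⟨⟨(phi r).w, 0, (phi r).p, (phi r).q, 0,0,0,0,0,0,0,0⟩, s, ?_, ?_⟩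
    · rw [mem_I1, hs]; simp
    · rw [hs]; ext <;> simp [gen, *]

theorem mem_I3 (r : RR) : r ∈ I3 ↔ (phi r).e = 0 ∧ (phi r).y = 0 := by
  rw [I3, mem_sup_span, phi_vv]
  constructor
  · rintro ⟨m, s, hs, h⟩
    rw [mem_I2] at hs
    obtain ⟨h1, h2, h3⟩ := hs
    rw [h]
    simp [gen, *]
  · rintro ⟨h1, h2⟩
    obtain ⟨s, hs⟩ := phi_surj ⟨0,(phi r).w,0,0,(phi r).p,(phi r).q,(phi r).ce, (phi r).cw,
      (phi r).cx, (phi r).cy, (phi r).cp, (phi r).cq⟩
    refine ⟨⟨(phi r).x, 0, 0, 0, 0,0,0,0,0,0,0,0⟩, s, ?_, ?_⟩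
    · rw [mem_I2, hs]; simp
    · rw [hs]; ext <;> simp [gen, *]

theorem mem_I4 (r : RR) : r ∈ I4 ↔ (phi r).e = 0 := by
  rw [I4, mem_sup_span, phi_vv]
  constructor
  · rintro ⟨m, s, hs, h⟩
    rw [mem_I3] at hs
    obtain ⟨h1, h2⟩ := hs
    rw [h]
    simp [gen, *]
  · intro h1
    obtain ⟨s, hs⟩ := phi_surj ⟨0,(phi r).w,(phi r).x,0,(phi r).p,(phi r).q,(phi r).ce, (phi r).cw,
      (phi r).cx, (phi r).cy, (phi r).cp, (phi r).cq⟩
    refine ⟨⟨(phi r).y, 0, 0, 0, 0,0,0,0,0,0,0,0⟩, s, ?_, ?_⟩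
    · rw [mem_I3, hs]; simp
    · rw [hs]; ext <;> simp [gen, *]

theorem mem_bot' (r : RR) : r ∈ (⊥ : Ideal RR) ↔ phi r = 0 := by
  rw [Ideal.mem_bot]
  constructor
  · rintro rfl; simp
  · intro h; exact phi_inj (by simpa using h)

/-- being generated by linear forms -/
def LinGen (I : Ideal RR) : Prop := I = Ideal.span {y : RR | y ∈ I ∧ Hom 1 y}

theorem linGen_bot : LinGen ⊥ := by
  apply le_antisymm bot_le
  rw [Ideal.span_le]
  intro y hy
  exact hy.1

theorem linGen_sup {I : Ideal RR} (hI : LinGen I) {v : RR} (hv : Hom 1 v) :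
    LinGen (I ⊔ Ideal.span {v}) := by
  apply le_antisymm
  · apply sup_le
    · rw [hI]
      apply Ideal.span_mono
      intro y hy
      refine ⟨?_, hy.2⟩
      rw [← hI]
      exact Ideal.mem_sup_left hy.1
    · apply Ideal.span_mono
      intro y hy
      rw [Set.mem_singleton_iff] at hy
      subst hy
      exact ⟨Ideal.mem_sup_right (Ideal.subset_span rfl), hv⟩
  · rw [Ideal.span_le]
    intro y hy
    exact hy.1

theorem linGen_span {v : RR} (hv : Hom 1 v) : LinGen (Ideal.span {v}) := by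
  have := linGen_sup linGen_bot hv
  rwa [bot_sup_eq] at this

theorem linGen_Ia : LinGen Ia := linGen_span hom_aa
theorem linGen_I1 : LinGen I1 := linGen_span (hom_vv 3)
theorem linGen_I2 : LinGen I2 := linGen_sup linGen_I1 (hom_vv 0)
theorem linGen_I3 : LinGen I3 := linGen_sup linGen_I2 (hom_vv 1)
theorem linGen_I4 : LinGen I4 := linGen_sup linGen_I3 (hom_vv 2)

theorem max_eq : Ideal.span {y : RR | Hom 1 y} = I4 := by
  apply le_antisymm
  · rw [Ideal.span_le]
    intro y hy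
    have h : proj 1 (phi y) = phi y := Hom.proj_eq hy
    show y ∈ I4
    rw [mem_I4, ← h]
    simp [proj]
  · rw [linGen_I4]
    apply Ideal.span_mono
    intro y hy
    exact hy.2

theorem colon_iff (I : Ideal RR) (v r : RR) :
    (∀ y ∈ I ⊔ Ideal.span {v}, r * y ∈ I) ↔ r * v ∈ I := by
  constructor
  · intro h
    exact h v (Ideal.mem_sup_right (Ideal.subset_span rfl))
  · intro h y hy
    obtain ⟨s, hs, t, ht, rfl⟩ := Submodule.mem_sup.mp hy
    obtain ⟨u, rfl⟩ := Ideal.mem_span_singleton'.mp ht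
    have : r * (s + u * v) = r * s + u * (r * v) := by ring
    rw [this]
    exact I.add_mem (I.mul_mem_left _ hs) (I.mul_mem_left _ h)

theorem colon_a (r : RR) : r ∈ I1 ↔ r * aa ∈ (⊥ : Ideal RR) := by
  rw [mem_I1, mem_bot', map_mul, phi_aa]
  constructor
  · rintro ⟨h1, h2, h3, h4, h5, h6⟩
    ext <;> simp [*]
  · intro h
    have e1 := congrArg Mod12.ce h
    have e2 := congrArg Mod12.cw h
    have e3 := congrArg Mod12.cx h
    have e4 := congrArg Mod12.cy h
    have e5 := congrArg Mod12.cp h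
    have e6 := congrArg Mod12.cq h
    simp at e1 e2 e3 e4 e5 e6
    refine ⟨e1, ?_, ?_, ?_, ?_, ?_⟩ <;> linarith

theorem colon_c (r : RR) : r ∈ Ia ↔ r * vv 3 ∈ (⊥ : Ideal RR) := by
  rw [mem_Ia, mem_bot', map_mul, phi_vv]
  constructor
  · rintro ⟨h1, h2, h3, h4, h5, h6⟩
    ext <;> simp [gen, *]
  · intro h
    have e1 := congrArg Mod12.ce h
    have e2 := congrArg Mod12.cw h
    have e3 := congrArg Mod12.cx h
    have e4 := congrArg Mod12.cy h
    have e5 := congrArg Mod12.cp h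
    have e6 := congrArg Mod12.cq h
    simp [gen] at e1 e2 e3 e4 e5 e6
    refine ⟨e1, ?_, ?_, ?_, ?_, ?_⟩ <;> linarith

theorem colon_w (r : RR) : r ∈ I2 ↔ r * vv 0 ∈ I1 := by
  rw [mem_I2, mem_I1, map_mul, phi_vv]
  simp [gen]

theorem colon_x (r : RR) : r ∈ I4 ↔ r * vv 1 ∈ I2 := by
  rw [mem_I4, mem_I2, map_mul, phi_vv]
  simp [gen]

theorem colon_y (r : RR) : r ∈ I4 ↔ r * vv 2 ∈ I3 := by
  rw [mem_I4, mem_I3, map_mul, phi_vv]
  simp [gen]

/-- the Koszul filtration -/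
def FF : Set (Ideal RR) := {⊥, Ia, I1, I2, I3, I4}

theorem FF_lin : ∀ I ∈ FF, LinGen I := by
  intro I hI
  simp only [FF, Set.mem_insert_iff, Set.mem_singleton_iff] at hI
  rcases hI with rfl | rfl | rfl | rfl | rfl | rfl
  exacts [linGen_bot, linGen_Ia, linGen_I1, linGen_I2, linGen_I3, linGen_I4]

theorem FF_step : ∀ I ∈ FF, I ≠ ⊥ → ∃ I' ∈ FF, I' ≤ I ∧
    (∃ x : RR, Hom 1 x ∧ I = I' ⊔ Ideal.span {x}) ∧
      ∃ C ∈ FF, ∀ r : RR, r ∈ C ↔ ∀ y ∈ I, r * y ∈ I' := by
  intro I hI hne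
  simp only [FF, Set.mem_insert_iff, Set.mem_singleton_iff] at hI
  rcases hI with rfl | rfl | rfl | rfl | rfl | rfl
  · exact absurd rfl hne
  · refine ⟨⊥, by simp [FF], bot_le, ⟨aa, hom_aa, by simp [Ia]⟩, I1, by simp [FF], fun r => ?_⟩
    rw [colon_a, ← colon_iff, bot_sup_eq, Ia]
  · refine ⟨⊥, by simp [FF], bot_le, ⟨vv 3, hom_vv 3, by simp [I1]⟩, Ia, by simp [FF],
      fun r => ?_⟩
    rw [colon_c, ← colon_iff, bot_sup_eq, I1]
  · refine ⟨I1, by simp [FF], le_sup_left, ⟨vv 0, hom_vv 0, rfl⟩, I2, by simp [FF], fun r => ?_⟩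
    rw [colon_w, ← colon_iff, I2]
  · refine ⟨I2, by simp [FF], le_sup_left, ⟨vv 1, hom_vv 1, rfl⟩, I4, by simp [FF], fun r => ?_⟩
    rw [colon_x, ← colon_iff, I3]
  · refine ⟨I3, by simp [FF], le_sup_left, ⟨vv 2, hom_vv 2, rfl⟩, I4, by simp [FF], fun r => ?_⟩
    rw [colon_y, ← colon_iff, I4]

theorem prod_eq : (∏ _k : Fin 2, Ia) = Ideal.span {aa * aa} := by
  rw [Fin.prod_univ_two, Ia, Ideal.span_singleton_mul_span_singleton]

theorem phi_aa2 : phi (aa * aa) = ⟨0,0,0,0,-1,0,0,1,-1,0,0,0⟩ := by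
  rw [map_mul, phi_aa]
  ext <;> simp

theorem prod_ne : (∏ _k : Fin 2, Ia) ≠ ⊥ := by
  rw [prod_eq]
  intro h
  have h1 : aa * aa ∈ (⊥ : Ideal RR) := h ▸ Ideal.subset_span rfl
  rw [mem_bot', phi_aa2] at h1
  have := congrArg Mod12.p h1
  simp at this

/-- the coefficient of `yw`, as an additive map -/
def tau : Mod12 →+ ℚ where
  toFun m := m.q
  map_zero' := rfl
  map_add' := fun _ _ => rfl

theorem no_linear_presentation {b0 b1 : ℕ} (g : Fin b0 → RR) (A : Matrix (Fin b0) (Fin b1) RR)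
    (hg : ∀ j, Hom 2 (g j)) (hA : ∀ a c, Hom 1 (A a c))
    (hspan : Ideal.span (Set.range g) = Ideal.span {aa * aa})
    (hex : ∀ v : Fin b0 → RR, ∑ j, v j * g j = 0 ↔ ∃ w, A.mulVec w = v) : False := by
  classical
  have h1 : ∀ j, ∃ t : ℚ, phi (g j) = sc t * phi (aa * aa) := by
    intro j
    have hj : g j ∈ Ideal.span {aa * aa} := hspan ▸ Ideal.subset_span ⟨j, rfl⟩
    obtain ⟨m, hm⟩ := (mem_span_one _ _).mp hj
    refine ⟨m.e, ?_⟩
    rw [← (hg j).proj_eq, hm, phi_aa2]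
    ext <;> simp [proj, sc_apply]
  choose t ht using h1
  have h2 : aa * aa ∈ Ideal.span (Set.range g) := hspan ▸ Ideal.subset_span rfl
  obtain ⟨s, hs⟩ := Ideal.mem_span_range_iff_exists_fun.mp h2
  have h3 : ∑ j, (vv 2 * vv 0 * s j) * g j = 0 := by
    have : ∑ j, (vv 2 * vv 0 * s j) * g j = vv 2 * vv 0 * (aa * aa) := by
      rw [← hs, Finset.mul_sum]
      exact Finset.sum_congr rfl fun j _ => by ring
    rw [this]
    apply phi_inj
    rw [map_mul, map_mul, phi_vv, phi_vv, phi_aa2, map_zero]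
    ext <;> simp [gen]
  obtain ⟨w, hw⟩ := (hex _).mp h3
  -- columns are relations
  have h4 : ∀ c, ∑ j, A j c * g j = 0 := by
    intro c
    apply (hex (fun j => A j c)).mpr
    refine ⟨Pi.single c 1, ?_⟩
    funext j
    simp
  have h5 : ∀ c, ∀ m : Mod12, tau ((∑ j, sc (t j) * phi (A j c)) * m) = 0 := by
    intro c m
    set ε : Mod12 := ∑ j, sc (t j) * phi (A j c) with hε
    have hrel : ε * phi (aa * aa) = 0 := by
      have := congrArg phi (h4 c)
      rw [map_sum, map_zero] at this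
      rw [← this, hε, Finset.sum_mul]
      refine Finset.sum_congr rfl fun j _ => ?_
      rw [map_mul phi (A j c), ht j]; ring
    have hdeg : ε.e = 0 ∧ ε.q = 0 := by
      rw [hε]
      refine Finset.sum_induction _ (fun m : Mod12 => m.e = 0 ∧ m.q = 0) ?_ ⟨rfl, rfl⟩ ?_
      · intro a b ha hb
        simp [ha.1, ha.2, hb.1, hb.2]
      · intro j _
        rw [← (hA j c).proj_eq]
        simp [proj, sc_apply]
    rw [phi_aa2] at hrel
    have e5 := congrArg Mod12.cp hrel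
    have e6 := congrArg Mod12.cq hrel
    simp [hdeg.1] at e5 e6
    have hw0 : ε.w = 0 := by linarith
    show (ε * m).q = 0
    simp [hdeg.1, hdeg.2, hw0, e6]
  have h6 : (∑ j, sc (t j) * phi (s j)).e = 1 := by
    set σ : Mod12 := ∑ j, sc (t j) * phi (s j) with hσ
    have hrel : σ * phi (aa * aa) = phi (aa * aa) := by
      have := congrArg phi hs
      rw [map_sum] at this
      conv_rhs => rw [← this]
      rw [hσ, Finset.sum_mul]
      refine Finset.sum_congr rfl fun j _ => ?_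
      rw [map_mul phi (s j), ht j]; ring
    rw [phi_aa2] at hrel
    have e2 := congrArg Mod12.cw hrel
    simpa using e2
  have h7 : ∑ j, sc (t j) * phi (vv 2 * vv 0 * s j)
      = ∑ c, (∑ j, sc (t j) * phi (A j c)) * phi (w c) := by
    have : ∀ j, vv 2 * vv 0 * s j = ∑ c, A j c * w c := by
      intro j
      have := congrFun hw j
      rw [← this]
      rfl
    simp_rw [this, map_sum, map_mul, Finset.mul_sum, Finset.sum_mul]
    rw [Finset.sum_comm]
    exact Finset.sum_congr rfl fun c _ => Finset.sum_congr rfl fun j _ => by ring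
  have h8 : tau (∑ j, sc (t j) * phi (vv 2 * vv 0 * s j)) = 0 := by
    rw [h7, map_sum]
    exact Finset.sum_eq_zero fun c _ => h5 c _
  have h9 : ∑ j, sc (t j) * phi (vv 2 * vv 0 * s j)
      = gen 2 * gen 0 * ∑ j, sc (t j) * phi (s j) := by
    rw [Finset.mul_sum]
    refine Finset.sum_congr rfl fun j _ => ?_
    rw [map_mul, map_mul, phi_vv, phi_vv]; ring
  rw [h9] at h8
  have h10 : (gen 2 * gen 0 * ∑ j, sc (t j) * phi (s j)).q = 0 := h8
  simp [gen, h6] at h10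

end Pool.Agent.MP_36bee5_al
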