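import Pool.Agent.MP_36bee5_al.ScrGen

set_option autoImplicit false

/-!
A class of families closed under taking linear syzygies.
-/

namespace Pool.Agent.MP_36bee5_al.Scr

open Polynomial

variable {K : Type} [Field K] {c : ℕ}

theorem Tt_le {k J : ℕ} {P : Sp K}
    (h : ∀ i ≤ k, ∀ j ≤ J + i * c, (C (X ^ j) * X ^ i : K[X][X]) ∈ P) : Tt K c k J ≤ P := by
  intro f hf
  rw [f.as_sum_range_C_mul_X_pow' (Nat.lt_succ_of_le hf.1)]
  refine P.sum_mem fun i hi => ?_
  rw [(f.coeff i).as_sum_range_C_mul_X_pow' (Nat.lt_succ_of_le (hf.2 i)), map_sum, Finset.sum_mul]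
  refine P.sum_mem fun j hj => ?_
  rw [map_mul, mul_assoc, ← ksmul]
  exact P.smul_mem _ (h i (Nat.lt_succ_iff.1 (Finset.mem_range.1 hi)) j
    (Nat.lt_succ_iff.1 (Finset.mem_range.1 hj)))

theorem Tt_fg (k J : ℕ) : (Tt K c k J).FG := by
  have h : Tt K c k J ≤ Submodule.span K (Set.range
      fun p : Fin (k + 1) × Fin (J + k * c + 1) => (C (X ^ (p.2 : ℕ)) * X ^ (p.1 : ℕ) : K[X][X])) :=
    Tt_le fun i hi j hj => Submodule.subset_span ⟨(⟨i, by omega⟩, ⟨j, by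
      have := Nat.mul_le_mul_right c hi; omega⟩), rfl⟩
  exact Submodule.FG.of_le (Submodule.fg_span (Set.finite_range _)) h

theorem exists_basis {V : Type} [AddCommGroup V] [Module K V] (H : Submodule K V) (hH : H.FG) :
    ∃ (m : ℕ) (b : Fin m → V), (∀ i, b i ∈ H) ∧ (∀ l : Fin m → K, ∑ i, l i • b i = 0 → l = 0) ∧
      ∀ v ∈ H, ∃ l : Fin m → K, ∑ i, l i • b i = v := by
  have : Module.Finite K H := Module.Finite.iff_fg.2 hH
  let b := Module.finBasis K H
  refine ⟨_, fun i => b i, fun i => (b i).2, fun l hl => ?_, fun v hv => ⟨b.repr ⟨v, hv⟩, ?_⟩⟩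
  · funext i
    exact Fintype.linearIndependent_iff.1 b.linearIndependent l (Subtype.ext (by simpa using hl)) i
  · have := congrArg Subtype.val (b.sum_repr ⟨v, hv⟩)
    rw [Submodule.coe_sum] at this
    exact this

theorem mem_Tt_of_X_mul {k J : ℕ} {f : K[X][X]} (hf : X * f ∈ Tt K c (k + 1) J) :
    f ∈ Tt K c k (J + c) := by
  refine ⟨?_, fun i => ?_⟩
  · by_cases e : f = 0
    · rw [e]; simp
    · have := hf.1
      rw [natDegree_X_mul e] at this; omega
  · have := hf.2 (i + 1)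
    rw [coeff_X_mul, add_mul] at this; omega

section Fam

variable {ι M : Type} [Fintype ι] [AddCommGroup M] [Module K[X][X] M]

omit [Fintype ι] in
theorem split_Lv {k J : ℕ} {z : ι → K[X][X]} (hz : z ∈ Lv K c (k + 1) ι J) :
    ∃ z0 ∈ Lv K c 0 ι J, ∃ z1 ∈ Lv K c k ι (J + c), z = z0 + (X : K[X][X]) • z1 := by
  have e : ∀ i, X * (z i).divX = z i - C ((z i).coeff 0) := fun i => by
    rw [eq_sub_iff_add_eq, X_mul_divX_add]
  have h0 : ∀ i, C ((z i).coeff 0) ∈ Tt K c 0 J := fun i => C_mem_Tt (by simpa using (hz i).2 0)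
  refine ⟨fun i => C ((z i).coeff 0), h0, fun i => (z i).divX, fun i => mem_Tt_of_X_mul ?_, ?_⟩
  · rw [e]; exact Submodule.sub_mem _ (hz i) (Tt_mono (by omega) le_rfl (h0 i))
  · funext i
    simp only [Pi.add_apply, Pi.smul_apply, smul_eq_mul, e, add_sub_cancel]

omit [Fintype ι] in
theorem X_smul_mem_Lv {k J : ℕ} {z : ι → K[X][X]} (hz : z ∈ Lv K c k ι (J + c)) :
    (X : K[X][X]) • z ∈ Lv K c (k + 1) ι J := fun i => X_mul_mem_Tt (hz i)

theorem lc_mem_Lv {κ : Type} {k k' J J' : ℕ} {b : ι → κ → K[X][X]}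
    (hb : ∀ i, b i ∈ Lv K c k' κ J') {t : ι → K[X][X]} (ht : t ∈ Lv K c k ι J) :
    lc b t ∈ Lv K c (k + k') κ (J + J') := by
  rw [lc_apply]
  exact AddSubgroup.sum_mem _ fun i _ => smul_mem_Lv (ht i) (hb i)

theorem span_of_gen {h : ι → M} {k r : ℕ} (hg : Gen (K := K) c h k r) {z : ι → K[X][X]}
    (hz : z ∈ Zk h k) : z ∈ Submodule.span K[X] {s | s ∈ Zk h k ∧ s ∈ Lv K c k ι r} := by
  obtain ⟨J, hJ⟩ := exists_Lv (c := c) hz.1
  exact Cl_le_span (re (isFil_Lv k ι) (Zk h k) r hg J z hz (Lv_mono le_rfl (by omega) hJ))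

theorem Sg_mono {h : ι → M} {k k' r r' : ℕ} (hk : k ≤ k') (hr : r ≤ r') {z : ι → K[X][X]}
    (hz : z ∈ Sg c h k r) : z ∈ Sg c h k' r' :=
  Sat_map (LinearMap.id (R := K[X])) (m := z)
    (fun _ hs => mem_Sg (Lv_mono hk hr hs.2) hs.1.2) hz

theorem Sg_X {h : ι → M} {k r r' : ℕ} (hr : r ≤ r' + c) {z : ι → K[X][X]}
    (hz : z ∈ Sg c h k r) : (X : K[X][X]) • z ∈ Sg c h (k + 1) r' := by
  let f : (ι → K[X][X]) →ₗ[K[X]] (ι → K[X][X]) :=
    { toFun := fun s => (X : K[X][X]) • s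
      map_add' := fun u v => smul_add _ _ _
      map_smul' := fun p u => by rw [RingHom.id_apply, dsmul, dsmul, smul_comm] }
  have key : ∀ s ∈ {s | s ∈ Zk h k ∧ s ∈ Lv K c k ι r}, f s ∈ Sg c h (k + 1) r' := by
    intro s hs
    show (X : K[X][X]) • s ∈ _
    exact mem_Sg (X_smul_mem_Lv (Lv_mono le_rfl hr hs.2)) (by rw [map_smul, hs.1.2, smul_zero])
  exact Sat_map f key hz

/-- Combinations of elements of `S` with coefficients in `Tt k J`. -/
noncomputable def Cq (c : ℕ) {ι : Type} (S : Set (ι → K[X][X])) (k J : ℕ) :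
    AddSubgroup (ι → K[X][X]) :=
  AddSubgroup.closure {m | ∃ u ∈ Tt K c k J, ∃ s ∈ S, m = u • s}

omit [Fintype ι] in
theorem Cq_smul {S : Set (ι → K[X][X])} {k k' J J' : ℕ} (u : K[X][X])
    (hu : ∀ f ∈ Tt K c k J, u * f ∈ Tt K c k' J') {z : ι → K[X][X]} (hz : z ∈ Cq c S k J) :
    u • z ∈ Cq c S k' J' := by
  induction hz using AddSubgroup.closure_induction with
  | mem m hm =>
    obtain ⟨f, hf, s, hs, rfl⟩ := hm
    exact AddSubgroup.subset_closure ⟨u * f, hu f hf, s, hs, smul_smul _ _ _⟩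
  | zero => rw [smul_zero]; exact AddSubgroup.zero_mem _
  | add a b _ _ ha hb => rw [smul_add]; exact AddSubgroup.add_mem _ ha hb
  | neg a _ ha => rw [smul_neg]; exact AddSubgroup.neg_mem _ ha

theorem kvsmul {κ : Type} (r : K) (v : κ → K[X][X]) : r • v = (C (C r) : K[X][X]) • v := by
  funext i
  exact ksmul r (v i)

theorem Cq_coords {κ : Type} {S : Set (κ → K[X][X])} {k J : ℕ} (b : ι → κ → K[X][X])
    (hb : ∀ s ∈ S, ∃ l : ι → K, ∑ i, l i • b i = s) {z : κ → K[X][X]} (hz : z ∈ Cq c S k J) :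
    ∃ t ∈ Lv K c k ι J, lc b t = z := by
  induction hz using AddSubgroup.closure_induction with
  | mem m hm =>
    obtain ⟨f, hf, s, hs, rfl⟩ := hm
    obtain ⟨l, rfl⟩ := hb s hs
    refine ⟨fun i => C (C (l i)) * f, fun i => C_mul_mem_Tt hf (by simp), ?_⟩
    rw [lc_apply, Finset.smul_sum]
    exact Finset.sum_congr rfl fun i _ => by rw [kvsmul, smul_smul, mul_comm]
  | zero => exact ⟨0, AddSubgroup.zero_mem _, map_zero _⟩
  | add a b _ _ ha hb =>
    obtain ⟨t, ht, rfl⟩ := ha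
    obtain ⟨t', ht', rfl⟩ := hb
    exact ⟨t + t', AddSubgroup.add_mem _ ht ht', map_add _ _ _⟩
  | neg a _ ha =>
    obtain ⟨t, ht, rfl⟩ := ha
    exact ⟨-t, AddSubgroup.neg_mem _ ht, map_neg _ _⟩

/-- The class of families closed under linear syzygies. -/
structure Good (K : Type) [Field K] (a c : ℕ) {ι M : Type} [Fintype ι] [AddCommGroup M]
    [Module K[X][X] M] (h : ι → M) : Prop where
  p0 : ∀ z ∈ Lv K c 0 ι 0, lc h z = 0 → z = 0
  p1 : Gen (K := K) c h 0 (a + a + c)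
  ps : ∀ k J : ℕ, (k = 0 ∨ a ≤ J) → ∀ z ∈ Lv K c (k + 1) ι (J + a), lc h z = 0 →
    z ∈ Cq c {s | s ∈ Zk h 1 ∧ s ∈ Lv K c 1 ι a} k J

theorem split_syz {h : ι → M} {k J : ℕ}
    (hs : ∀ z1 ∈ Lv K c (k + 1) ι (J + c), ∀ z0 ∈ Lv K c (k + 1) ι J,
      (X : K[X][X]) • lc h z1 = lc h z0 → ∃ t ∈ Lv K c k ι (J + c), lc h t = lc h z1)
    {z : ι → K[X][X]} (hz : z ∈ Lv K c (k + 2) ι J) (h0 : lc h z = 0) :
    ∃ u ∈ Lv K c (k + 1) ι J, ∃ u' ∈ Lv K c (k + 1) ι (J + c), lc h u = 0 ∧ lc h u' = 0 ∧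
      z = u + (X : K[X][X]) • u' := by
  obtain ⟨z0, hz0, z1, hz1, rfl⟩ := split_Lv hz
  rw [map_add, map_smul] at h0
  obtain ⟨t, ht, e⟩ := hs z1 hz1 (-z0) (Lv_mono (by omega) le_rfl (AddSubgroup.neg_mem _ hz0))
    (by rw [map_neg]; exact eq_neg_of_add_eq_zero_right h0)
  refine ⟨z0 + (X : K[X][X]) • t, AddSubgroup.add_mem _ (Lv_mono (by omega) le_rfl hz0)
    (X_smul_mem_Lv ht), z1 - t, AddSubgroup.sub_mem _ hz1 (Lv_mono (by omega) le_rfl ht), ?_, ?_, ?_⟩
  · rw [map_add, map_smul, e, h0]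
  · rw [map_sub, e, sub_self]
  · rw [smul_sub]; abel

theorem good_of {a : ℕ} {h : ι → M} (p0 : ∀ z ∈ Lv K c 0 ι 0, lc h z = 0 → z = 0)
    (p1 : Gen (K := K) c h 0 (a + a + c)) (p2 : Gen (K := K) c h 1 a)
    (p3 : ∀ k J : ℕ, a + a ≤ J → ∀ z1 ∈ Lv K c (k + 1) ι (J + c), ∀ z0 ∈ Lv K c (k + 1) ι J,
      (X : K[X][X]) • lc h z1 = lc h z0 → ∃ t ∈ Lv K c k ι (J + c), lc h t = lc h z1) :
    Good K a c h := by
  refine ⟨p0, p1, fun k => ?_⟩
  induction k with
  | zero =>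
    intro J _ z hz h0
    exact Cl_le (H := Cq c {s | s ∈ Zk h 1 ∧ s ∈ Lv K c 1 ι a} 0 J)
      (fun p s hs hp => AddSubgroup.subset_closure ⟨C p, C_mem_Tt hp, s, hs, dsmul p s⟩)
      (re (isFil_Lv 1 ι) (Zk h 1) a p2 J z ⟨fun i => (hz i).1, h0⟩ (by rwa [Nat.add_comm a J]))
  | succ k ih =>
    intro J hJ z hz h0
    have hJ' : a ≤ J := hJ.resolve_left (Nat.succ_ne_zero k)
    obtain ⟨u, hu, u', hu', h1, h2, rfl⟩ := split_syz (p3 k (J + a) (by omega)) hz h0
    refine AddSubgroup.add_mem _ ?_ (Cq_smul X (fun f hf => X_mul_mem_Tt hf)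
      (ih (J + c) (Or.inr (by omega)) u' (by rwa [Nat.add_right_comm]) h2))
    have := Cq_smul 1 (k' := k + 1) (J' := J) (fun f hf => by
      rw [one_mul]; exact Tt_mono (by omega) le_rfl hf) (ih J (Or.inr hJ') u hu h1)
    rwa [one_smul] at this

omit [Fintype ι] in
theorem top_Lv {J : ℕ} {z : ι → K[X][X]} (hz : z ∈ Lv K c 0 ι (J + 1)) :
    ∃ l : ι → K, z - (X : K[X]) ^ (J + 1) • (fun i => (C (C (l i)) : K[X][X])) ∈ Lv K c 0 ι J := by
  refine ⟨fun i => ((z i).coeff 0).coeff (J + 1), fun i => ?_⟩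
  have e := eq_C_of_natDegree_le_zero (hz i).1
  have d := (hz i).2 0
  rw [dsmul, Pi.sub_apply, Pi.smul_apply, smul_eq_mul, e, ← map_mul, ← map_sub]
  refine C_mem_Tt (natDegree_le_iff_coeff_eq_zero.2 fun j hj => ?_)
  rw [coeff_sub, mul_comm, coeff_C_mul_X_pow]
  split_ifs with e'
  · rw [e', sub_self]
  · rw [coeff_eq_zero_of_natDegree_lt (by omega), sub_zero]

theorem lc_const {κ : Type} (b : ι → κ → K[X][X]) (l : ι → K) :
    lc b (fun i => (C (C (l i)) : K[X][X])) = ∑ i, l i • b i := by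
  rw [lc_apply]
  exact Finset.sum_congr rfl fun i _ => (kvsmul _ _).symm

omit [Fintype ι] in
theorem const_mem_Lv (l : ι → K) : (fun i => (C (C (l i)) : K[X][X])) ∈ Lv K c 0 ι 0 :=
  fun _ => C_mem_Tt (by simp)

omit [Fintype ι] in
theorem eq_const {z : ι → K[X][X]} (hz : z ∈ Lv K c 0 ι 0) :
    ∃ l : ι → K, z = fun i => (C (C (l i)) : K[X][X]) := by
  refine ⟨fun i => ((z i).coeff 0).coeff 0, funext fun i => ?_⟩
  rw [← eq_C_of_natDegree_le_zero (by simpa using (hz i).2 0),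
    ← eq_C_of_natDegree_le_zero (hz i).1]

theorem Good.next {a : ℕ} (ha : 1 ≤ a) {h : ι → M} (hg : Good K a c h) :
    ∃ (m : ℕ) (b : Fin m → ι → K[X][X]), (∀ i, b i ∈ Lv K c 1 ι a ∧ lc h (b i) = 0) ∧
      (∀ k, ∀ z ∈ Lv K c (k + 1) ι (k * a + a), lc h z = 0 →
        ∃ t ∈ Lv K c k (Fin m) (k * a), lc b t = z) ∧ Good K a c b := by
  let H : Submodule K (ι → K[X][X]) :=
    { carrier := {s | s ∈ Zk h 1 ∧ s ∈ Lv K c 1 ι a}
      add_mem' := fun h1 h2 => ⟨Submodule.add_mem _ h1.1 h2.1, AddSubgroup.add_mem _ h1.2 h2.2⟩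
      zero_mem' := ⟨Submodule.zero_mem _, AddSubgroup.zero_mem _⟩
      smul_mem' := fun r s hs => by
        rw [kvsmul, ← dsmul]
        exact ⟨Submodule.smul_mem _ _ hs.1, (isFil_Lv 1 ι).smul _ _ _ _ hs.2 (by simp)⟩ }
  have hfg : H.FG := Submodule.FG.of_le
    (Submodule.fg_pi (p := fun _ : ι => Tt K c 1 a) fun _ => Tt_fg 1 a) fun s hs i _ => hs.2 i
  obtain ⟨m, b, hb1, hb2, hb3⟩ := exists_basis H hfg
  have hbL : ∀ i, b i ∈ Lv K c 1 ι a := fun i => (hb1 i).2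
  have hlc : ∀ t : Fin m → K[X][X], lc h (lc b t) = 0 := fun t => by
    rw [lc_apply b, map_sum]
    exact Finset.sum_eq_zero fun i _ => by rw [map_smul, (hb1 i).1.2, smul_zero]
  have ps : ∀ k J : ℕ, (k = 0 ∨ a ≤ J) → ∀ z ∈ Lv K c (k + 1) ι (J + a), lc h z = 0 →
      ∃ t ∈ Lv K c k (Fin m) J, lc b t = z :=
    fun k J hk z hz h0 => Cq_coords b hb3 (hg.ps k J hk z hz h0)
  have q1 : ∀ J, ∀ z ∈ Lv K c 0 (Fin m) J, lc b z = 0 →
      z ∈ Submodule.span K[X] {s | s ∈ Zk b 0 ∧ s ∈ Lv K c 0 (Fin m) 1} := by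
    intro J
    induction J with
    | zero =>
      intro z hz h0
      exact Submodule.subset_span ⟨⟨fun i => (hz i).1, h0⟩, Lv_mono le_rfl (by omega) hz⟩
    | succ J ih =>
      intro z hz h0
      obtain ⟨l, hl⟩ := top_Lv hz
      have h1 : (X : K[X]) ^ J • (X : K[X]) • lc b (fun i => (C (C (l i)) : K[X][X])) ∈
          Lv K c 1 ι (a + J) := by
        have := AddSubgroup.neg_mem _ (lc_mem_Lv hbL hl)
        rwa [map_sub, h0, zero_sub, neg_neg, dsmul, map_smul, ← dsmul, pow_succ, mul_smul,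
          Nat.add_comm J a] at this
      obtain ⟨t, ht, e⟩ := ps 0 0 (Or.inl rfl) _ (by
        rw [Nat.zero_add a]; exact (isFil_Lv 1 ι).reg_pow J h1) (by
        rw [dsmul, map_smul, hlc, smul_zero])
      have hs : (X : K[X]) • (fun i => (C (C (l i)) : K[X][X])) - t ∈ Lv K c 0 (Fin m) 1 :=
        AddSubgroup.sub_mem _ ((isFil_Lv 0 _).smul _ _ _ _ (const_mem_Lv l) (by simp))
          (Lv_mono le_rfl (by omega) ht)
      have hs0 : lc b ((X : K[X]) • (fun i => (C (C (l i)) : K[X][X])) - t) = 0 := by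
        rw [map_sub, e, dsmul, map_smul, ← dsmul, sub_self]
      have h2 := ih (z - (X : K[X]) ^ J • ((X : K[X]) • (fun i => (C (C (l i)) : K[X][X])) - t))
        (by
          rw [smul_sub, smul_smul, ← pow_succ, ← sub_add]
          exact AddSubgroup.add_mem _ hl ((isFil_Lv 0 _).smul _ _ _ _ ht (by simp)))
        (by rw [map_sub, h0, dsmul, map_smul, hs0, smul_zero, sub_zero])
      have := Submodule.add_mem _ h2 (Submodule.smul_mem _ ((X : K[X]) ^ J)
        (Submodule.subset_span ⟨⟨fun i => (hs i).1, hs0⟩, hs⟩))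
      rwa [sub_add_cancel] at this
  have q1' : Gen (K := K) c b 0 1 := fun z hz => by
    obtain ⟨J, hJ⟩ := exists_Lv (c := c) hz.1
    exact mem_Sat_of_mem (q1 J z hJ hz.2)
  refine ⟨m, b, fun i => ⟨hbL i, (hb1 i).1.2⟩, fun k => ps k (k * a) ?_, good_of ?_ ?_ ?_ ?_⟩
  · rcases k with _ | k
    · exact Or.inl rfl
    · right; rw [add_mul]; omega
  · intro z hz h0
    obtain ⟨l, rfl⟩ := eq_const hz
    rw [lc_const] at h0
    rw [hb2 l h0]
    funext i; simp
  · exact fun z hz => Sg_mono le_rfl (by omega) (q1' z hz)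
  · intro z hz
    obtain ⟨J, hJ⟩ := exists_Lv (c := c) hz.1
    obtain ⟨z0, hz0, z1, hz1, rfl⟩ := split_Lv hJ
    have h0 := hz.2
    rw [map_add, map_smul] at h0
    have hg0 : lc b z1 ∈ Zk h 0 := ⟨fun i => (mem_Tt_of_X_mul (k := 0) (J := J + a) (by
      have := AddSubgroup.neg_mem _ (lc_mem_Lv hbL hz0)
      rw [← eq_neg_of_add_eq_zero_right h0] at this
      exact this i)).1, hlc _⟩
    have key : ∀ g ∈ Submodule.span K[X] {s | s ∈ Zk h 0 ∧ s ∈ Lv K c 0 ι (a + a + c)},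
        ∃ e0 e1 : Fin m → K[X][X], (∀ i, (e0 i).natDegree ≤ 0) ∧ (∀ i, (e1 i).natDegree ≤ 0) ∧
          lc b e1 = g ∧ lc b (e0 + (X : K[X][X]) • e1) = 0 ∧
          e0 + (X : K[X][X]) • e1 ∈ Sg c b 1 a := by
      intro g hg'
      induction hg' using Submodule.span_induction with
      | mem s hs =>
        obtain ⟨e1, h1, h2⟩ := ps 0 (a + c) (Or.inl rfl) s
          (Lv_mono (by omega) (by omega) hs.2) hs.1.2
        obtain ⟨e0, h3, h4⟩ := ps 0 a (Or.inl rfl) (-((X : K[X][X]) • s))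
          (AddSubgroup.neg_mem _ (X_smul_mem_Lv hs.2)) (by
            rw [map_neg, map_smul, hs.1.2, smul_zero, neg_zero])
        have h5 : lc b (e0 + (X : K[X][X]) • e1) = 0 := by
          rw [map_add, map_smul, h2, h4, neg_add_cancel]
        exact ⟨e0, e1, fun i => (h3 i).1, fun i => (h1 i).1, h2, h5,
          mem_Sg (AddSubgroup.add_mem _ (Lv_mono (by omega) le_rfl h3) (X_smul_mem_Lv h1)) h5⟩
      | zero => exact ⟨0, 0, by simp, by simp, map_zero _, by simp, by simp⟩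
      | add u v _ _ hu hv =>
        obtain ⟨e0, e1, h1, h2, h3, h4, h5⟩ := hu
        obtain ⟨f0, f1, g1, g2, g3, g4, g5⟩ := hv
        refine ⟨e0 + f0, e1 + f1, fun i => (natDegree_add_le _ _).trans (max_le (h1 i) (g1 i)),
          fun i => (natDegree_add_le _ _).trans (max_le (h2 i) (g2 i)), by
            rw [map_add, h3, g3], ?_, ?_⟩
        · rw [smul_add, add_add_add_comm, map_add, h4, g4, add_zero]
        · rw [smul_add, add_add_add_comm]; exact Submodule.add_mem _ h5 g5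
      | smul p u _ hu =>
        obtain ⟨e0, e1, h1, h2, h3, h4, h5⟩ := hu
        refine ⟨p • e0, p • e1, fun i => (natDegree_smul_le p (e0 i)).trans (h1 i),
          fun i => (natDegree_smul_le p (e1 i)).trans (h2 i), by
            rw [dsmul, map_smul, h3, dsmul], ?_, ?_⟩
        · rw [smul_comm (X : K[X][X]) p, ← smul_add, dsmul, map_smul, h4, smul_zero]
        · rw [smul_comm (X : K[X][X]) p, ← smul_add]; exact Submodule.smul_mem _ _ h5
    obtain ⟨e0, e1, h1, h2, h3, h4, h5⟩ := key _ (span_of_gen hg.p1 hg0)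
    have e : z0 + (X : K[X][X]) • z1 =
        (e0 + (X : K[X][X]) • e1) + ((z0 - e0) + (X : K[X][X]) • (z1 - e1)) := by
      rw [smul_sub]; abel
    rw [map_add, map_smul, h3] at h4
    rw [e]
    refine Submodule.add_mem _ h5 (Submodule.add_mem _ ?_ ?_)
    · exact Sg_mono (by omega) ha
        (q1' _ ⟨fun i => (natDegree_sub_le _ _).trans (max_le (hz0 i).1 (h1 i)), by
          rw [map_sub, sub_eq_zero]; exact add_right_cancel (h0.trans h4.symm)⟩)
    · exact Sg_X (by omega)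
        (q1' _ ⟨fun i => (natDegree_sub_le _ _).trans (max_le (hz1 i).1 (h2 i)), by
          rw [map_sub, h3, sub_self]⟩)
  · intro k J hJ z1 hz1 z0 hz0 e
    refine ps k (J + c) (Or.inr (by omega)) _ (fun i => ?_) (hlc _)
    have := lc_mem_Lv hbL hz0
    rw [← e] at this
    rw [Nat.add_right_comm]
    exact mem_Tt_of_X_mul (this i)

end Fam

/-- The condition on a factor of rank at most one. -/
def RankOk (K : Type) [Field K] (a c : ℕ) {ι : Type} [Fintype ι] (v : ι → K[X][X]) : Prop :=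
  (∀ i i', dt (v i) (v i') = 0) → Gen (K := K) c v 0 a

theorem exists_coeff {ι : Type} {v : ι → K[X][X]} (hv : ∀ i, (v i).natDegree ≤ 1)
    (h : ∀ i i', dt (v i) (v i') = 0) {i1 : ι} (h1 : v i1 ≠ 0) :
    ∃ l : ℕ, (v i1).coeff l ≠ 0 ∧ l ≤ 1 ∧
      ∀ i, C ((v i1).coeff l) * v i = C ((v i).coeff l) * v i1 := by
  have key : ∀ i, (C ((v i).coeff 0) * C ((v i1).coeff 1) : K[X][X]) =
      C ((v i1).coeff 0) * C ((v i).coeff 1) := fun i => by
    rw [← map_mul, ← map_mul, sub_eq_zero.1 (h i i1)]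
  have e := fun i => eq_X_add_C_of_natDegree_le_one (hv i)
  by_cases h0 : (v i1).coeff 0 = 0
  · refine ⟨1, fun h2 => h1 (by rw [e i1, h0, h2]; simp), le_rfl, fun i => ?_⟩
    linear_combination C ((v i1).coeff 1) * e i - C ((v i).coeff 1) * e i1 + key i
  · refine ⟨0, h0, by omega, fun i => ?_⟩
    linear_combination C ((v i1).coeff 0) * e i - C ((v i).coeff 0) * e i1 - X * key i

theorem gen_prod {a : ℕ} {σ : Type} (n : σ → ℕ) (v : (j : σ) → Fin (n j) → K[X][X])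
    (hv : ∀ j i, v j i ∈ Tt K c 1 a) (hr : ∀ j, RankOk K a c (v j)) (s : Finset σ) :
    ∃ (ι : Type) (_ : Fintype ι) (w : ι → K[X][X]),
      (Submodule.span K (Set.range w) : Sp K) = ∏ j ∈ s, (Submodule.span K (Set.range (v j)) : Sp K)
        ∧ Gen (K := K) c w 0 (a + a + c) ∧ Gen (K := K) c w 1 a := by
  classical
  induction s using Finset.induction_on with
  | empty =>
    have : ∀ k r, Gen (K := K) c (fun _ : Unit => (1 : K[X][X])) k r := by
      intro k r z hz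
      have h0 := hz.2
      rw [lc_apply] at h0
      have : z = 0 := by funext i; simpa using h0
      rw [this]; exact Submodule.zero_mem _
    exact ⟨Unit, inferInstance, fun _ => 1, by simp [Submodule.one_eq_span], this _ _, this _ _⟩
  | insert j s hj ih =>
    obtain ⟨ι, _, w, hw, h0, h1⟩ := ih
    refine ⟨Fin (n j) × ι, inferInstance, fm (v j) w, by
      rw [span_fm, hw, Finset.prod_insert hj], ?_⟩
    by_cases hd : ∀ i i', dt (v j i) (v j i') = 0
    · by_cases hz : ∀ i, v j i = 0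
      · exact ⟨step_zero w _ _ hz, step_zero w _ _ hz⟩
      · obtain ⟨i1, hi1⟩ := not_forall.1 hz
        obtain ⟨l, h2, -, h3⟩ := exists_coeff (fun i => (hv j i).1) hd hi1
        exact ⟨step_one (by omega) (hr j hd) hi1 h2 _ h3 h0, step_one le_rfl (hr j hd) hi1 h2 _ h3 h1⟩
    · obtain ⟨i1, hd⟩ := not_forall.1 hd
      obtain ⟨i2, hd⟩ := not_forall.1 hd
      refine ⟨step_beta (hv j) hd h1, step_gamma (hv j) hd h1 fun t t' ht ht' e => ?_⟩
      obtain ⟨J, hJ⟩ := exists_Lv (c := c) ht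
      obtain ⟨J', hJ'⟩ := exists_Lv (c := c) ht'
      obtain ⟨J0, h2⟩ := sat_fin (c := c) (a := a) (k := 0) s
        (fun j => Submodule.span K (Set.range (v j)))
        (fun j _ => Submodule.span_le.2 (by rintro _ ⟨i, rfl⟩; exact hv j i))
        (hw ▸ (mem_PP_iff w).2 ⟨t, hJ, rfl⟩) (hw ▸ (mem_PP_iff w).2 ⟨t', hJ', e.symm⟩)
      obtain ⟨t0, h3, h4⟩ := (mem_PP_iff w).1 (hw ▸ h2)
      exact ⟨t0, fun j => (h3 j).1, h4⟩

theorem good_prod {a : ℕ} {σ : Type} (n : σ → ℕ) (v : (j : σ) → Fin (n j) → K[X][X])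
    (hv : ∀ j i, v j i ∈ Tt K c 1 a) (hr : ∀ j, RankOk K a c (v j)) (s : Finset σ) :
    ∃ (m : ℕ) (w : Fin m → K[X][X]),
      (Submodule.span K (Set.range w) : Sp K) = ∏ j ∈ s, (Submodule.span K (Set.range (v j)) : Sp K)
        ∧ Good K a c w := by
  obtain ⟨ι, _, w0, hw0, h0, h1⟩ := gen_prod n v hv hr s
  obtain ⟨m, w, hb1, hb2, hb3⟩ := exists_basis (Submodule.span K (Set.range w0) : Sp K)
    (Submodule.fg_span (Set.finite_range _))
  have e : (Submodule.span K (Set.range w0) : Sp K) = Submodule.span K (Set.range w) :=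
    le_antisymm (fun f hf => (Submodule.mem_span_range_iff_exists_fun K).2 (hb3 f hf))
      (Submodule.span_le.2 (by rintro _ ⟨i, rfl⟩; exact hb1 i))
  have hw := e.symm.trans hw0
  have hV : ∀ j ∈ s, (Submodule.span K (Set.range (v j)) : Sp K) ≤ Tt K c 1 a :=
    fun j _ => Submodule.span_le.2 (by rintro _ ⟨i, rfl⟩; exact hv j i)
  have g0 := gen_transfer e h0
  have g1 := gen_transfer e h1
  have fin : ∀ k J : ℕ, ∀ z1 ∈ Lv K c (k + 1) (Fin m) (J + c), ∀ z0 ∈ Lv K c (k + 1) (Fin m) J,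
      (X : K[X][X]) • lc w z1 = lc w z0 → ∃ J0, ∃ t ∈ Lv K c k (Fin m) J0, lc w t = lc w z1 := by
    intro k J z1 hz1 z0 hz0 e'
    obtain ⟨J0, h2⟩ := sat_fin s _ hV (hw ▸ (mem_PP_iff w).2 ⟨z1, hz1, rfl⟩)
      (hw ▸ (mem_PP_iff w).2 ⟨z0, hz0, e'.symm⟩)
    exact ⟨J0, (mem_PP_iff w).1 (hw ▸ h2)⟩
  have gk : ∀ k, Gen (K := K) c w (k + 1) a := by
    intro k
    induction k with
    | zero => exact g1
    | succ k ih =>
      intro z hz
      obtain ⟨J, hJ⟩ := exists_Lv (c := c) hz.1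
      obtain ⟨z0, hz0, z1, hz1, rfl⟩ := split_Lv hJ
      have h2 := hz.2
      rw [map_add, map_smul] at h2
      obtain ⟨J0, t, ht, e'⟩ := fin k J z1 hz1 (-z0)
        (Lv_mono (by omega) le_rfl (AddSubgroup.neg_mem _ hz0))
        (by rw [map_neg]; exact eq_neg_of_add_eq_zero_right h2)
      have e2 : z0 + (X : K[X][X]) • z1 =
          (z0 + (X : K[X][X]) • t) + (X : K[X][X]) • (z1 - t) := by rw [smul_sub]; abel
      rw [e2]
      refine Submodule.add_mem _ ?_ ?_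
      · exact Sg_mono (Nat.le_succ _) le_rfl
          (ih _ ⟨fun i => (natDegree_add_le _ _).trans (max_le ((hz0 i).1.trans (by omega))
            (X_smul_mem_Lv (Lv_mono le_rfl (Nat.le_add_right J0 c) ht) i).1), by
              rw [map_add, map_smul, e', h2]⟩)
      · exact Sg_X (by omega)
          (ih _ ⟨fun i => (natDegree_sub_le _ _).trans (max_le (hz1 i).1
            ((ht i).1.trans (by omega))), by rw [map_sub, e', sub_self]⟩)
  have gk' : ∀ k, Gen (K := K) c w k (a + a + c) := by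
    intro k
    rcases k with _ | k
    · exact g0
    · exact fun z hz => Sg_mono le_rfl (by omega) (gk k z hz)
  refine ⟨m, w, hw, good_of (fun z hz h2 => ?_) g0 g1 fun k J hJ z1 hz1 z0 hz0 e' => ?_⟩
  · obtain ⟨l, rfl⟩ := eq_const hz
    rw [lc_apply] at h2
    rw [hb2 l (by rw [← h2]; exact Finset.sum_congr rfl fun i _ => ksmul _ _)]
    funext i; simp
  · obtain ⟨J0, t, ht, e1⟩ := fin k J z1 hz1 z0 hz0 e'
    obtain ⟨q, hq, h2⟩ := sat_inf s _ hV (hw ▸ (mem_PP_iff w).2 ⟨z1, hz1, rfl⟩)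
      (hw ▸ (mem_PP_iff w).2 ⟨z0, hz0, e'.symm⟩)
    obtain ⟨b, hb, e2⟩ := (mem_PP_iff w).1 (hw ▸ h2)
    have hm : q • t - b ∈ Zk w k := ⟨fun i => (natDegree_sub_le _ _).trans (max_le
      ((natDegree_smul_le q (t i)).trans (ht i).1) (hb i).1), by
        rw [map_sub, dsmul, map_smul, e1, e2, smul_eq_mul, sub_self]⟩
    obtain ⟨m', hm', h3⟩ := div_rem (isFil_Lv k (Fin m)) (Zk w k) (J := J + c)
      (show a + a + c ≤ J + c + 1 by omega) hq (span_of_gen (gk' k) hm)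
    obtain ⟨J1, hJ1⟩ := exists_Lv (c := c) (k := k) (v := t - m')
      fun i => (natDegree_sub_le _ _).trans (max_le (ht i).1 (hm'.1 i))
    refine ⟨t - m', (isFil_Lv k (Fin m)).cancel hq hJ1 ?_, by rw [map_sub, hm'.2, e1, sub_zero]⟩
    have := AddSubgroup.add_mem _ h3 hb
    rw [sub_right_comm, sub_add_cancel] at this
    rwa [smul_sub]

end Pool.Agent.MP_36bee5_al.Scr
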