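import Pool.Agent.MP_36bee5_al.ScrCls

set_option autoImplicit false

/-!
The class of families used for the cones `S(0, c)`.
-/

namespace Pool.Agent.MP_36bee5_al.Scr

open Polynomial

variable {K : Type} [Field K] {c : ℕ}

section Fam

variable {ι M : Type} [Fintype ι] [AddCommGroup M] [Module K[X][X] M]

omit [Fintype ι] in
theorem Cq_mono {S : Set (ι → K[X][X])} {k k' J : ℕ} (hk : k ≤ k') {z : ι → K[X][X]}
    (hz : z ∈ Cq c S k J) : z ∈ Cq c S k' J := by
  have := Cq_smul 1 (k' := k') (J' := J) (fun f hf => by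
    rw [one_mul]; exact Tt_mono hk le_rfl hf) hz
  rwa [one_smul] at this

theorem X_smul_mem_Cq {h : ι → M} (hg : Gen (K := K) c h 0 c) {J : ℕ} {z : ι → K[X][X]}
    (hz : z ∈ Lv K c 0 ι (J + c)) (h0 : lc h z = 0) :
    (X : K[X][X]) • z ∈ Cq c {s | s ∈ Zk h 1 ∧ s ∈ Lv K c 1 ι 0} 0 J := by
  have h1 := re (isFil_Lv 0 ι) (Zk h 0) c hg J z ⟨fun i => (hz i).1, h0⟩
    (by rwa [Nat.add_comm c J])
  let f : (ι → K[X][X]) →+ (ι → K[X][X]) :=
    { toFun := fun s => (X : K[X][X]) • s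
      map_zero' := smul_zero _
      map_add' := fun u v => smul_add _ _ _ }
  refine Cl_le (H := (Cq c {s | s ∈ Zk h 1 ∧ s ∈ Lv K c 1 ι 0} 0 J).comap f)
    (fun p s hs hp => ?_) h1
  have hL : (X : K[X][X]) • s ∈ Lv K c 1 ι 0 :=
    X_smul_mem_Lv (k := 0) (J := 0) (by rw [Nat.zero_add c]; exact hs.2)
  show (X : K[X][X]) • p • s ∈ Cq c {s | s ∈ Zk h 1 ∧ s ∈ Lv K c 1 ι 0} 0 J
  rw [dsmul, smul_comm]
  exact AddSubgroup.subset_closure ⟨C p, C_mem_Tt hp, _, ⟨⟨fun i => (hL i).1, by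
    rw [map_smul, hs.1.2, smul_zero]⟩, hL⟩, rfl⟩

theorem p2_of {h : ι → M} (hg : Gen (K := K) c h 0 c) {J : ℕ} {z0 z1 s0 s1 : ι → K[X][X]}
    (hz0 : z0 ∈ Lv K c 0 ι J) (hz1 : z1 ∈ Lv K c 0 ι (J + c)) (hs0 : s0 ∈ Lv K c 0 ι J)
    (hs1 : s1 ∈ Lv K c 0 ι (J + c))
    (hs : s0 + (X : K[X][X]) • s1 ∈ Cq c {s | s ∈ Zk h 1 ∧ s ∈ Lv K c 1 ι 0} 0 J)
    (e0 : lc h s0 = lc h z0) (e1 : lc h s1 = lc h z1) :
    ∃ η ∈ Lv K c 0 ι J, lc h η = 0 ∧
      z0 + (X : K[X][X]) • z1 - η ∈ Cq c {s | s ∈ Zk h 1 ∧ s ∈ Lv K c 1 ι 0} 0 J := by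
  refine ⟨z0 - s0, AddSubgroup.sub_mem _ hz0 hs0, by rw [map_sub, e0, sub_self], ?_⟩
  have e : z0 + (X : K[X][X]) • z1 - (z0 - s0) =
      (s0 + (X : K[X][X]) • s1) + (X : K[X][X]) • (z1 - s1) := by rw [smul_sub]; abel
  rw [e]
  exact AddSubgroup.add_mem _ hs (X_smul_mem_Cq hg (AddSubgroup.sub_mem _ hz1 hs1)
    (by rw [map_sub, e1, sub_self]))

/-- The class of families for the cone. -/
structure Good0 (K : Type) [Field K] (c : ℕ) {ι M : Type} [Fintype ι] [AddCommGroup M]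
    [Module K[X][X] M] (h : ι → M) : Prop where
  tf : ∀ z : ι → K[X][X], (X : K[X][X]) • lc h z = 0 → lc h z = 0
  p0 : ∀ z ∈ Lv K c 0 ι 0, lc h z = 0 → z = 0
  p1 : Gen (K := K) c h 0 c
  ps : ∀ k J : ℕ, ∀ z ∈ Lv K c (k + 1) ι J, lc h z = 0 → ∃ η ∈ Lv K c 0 ι J, lc h η = 0 ∧
    z - η ∈ Cq c {s | s ∈ Zk h 1 ∧ s ∈ Lv K c 1 ι 0} k J

theorem good0_of {h : ι → M} (tf : ∀ z : ι → K[X][X], (X : K[X][X]) • lc h z = 0 → lc h z = 0)
    (p0 : ∀ z ∈ Lv K c 0 ι 0, lc h z = 0 → z = 0) (p1 : Gen (K := K) c h 0 c)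
    (p2 : ∀ J : ℕ, ∀ z ∈ Lv K c 1 ι J, lc h z = 0 → ∃ η ∈ Lv K c 0 ι J, lc h η = 0 ∧
      z - η ∈ Cq c {s | s ∈ Zk h 1 ∧ s ∈ Lv K c 1 ι 0} 0 J)
    (p3 : ∀ k J : ℕ, ∀ z1 ∈ Lv K c (k + 1) ι (J + c), ∀ z0 ∈ Lv K c (k + 1) ι J,
      (X : K[X][X]) • lc h z1 = lc h z0 → ∃ t ∈ Lv K c k ι (J + c), lc h t = lc h z1) :
    Good0 K c h := by
  refine ⟨tf, p0, p1, fun k => ?_⟩
  induction k with
  | zero => exact p2
  | succ k ih =>
    intro J z hz h0
    obtain ⟨u, hu, u', hu', h1, h2, rfl⟩ := split_syz (p3 k J) hz h0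
    obtain ⟨η, hη, h3, h4⟩ := ih J u hu h1
    obtain ⟨η', hη', h5, h6⟩ := ih (J + c) u' hu' h2
    refine ⟨η, hη, h3, ?_⟩
    have e : u + (X : K[X][X]) • u' - η =
        (u - η) + ((X : K[X][X]) • (u' - η') + (X : K[X][X]) • η') := by rw [smul_sub]; abel
    rw [e]
    exact AddSubgroup.add_mem _ (Cq_mono (by omega) h4) (AddSubgroup.add_mem _
      (Cq_smul X (fun f hf => X_mul_mem_Tt hf) h6) (Cq_mono (by omega) (X_smul_mem_Cq p1 hη' h5)))

theorem Cl_succ {N : Type} [AddCommGroup N] [Module K[X] N] {S : Set N} {t : ℕ} {m : N}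
    (hm : m ∈ Cl K S (t + 1)) : ∃ m' ∈ Cl K S t, ∃ m'' ∈ Cl K S t, m = (X : K[X]) • m' + m'' := by
  induction hm using AddSubgroup.closure_induction with
  | mem m hm =>
    obtain ⟨p, s, hs, hp, rfl⟩ := hm
    refine ⟨p.divX • s, smul_mem_Cl hs (by rw [natDegree_divX_eq_natDegree_tsub_one]; omega),
      (C (p.coeff 0) : K[X]) • s, smul_mem_Cl hs (by simp), ?_⟩
    rw [smul_smul, ← add_smul, X_mul_divX_add]
  | zero => exact ⟨0, AddSubgroup.zero_mem _, 0, AddSubgroup.zero_mem _, by simp⟩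
  | add u v _ _ hu hv =>
    obtain ⟨u1, h1, u2, h2, rfl⟩ := hu
    obtain ⟨v1, h3, v2, h4, rfl⟩ := hv
    exact ⟨u1 + v1, AddSubgroup.add_mem _ h1 h3, u2 + v2, AddSubgroup.add_mem _ h2 h4, by
      rw [smul_add]; abel⟩
  | neg u _ hu =>
    obtain ⟨u1, h1, u2, h2, rfl⟩ := hu
    exact ⟨-u1, AddSubgroup.neg_mem _ h1, -u2, AddSubgroup.neg_mem _ h2, by rw [smul_neg]; abel⟩

theorem re_succ {N : Type} [AddCommGroup N] [Module K[X] N] {G : ℕ → AddSubgroup N}
    (h : IsFil K G) (P : Submodule K[X] N) (r : ℕ)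
    (hP : ∀ m ∈ P, m ∈ Sat (Submodule.span K[X] {s | s ∈ P ∧ s ∈ G r})) {j : ℕ} (hj : r ≤ j)
    {m : N} (hm : m ∈ P) (hG : m ∈ G (j + 1)) :
    ∃ m' m'' : N, (m' ∈ P ∧ m' ∈ G j) ∧ (m'' ∈ P ∧ m'' ∈ G j) ∧ m = (X : K[X]) • m' + m'' := by
  obtain ⟨t, rfl⟩ := Nat.exists_eq_add_of_le hj
  obtain ⟨m', h1, m'', h2, e⟩ := Cl_succ (re h P r hP (t + 1) m hm hG)
  have h3 : ∀ u ∈ Cl K {s | s ∈ P ∧ s ∈ G r} t, u ∈ P ∧ u ∈ G (r + t) := fun u hu =>
    ⟨Submodule.span_le.2 (fun s hs => hs.1) (Cl_le_span hu), Cl_le_fil h (fun s hs => hs.2) t hu⟩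
  exact ⟨m', m'', h3 _ h1, h3 _ h2, e⟩

theorem gen_basis {a : ℕ} {κ : Type} {b : ι → κ → K[X][X]} (hbL : ∀ i, b i ∈ Lv K c 1 κ a)
    (h00 : ∀ u ∈ Lv K c 0 ι 0, (X : K[X]) • lc b u ∈ Lv K c 1 κ a →
      ∃ t ∈ Lv K c 0 ι 0, lc b t = (X : K[X]) • lc b u) : Gen (K := K) c b 0 1 := by
  have q1 : ∀ J, ∀ z ∈ Lv K c 0 ι J, lc b z = 0 →
      z ∈ Submodule.span K[X] {s | s ∈ Zk b 0 ∧ s ∈ Lv K c 0 ι 1} := by
    intro J
    induction J with
    | zero =>
      intro z hz h0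
      exact Submodule.subset_span ⟨⟨fun i => (hz i).1, h0⟩, Lv_mono le_rfl (by omega) hz⟩
    | succ J ih =>
      intro z hz h0
      obtain ⟨l, hl⟩ := top_Lv hz
      have h1 : (X : K[X]) ^ J • (X : K[X]) • lc b (fun i => (C (C (l i)) : K[X][X])) ∈
          Lv K c 1 κ (a + J) := by
        have := AddSubgroup.neg_mem _ (lc_mem_Lv hbL hl)
        rwa [map_sub, h0, zero_sub, neg_neg, dsmul, map_smul, ← dsmul, pow_succ, mul_smul,
          Nat.add_comm J a] at this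
      obtain ⟨t, ht, e⟩ := h00 _ (const_mem_Lv l) ((isFil_Lv 1 κ).reg_pow J h1)
      have hs : (X : K[X]) • (fun i => (C (C (l i)) : K[X][X])) - t ∈ Lv K c 0 ι 1 :=
        AddSubgroup.sub_mem _ ((isFil_Lv 0 _).smul _ _ _ _ (const_mem_Lv l) (by simp))
          (Lv_mono le_rfl (by omega) ht)
      have hs0 : lc b ((X : K[X]) • (fun i => (C (C (l i)) : K[X][X])) - t) = 0 := by
        rw [map_sub, e, dsmul, map_smul, ← dsmul, sub_self]
      have h2 := ih (z - (X : K[X]) ^ J • ((X : K[X]) • (fun i => (C (C (l i)) : K[X][X])) - t))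
        (by
          rw [smul_sub, smul_smul, ← pow_succ, ← sub_add]
          exact AddSubgroup.add_mem _ hl ((isFil_Lv 0 _).smul _ _ _ _ ht (by simp)))
        (by rw [map_sub, h0, dsmul, map_smul, hs0, smul_zero, sub_zero])
      have := Submodule.add_mem _ h2 (Submodule.smul_mem _ ((X : K[X]) ^ J)
        (Submodule.subset_span ⟨⟨fun i => (hs i).1, hs0⟩, hs⟩))
      rwa [sub_add_cancel] at this
  intro z hz
  obtain ⟨J, hJ⟩ := exists_Lv (c := c) hz.1
  exact mem_Sat_of_mem (q1 J z hJ hz.2)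

omit [Fintype ι] in
theorem eq_zero_of_X_smul {z f : ι → K[X][X]} (hz : ∀ i, (z i).natDegree ≤ 0)
    (e : z = (X : K[X][X]) • f) : z = 0 := by
  funext i
  rw [eq_C_of_natDegree_le_zero (hz i), e]
  simp

theorem Good0.next (hc : 1 ≤ c) {h : ι → M} (hg : Good0 K c h) :
    ∃ (m : ℕ) (b : Fin m → ι → K[X][X]), (∀ i, b i ∈ Lv K c 1 ι 0 ∧ lc h (b i) = 0) ∧
      (∀ k, ∀ z ∈ Lv K c (k + 1) ι (k * 0 + 0), lc h z = 0 →
        ∃ t ∈ Lv K c k (Fin m) (k * 0), lc b t = z) ∧ Good0 K c b := by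
  let H : Submodule K (ι → K[X][X]) :=
    { carrier := {s | s ∈ Zk h 1 ∧ s ∈ Lv K c 1 ι 0}
      add_mem' := fun h1 h2 => ⟨Submodule.add_mem _ h1.1 h2.1, AddSubgroup.add_mem _ h1.2 h2.2⟩
      zero_mem' := ⟨Submodule.zero_mem _, AddSubgroup.zero_mem _⟩
      smul_mem' := fun r s hs => by
        rw [kvsmul, ← dsmul]
        exact ⟨Submodule.smul_mem _ _ hs.1, (isFil_Lv 1 ι).smul _ _ _ _ hs.2 (by simp)⟩ }
  have hfg : H.FG := Submodule.FG.of_le
    (Submodule.fg_pi (p := fun _ : ι => Tt K c 1 0) fun _ => Tt_fg 1 0) fun s hs i _ => hs.2 i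
  obtain ⟨m, b, hb1, hb2, hb3⟩ := exists_basis H hfg
  have hbL : ∀ i, b i ∈ Lv K c 1 ι 0 := fun i => (hb1 i).2
  have hlc : ∀ t : Fin m → K[X][X], lc h (lc b t) = 0 := fun t => by
    rw [lc_apply b, map_sum]
    exact Finset.sum_eq_zero fun i _ => by rw [map_smul, (hb1 i).1.2, smul_zero]
  set N := Submodule.span K[X] {s | s ∈ Zk h 1 ∧ s ∈ Lv K c 1 ι 0} with hN
  have hNZ : ∀ n ∈ N, n ∈ Zk h 1 := fun n hn => Submodule.span_le.2 (fun s hs => hs.1) hn
  have hNg : ∀ n ∈ N, n ∈ Sat (Submodule.span K[X] {s | s ∈ N ∧ s ∈ Lv K c 1 ι 0}) :=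
    fun n hn => mem_Sat_of_mem
      (Submodule.span_mono (fun s hs => And.intro (Submodule.subset_span hs) hs.2) hn)
  have hN1 : ∀ J, ∀ n ∈ N, n ∈ Lv K c 1 ι J → ∃ t ∈ Lv K c 0 (Fin m) J, lc b t = n := by
    intro J n hn hJ
    refine Cq_coords b hb3 (Cl_le (H := Cq c {s | s ∈ Zk h 1 ∧ s ∈ Lv K c 1 ι 0} 0 J)
      (fun p s hs hp => AddSubgroup.subset_closure
        ⟨C p, C_mem_Tt hp, s, ⟨hNZ s hs.1, hs.2⟩, dsmul p s⟩)
      (re (isFil_Lv 1 ι) N 0 hNg J n hn (by rwa [Nat.zero_add J])))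
  have hN2 : ∀ t : Fin m → K[X][X], (∀ i, (t i).natDegree ≤ 0) → lc b t ∈ N := by
    intro t ht
    rw [lc_apply]
    refine N.sum_mem fun i _ => ?_
    rw [eq_C_of_natDegree_le_zero (ht i), ← dsmul]
    exact N.smul_mem _ (Submodule.subset_span (hb1 i))
  have hN3 : ∀ J, ∀ z ∈ Cq c {s | s ∈ Zk h 1 ∧ s ∈ Lv K c 1 ι 0} 0 J, z ∈ N := by
    intro J z hz
    obtain ⟨t, ht, rfl⟩ := Cq_coords b hb3 hz
    exact hN2 t fun i => (ht i).1
  have q1 : Gen (K := K) c b 0 1 := gen_basis hbL fun u hu h1 =>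
    hN1 0 _ (N.smul_mem _ (hN2 u fun i => (hu i).1)) h1
  have q2 : Gen (K := K) c b 0 c := fun z hz => Sg_mono le_rfl hc (q1 z hz)
  have hΩ : ∀ t, ∀ ω ∈ Zk h 0 ⊓ N, ω ∈ Lv K c 0 ι (c + t) →
      ω ∈ Submodule.span K[X] {s | s ∈ Zk h 0 ⊓ N ∧ s ∈ Lv K c 0 ι c} := by
    intro t
    induction t with
    | zero => exact fun ω h1 h2 => Submodule.subset_span ⟨h1, h2⟩
    | succ t ih =>
      intro ω h1 h2
      obtain ⟨j, hj⟩ : ∃ j, c + t = j + 1 := ⟨c + t - 1, by omega⟩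
      obtain ⟨ω1, ω2, h3, h4, e1⟩ := re_succ (isFil_Lv 0 ι) (Zk h 0) c hg.p1 (j := c + t)
        (by omega) h1.1 h2
      obtain ⟨n1, n2, h5, h6, e2⟩ := re_succ (isFil_Lv 1 ι) N 0 hNg (j := c + t)
        (by omega) h1.2 (Lv_mono (by omega) le_rfl h2)
      have h7 : ω1 - n1 ∈ Lv K c 1 ι j := by
        refine (isFil_Lv 1 ι).reg j _ ?_
        have e : (X : K[X]) • (ω1 - n1) = n2 - ω2 := by
          rw [smul_sub, sub_eq_sub_iff_add_eq_add, ← e1, e2, add_comm]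
        rw [e, ← hj]
        exact AddSubgroup.sub_mem _ h6.2 (Lv_mono (by omega) le_rfl h4.2)
      obtain ⟨η, h8, h9, h10⟩ := hg.ps 0 j _ h7 (by
        rw [map_sub, h3.1.2, (hNZ _ h5.1).2, sub_self])
      have hη : η ∈ Zk h 0 := ⟨fun i => (h8 i).1, h9⟩
      have h11 : ω1 - η ∈ Zk h 0 ⊓ N := by
        refine ⟨Submodule.sub_mem _ h3.1 hη, ?_⟩
        have := N.add_mem (hN3 _ _ h10) h5.1
        rwa [sub_right_comm, sub_add_cancel] at this
      have e3 : ω = (X : K[X]) • (ω1 - η) + ((X : K[X]) • η + ω2) := by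
        rw [e1, smul_sub]; abel
      have h12 : (X : K[X]) • η + ω2 ∈ Zk h 0 ⊓ N := by
        have := Submodule.sub_mem _ h1 (Submodule.smul_mem _ (X : K[X]) h11)
        rwa [e3, add_sub_cancel_left] at this
      rw [e3]
      exact Submodule.add_mem _ (Submodule.smul_mem _ _ (ih _ h11
        (AddSubgroup.sub_mem _ h3.2 (Lv_mono le_rfl (by omega) h8)))) (ih _ h12
        (AddSubgroup.add_mem _ ((isFil_Lv 0 ι).smul _ _ _ _ h8 (by simp; omega)) h4.2))
  refine ⟨m, b, fun i => ⟨hbL i, (hb1 i).1.2⟩, fun k z hz h0 => ?_, good0_of ?_ ?_ q2 ?_ ?_⟩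
  · obtain ⟨η, h1, h2, h3⟩ := hg.ps k 0 z hz h0
    rw [hg.p0 η h1 h2, sub_zero] at h3
    exact Cq_coords b hb3 h3
  · intro z hz
    funext i
    exact (mul_eq_zero.1 (congrFun hz i)).resolve_left X_ne_zero
  · intro z hz h0
    obtain ⟨l, rfl⟩ := eq_const hz
    rw [lc_const] at h0
    rw [hb2 l h0]
    funext i; simp
  · intro J z hJ h0
    obtain ⟨z0, hz0, z1, hz1, rfl⟩ := split_Lv hJ
    rw [map_add, map_smul] at h0
    have hg0 : lc b z1 ∈ Lv K c 0 ι (c + J) := fun i => by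
      rw [Nat.add_comm c J]
      refine mem_Tt_of_X_mul (k := 0) ?_
      have := AddSubgroup.neg_mem _ (lc_mem_Lv hbL hz0)
      rw [← eq_neg_of_add_eq_zero_right h0] at this
      exact this i
    have h1 := re (isFil_Lv 0 ι) (Zk h 0 ⊓ N) c (fun ω hω => by
      obtain ⟨t, ht⟩ := exists_Lv (c := c) hω.1.1
      exact mem_Sat_of_mem (hΩ t ω hω (Lv_mono le_rfl (by omega) ht))) J _
      ⟨⟨fun i => (hg0 i).1, hlc _⟩, hN2 _ fun i => (hz1 i).1⟩ hg0
    have key : ∀ g ∈ Cl K {s | s ∈ Zk h 0 ⊓ N ∧ s ∈ Lv K c 0 ι c} J,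
        ∃ e0 ∈ Lv K c 0 (Fin m) J, ∃ e1 ∈ Lv K c 0 (Fin m) (J + c), lc b e1 = g ∧
          lc b e0 = -((X : K[X][X]) • g) ∧ e0 + (X : K[X][X]) • e1 ∈
            Cq c {s | s ∈ Zk b 1 ∧ s ∈ Lv K c 1 (Fin m) 0} 0 J := by
      intro g hg'
      induction hg' using AddSubgroup.closure_induction with
      | mem g hg' =>
        obtain ⟨p, s, hs, hp, rfl⟩ := hg'
        obtain ⟨e1, h1, h2⟩ := hN1 c s hs.1.2 (Lv_mono (by omega) le_rfl hs.2)
        have hL : -((X : K[X][X]) • s) ∈ Lv K c 1 ι 0 := AddSubgroup.neg_mem _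
          (X_smul_mem_Lv (k := 0) (J := 0) (by rw [Nat.zero_add c]; exact hs.2))
        obtain ⟨e0, h3, h4⟩ := hN1 0 _ (Submodule.subset_span ⟨⟨fun i => (hL i).1, by
          rw [map_neg, map_smul, hs.1.1.2, smul_zero, neg_zero]⟩, hL⟩) hL
        have h5 : e0 + (X : K[X][X]) • e1 ∈ Lv K c 1 (Fin m) 0 :=
          AddSubgroup.add_mem _ (Lv_mono (by omega) le_rfl h3)
            (X_smul_mem_Lv (k := 0) (J := 0) (by rw [Nat.zero_add c]; exact h1))
        refine ⟨p • e0, (isFil_Lv 0 _).smul _ _ _ _ h3 (by omega), p • e1,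
          (isFil_Lv 0 _).smul _ _ _ _ h1 (by omega), by rw [dsmul, map_smul, h2, dsmul], by
            rw [dsmul, map_smul, h4, dsmul, smul_neg, smul_comm], ?_⟩
        refine AddSubgroup.subset_closure ⟨C p, C_mem_Tt hp, _, ⟨⟨fun i => (h5 i).1, by
          rw [map_add, map_smul, h2, h4, neg_add_cancel]⟩, h5⟩, ?_⟩
        rw [smul_add, dsmul, dsmul, smul_comm]
      | zero => exact ⟨0, AddSubgroup.zero_mem _, 0, AddSubgroup.zero_mem _, map_zero _, by simp,
          by simp⟩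
      | add u v _ _ hu hv =>
        obtain ⟨e0, h1, e1, h2, h3, h4, h5⟩ := hu
        obtain ⟨f0, g1, f1, g2, g3, g4, g5⟩ := hv
        refine ⟨e0 + f0, AddSubgroup.add_mem _ h1 g1, e1 + f1, AddSubgroup.add_mem _ h2 g2, by
          rw [map_add, h3, g3], by rw [map_add, h4, g4, smul_add, neg_add], ?_⟩
        rw [smul_add, add_add_add_comm]
        exact AddSubgroup.add_mem _ h5 g5
      | neg u _ hu =>
        obtain ⟨e0, h1, e1, h2, h3, h4, h5⟩ := hu
        refine ⟨-e0, AddSubgroup.neg_mem _ h1, -e1, AddSubgroup.neg_mem _ h2, by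
          rw [map_neg, h3], by rw [map_neg, h4, smul_neg], ?_⟩
        rw [smul_neg, ← neg_add]
        exact AddSubgroup.neg_mem _ h5
    obtain ⟨e0, h2, e1, h3, h4, h5, h6⟩ := key _ h1
    exact p2_of q2 hz0 hz1 h2 h3 h6 (h5.trans (eq_neg_of_add_eq_zero_left h0).symm) h4
  · intro k J z1 hz1 z0 hz0 e
    have hg1 : lc b z1 ∈ Lv K c (k + 1) ι (J + c) := fun i => by
      have := lc_mem_Lv hbL hz0
      rw [← e] at this
      exact mem_Tt_of_X_mul (this i)
    obtain ⟨η, h1, h2, h3⟩ := hg.ps k (J + c) _ hg1 (hlc _)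
    obtain ⟨t1, h4, h5⟩ := Cq_coords b hb3 h3
    obtain ⟨u0, h6, u1, -, e1⟩ := split_Lv
      (AddSubgroup.sub_mem _ hz1 (Lv_mono (Nat.le_succ k) le_rfl h4))
    obtain ⟨n0, h7, n1, h8, e2⟩ := split_Lv (k := 0) (lc_mem_Lv hbL h6)
    have e3 : η = lc b u0 + (X : K[X][X]) • lc b u1 := by
      rw [← map_smul, ← map_add, ← e1, map_sub, h5, sub_sub_cancel]
    have e4 : η = n0 := by
      rw [← sub_eq_zero]
      refine eq_zero_of_X_smul (f := n1 + lc b u1)
        (fun i => (natDegree_sub_le _ _).trans (max_le (h1 i).1 (h7 i).1)) ?_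
      rw [e3, e2, smul_add]; abel
    have h9 : lc h n1 = 0 := by
      have := hlc u0
      rw [e2, map_add, map_smul, ← e4, h2, zero_add] at this
      exact hg.tf _ this
    have h10 : η ∈ N := by
      have := N.sub_mem (hN2 u0 fun i => (h6 i).1) (hN3 _ _ (X_smul_mem_Cq hg.p1 h8 h9))
      rwa [e2, add_sub_cancel_right, ← e4] at this
    obtain ⟨t2, h11, h12⟩ := hN1 (J + c) η h10 (Lv_mono (by omega) le_rfl h1)
    exact ⟨t1 + t2, AddSubgroup.add_mem _ h4 (Lv_mono (by omega) le_rfl h11), by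
      rw [map_add, h5, h12, sub_add_cancel]⟩

end Fam

theorem rankOk_zero {κ : Type} [Fintype κ] {v : κ → K[X][X]} (hv : ∀ i, v i = 0) (r : ℕ) :
    Gen (K := K) c v 0 r := by
  classical
  intro z hz
  rw [← Finset.univ_sum_single z]
  refine Submodule.sum_mem _ fun p _ => ?_
  have := smul_mem_Sg (c := c) (h := v) (r := r) (z := Pi.single p 1)
    (Lv_mono le_rfl (Nat.zero_le _) (single_mem_Lv p one_mem_Tt))
    (by rw [lc_single]; simp [hv]) (hz.1 p)
  rwa [← Pi.single_smul, smul_eq_mul, mul_one] at this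

theorem gen_of_coeff {κ : Type} [Fintype κ] {v : κ → K[X][X]} {i1 : κ} (hi1 : v i1 ≠ 0) {l r : ℕ}
    (h2 : (v i1).coeff l ≠ 0) (h3 : ∀ i, C ((v i1).coeff l) * v i = C ((v i).coeff l) * v i1)
    (hr : ∀ i, ((v i).coeff l).natDegree ≤ r) : Gen (K := K) c v 0 r := by
  classical
  intro z hz
  refine Sat_cancel h2 ?_
  have h4 : ∑ i, z i * C ((v i).coeff l) = 0 := by
    apply mul_right_cancel₀ hi1
    have h5 := hz.2
    rw [lc_apply] at h5
    rw [zero_mul, ← mul_zero (C ((v i1).coeff l) : K[X][X]), ← h5, Finset.sum_mul, Finset.mul_sum]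
    exact Finset.sum_congr rfl fun i _ => by rw [smul_eq_mul]; linear_combination -z i * h3 i
  have key : (v i1).coeff l • z = ∑ i, z i • (Pi.single i (C ((v i1).coeff l)) -
      Pi.single i1 (C ((v i).coeff l)) : κ → K[X][X]) := by
    rw [dsmul]
    funext j
    simp only [Pi.smul_apply, Finset.sum_apply, Pi.sub_apply, Pi.single_apply, smul_eq_mul,
      mul_sub, mul_ite, mul_zero, Finset.sum_sub_distrib, Finset.sum_ite_eq, Finset.mem_univ,
      if_true, Finset.sum_ite_irrel, h4, Finset.sum_const_zero, ite_self, sub_zero, mul_comm]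
  rw [key]
  refine Submodule.sum_mem _ fun i _ => smul_mem_Sg (AddSubgroup.sub_mem _
    (single_mem_Lv _ (C_mem_Tt (hr i1))) (single_mem_Lv _ (C_mem_Tt (hr i)))) ?_ (hz.1 i)
  rw [map_sub, lc_single, lc_single, smul_eq_mul, smul_eq_mul, h3, sub_self]

section Prod

variable {σ ι : Type} [Fintype ι] {s : Finset σ} {V : σ → Sp K} {w : ι → K[X][X]}

theorem fin_of {a : ℕ} (hV : ∀ j ∈ s, V j ≤ Tt K c 1 a)
    (hw : (Submodule.span K (Set.range w) : Sp K) = ∏ j ∈ s, V j) (k J : ℕ) {z1 z0 : ι → K[X][X]}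
    (hz1 : z1 ∈ Lv K c (k + 1) ι (J + c)) (hz0 : z0 ∈ Lv K c (k + 1) ι J)
    (e : (X : K[X][X]) • lc w z1 = lc w z0) : ∃ J0, ∃ t ∈ Lv K c k ι J0, lc w t = lc w z1 := by
  obtain ⟨J0, h2⟩ := sat_fin s _ hV (hw ▸ (mem_PP_iff w).2 ⟨z1, hz1, rfl⟩)
    (hw ▸ (mem_PP_iff w).2 ⟨z0, hz0, e.symm⟩)
  exact ⟨J0, (mem_PP_iff w).1 (hw ▸ h2)⟩

theorem gen_all {a : ℕ} (hV : ∀ j ∈ s, V j ≤ Tt K c 1 a)
    (hw : (Submodule.span K (Set.range w) : Sp K) = ∏ j ∈ s, V j) (g1 : Gen (K := K) c w 1 a)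
    (k : ℕ) : Gen (K := K) c w (k + 1) a := by
  induction k with
  | zero => exact g1
  | succ k ih =>
    intro z hz
    obtain ⟨J, hJ⟩ := exists_Lv (c := c) hz.1
    obtain ⟨z0, hz0, z1, hz1, rfl⟩ := split_Lv hJ
    have h2 := hz.2
    rw [map_add, map_smul] at h2
    obtain ⟨J0, t, ht, e'⟩ := fin_of hV hw k J hz1
      (Lv_mono (Nat.zero_le _) le_rfl (AddSubgroup.neg_mem _ hz0))
      (by rw [map_neg]; exact eq_neg_of_add_eq_zero_right h2)
    have e2 : z0 + (X : K[X][X]) • z1 =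
        (z0 + (X : K[X][X]) • t) + (X : K[X][X]) • (z1 - t) := by rw [smul_sub]; abel
    rw [e2]
    refine Submodule.add_mem _ ?_ ?_
    · exact Sg_mono (Nat.le_succ _) le_rfl
        (ih _ ⟨fun i => (natDegree_add_le _ _).trans (max_le ((hz0 i).1.trans (by omega))
          (X_smul_mem_Lv (Lv_mono le_rfl (Nat.le_add_right J0 c) ht) i).1), by
            rw [map_add, map_smul, e', h2]⟩)
    · exact Sg_X (by omega)
        (ih _ ⟨fun i => (natDegree_sub_le _ _).trans (max_le (hz1 i).1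
          ((ht i).1.trans (by omega))), by rw [map_sub, e', sub_self]⟩)

theorem p3_of {a : ℕ} (hV : ∀ j ∈ s, V j ≤ Tt K c 1 a)
    (hw : (Submodule.span K (Set.range w) : Sp K) = ∏ j ∈ s, V j) {k : ℕ}
    (gk : Gen (K := K) c w k c) (J : ℕ) {z1 z0 : ι → K[X][X]}
    (hz1 : z1 ∈ Lv K c (k + 1) ι (J + c)) (hz0 : z0 ∈ Lv K c (k + 1) ι J)
    (e' : (X : K[X][X]) • lc w z1 = lc w z0) : ∃ t ∈ Lv K c k ι (J + c), lc w t = lc w z1 := by
  obtain ⟨J0, t, ht, e1⟩ := fin_of hV hw k J hz1 hz0 e'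
  obtain ⟨q, hq, h2⟩ := sat_inf s _ hV (hw ▸ (mem_PP_iff w).2 ⟨z1, hz1, rfl⟩)
    (hw ▸ (mem_PP_iff w).2 ⟨z0, hz0, e'.symm⟩)
  obtain ⟨b, hb, e2⟩ := (mem_PP_iff w).1 (hw ▸ h2)
  have hm : q • t - b ∈ Zk w k := ⟨fun i => (natDegree_sub_le _ _).trans (max_le
    ((natDegree_smul_le q (t i)).trans (ht i).1) (hb i).1), by
      rw [map_sub, dsmul, map_smul, e1, e2, smul_eq_mul, sub_self]⟩
  obtain ⟨m', hm', h3⟩ := div_rem (isFil_Lv k ι) (Zk w k) (J := J + c)
    (show c ≤ J + c + 1 by omega) hq (span_of_gen gk hm)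
  obtain ⟨J1, hJ1⟩ := exists_Lv (c := c) (k := k) (v := t - m')
    fun i => (natDegree_sub_le _ _).trans (max_le (ht i).1 (hm'.1 i))
  refine ⟨t - m', (isFil_Lv k ι).cancel hq hJ1 ?_, by rw [map_sub, hm'.2, e1, sub_zero]⟩
  have := AddSubgroup.add_mem _ h3 hb
  rw [sub_right_comm, sub_add_cancel] at this
  rwa [smul_sub]

end Prod

/-- The elements of `W` that start a linear syzygy. -/
noncomputable def Wo (c : ℕ) (W : Sp K) : Sp K where
  carrier := {ω | ω ∈ W ∧ ∃ g ∈ Tt K c 0 c * W, ω = X * g}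
  add_mem' := by
    rintro p q ⟨hp, g, hg, e⟩ ⟨hq, g', hg', e'⟩
    exact ⟨W.add_mem hp hq, g + g', Submodule.add_mem _ hg hg', by rw [e, e', mul_add]⟩
  zero_mem' := ⟨W.zero_mem, 0, Submodule.zero_mem _, by simp⟩
  smul_mem' := by
    rintro r p ⟨hp, g, hg, e⟩
    exact ⟨W.smul_mem r hp, r • g, Submodule.smul_mem _ r hg, by
      rw [e, ksmul, ksmul, mul_left_comm]⟩

/-- The constant part of a syzygy of `x`-degree one comes from the linear syzygies. -/
def GG (c : ℕ) (W : Sp K) : Prop := ∀ Λ : Sp K, (∀ p ∈ Λ, p.natDegree ≤ 0) →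
  ∀ (J : ℕ) (g : K[X][X]), g ∈ Tt K c 0 J * W → X * g ∈ Λ * W → X * g ∈ Λ * Wo c W

theorem mem_mul_span {ι : Type} [Fintype ι] (w : ι → K[X][X]) {Λ : Sp K} {g : K[X][X]}
    (hg : g ∈ Λ * (Submodule.span K (Set.range w) : Sp K)) :
    ∃ t : ι → K[X][X], (∀ i, t i ∈ Λ) ∧ lc w t = g := by
  refine Submodule.mul_induction_on hg (fun a ha b hb => ?_) ?_
  · obtain ⟨l, rfl⟩ := (Submodule.mem_span_range_iff_exists_fun K).1 hb
    refine ⟨fun i => C (C (l i)) * a, fun i => by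
      have := Λ.smul_mem (l i) ha
      rwa [ksmul] at this, ?_⟩
    rw [lc_apply, Finset.mul_sum]
    exact Finset.sum_congr rfl fun i _ => by rw [ksmul, smul_eq_mul]; ring
  · rintro _ _ ⟨t, ht, rfl⟩ ⟨t', ht', rfl⟩
    exact ⟨t + t', fun i => Λ.add_mem (ht i) (ht' i), map_add _ _ _⟩

theorem lc_const' {ι : Type} [Fintype ι] (w : ι → K[X][X]) (l : ι → K) :
    lc w (fun i => (C (C (l i)) : K[X][X])) = ∑ i, l i • w i := by
  rw [lc_apply]
  exact Finset.sum_congr rfl fun i _ => (ksmul _ _).symm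

theorem gg_base {ι : Type} [Fintype ι] {w : ι → K[X][X]} (hw : Gen (K := K) c w 1 0) :
    GG c (Submodule.span K (Set.range w)) := by
  classical
  intro Λ hΛ J g hg1 hg2
  obtain ⟨z1, hz1, rfl⟩ := (mem_PP_iff w).1 hg1
  obtain ⟨z0, hz0, e⟩ := mem_mul_span w hg2
  let A : Submodule K (ι → K) :=
    { carrier := {l | ∑ i, l i • w i ∈ Wo c (Submodule.span K (Set.range w))}
      add_mem' := fun {l l'} h h' => by
        have := (Wo c (Submodule.span K (Set.range w))).add_mem h h'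
        simpa only [Set.mem_ofPred_eq, Pi.add_apply, add_smul, Finset.sum_add_distrib] using this
      zero_mem' := by simp
      smul_mem' := fun r l h => by
        have := (Wo c (Submodule.span K (Set.range w))).smul_mem r h
        simpa only [Set.mem_ofPred_eq, Pi.smul_apply, smul_eq_mul, mul_smul, Finset.smul_sum]
          using this }
  obtain ⟨π, hπ⟩ := A.subtype.exists_leftInverse_of_injective A.ker_subtype
  have key : ∀ z ∈ Submodule.span K[X] {s | s ∈ Zk w 1 ∧ s ∈ Lv K c 1 ι 0}, ∀ j,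
      (z j).coeff 0 = ∑ i, (z i).coeff 0 * C ((π (Pi.single i 1)).1 j) := by
    intro z hz j
    induction hz using Submodule.span_induction with
    | mem s hs =>
      obtain ⟨s0, hs0, s1, hs1, rfl⟩ := split_Lv (k := 0) hs.2
      obtain ⟨l, rfl⟩ := eq_const hs0
      have h0 := hs.1.2
      rw [map_add, map_smul, lc_const'] at h0
      have hl : l ∈ A := ⟨Submodule.sum_mem _ fun i _ =>
        Submodule.smul_mem _ _ (Submodule.subset_span ⟨i, rfl⟩), lc w (-s1),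
        (mem_PP_iff w).2 ⟨-s1, AddSubgroup.neg_mem _ (by rwa [Nat.zero_add c] at hs1), rfl⟩, by
          rw [smul_eq_mul] at h0; rw [map_neg]; linear_combination h0⟩
      have h1 : (π l).1 = l := congrArg Subtype.val (LinearMap.congr_fun hπ ⟨l, hl⟩)
      have h2 : l j = ∑ i, l i * (π (Pi.single i 1)).1 j := by
        conv_lhs => rw [← h1, ← Finset.univ_sum_single l]
        simp only [map_sum, Submodule.coe_sum, Finset.sum_apply]
        refine Finset.sum_congr rfl fun i _ => ?_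
        rw [show (Pi.single i (l i) : ι → K) = l i • Pi.single i 1 by
          rw [← Pi.single_smul, smul_eq_mul, mul_one], map_smul]
        rfl
      simp only [Pi.add_apply, Pi.smul_apply, smul_eq_mul, coeff_add, coeff_C_zero,
        coeff_X_mul_zero, add_zero, ← map_mul, ← map_sum, ← h2]
    | zero => simp
    | add u v _ _ hu hv =>
      simp only [Pi.add_apply, coeff_add, add_mul, Finset.sum_add_distrib, ← hu, ← hv]
    | smul p u _ hu =>
      simp only [Pi.smul_apply, coeff_smul, smul_eq_mul, mul_assoc, ← Finset.mul_sum, ← hu]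
  have h1 := key (z0 - (X : K[X][X]) • z1) (span_of_gen hw ⟨fun i =>
    (natDegree_sub_le _ _).trans (max_le ((hΛ _ (hz0 i)).trans (by omega))
      (X_smul_mem_Lv (Lv_mono le_rfl (Nat.le_add_right J c) hz1) i).1), by
        rw [map_sub, map_smul, e, smul_eq_mul, sub_self]⟩)
  simp only [Pi.sub_apply, Pi.smul_apply, smul_eq_mul, coeff_sub, coeff_X_mul_zero,
    sub_zero] at h1
  have h2 : ∀ j, z0 j = ∑ i, z0 i * C (C ((π (Pi.single i 1)).1 j)) := fun j => by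
    rw [eq_C_of_natDegree_le_zero (hΛ _ (hz0 j)), h1, map_sum]
    exact Finset.sum_congr rfl fun i _ => by
      rw [map_mul, ← eq_C_of_natDegree_le_zero (hΛ _ (hz0 i))]
  have h3 : lc w z0 = ∑ i, z0 i * ∑ j, (π (Pi.single i 1)).1 j • w j := by
    rw [lc_apply]
    simp only [Finset.mul_sum]
    rw [Finset.sum_comm]
    refine Finset.sum_congr rfl fun j _ => ?_
    rw [smul_eq_mul, h2 j, Finset.sum_mul]
    exact Finset.sum_congr rfl fun i _ => by rw [ksmul, mul_assoc]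
  rw [← e, h3]
  exact Submodule.sum_mem _ fun i _ => Submodule.mul_mem_mul (hz0 i) (π (Pi.single i 1)).2

theorem gg_step {V W : Sp K} (hV : V ≤ Tt K c 1 0) (hV0 : ∀ p ∈ V, p.coeff 0 = 0) (hW : GG c W) :
    GG c (V * W) := by
  let U : Sp K :=
    { carrier := {q | X * q ∈ V}
      add_mem' := fun hp hq => by
        have := V.add_mem hp hq
        rwa [← mul_add] at this
      zero_mem' := by simp
      smul_mem' := fun r q hq => by
        have := V.smul_mem r hq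
        show X * r • q ∈ V
        rwa [ksmul, mul_left_comm, ← ksmul] at this }
  have hU : ∀ q ∈ U, q ∈ Tt K c 0 c := fun q hq => by
    have := mem_Tt_of_X_mul (k := 0) (hV hq)
    rwa [Nat.zero_add c] at this
  have hdiv : ∀ (Λ : Sp K) (g : K[X][X]), g ∈ Λ * (V * W) → ∃ g' ∈ Λ * U * W, g = X * g' := by
    intro Λ g hg
    refine Submodule.mul_induction_on hg (fun l hl q hq => ?_) ?_
    · refine Submodule.mul_induction_on hq (fun p hp ω hω => ?_) ?_
      · have e : X * p.divX = p := by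
          have := X_mul_divX_add p
          rwa [hV0 p hp, map_zero, add_zero] at this
        exact ⟨l * p.divX * ω, Submodule.mul_mem_mul (Submodule.mul_mem_mul hl
          (show X * p.divX ∈ V by rwa [e])) hω, by linear_combination -l * ω * e⟩
      · rintro p q ⟨g, hg, e⟩ ⟨g', hg', e'⟩
        exact ⟨g + g', Submodule.add_mem _ hg hg', by rw [mul_add, e, e', mul_add]⟩
    · rintro p q ⟨g, hg, e⟩ ⟨g', hg', e'⟩
      exact ⟨g + g', Submodule.add_mem _ hg hg', by rw [e, e', mul_add]⟩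
  intro Λ hΛ J g hg1 hg2
  obtain ⟨g1, h1, rfl⟩ := hdiv _ _ hg1
  obtain ⟨g2, h2, e⟩ := hdiv _ _ hg2
  obtain rfl : X * g1 = g2 := mul_left_cancel₀ X_ne_zero e
  have h3 := hW (Λ * U) (fun p hp => Submodule.mul_induction_on hp
      (fun l hl q hq => natDegree_mul_le.trans (add_le_add (hΛ l hl) (hU q hq).1))
      (fun p q hp hq => (natDegree_add_le _ _).trans (max_le hp hq))) (J + c) g1
    (mul_le_mul_left (Submodule.mul_le.2 fun l hl q hq => Tt_mul hl (hU q hq)) W h1) h2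
  refine Submodule.mul_induction_on h3 (fun p hp ω hω => ?_) fun p q hp hq => ?_
  · refine Submodule.mul_induction_on hp (fun l hl q hq => ?_) fun p q hp hq => ?_
    · obtain ⟨h4, g, hg, e'⟩ := hω
      rw [show X * (l * q * ω) = l * (X * q * ω) by ring]
      refine Submodule.mul_mem_mul hl ⟨Submodule.mul_mem_mul hq h4, X * q * g, ?_, by
        rw [e']; ring⟩
      rw [mul_left_comm (Tt K c 0 c) V W]
      exact Submodule.mul_mem_mul hq hg
    · rw [add_mul, mul_add]; exact Submodule.add_mem _ hp hq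
  · rw [mul_add]; exact Submodule.add_mem _ hp hq

theorem good0_prod {σ : Type} [Fintype σ] (n : σ → ℕ) (v : (j : σ) → Fin (n j) → K[X][X])
    (hv : ∀ j i, v j i ∈ Tt K c 1 0) :
    ∃ (m : ℕ) (w : Fin m → K[X][X]), (Submodule.span K (Set.range w) : Sp K) =
      ∏ j, (Submodule.span K (Set.range (v j)) : Sp K) ∧ Good0 K c w := by
  classical
  have hV : ∀ (s : Finset σ), ∀ j ∈ s, (Submodule.span K (Set.range (v j)) : Sp K) ≤ Tt K c 1 0 :=
    fun _ j _ => Submodule.span_le.2 (by rintro _ ⟨i, rfl⟩; exact hv j i)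
  let s2 : Finset σ := Finset.univ.filter fun j => ¬ ∀ i, (v j i).coeff 0 = 0
  obtain ⟨ι2, _, w2, hw2, g0, g1⟩ := gen_prod (c := c) (a := 0) (σ := s2) (fun j => n j)
    (fun j => v j) (fun j => hv j) (fun j hd => by
      obtain ⟨i1, hi1⟩ := not_forall.1 (Finset.mem_filter.1 j.2).2
      refine gen_of_coeff (i1 := i1) (l := 0) (fun h => hi1 (by rw [h]; simp)) hi1 (fun i => ?_)
        fun i => by simpa using (hv j i).2 0
      have key : (C ((v j i).coeff 0) * C ((v j i1).coeff 1) : K[X][X]) =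
          C ((v j i1).coeff 0) * C ((v j i).coeff 1) := by
        rw [← map_mul, ← map_mul, sub_eq_zero.1 (hd i i1)]
      linear_combination C ((v j i1).coeff 0) * eq_X_add_C_of_natDegree_le_one (hv j i).1 -
        C ((v j i).coeff 0) * eq_X_add_C_of_natDegree_le_one (hv j i1).1 - X * key) Finset.univ
  rw [Finset.prod_coe_sort s2 (fun j => (Submodule.span K (Set.range (v j)) : Sp K))] at hw2
  have main : ∀ t : Finset σ, (∀ j ∈ t, ∀ i, (v j i).coeff 0 = 0) →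
      ∃ (ι : Type) (_ : Fintype ι) (w : ι → K[X][X]), (Submodule.span K (Set.range w) : Sp K) =
        (∏ j ∈ t, (Submodule.span K (Set.range (v j)) : Sp K)) *
          ∏ j ∈ s2, (Submodule.span K (Set.range (v j)) : Sp K) ∧
        (∀ k, Gen (K := K) c w k c) ∧ GG c (Submodule.span K (Set.range w)) := by
    intro t
    induction t using Finset.induction_on with
    | empty =>
      refine fun _ => ⟨ι2, inferInstance, w2, by rw [Finset.prod_empty, one_mul, hw2],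
        fun k => ?_, gg_base g1⟩
      rcases k with _ | k
      · simpa using g0
      · exact fun z hz => Sg_mono le_rfl (Nat.zero_le _) (gen_all (hV s2) hw2 g1 k z hz)
    | insert j t hj ih =>
      intro ht
      obtain ⟨ι, _, w, hw, h0, h1⟩ := ih fun j' hj' => ht j' (Finset.mem_insert_of_mem hj')
      have h2 := ht j (Finset.mem_insert_self _ _)
      refine ⟨Fin (n j) × ι, inferInstance, fm (v j) w, by
        rw [span_fm, hw, Finset.prod_insert hj, mul_assoc], fun k => ?_, ?_⟩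
      · by_cases hz : ∀ i, v j i = 0
        · exact step_zero w _ _ hz
        · obtain ⟨i1, hi1⟩ := not_forall.1 hz
          have e : ∀ i, v j i = C ((v j i).coeff 1) * X := fun i => by
            have := eq_X_add_C_of_natDegree_le_one (hv j i).1
            rwa [h2, map_zero, add_zero] at this
          have h3 : (v j i1).coeff 1 ≠ 0 := fun h => hi1 (by rw [e i1, h]; simp)
          have h4 : ∀ i, C ((v j i1).coeff 1) * v j i = C ((v j i).coeff 1) * v j i1 := fun i => by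
            linear_combination C ((v j i1).coeff 1) * e i - C ((v j i).coeff 1) * e i1
          exact step_one le_rfl (gen_of_coeff hi1 h3 h4 fun i => by simpa using (hv j i).2 1)
            hi1 h3 _ h4 (h0 k)
      · rw [span_fm]
        refine gg_step (hV {j} j (Finset.mem_singleton_self j)) (fun p hp => ?_) h1
        obtain ⟨l, rfl⟩ := (Submodule.mem_span_range_iff_exists_fun K).1 hp
        simp only [ksmul, finsetSum_coeff, coeff_C_mul, h2, mul_zero, Finset.sum_const_zero]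
  obtain ⟨ι, _, w0, hw0, h0, h1⟩ := main (Finset.univ.filter fun j => ∀ i, (v j i).coeff 0 = 0)
    fun j hj => (Finset.mem_filter.1 hj).2
  rw [Finset.prod_filter_mul_prod_filter_not] at hw0
  obtain ⟨m, w, hb1, hb2, hb3⟩ := exists_basis (Submodule.span K (Set.range w0) : Sp K)
    (Submodule.fg_span (Set.finite_range _))
  have e : (Submodule.span K (Set.range w0) : Sp K) = Submodule.span K (Set.range w) :=
    le_antisymm (fun f hf => (Submodule.mem_span_range_iff_exists_fun K).2 (hb3 f hf))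
      (Submodule.span_le.2 (by rintro _ ⟨i, rfl⟩; exact hb1 i))
  have hw := e.symm.trans hw0
  rw [e] at h1
  have gk : ∀ k, Gen (K := K) c w k c := fun k => gen_transfer e (h0 k)
  have tf : ∀ z : Fin m → K[X][X], (X : K[X][X]) • lc w z = 0 → lc w z = 0 := fun z hz =>
    (mul_eq_zero.1 hz).resolve_left X_ne_zero
  refine ⟨m, w, hw, good0_of tf (fun z hz h2 => ?_) (gk 0) (fun J z hJ h2 => ?_)
    fun k J z1 hz1 z0 hz0 e' => p3_of (hV _) hw (gk k) J hz1 hz0 e'⟩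
  · obtain ⟨l, rfl⟩ := eq_const hz
    rw [lc_const'] at h2
    rw [hb2 l h2]
    funext i; simp
  · obtain ⟨z0, hz0, z1, hz1, rfl⟩ := split_Lv hJ
    rw [map_add, map_smul] at h2
    have h3 : X * lc w (-z1) = lc w z0 := by
      rw [smul_eq_mul] at h2; rw [map_neg]; linear_combination -h2
    have h4 := h1 (Tt K c 0 J) (fun p hp => hp.1) (J + c) (lc w (-z1))
      ((mem_PP_iff w).2 ⟨_, AddSubgroup.neg_mem _ hz1, rfl⟩)
      ((mem_PP_iff w).2 ⟨_, hz0, h3.symm⟩)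
    rw [h3] at h4
    have key : ∀ g ∈ Tt K c 0 J * Wo c (Submodule.span K (Set.range w)),
        ∃ s0 ∈ Lv K c 0 (Fin m) J, ∃ s1 ∈ Lv K c 0 (Fin m) (J + c), lc w s0 = g ∧
          lc w (s0 + (X : K[X][X]) • s1) = 0 ∧ s0 + (X : K[X][X]) • s1 ∈
            Cq c {s | s ∈ Zk w 1 ∧ s ∈ Lv K c 1 (Fin m) 0} 0 J := by
      intro g hg
      refine Submodule.mul_induction_on hg (fun p hp ω hω => ?_) ?_
      · obtain ⟨h5, g', hg', e1⟩ := hω
        obtain ⟨l, hl⟩ := (Submodule.mem_span_range_iff_exists_fun K).1 h5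
        rw [← lc_const'] at hl
        obtain ⟨ζ, hζ, rfl⟩ := (mem_PP_iff w).1 hg'
        have h6 : (fun i => (C (C (l i)) : K[X][X])) + (X : K[X][X]) • (-ζ) ∈
            Lv K c 1 (Fin m) 0 := AddSubgroup.add_mem _
          (Lv_mono (by omega) le_rfl (const_mem_Lv l)) (X_smul_mem_Lv (k := 0) (J := 0)
            (by rw [Nat.zero_add c]; exact AddSubgroup.neg_mem _ hζ))
        have h7 : lc w ((fun i => (C (C (l i)) : K[X][X])) + (X : K[X][X]) • (-ζ)) = 0 := by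
          rw [map_add, map_smul, map_neg, hl, e1, smul_eq_mul]; ring
        have e2 : p • (fun i => (C (C (l i)) : K[X][X])) + (X : K[X][X]) • p • (-ζ) =
            p • ((fun i => (C (C (l i)) : K[X][X])) + (X : K[X][X]) • (-ζ)) := by
          rw [smul_add, smul_comm]
        refine ⟨p • fun i => (C (C (l i)) : K[X][X]), smul_mem_Lv hp (const_mem_Lv l), p • (-ζ),
          smul_mem_Lv hp (AddSubgroup.neg_mem _ hζ), by rw [map_smul, hl, smul_eq_mul], by
            rw [e2, map_smul, h7, smul_zero], ?_⟩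
        rw [e2]
        exact AddSubgroup.subset_closure ⟨p, hp, _, ⟨⟨fun i => (h6 i).1, h7⟩, h6⟩, rfl⟩
      · rintro _ _ ⟨e0, h1, e1, h2, rfl, h4, h5⟩ ⟨f0, g1, f1, g2, rfl, g4, g5⟩
        refine ⟨e0 + f0, AddSubgroup.add_mem _ h1 g1, e1 + f1, AddSubgroup.add_mem _ h2 g2,
          map_add _ _ _, ?_, ?_⟩
        · rw [smul_add, add_add_add_comm, map_add, h4, g4, add_zero]
        · rw [smul_add, add_add_add_comm]; exact AddSubgroup.add_mem _ h5 g5
    obtain ⟨s0, h5, s1, h6, h7, h8, h9⟩ := key _ h4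
    refine p2_of (gk 0) hz0 hz1 h5 h6 h9 h7 ?_
    rw [map_add, map_smul, h7] at h8
    rw [← sub_eq_zero, ← map_sub]
    refine tf _ ?_
    rw [map_sub, smul_sub, sub_eq_zero]
    exact add_left_cancel (h8.trans h2.symm)

end Pool.Agent.MP_36bee5_al.Scr
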