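import Pool.Agent.MP_36bee5_al.ScrRe

set_option autoImplicit false

/-!
Generic generation of the low syzygies of a product of spaces of linear forms.
-/

namespace Pool.Agent.MP_36bee5_al.Scr

open Polynomial

variable {K : Type} [Field K] {c : ℕ}

/-- Vectors with entries in `Tt k J`. -/
noncomputable def Lv (K : Type) [Field K] (c k : ℕ) (ι : Type) (J : ℕ) :
    AddSubgroup (ι → K[X][X]) where
  carrier := {v | ∀ i, v i ∈ Tt K c k J}
  add_mem' ha hb i := Submodule.add_mem _ (ha i) (hb i)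
  zero_mem' _ := Submodule.zero_mem _
  neg_mem' ha i := Submodule.neg_mem _ (ha i)

theorem dsmul {ι : Type} (p : K[X]) (v : ι → K[X][X]) : p • v = (C p : K[X][X]) • v := by
  funext i
  exact smul_eq_C_mul p

theorem C_mul_mem_Tt {k J J' : ℕ} {p : K[X]} {f : K[X][X]} (hf : f ∈ Tt K c k J)
    (h : p.natDegree + J ≤ J') : C p * f ∈ Tt K c k J' :=
  Tt_mono (by omega) h (Tt_mul (C_mem_Tt le_rfl) hf)

theorem isFil_Lv (k : ℕ) (ι : Type) : IsFil K (Lv K c k ι) where
  smul p j j' m hm h i := by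
    rw [dsmul]; exact C_mul_mem_Tt (hm i) h
  reg j m hm i := by
    have h := hm i
    rw [dsmul, Pi.smul_apply, smul_eq_mul] at h
    refine ⟨?_, fun l => ?_⟩
    · have := h.1
      rwa [natDegree_C_mul X_ne_zero] at this
    · have := h.2 l
      rw [coeff_C_mul] at this
      by_cases e : (m i).coeff l = 0
      · rw [e]; simp
      · rw [natDegree_X_mul e] at this; omega

theorem exists_Lv {ι : Type} [Fintype ι] {k : ℕ} {v : ι → K[X][X]}
    (hv : ∀ i, (v i).natDegree ≤ k) : ∃ J, v ∈ Lv K c k ι J := by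
  choose J hJ using fun i => exists_Tt (c := c) (hv i)
  exact ⟨Finset.univ.sup J, fun i => Tt_mono le_rfl (Finset.le_sup (Finset.mem_univ i)) (hJ i)⟩

/-- The linear combination of a family. -/
noncomputable def lc {ι M : Type} [Fintype ι] [AddCommGroup M] [Module K[X][X] M] (h : ι → M) :
    (ι → K[X][X]) →ₗ[K[X][X]] M := Fintype.linearCombination K[X][X] h

theorem lc_apply {ι M : Type} [Fintype ι] [AddCommGroup M] [Module K[X][X] M] (h : ι → M)
    (v : ι → K[X][X]) : lc h v = ∑ i, v i • h i := Fintype.linearCombination_apply _ _ _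

theorem lc_single {ι M : Type} [Fintype ι] [DecidableEq ι] [AddCommGroup M] [Module K[X][X] M]
    (h : ι → M) (i : ι) (u : K[X][X]) : lc h (Pi.single i u) = u • h i :=
  Fintype.linearCombination_apply_single _ _ _ _

/-- Syzygies of `x`-degree at most `k`. -/
noncomputable def Zk {ι M : Type} [Fintype ι] [AddCommGroup M] [Module K[X][X] M] (h : ι → M)
    (k : ℕ) : Submodule K[X] (ι → K[X][X]) where
  carrier := {v | (∀ i, (v i).natDegree ≤ k) ∧ lc h v = 0}
  add_mem' ha hb := ⟨fun i => (natDegree_add_le _ _).trans (max_le (ha.1 i) (hb.1 i)), by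
    rw [map_add, ha.2, hb.2, add_zero]⟩
  zero_mem' := ⟨by simp, map_zero _⟩
  smul_mem' p v hv := ⟨fun i => (natDegree_smul_le p (v i)).trans (hv.1 i), by
    rw [dsmul, map_smul, hv.2, smul_zero]⟩

/-- The saturated span of the syzygies of level `r`. -/
noncomputable def Sg (c : ℕ) {ι M : Type} [Fintype ι] [AddCommGroup M] [Module K[X][X] M]
    (h : ι → M) (k r : ℕ) : Submodule K[X] (ι → K[X][X]) :=
  Sat (Submodule.span K[X] {s | s ∈ Zk h k ∧ s ∈ Lv K c k ι r})

/-- The syzygies of `x`-degree at most `k` are generically spanned by those of level `r`. -/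
def Gen (c : ℕ) {ι M : Type} [Fintype ι] [AddCommGroup M] [Module K[X][X] M] (h : ι → M)
    (k r : ℕ) : Prop := ∀ v ∈ Zk (K := K) h k, v ∈ Sg (K := K) c h k r

theorem mem_Sg {ι M : Type} [Fintype ι] [AddCommGroup M] [Module K[X][X] M] {h : ι → M}
    {k r : ℕ} {v : ι → K[X][X]} (h1 : v ∈ Lv K c k ι r) (h2 : lc h v = 0) : v ∈ Sg c h k r :=
  mem_Sat_span ⟨⟨fun i => (h1 i).1, h2⟩, h1⟩

theorem xmul {ι : Type} (N : Submodule K[X] (ι → K[X][X])) {k : ℕ} {u : K[X][X]}
    (hu : u.natDegree ≤ k) {z : ι → K[X][X]} (hz : ∀ l ≤ k, (X : K[X][X]) ^ l • z ∈ N) :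
    u • z ∈ N := by
  rw [u.as_sum_range_C_mul_X_pow' (Nat.lt_succ_of_le hu), Finset.sum_smul]
  refine N.sum_mem fun l hl => ?_
  rw [mul_smul, ← dsmul]
  exact N.smul_mem _ (hz l (Nat.lt_succ_iff.1 (Finset.mem_range.1 hl)))

theorem one_mem_Tt : (1 : K[X][X]) ∈ Tt K c 0 0 := by
  simpa using C_mem_Tt (c := c) (r := (1 : K[X])) (J := 0)

theorem X_pow_mem_Tt (l : ℕ) : (X : K[X][X]) ^ l ∈ Tt K c l 0 := by
  induction l with
  | zero => simpa using one_mem_Tt
  | succ l ih => rw [pow_succ']; exact X_mul_mem_Tt (Tt_mono le_rfl (Nat.zero_le _) ih)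

theorem smul_mem_Lv {ι : Type} {k k' J J' : ℕ} {u : K[X][X]} {v : ι → K[X][X]}
    (hu : u ∈ Tt K c k J) (hv : v ∈ Lv K c k' ι J') : u • v ∈ Lv K c (k + k') ι (J + J') :=
  fun i => Tt_mul hu (hv i)

theorem Lv_mono {ι : Type} {k k' J J' : ℕ} (hk : k ≤ k') (hJ : J ≤ J') {v : ι → K[X][X]}
    (hv : v ∈ Lv K c k ι J) : v ∈ Lv K c k' ι J' := fun i => Tt_mono hk hJ (hv i)

theorem single_mem_Lv {ι : Type} [DecidableEq ι] {k J : ℕ} (i : ι) {u : K[X][X]}
    (hu : u ∈ Tt K c k J) : Pi.single i u ∈ Lv K c k ι J := fun j => by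
  rw [Pi.single_apply]
  split_ifs
  · exact hu
  · exact Submodule.zero_mem _

theorem smul_mem_Sg {ι M : Type} [Fintype ι] [AddCommGroup M] [Module K[X][X] M] {h : ι → M}
    {k r : ℕ} {z : ι → K[X][X]} (h1 : z ∈ Lv K c 0 ι r) (h2 : lc h z = 0) {u : K[X][X]}
    (hu : u.natDegree ≤ k) : u • z ∈ Sg c h k r :=
  xmul _ hu fun l hl => mem_Sg (Lv_mono (by omega) (by omega) (smul_mem_Lv (X_pow_mem_Tt l) h1))
    (by rw [map_smul, h2, smul_zero])

theorem ksmul (r : K) (f : K[X][X]) : r • f = C (C r) * f := by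
  rw [Algebra.smul_def]; rfl

/-- A constant matrix acting on coefficient vectors. -/
noncomputable def mt {ι κ : Type} [Fintype ι] (A : ι → κ → K) :
    (ι → K[X][X]) →ₗ[K[X][X]] (κ → K[X][X]) :=
  LinearMap.pi fun j => lc fun i => (C (C (A i j)) : K[X][X])

theorem mt_mem_Lv {ι κ : Type} [Fintype ι] (A : ι → κ → K) {k J : ℕ} {v : ι → K[X][X]}
    (hv : v ∈ Lv K c k ι J) : mt A v ∈ Lv K c k κ J := fun j => by
  rw [mt, LinearMap.pi_apply, lc_apply]
  exact Submodule.sum_mem _ fun i _ => Tt_mul (hv i) (C_mem_Tt (J := 0) (by simp))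

theorem lc_mt {ι κ : Type} [Fintype ι] [Fintype κ] (A : ι → κ → K) {w : ι → K[X][X]}
    {w' : κ → K[X][X]} (h : ∀ i, ∑ j, A i j • w' j = w i) (v : ι → K[X][X]) :
    lc w' (mt A v) = lc w v := by
  simp only [lc_apply, mt, LinearMap.pi_apply, smul_eq_mul, Finset.sum_mul]
  rw [Finset.sum_comm]
  refine Finset.sum_congr rfl fun i _ => ?_
  rw [← h i, Finset.mul_sum]
  exact Finset.sum_congr rfl fun j _ => by rw [ksmul, mul_assoc]

theorem gen_transfer {ι κ : Type} [Fintype ι] [Fintype κ] {w : ι → K[X][X]} {w' : κ → K[X][X]}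
    (e : (Submodule.span K (Set.range w) : Sp K) = Submodule.span K (Set.range w')) {k r : ℕ}
    (h : Gen (K := K) c w k r) : Gen (K := K) c w' k r := by
  classical
  choose A hA using fun i => (Submodule.mem_span_range_iff_exists_fun K).1
    (e ▸ Submodule.subset_span ⟨i, rfl⟩ : w i ∈ (Submodule.span K (Set.range w') : Sp K))
  choose B hB using fun j => (Submodule.mem_span_range_iff_exists_fun K).1
    (e.symm ▸ Submodule.subset_span ⟨j, rfl⟩ : w' j ∈ (Submodule.span K (Set.range w) : Sp K))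
  intro v hv
  obtain ⟨J, hJ⟩ := exists_Lv (c := c) hv.1
  have h1 : mt A (mt B v) ∈ Sg c w' k r :=
    Sat_map ((mt A).restrictScalars K[X]) (fun s hs => mem_Sg (mt_mem_Lv A hs.2)
      ((lc_mt A hA s).trans hs.1.2))
      (h _ ⟨fun i => (mt_mem_Lv B hJ i).1, (lc_mt B hB v).trans hv.2⟩)
  have h2 : v - mt A (mt B v) =
      ∑ j, v j • (Pi.single j (1 : K[X][X]) - mt A (mt B (Pi.single j 1))) := by
    conv_lhs => rw [← Finset.univ_sum_single v]
    rw [map_sum, map_sum, ← Finset.sum_sub_distrib]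
    refine Finset.sum_congr rfl fun j _ => ?_
    rw [smul_sub, ← map_smul, ← map_smul, ← Pi.single_smul, smul_eq_mul, mul_one]
  rw [← sub_add_cancel v (mt A (mt B v)), h2]
  refine Submodule.add_mem _ (Submodule.sum_mem _ fun j _ => smul_mem_Sg ?_ ?_ (hv.1 j)) h1
  · exact Lv_mono le_rfl (Nat.zero_le _) (AddSubgroup.sub_mem _ (single_mem_Lv j one_mem_Tt)
      (mt_mem_Lv A (mt_mem_Lv B (single_mem_Lv j one_mem_Tt))))
  · rw [map_sub, lc_mt A hA, lc_mt B hB, sub_self]

theorem mem_PP_iff {ι : Type} [Fintype ι] (w : ι → K[X][X]) {k J : ℕ} {g : K[X][X]} :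
    g ∈ Tt K c k J * (Submodule.span K (Set.range w) : Sp K) ↔
      ∃ t ∈ Lv K c k ι J, lc w t = g := by
  constructor
  · intro hg
    refine Submodule.mul_induction_on hg (fun a ha b hb => ?_) ?_
    · obtain ⟨l, rfl⟩ := (Submodule.mem_span_range_iff_exists_fun K).1 hb
      refine ⟨fun i => C (C (l i)) * a, fun i => C_mul_mem_Tt ha (by simp), ?_⟩
      rw [lc_apply, Finset.mul_sum]
      exact Finset.sum_congr rfl fun i _ => by rw [ksmul, smul_eq_mul]; ring
    · rintro _ _ ⟨t, ht, rfl⟩ ⟨t', ht', rfl⟩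
      exact ⟨t + t', AddSubgroup.add_mem _ ht ht', map_add _ _ _⟩
  · rintro ⟨t, ht, rfl⟩
    rw [lc_apply]
    exact Submodule.sum_mem _ fun i _ =>
      Submodule.mul_mem_mul (ht i) (Submodule.subset_span ⟨i, rfl⟩)

section Step

variable {ι κ : Type} [Fintype ι] [Fintype κ] [DecidableEq ι] [DecidableEq κ]

/-- The family of products. -/
noncomputable def fm (v : ι → K[X][X]) (w : κ → K[X][X]) : ι × κ → K[X][X] :=
  fun p => v p.1 * w p.2

omit [Fintype ι] [Fintype κ] [DecidableEq ι] [DecidableEq κ] in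
theorem span_fm (v : ι → K[X][X]) (w : κ → K[X][X]) :
    (Submodule.span K (Set.range (fm v w)) : Sp K) =
      (Submodule.span K (Set.range v) : Sp K) * Submodule.span K (Set.range w) := by
  rw [Submodule.span_mul_span]
  congr 1
  ext z
  constructor
  · rintro ⟨p, rfl⟩
    exact ⟨_, ⟨p.1, rfl⟩, _, ⟨p.2, rfl⟩, rfl⟩
  · rintro ⟨_, ⟨i, rfl⟩, _, ⟨j, rfl⟩, rfl⟩
    exact ⟨(i, j), rfl⟩

/-- Place a vector in the row `i`. -/
noncomputable def e1 (K : Type) [Field K] (κ : Type) (i : ι) :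
    (κ → K[X][X]) →ₗ[K[X][X]] (ι × κ → K[X][X]) where
  toFun u p := if p.1 = i then u p.2 else 0
  map_add' u u' := by funext p; by_cases h : p.1 = i <;> simp [h]
  map_smul' r u := by funext p; by_cases h : p.1 = i <;> simp [h]

/-- Place a vector in the column `j`. -/
noncomputable def e2 (K : Type) [Field K] (ι : Type) (j : κ) :
    (ι → K[X][X]) →ₗ[K[X][X]] (ι × κ → K[X][X]) where
  toFun u p := if p.2 = j then u p.1 else 0
  map_add' u u' := by funext p; by_cases h : p.2 = j <;> simp [h]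
  map_smul' r u := by funext p; by_cases h : p.2 = j <;> simp [h]

omit [DecidableEq κ] in
theorem lc_e1 (v : ι → K[X][X]) (w : κ → K[X][X]) (i : ι) (u : κ → K[X][X]) :
    lc (fm v w) (e1 K κ i u) = v i * lc w u := by
  simp only [lc_apply, Fintype.sum_prod_type, e1, fm, LinearMap.coe_mk, AddHom.coe_mk,
    smul_eq_mul, ite_mul, zero_mul, Finset.sum_ite_irrel, Finset.sum_const_zero,
    Finset.sum_ite_eq', Finset.mem_univ, if_true, Finset.mul_sum]
  exact Finset.sum_congr rfl fun j _ => by ring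

omit [DecidableEq ι] in
theorem lc_e2 (v : ι → K[X][X]) (w : κ → K[X][X]) (j : κ) (u : ι → K[X][X]) :
    lc (fm v w) (e2 K ι j u) = lc v u * w j := by
  simp only [lc_apply, Fintype.sum_prod_type, e2, fm, LinearMap.coe_mk, AddHom.coe_mk,
    smul_eq_mul, ite_mul, zero_mul, Finset.sum_ite_eq', Finset.mem_univ, if_true, Finset.sum_mul]
  exact Finset.sum_congr rfl fun i _ => by ring

omit [Fintype ι] [Fintype κ] [DecidableEq κ] in
theorem e1_mem_Lv (i : ι) {k J : ℕ} {u : κ → K[X][X]} (hu : u ∈ Lv K c k κ J) :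
    e1 K κ i u ∈ Lv K c k (ι × κ) J := fun p => by
  show (if p.1 = i then u p.2 else 0) ∈ _
  split_ifs
  · exact hu _
  · exact Submodule.zero_mem _

omit [Fintype ι] [Fintype κ] [DecidableEq ι] in
theorem e2_mem_Lv (j : κ) {k J : ℕ} {u : ι → K[X][X]} (hu : u ∈ Lv K c k ι J) :
    e2 K ι j u ∈ Lv K c k (ι × κ) J := fun p => by
  show (if p.2 = j then u p.1 else 0) ∈ _
  split_ifs
  · exact hu _
  · exact Submodule.zero_mem _

omit [Fintype ι] [Fintype κ] in
theorem e2_single (i : ι) (j : κ) (u : K[X][X]) :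
    e2 K ι j (Pi.single i u) = Pi.single (i, j) u := by
  funext ⟨i', j'⟩
  by_cases h1 : i' = i <;> by_cases h2 : j' = j <;> simp [e2, h1, h2]

omit [Fintype κ] in
theorem e1_sum [Fintype κ] (i : ι) (f : ι × κ → K[X][X]) :
    e1 K κ i (fun j => ∑ i', f (i', j)) = ∑ p : ι × κ, e2 K ι p.2 (Pi.single i (f p)) := by
  funext ⟨i', j'⟩
  by_cases h1 : i' = i <;>
    simp [e1, e2, Finset.sum_apply, Fintype.sum_prod_type, Pi.single_apply, h1]

theorem sum_e2 (z : ι × κ → K[X][X]) : z = ∑ p : ι × κ, e2 K ι p.2 (Pi.single p.1 (z p)) := by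
  simp only [e2_single]
  exact (Finset.univ_sum_single z).symm

omit [DecidableEq ι] [DecidableEq κ] in
theorem lc_fm (v : ι → K[X][X]) (w : κ → K[X][X]) (z : ι × κ → K[X][X]) :
    lc (fm v w) z = lc w fun j => ∑ i, z (i, j) * v i := by
  simp only [lc_apply, Fintype.sum_prod_type, fm, smul_eq_mul, Finset.sum_mul]
  rw [Finset.sum_comm]
  exact Finset.sum_congr rfl fun j _ => Finset.sum_congr rfl fun i _ => by ring

omit [DecidableEq κ] in
theorem e1_mem_Sg (v : ι → K[X][X]) {w : κ → K[X][X]} (i : ι) {k r : ℕ}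
    (h : Gen (K := K) c w k r) {u : κ → K[X][X]} (hu : u ∈ Zk w k) :
    e1 K κ i u ∈ Sg c (fm v w) k r :=
  Sat_map ((e1 K κ i).restrictScalars K[X]) (fun s hs => mem_Sg (e1_mem_Lv i hs.2)
    ((lc_e1 v w i s).trans (by rw [hs.1.2, mul_zero]))) (h u hu)

theorem step_one {v : ι → K[X][X]} {w : κ → K[X][X]} {a k r : ℕ} (har : a ≤ r)
    (hv : Gen (K := K) c v 0 a) {i1 : ι} (h1 : v i1 ≠ 0) {φ : K[X]} (hφ : φ ≠ 0) (φs : ι → K[X])
    (hφs : ∀ i, C φ * v i = C (φs i) * v i1) (hw : Gen (K := K) c w k r) :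
    Gen (K := K) c (fm v w) k r := by
  intro z hz
  refine Sat_cancel hφ ?_
  have key : φ • z = (∑ p : ι × κ, z p • e2 K ι p.2
      (Pi.single p.1 (C φ) - Pi.single i1 (C (φs p.1)))) +
      e1 K κ i1 (fun j => ∑ i, z (i, j) * C (φs i)) := by
    rw [e1_sum i1 fun p => z p * C (φs p.1), ← Finset.sum_add_distrib, dsmul]
    conv_lhs => rw [sum_e2 z, Finset.smul_sum]
    refine Finset.sum_congr rfl fun p _ => ?_
    rw [← map_smul, ← map_smul, ← map_add, smul_sub, ← Pi.single_smul, ← Pi.single_smul,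
      ← Pi.single_smul]
    simp only [smul_eq_mul, mul_comm, sub_add_cancel]
  rw [key]
  refine Submodule.add_mem _ (Submodule.sum_mem _ fun p _ => xmul _ (hz.1 p) fun l hl => ?_)
    (e1_mem_Sg v i1 hw ⟨fun j => natDegree_sum_le_of_forall_le _ _ fun i _ =>
      natDegree_mul_le.trans (by simpa using hz.1 (i, j)), ?_⟩)
  · refine Sat_map ((((X : K[X][X]) ^ l) • e2 K ι p.2).restrictScalars K[X])
      (fun s hs => mem_Sg (Lv_mono (by omega) (by omega)
        (smul_mem_Lv (X_pow_mem_Tt l) (e2_mem_Lv p.2 hs.2))) ?_) (hv _ ⟨fun i => ?_, ?_⟩)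
    · show lc (fm v w) ((X : K[X][X]) ^ l • e2 K ι p.2 s) = 0
      rw [map_smul, lc_e2, hs.1.2, zero_mul, smul_zero]
    · refine (natDegree_sub_le _ _).trans (max_le ?_ ?_) <;> rw [Pi.single_apply] <;>
        split_ifs <;> simp
    · rw [map_sub, lc_single, lc_single, smul_eq_mul, smul_eq_mul, hφs, sub_self]
  · apply mul_left_cancel₀ h1
    have h2 := hz.2
    rw [lc_fm] at h2
    rw [mul_zero, ← smul_eq_mul, ← map_smul, ← smul_zero (C φ : K[X][X]), ← h2, ← map_smul]
    congr 1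
    funext j
    simp only [Pi.smul_apply, smul_eq_mul, Finset.mul_sum]
    exact Finset.sum_congr rfl fun i _ => by linear_combination -z (i, j) * hφs i

theorem step_zero {v : ι → K[X][X]} (w : κ → K[X][X]) (k r : ℕ) (hv : ∀ i, v i = 0) :
    Gen (K := K) c (fm v w) k r := by
  intro z hz
  rw [← Finset.univ_sum_single z]
  refine Submodule.sum_mem _ fun p _ => ?_
  have := smul_mem_Sg (c := c) (h := fm v w) (r := r) (z := Pi.single p 1)
    (Lv_mono le_rfl (Nat.zero_le _) (single_mem_Lv p one_mem_Tt))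
    (by rw [lc_single]; simp [fm, hv]) (hz.1 p)
  rwa [← Pi.single_smul, smul_eq_mul, mul_one] at this

/-- The determinant of two linear forms. -/
noncomputable def dt (u u' : K[X][X]) : K[X] := u.coeff 0 * u'.coeff 1 - u'.coeff 0 * u.coeff 1

theorem cram {u v1 v2 : K[X][X]} (hu : u.natDegree ≤ 1) (h1 : v1.natDegree ≤ 1)
    (h2 : v2.natDegree ≤ 1) : C (dt v1 v2) * u = C (dt u v2) * v1 + C (dt v1 u) * v2 := by
  have e := eq_X_add_C_of_natDegree_le_one hu
  have e1 := eq_X_add_C_of_natDegree_le_one h1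
  have e2 := eq_X_add_C_of_natDegree_le_one h2
  simp only [dt, map_sub, map_mul]
  linear_combination (C (v1.coeff 0) * C (v2.coeff 1) - C (v2.coeff 0) * C (v1.coeff 1)) * e -
    (C (u.coeff 0) * C (v2.coeff 1) - C (v2.coeff 0) * C (u.coeff 1)) * e1 -
    (C (v1.coeff 0) * C (u.coeff 1) - C (u.coeff 0) * C (v1.coeff 1)) * e2

theorem dt_deg {J J' : ℕ} {u u' : K[X][X]} (hu : u ∈ Tt K c 1 J) (hu' : u' ∈ Tt K c 1 J') :
    (dt u u').natDegree ≤ J + J' + c := by
  have h1 := hu.2 0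
  have h2 := hu.2 1
  have h3 := hu'.2 0
  have h4 := hu'.2 1
  exact (natDegree_sub_le _ _).trans (max_le (natDegree_mul_le.trans (by omega))
    (natDegree_mul_le.trans (by omega)))

/-- The adjugate map. -/
noncomputable def th (κ : Type) (v : ι → K[X][X]) (i1 i2 : ι) :
    (κ → K[X][X]) →ₗ[K[X]] (ι × κ → K[X][X]) where
  toFun ζ := e1 K κ i1 (fun j => C (dt (ζ j) (v i2))) + e1 K κ i2 (fun j => C (dt (v i1) (ζ j)))
  map_add' u u' := by
    rw [add_add_add_comm, ← map_add, ← map_add]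
    congr 2 <;> funext j <;> simp only [dt, Pi.add_apply, coeff_add, ← map_add] <;> congr 1 <;> ring
  map_smul' r u := by
    rw [RingHom.id_apply, smul_add, dsmul r (e1 K κ i1 _), dsmul r (e1 K κ i2 _), ← map_smul,
      ← map_smul]
    congr 2 <;> funext j <;>
      simp only [dt, Pi.smul_apply, coeff_smul, smul_eq_mul, ← map_mul] <;> congr 1 <;> ring

theorem step_beta {v : ι → K[X][X]} {w : κ → K[X][X]} {a : ℕ} (hv : ∀ i, v i ∈ Tt K c 1 a)
    {i1 i2 : ι} (hδ : dt (v i1) (v i2) ≠ 0) (hw : Gen (K := K) c w 1 a) :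
    Gen (K := K) c (fm v w) 0 (a + a + c) := by
  intro z hz
  refine Sat_cancel hδ ?_
  have hz0 : ∀ p, z p = C ((z p).coeff 0) := fun p => eq_C_of_natDegree_le_zero (hz.1 p)
  have hs : ∀ (j : κ) (u : K[X][X]), C (dt (∑ i, z (i, j) * v i) u) =
      ∑ i, z (i, j) * C (dt (v i) u) := by
    intro j u
    simp only [dt, finsetSum_coeff, Finset.sum_mul, Finset.mul_sum, ← Finset.sum_sub_distrib,
      map_sum]
    refine Finset.sum_congr rfl fun i _ => ?_
    rw [hz0 (i, j), coeff_C_mul, coeff_C_mul, ← map_mul]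
    congr 1; ring
  have hs' : ∀ (j : κ) (u : K[X][X]), C (dt u (∑ i, z (i, j) * v i)) =
      ∑ i, z (i, j) * C (dt u (v i)) := by
    intro j u
    simp only [dt, finsetSum_coeff, Finset.sum_mul, Finset.mul_sum, ← Finset.sum_sub_distrib,
      map_sum]
    refine Finset.sum_congr rfl fun i _ => ?_
    rw [hz0 (i, j), coeff_C_mul, coeff_C_mul, ← map_mul]
    congr 1; ring
  have key : dt (v i1) (v i2) • z = (∑ p : ι × κ, z p • e2 K ι p.2
      (Pi.single p.1 (C (dt (v i1) (v i2))) - Pi.single i1 (C (dt (v p.1) (v i2))) -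
        Pi.single i2 (C (dt (v i1) (v p.1))))) +
      th κ v i1 i2 (fun j => ∑ i, z (i, j) * v i) := by
    show _ = _ + (e1 K κ i1 _ + e1 K κ i2 _)
    simp only [hs, hs']
    rw [e1_sum i1 fun p => z p * C (dt (v p.1) (v i2)),
      e1_sum i2 fun p => z p * C (dt (v i1) (v p.1)), ← Finset.sum_add_distrib,
      ← Finset.sum_add_distrib, dsmul]
    conv_lhs => rw [sum_e2 z, Finset.smul_sum]
    refine Finset.sum_congr rfl fun p _ => ?_
    rw [← map_smul, ← map_smul, ← map_add, ← map_add, smul_sub, smul_sub, ← Pi.single_smul,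
      ← Pi.single_smul, ← Pi.single_smul, ← Pi.single_smul]
    simp only [smul_eq_mul, mul_comm]
    congr 1; abel
  rw [key]
  refine Submodule.add_mem _ (Submodule.sum_mem _ fun p _ => smul_mem_Sg (e2_mem_Lv _ ?_) ?_
    (hz.1 p)) (Sat_map (th κ v i1 i2) (fun s hs => mem_Sg ?_ ?_) (hw _ ⟨fun j => ?_, ?_⟩))
  · exact AddSubgroup.sub_mem _ (AddSubgroup.sub_mem _
      (single_mem_Lv _ (C_mem_Tt (dt_deg (hv _) (hv _))))
      (single_mem_Lv _ (C_mem_Tt (dt_deg (hv _) (hv _)))))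
      (single_mem_Lv _ (C_mem_Tt (dt_deg (hv _) (hv _))))
  · rw [lc_e2, map_sub, map_sub, lc_single, lc_single, lc_single]
    simp only [smul_eq_mul]
    rw [cram (hv p.1).1 (hv i1).1 (hv i2).1]
    ring
  · exact AddSubgroup.add_mem _ (e1_mem_Lv _ fun j => C_mem_Tt (dt_deg (hs.2 j) (hv _)))
      (e1_mem_Lv _ fun j => C_mem_Tt (dt_deg (hv _) (hs.2 j)))
  · show lc _ (e1 K κ i1 _ + e1 K κ i2 _) = 0
    rw [map_add, lc_e1, lc_e1, ← smul_eq_mul, ← smul_eq_mul (v i2), ← map_smul, ← map_smul,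
      ← map_add, ← smul_zero (C (dt (v i1) (v i2)) : K[X][X]), ← hs.1.2, ← map_smul]
    congr 1
    funext j
    simp only [Pi.add_apply, Pi.smul_apply, smul_eq_mul]
    rw [cram (hs.1.1 j) (hv i1).1 (hv i2).1]
    ring
  · exact natDegree_sum_le_of_forall_le _ _ fun i _ =>
      natDegree_mul_le.trans (by have := hz.1 (i, j); have := (hv i).1; omega)
  · rw [← lc_fm]; exact hz.2

theorem step_gamma {v : ι → K[X][X]} {w : κ → K[X][X]} {a : ℕ} (hv : ∀ i, v i ∈ Tt K c 1 a)
    {i1 i2 : ι} (hδ : dt (v i1) (v i2) ≠ 0) (hw : Gen (K := K) c w 1 a)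
    (hsat : ∀ t t' : κ → K[X][X], (∀ j, (t j).natDegree ≤ 1) → (∀ j, (t' j).natDegree ≤ 1) →
      X * lc w t = lc w t' → ∃ t0 : κ → K[X][X], (∀ j, (t0 j).natDegree ≤ 0) ∧ lc w t0 = lc w t) :
    Gen (K := K) c (fm v w) 1 a := by
  intro z hz
  refine Sat_cancel hδ (Sat_cancel hδ ?_)
  have kos : ∀ (i i' : ι) (j : κ) (u : K[X]), (C u : K[X][X]) • e2 K ι j
      (Pi.single i (v i') - Pi.single i' (v i)) ∈ Sg c (fm v w) 1 a := by
    intro i i' j u
    rw [← dsmul]
    refine Submodule.smul_mem _ _ (mem_Sg (e2_mem_Lv _ (AddSubgroup.sub_mem _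
      (single_mem_Lv _ (hv _)) (single_mem_Lv _ (hv _)))) ?_)
    rw [lc_e2, map_sub, lc_single, lc_single, smul_eq_mul, smul_eq_mul]
    ring
  set c1 : κ → K[X][X] := fun j => ∑ i, C (dt (z (i, j)) (v i2)) * v i with hc1
  set c2 : κ → K[X][X] := fun j => ∑ i, C (dt (v i1) (z (i, j))) * v i with hc2
  have key : dt (v i1) (v i2) • z = (∑ p : ι × κ, ((C (dt (z p) (v i2)) : K[X][X]) • e2 K ι p.2
      (Pi.single p.1 (v i1) - Pi.single i1 (v p.1)) + (C (dt (v i1) (z p)) : K[X][X]) • e2 K ι p.2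
      (Pi.single p.1 (v i2) - Pi.single i2 (v p.1)))) + (e1 K κ i1 c1 + e1 K κ i2 c2) := by
    rw [hc1, hc2, e1_sum i1 fun p => C (dt (z p) (v i2)) * v p.1,
      e1_sum i2 fun p => C (dt (v i1) (z p)) * v p.1, ← Finset.sum_add_distrib,
      ← Finset.sum_add_distrib, dsmul]
    conv_lhs => rw [sum_e2 z, Finset.smul_sum]
    refine Finset.sum_congr rfl fun p _ => ?_
    rw [← map_smul, ← map_smul, ← map_smul, ← map_add, ← map_add, ← map_add, smul_sub, smul_sub,
      ← Pi.single_smul, ← Pi.single_smul, ← Pi.single_smul, ← Pi.single_smul, ← Pi.single_smul]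
    simp only [smul_eq_mul]
    rw [cram (hz.1 p) (hv i1).1 (hv i2).1, Pi.single_add]
    congr 1; abel
  have d1 : ∀ j, (c1 j).natDegree ≤ 1 := fun j => natDegree_sum_le_of_forall_le _ _ fun i _ =>
    (natDegree_C_mul_le _ _).trans (hv i).1
  have d2 : ∀ j, (c2 j).natDegree ≤ 1 := fun j => natDegree_sum_le_of_forall_le _ _ fun i _ =>
    (natDegree_C_mul_le _ _).trans (hv i).1
  have rel : v i1 * lc w c1 + v i2 * lc w c2 = 0 := by
    have h2 := hz.2
    rw [lc_fm] at h2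
    rw [← smul_eq_mul, ← smul_eq_mul (v i2), ← map_smul, ← map_smul, ← map_add,
      ← smul_zero (C (dt (v i1) (v i2)) : K[X][X]), ← h2, ← map_smul]
    congr 1
    funext j
    simp only [Pi.add_apply, Pi.smul_apply, smul_eq_mul, hc1, hc2, Finset.mul_sum,
      ← Finset.sum_add_distrib]
    refine Finset.sum_congr rfl fun i _ => ?_
    linear_combination -v i * cram (hz.1 (i, j)) (hv i1).1 (hv i2).1
  have e1' := eq_X_add_C_of_natDegree_le_one (hv i1).1
  have e2' := eq_X_add_C_of_natDegree_le_one (hv i2).1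
  have dd : ∀ (r r' : K[X]) (j : κ),
      (((C r : K[X][X]) • c1 + (C r' : K[X][X]) • c2) j).natDegree ≤ 1 := fun r r' j =>
    (natDegree_add_le _ _).trans (max_le ((natDegree_C_mul_le _ _).trans (d1 j))
      ((natDegree_C_mul_le _ _).trans (d2 j)))
  obtain ⟨t0, ht0, e0⟩ := hsat _ _ (dd (-(v i1).coeff 1) (-(v i2).coeff 1))
    (dd ((v i1).coeff 0) ((v i2).coeff 0)) (by
      simp only [map_add, map_smul, smul_eq_mul, map_neg]
      linear_combination -rel + lc w c1 * e1' + lc w c2 * e2')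
  simp only [map_add, map_smul, smul_eq_mul, map_neg] at e0
  have hδ1 : (C (dt (v i1) (v i2)) : K[X][X]) =
      C ((v i2).coeff 1) * v i1 - C ((v i1).coeff 1) * v i2 := by
    simp only [dt, map_sub, map_mul]
    linear_combination -C ((v i2).coeff 1) * e1' + C ((v i1).coeff 1) * e2'
  have key2 : dt (v i1) (v i2) • (e1 K κ i1 c1 + e1 K κ i2 c2) =
      e1 K κ i1 ((C (dt (v i1) (v i2)) : K[X][X]) • c1 - v i2 • t0) +
      e1 K κ i2 ((C (dt (v i1) (v i2)) : K[X][X]) • c2 + v i1 • t0) +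
      ∑ j, (C ((t0 j).coeff 0) : K[X][X]) • e2 K ι j
        (Pi.single i1 (v i2) - Pi.single i2 (v i1)) := by
    have h3 : ∑ j, (C ((t0 j).coeff 0) : K[X][X]) • e2 K ι j
        (Pi.single i1 (v i2) - Pi.single i2 (v i1)) =
        e1 K κ i1 (v i2 • t0) - e1 K κ i2 (v i1 • t0) := by
      funext ⟨i, j⟩
      have := eq_C_of_natDegree_le_zero (ht0 j)
      simp only [e1, e2, Finset.sum_apply, Pi.smul_apply, LinearMap.coe_mk, AddHom.coe_mk,
        smul_eq_mul, mul_ite, mul_zero, Finset.sum_ite_eq, Finset.mem_univ, if_true, Pi.sub_apply,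
        Pi.single_apply, ← this]
      split_ifs <;> ring
    rw [h3, dsmul, map_sub, map_add, map_smul, map_smul (e1 K κ i2) (C _), smul_add]
    abel
  have dl : ∀ (i : ι) (j : κ), (v i * t0 j).natDegree ≤ 1 := fun i j =>
    natDegree_mul_le.trans (by have := (hv i).1; have := ht0 j; omega)
  rw [key, smul_add, key2]
  refine Submodule.add_mem _ (Submodule.smul_mem _ _ (Submodule.sum_mem _ fun p _ =>
    Submodule.add_mem _ (kos _ _ _ _) (kos _ _ _ _))) (Submodule.add_mem _ (Submodule.add_mem _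
      (e1_mem_Sg v i1 hw ⟨fun j => ?_, ?_⟩) (e1_mem_Sg v i2 hw ⟨fun j => ?_, ?_⟩))
      (Submodule.sum_mem _ fun j _ => kos _ _ _ _))
  · exact (natDegree_sub_le _ _).trans (max_le ((natDegree_C_mul_le _ _).trans (d1 j)) (dl i2 j))
  · simp only [map_sub, map_smul, smul_eq_mul, e0, hδ1]
    linear_combination C ((v i2).coeff 1) * rel
  · exact (natDegree_add_le _ _).trans (max_le ((natDegree_C_mul_le _ _).trans (d2 j)) (dl i1 j))
  · simp only [map_add, map_smul, smul_eq_mul, e0, hδ1]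
    linear_combination -C ((v i1).coeff 1) * rel

end Step

end Pool.Agent.MP_36bee5_al.Scr
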