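import Pool.Agent.MP_36bee5_al.ScrSat

set_option autoImplicit false

/-!
Saturation of products of spaces of linear forms on a scroll: finite places and infinity.
-/

namespace Pool.Agent.MP_36bee5_al.Scr

open Polynomial

variable {K : Type} [Field K]

/-- Subspaces of `K[y][x]`. -/
abbrev Sp (K : Type) [Field K] : Type := @Submodule K K[X][X] _ _ Algebra.toModule

/-- Polynomials of `x`-degree at most `k` whose `i`-th coefficient has degree at most
`J + i c`. -/
noncomputable def Tt (K : Type) [Field K] (c k J : ℕ) : Sp K where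
  carrier := {f | f.natDegree ≤ k ∧ ∀ i, (f.coeff i).natDegree ≤ J + i * c}
  add_mem' ha hb := ⟨(natDegree_add_le _ _).trans (max_le ha.1 hb.1), fun i => by
    rw [coeff_add]; exact (natDegree_add_le _ _).trans (max_le (ha.2 i) (hb.2 i))⟩
  zero_mem' := ⟨by simp, by simp⟩
  smul_mem' r f hf := ⟨(natDegree_smul_le r f).trans hf.1, fun i =>
    (natDegree_smul_le r (f.coeff i)).trans (hf.2 i)⟩

variable {c : ℕ}

theorem mem_Tt {k J : ℕ} {f : K[X][X]} :
    f ∈ Tt K c k J ↔ f.natDegree ≤ k ∧ ∀ i, (f.coeff i).natDegree ≤ J + i * c := Iff.rfl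

theorem Tt_mono {k k' J J' : ℕ} (hk : k ≤ k') (hJ : J ≤ J') : Tt K c k J ≤ Tt K c k' J' :=
  fun _ hf => ⟨hf.1.trans hk, fun i => (hf.2 i).trans (by omega)⟩

theorem Tt_mul {k k' J J' : ℕ} {f g : K[X][X]} (hf : f ∈ Tt K c k J) (hg : g ∈ Tt K c k' J') :
    f * g ∈ Tt K c (k + k') (J + J') := by
  refine ⟨natDegree_mul_le.trans (add_le_add hf.1 hg.1), fun i => ?_⟩
  rw [coeff_mul]
  refine natDegree_sum_le_of_forall_le _ _ fun p hp => natDegree_mul_le.trans ?_
  have h1 := hf.2 p.1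
  have h2 := hg.2 p.2
  have h3 : p.1 + p.2 = i := by simpa using hp
  rw [← h3, add_mul]
  omega

theorem C_mem_Tt {J : ℕ} {r : K[X]} (hr : r.natDegree ≤ J) : C r ∈ Tt K c 0 J :=
  ⟨by simp, fun i => by
    rw [coeff_C]
    split_ifs
    · omega
    · simp⟩

theorem CX_mem_Tt {J : ℕ} {r : K[X]} (hr : r.natDegree ≤ J + c) : C r * X ∈ Tt K c 1 J :=
  ⟨natDegree_mul_le.trans (by simp), fun i => by
    rw [coeff_C_mul, coeff_X]
    split_ifs with h
    · rw [← h]; simpa using hr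
    · simp⟩

theorem X_mul_mem_Tt {k J : ℕ} {f : K[X][X]} (hf : f ∈ Tt K c k (J + c)) :
    X * f ∈ Tt K c (k + 1) J :=
  ⟨natDegree_mul_le.trans (by have := hf.1; have := natDegree_X_le (R := K[X]); omega), fun i => by
    rcases i with _ | i
    · simp
    · rw [coeff_X_mul]
      have := hf.2 i
      rw [add_mul]; omega⟩

theorem exists_Tt {k : ℕ} {f : K[X][X]} (hf : f.natDegree ≤ k) : ∃ J, f ∈ Tt K c k J := by
  refine ⟨f.support.sup fun i => (f.coeff i).natDegree, hf, fun i => ?_⟩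
  by_cases hi : i ∈ f.support
  · exact (Finset.le_sup (f := fun i => (f.coeff i).natDegree) hi).trans (Nat.le_add_right _ _)
  · rw [notMem_support_iff.1 hi]; simp

theorem mul_mem_PP {k k' J J' : ℕ} {W : Sp K} {u t : K[X][X]} (hu : u ∈ Tt K c k J)
    (ht : t ∈ Tt K c k' J' * W) : u * t ∈ Tt K c (k + k') (J + J') * W := by
  refine Submodule.mul_induction_on ht (fun a ha w hw => ?_) (fun a b ha hb => ?_)
  · rw [← mul_assoc]; exact Submodule.mul_mem_mul (Tt_mul hu ha) hw
  · rw [mul_add]; exact Submodule.add_mem _ ha hb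

theorem PP_mono {k k' J J' : ℕ} (W : Sp K) (hk : k ≤ k') (hJ : J ≤ J') :
    Tt K c k J * W ≤ Tt K c k' J' * W := mul_le_mul_left (Tt_mono hk hJ) W

theorem C_mul_mem_PP {k J J' : ℕ} {W : Sp K} {r : K[X]} {t : K[X][X]}
    (ht : t ∈ Tt K c k J * W) (hr : r.natDegree + J ≤ J') : C r * t ∈ Tt K c k J' * W :=
  PP_mono W (by omega) hr (mul_mem_PP (C_mem_Tt le_rfl) ht)

/-- The function field. -/
abbrev FF (K : Type) [Field K] : Type := FractionRing K[X]

/-- The inclusion of `K[y]` in its function field. -/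
noncomputable abbrev ph (r : K[X]) : FF K := algebraMap K[X] (FF K) r

/-- The inclusion of `K[y][x]` in `K(y)[x]`. -/
noncomputable def Ph (K : Type) [Field K] : K[X][X] →+* (FF K)[X] :=
  mapRingHom (algebraMap K[X] (FF K))

theorem ph_ne {r : K[X]} (hr : r ≠ 0) : ph r ≠ 0 :=
  (map_ne_zero_iff _ (IsFractionRing.injective K[X] (FF K))).2 hr

theorem ph_inj {r s : K[X]} (h : ph r = ph s) : r = s := IsFractionRing.injective K[X] (FF K) h

theorem Ph_inj : Function.Injective (Ph K) :=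
  map_injective _ (IsFractionRing.injective K[X] (FF K))

theorem Ph_C_mul (r : K[X]) (f : K[X][X]) : Ph K (C r * f) = ph r • Ph K f := by
  rw [smul_eq_C_mul, map_mul]
  simp [Ph]

/-- The lattice spanned by a subspace. -/
noncomputable def la (O : Subring (FF K)) (Y : Sp K) : Lat O := Submodule.span O (Ph K '' Y)

variable {O : Subring (FF K)} {π : FF K}

theorem mem_la {Y : Sp K} {f : K[X][X]} (hf : f ∈ Y) : Ph K f ∈ la O Y :=
  Submodule.subset_span ⟨f, hf, rfl⟩

theorem la_le {Y : Sp K} {M : Lat O} (h : ∀ f ∈ Y, Ph K f ∈ M) : la O Y ≤ M := by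
  rw [la, Submodule.span_le]
  rintro _ ⟨f, hf, rfl⟩
  exact h f hf

theorem la_mul (Y Y' : Sp K) : la O (Y * Y') = la O Y * la O Y' := by
  apply le_antisymm
  · refine la_le fun f hf => Submodule.mul_induction_on hf (fun a ha b hb => ?_)
      (fun a b ha hb => ?_)
    · rw [map_mul]; exact Submodule.mul_mem_mul (mem_la ha) (mem_la hb)
    · rw [map_add]; exact Submodule.add_mem _ ha hb
  · rw [la, la, Submodule.span_mul_span, Submodule.span_le]
    rintro _ ⟨_, ⟨a, ha, rfl⟩, _, ⟨b, hb, rfl⟩, rfl⟩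
    show Ph K a * Ph K b ∈ _
    rw [← map_mul]
    exact mem_la (Submodule.mul_mem_mul ha hb)

theorem la_prod (hK : ∀ r : K, ph (C r) ∈ O) {ι : Type} (s : Finset ι) (V : ι → Sp K) :
    la O (∏ j ∈ s, V j) = ∏ j ∈ s, la O (V j) := by
  classical
  induction s using Finset.induction_on with
  | empty =>
    rw [Finset.prod_empty, Finset.prod_empty]
    apply le_antisymm
    · refine la_le fun f hf => ?_
      obtain ⟨r, rfl⟩ := Submodule.mem_one.1 hf
      have : Ph K (algebraMap K K[X][X] r) = ph (C r) • (1 : (FF K)[X]) := by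
        rw [← map_one (Ph K), ← Ph_C_mul, mul_one]; rfl
      rw [this]
      exact smul_mem' (hK r) (Submodule.one_le.1 le_rfl)
    · rw [Submodule.one_le, ← map_one (Ph K)]
      exact mem_la (Submodule.one_le.1 le_rfl)
  | insert a s ha ih => rw [Finset.prod_insert ha, Finset.prod_insert ha, la_mul, ih]

theorem pow_mem_pw (κ : FF K) (k : ℕ) : ∀ i ≤ k, (κ • X) ^ i ∈ pw (lat O 1 (κ • X)) k := by
  induction k with
  | zero =>
    intro i hi
    rw [Nat.le_zero.1 hi, pow_zero, pw_zero]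
    exact Submodule.one_le.1 le_rfl
  | succ k ih =>
    intro i hi
    rw [pw_succ]
    rcases i with _ | i
    · have := Submodule.mul_mem_mul (left_mem_lat (O := O) 1 (κ • X)) (ih 0 (Nat.zero_le _))
      rwa [one_mul] at this
    · rw [pow_succ']
      exact Submodule.mul_mem_mul (right_mem_lat _ _) (ih i (by omega))

theorem Tt_mem_pw {κ σ : FF K} (hκ : κ ≠ 0) {k J : ℕ}
    (hσ : ∀ (i : ℕ) (r : K[X]), r.natDegree ≤ J + i * c → ph r / (σ * κ ^ i) ∈ O)
    {f : K[X][X]} (hf : f ∈ Tt K c k J) : σ⁻¹ • Ph K f ∈ pw (lat O 1 (κ • X)) k := by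
  rw [f.as_sum_range_C_mul_X_pow' (Nat.lt_succ_of_le hf.1), map_sum, Finset.smul_sum]
  refine Submodule.sum_mem _ fun i hi => ?_
  have : σ⁻¹ • Ph K (C (f.coeff i) * X ^ i) =
      (ph (f.coeff i) / (σ * κ ^ i)) • (κ • X : (FF K)[X]) ^ i := by
    rw [Ph_C_mul, _root_.smul_pow, smul_smul, smul_smul]
    have : Ph K (X ^ i) = X ^ i := by simp [Ph]
    rw [this]
    congr 1
    field_simp
  rw [this]
  exact smul_mem' (hσ i _ (hf.2 i)) (pow_mem_pw κ k i (Nat.lt_succ_iff.1 (Finset.mem_range.1 hi)))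

theorem pw_le_la {κ0 : K[X]} (hκ : κ0.natDegree ≤ c) (k : ℕ) :
    pw (lat O 1 (ph κ0 • X)) k ≤ la O (Tt K c k 0) := by
  have h1 : (1 : K[X][X]) ∈ Tt K c 0 0 := by simpa using C_mem_Tt (c := c) (r := (1 : K[X])) (J := 0)
  induction k with
  | zero =>
    rw [pw_zero, Submodule.one_le, ← map_one (Ph K)]
    exact mem_la h1
  | succ k ih =>
    rw [pw_succ]
    have h2 : lat O 1 (ph κ0 • X) ≤ la O (Tt K c 1 0) := by
      refine lat_le ?_ ?_
      · rw [← map_one (Ph K)]; exact mem_la (Tt_mono (by omega) le_rfl h1)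
      · have : ph κ0 • (X : (FF K)[X]) = Ph K (C κ0 * X) := by rw [Ph_C_mul]; simp [Ph]
        rw [this]
        exact mem_la (CX_mem_Tt (by omega))
    refine (mul_le_mul' h2 ih).trans ?_
    rw [← la_mul]
    refine Submodule.span_mono (Set.image_mono ?_)
    refine Submodule.mul_le.2 fun a ha b hb => ?_
    have := Tt_mul ha hb
    rwa [Nat.add_comm 1 k] at this

theorem loc (h : IsPlace O π) (hK : ∀ r : K, ph (C r) ∈ O) {κ0 : K[X]} (hκ0 : κ0 ≠ 0)
    (hκ : κ0.natDegree ≤ c) (σ : ℕ → FF K) (hσ0 : ∀ J, σ J ≠ 0)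
    (hσ : ∀ (J i : ℕ) (r : K[X]), r.natDegree ≤ J + i * c → ph r / (σ J * ph κ0 ^ i) ∈ O)
    {ι : Type} (s : Finset ι) (V : ι → Sp K) {a : ℕ} (hV : ∀ j ∈ s, V j ≤ Tt K c 1 a)
    {k J1 J2 : ℕ} {τ : FF K} (h1 : σ J1 / τ ∈ O) (h2 : ph κ0 * σ J2 / τ ∈ O) {g : K[X][X]}
    (hg1 : g ∈ Tt K c (k + 1) J1 * ∏ j ∈ s, V j) (hg2 : X * g ∈ Tt K c (k + 1) J2 * ∏ j ∈ s, V j) :
    τ⁻¹ • Ph K g ∈ la O (Tt K c k 0 * ∏ j ∈ s, V j) := by
  classical
  have hκ' := ph_ne hκ0
  set N := lat O 1 (ph κ0 • X) with hN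
  have key : ∀ (J : ℕ) (u : K[X][X]), u ∈ Tt K c (k + 1) J * ∏ j ∈ s, V j →
      (σ J)⁻¹ • Ph K u ∈ N * (pw N k * ∏ j ∈ s, la O (V j)) := by
    intro J u hu
    rw [← mul_assoc, ← pw_succ, ← la_prod hK]
    refine Submodule.mul_induction_on hu (fun a ha b hb => ?_) (fun a b ha hb => ?_)
    · rw [map_mul, ← smul_mul_assoc]
      exact Submodule.mul_mem_mul (Tt_mem_pw hκ' (hσ J) ha) (mem_la hb)
    · rw [map_add, smul_add]; exact Submodule.add_mem _ ha hb
  have hprod : ∏ j ∈ (Finset.range k).disjSum s,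
      Sum.elim (fun _ : ℕ => N) (fun j => la O (V j)) j = pw N k * ∏ j ∈ s, la O (V j) := by
    rw [Finset.prod_disjSum]; rfl
  have := sat h hκ' (Sum.elim (fun _ : ℕ => N) (fun j => la O (V j)))
    ((Finset.range k).disjSum s) (by
      rintro (j | j) hj
      · exact ⟨1, one_ne_zero, by simp [hN]⟩
      · refine ⟨σ a, hσ0 a, ?_⟩
        rw [lat_smul (hσ0 a)]
        refine la_le fun f hf => ?_
        rw [mem_sc_mul (hσ0 a)]
        have := Tt_mem_pw hκ' (hσ a) (hV j (by simpa using hj) hf)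
        rwa [pw_succ, pw_zero, mul_one] at this) (τ⁻¹ • Ph K g) (by
      rw [hprod]
      have := smul_mem' h1 (key J1 g hg1)
      rwa [smul_smul, show σ J1 / τ * (σ J1)⁻¹ = τ⁻¹ by have := hσ0 J1; field_simp] at this) (by
      rw [hprod]
      have := smul_mem' h2 (key J2 _ hg2)
      rw [smul_smul, show ph κ0 * σ J2 / τ * (σ J2)⁻¹ = τ⁻¹ * ph κ0 by
        have := hσ0 J2; field_simp, map_mul, show Ph K X = X by simp [Ph]] at this
      rwa [mul_smul_comm, smul_mul_assoc, smul_smul])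
  rw [hprod] at this
  rw [la_mul, la_prod hK]
  exact mul_le_mul_left (pw_le_la hκ k) _ this

/-- The local ring at a prime polynomial. -/
noncomputable def Ofin (p : K[X]) (hp : Prime p) : Subring (FF K) where
  carrier := {f | ∃ r s : K[X], ¬ p ∣ s ∧ f * ph s = ph r}
  mul_mem' := by
    rintro f g ⟨r, s, hs, e⟩ ⟨r', s', hs', e'⟩
    exact ⟨r * r', s * s', hp.not_dvd_mul hs hs', by
      simp only [ph, map_mul] at *; linear_combination (g * algebraMap _ _ s') * e + algebraMap _ _ r * e'⟩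
  one_mem' := ⟨1, 1, hp.not_dvd_one, by simp⟩
  add_mem' := by
    rintro f g ⟨r, s, hs, e⟩ ⟨r', s', hs', e'⟩
    exact ⟨r * s' + r' * s, s * s', hp.not_dvd_mul hs hs', by
      simp only [ph, map_mul, map_add] at *
      linear_combination (algebraMap _ _ s') * e + algebraMap _ _ s * e'⟩
  zero_mem' := ⟨0, 1, hp.not_dvd_one, by simp⟩
  neg_mem' := by
    rintro f ⟨r, s, hs, e⟩
    exact ⟨-r, s, hs, by simp only [ph, map_neg] at *; linear_combination -e⟩

theorem ph_mem_Ofin {p : K[X]} (hp : Prime p) (r : K[X]) : ph r ∈ Ofin p hp :=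
  ⟨r, 1, hp.not_dvd_one, by simp⟩

theorem place_fin {p : K[X]} (hp : Prime p) : IsPlace (Ofin p hp) (ph p) where
  mem := ph_mem_Ofin hp p
  ne := ph_ne hp.ne_zero
  inv := by
    rintro ⟨r, s, hs, e⟩
    refine hs ⟨r, ph_inj ?_⟩
    have := ph_ne hp.ne_zero
    simp only [ph, map_mul] at *
    rw [← e]; field_simp
  dich := by
    rintro a ⟨r, s, hs, e⟩
    have hs0 : ph s ≠ 0 := ph_ne (by rintro rfl; exact hs (dvd_zero p))
    have hp0 := ph_ne hp.ne_zero
    by_cases hr : p ∣ r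
    · obtain ⟨r', rfl⟩ := hr
      refine Or.inr ⟨r', s, hs, ?_⟩
      simp only [ph, map_mul] at *
      field_simp
      linear_combination e
    · have hr0 : ph r ≠ 0 := ph_ne (by rintro rfl; exact hr (dvd_zero p))
      have ha : a ≠ 0 := by rintro rfl; exact hr0 (by simpa using e.symm)
      refine Or.inl ⟨ha, s, r, hr, ?_⟩
      rw [← e]; field_simp
  arch := by
    intro a
    obtain ⟨r, s, hs, rfl⟩ := IsFractionRing.div_surjective K[X] a
    have hs0 : s ≠ 0 := nonZeroDivisors.ne_zero hs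
    obtain ⟨n, s', h1, rfl⟩ := WfDvdMonoid.max_power_factor hs0 hp.irreducible
    refine ⟨n, r, s', h1, ?_⟩
    have := ph_ne hp.ne_zero
    have := ph_ne (right_ne_zero_of_mul hs0)
    simp only [ph, map_mul, map_pow] at *
    field_simp

/-- The local ring at infinity. -/
noncomputable def Oinf (K : Type) [Field K] : Subring (FF K) where
  carrier := {f | ∃ r s : K[X], s ≠ 0 ∧ r.natDegree ≤ s.natDegree ∧ f * ph s = ph r}
  mul_mem' := by
    rintro f g ⟨r, s, hs, hd, e⟩ ⟨r', s', hs', hd', e'⟩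
    exact ⟨r * r', s * s', mul_ne_zero hs hs', by
      rw [natDegree_mul hs hs']; exact natDegree_mul_le.trans (add_le_add hd hd'), by
      simp only [ph, map_mul] at *; linear_combination (g * algebraMap _ _ s') * e + algebraMap _ _ r * e'⟩
  one_mem' := ⟨1, 1, one_ne_zero, le_rfl, by simp⟩
  add_mem' := by
    rintro f g ⟨r, s, hs, hd, e⟩ ⟨r', s', hs', hd', e'⟩
    exact ⟨r * s' + r' * s, s * s', mul_ne_zero hs hs', by
      rw [natDegree_mul hs hs']
      exact (natDegree_add_le _ _).trans (max_le (natDegree_mul_le.trans (by omega))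
        (natDegree_mul_le.trans (by omega))), by
      simp only [ph, map_mul, map_add] at *
      linear_combination (algebraMap _ _ s') * e + algebraMap _ _ s * e'⟩
  zero_mem' := ⟨0, 1, one_ne_zero, by simp, by simp⟩
  neg_mem' := by
    rintro f ⟨r, s, hs, hd, e⟩
    exact ⟨-r, s, hs, by simpa using hd, by simp only [ph, map_neg] at *; linear_combination -e⟩

theorem div_mem_Oinf {r s : K[X]} (hs : s ≠ 0) (hd : r.natDegree ≤ s.natDegree) :
    ph r / ph s ∈ Oinf K := ⟨r, s, hs, hd, div_mul_cancel₀ _ (ph_ne hs)⟩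

theorem place_inf : IsPlace (Oinf K) (ph (X : K[X]))⁻¹ where
  mem := by simpa using div_mem_Oinf (r := (1 : K[X])) (s := X) X_ne_zero (by simp)
  ne := inv_ne_zero (ph_ne X_ne_zero)
  inv := by
    rintro ⟨r, s, hs, hd, e⟩
    rw [inv_inv] at e
    have : X * s = r := ph_inj (by simpa only [ph, map_mul] using e)
    rw [← this, natDegree_X_mul hs] at hd
    omega
  dich := by
    rintro a ⟨r, s, hs, hd, e⟩
    have hs0 := ph_ne hs
    by_cases hr : r = 0
    · right
      have : a = 0 := by simpa [hr, hs0] using e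
      rw [this, zero_div]; exact Subring.zero_mem _
    have hr0 := ph_ne hr
    have ha : a ≠ 0 := by rintro rfl; exact hr0 (by simpa using e.symm)
    rcases hd.eq_or_lt with h1 | h1
    · refine Or.inl ⟨ha, s, r, hr, h1.ge, ?_⟩
      rw [← e]; field_simp
    · refine Or.inr ⟨X * r, s, hs, by rw [natDegree_X_mul hr]; omega, ?_⟩
      simp only [ph, map_mul] at *
      rw [div_inv_eq_mul]
      linear_combination algebraMap K[X] (FF K) X * e
  arch := by
    intro a
    obtain ⟨r, s, hs, rfl⟩ := IsFractionRing.div_surjective K[X] a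
    have hs0 : s ≠ 0 := nonZeroDivisors.ne_zero hs
    refine ⟨r.natDegree, ?_⟩
    have h1 : (X : K[X]) ^ r.natDegree * s ≠ 0 := mul_ne_zero (pow_ne_zero _ X_ne_zero) hs0
    have := div_mem_Oinf (r := r) h1 (by
      rw [natDegree_mul (pow_ne_zero _ X_ne_zero) hs0, natDegree_X_pow]; omega)
    have e : (ph (X : K[X]))⁻¹ ^ r.natDegree * (algebraMap K[X] (FF K) r / algebraMap _ _ s) =
        ph r / ph (X ^ r.natDegree * s) := by
      have := ph_ne (K := K) X_ne_zero
      have := ph_ne hs0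
      simp only [ph, map_mul, map_pow, inv_pow] at *
      field_simp
    rwa [e]

theorem sat_fin {ι : Type} (s : Finset ι) (V : ι → Sp K) {a : ℕ} (hV : ∀ j ∈ s, V j ≤ Tt K c 1 a)
    {k J1 J2 : ℕ} {g : K[X][X]} (hg1 : g ∈ Tt K c (k + 1) J1 * ∏ j ∈ s, V j)
    (hg2 : X * g ∈ Tt K c (k + 1) J2 * ∏ j ∈ s, V j) : ∃ J, g ∈ Tt K c k J * ∏ j ∈ s, V j := by
  set W := ∏ j ∈ s, V j with hW
  let I : Ideal K[X] :=
    { carrier := {q | ∃ J, C q * g ∈ Tt K c k J * W}
      add_mem' := by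
        rintro q q' ⟨J, hJ⟩ ⟨J', hJ'⟩
        refine ⟨J + J', ?_⟩
        rw [map_add, add_mul]
        exact Submodule.add_mem _ (PP_mono W le_rfl (by omega) hJ) (PP_mono W le_rfl (by omega) hJ')
      zero_mem' := ⟨0, by simp⟩
      smul_mem' := by
        rintro r q ⟨J, hJ⟩
        refine ⟨r.natDegree + J, ?_⟩
        rw [smul_eq_mul, map_mul, mul_assoc]
        exact C_mul_mem_PP hJ le_rfl }
  by_contra hcon
  have hI : I ≠ ⊤ := by
    intro e
    obtain ⟨J, hJ⟩ : (1 : K[X]) ∈ I := e ▸ Submodule.mem_top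
    exact hcon ⟨J, by simpa using hJ⟩
  obtain ⟨M, hM, hIM⟩ := Ideal.exists_le_maximal I hI
  have hM0 : M ≠ ⊥ := Ring.ne_bot_of_isMaximal_of_not_isField hM (Polynomial.not_isField K)
  have := hM.isPrime
  set p := Submodule.IsPrincipal.generator M with hp'
  have hp : Prime p := Submodule.IsPrincipal.prime_generator_of_isPrime M hM0
  have hloc := loc (c := c) (place_fin hp) (fun r => ph_mem_Ofin hp _) (κ0 := 1) one_ne_zero
    (by simp) (fun _ => 1) (fun _ => one_ne_zero)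
    (fun J i r _ => by simpa using ph_mem_Ofin hp r) s V hV (τ := 1)
    (by simp) (by simp) hg1 hg2
  rw [inv_one, one_smul] at hloc
  have key : ∀ f ∈ la (Ofin p hp) (Tt K c k 0 * W), ∃ q, ¬ p ∣ q ∧ ∃ J, ∃ t ∈ Tt K c k J * W,
      ph q • f = Ph K t := by
    intro f hf
    induction hf using Submodule.span_induction with
    | mem f hf =>
      obtain ⟨t, ht, rfl⟩ := hf
      exact ⟨1, hp.not_dvd_one, 0, t, ht, by simp⟩
    | zero => exact ⟨1, hp.not_dvd_one, 0, 0, Submodule.zero_mem _, by simp⟩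
    | add u v _ _ hu hv =>
      obtain ⟨q, hq, J, t, ht, e⟩ := hu
      obtain ⟨q', hq', J', t', ht', e'⟩ := hv
      refine ⟨q * q', hp.not_dvd_mul hq hq', q'.natDegree + J + (q.natDegree + J'),
        C q' * t + C q * t', Submodule.add_mem _ (C_mul_mem_PP ht (by omega))
          (C_mul_mem_PP ht' (by omega)), ?_⟩
      rw [map_add, Ph_C_mul, Ph_C_mul, ← e, ← e', smul_smul, smul_smul, smul_add]
      simp only [ph, map_mul, mul_comm]
    | smul o u _ hu =>
      obtain ⟨q, hq, J, t, ht, e⟩ := hu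
      obtain ⟨r, s', hs', e'⟩ := o.2
      refine ⟨q * s', hp.not_dvd_mul hq hs', _, C r * t, C_mul_mem_PP ht le_rfl, ?_⟩
      rw [Ph_C_mul, ← e, ← e']
      show _ • (o : FF K) • u = _
      simp only [ph, map_mul, smul_smul]
      congr 1; ring
  obtain ⟨q, hq, J, t, ht, e⟩ := key _ hloc
  rw [← Ph_C_mul] at e
  exact hq ((Submodule.IsPrincipal.mem_iff_generator_dvd M).1 (hIM ⟨J, Ph_inj e ▸ ht⟩))

theorem sat_inf {ι : Type} (s : Finset ι) (V : ι → Sp K) {a : ℕ} (hV : ∀ j ∈ s, V j ≤ Tt K c 1 a)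
    {k J : ℕ} {g : K[X][X]} (hg1 : g ∈ Tt K c (k + 1) (J + c) * ∏ j ∈ s, V j)
    (hg2 : X * g ∈ Tt K c (k + 1) J * ∏ j ∈ s, V j) :
    ∃ q : K[X], q ≠ 0 ∧ C q * g ∈ Tt K c k (J + c + q.natDegree) * ∏ j ∈ s, V j := by
  set W := ∏ j ∈ s, V j with hW
  have hX : ∀ n : ℕ, (X : K[X]) ^ n ≠ 0 := fun n => pow_ne_zero _ X_ne_zero
  have hloc := loc (c := c) place_inf
    (fun r => by simpa using div_mem_Oinf (r := C r) (s := 1) one_ne_zero (by simp))
    (κ0 := X ^ c) (hX c) (by simp) (fun J => ph (X ^ J)) (fun J => ph_ne (hX J))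
    (fun J i r hr => by
      have := div_mem_Oinf (r := r) (hX (J + i * c)) (by simpa using hr)
      rwa [pow_add, mul_comm i c, pow_mul, ph, ph, map_mul, map_pow _ _ i] at this)
    s V hV (τ := ph (X ^ (J + c)))
    (by rw [div_self (ph_ne (hX _))]; exact Subring.one_mem _)
    (by
      rw [ph, ph, ← map_mul, ← pow_add, Nat.add_comm c J, div_self (ph_ne (hX _))]
      exact Subring.one_mem _) hg1 hg2
  have key : ∀ f ∈ la (Oinf K) (Tt K c k 0 * W), ∃ q : K[X], q ≠ 0 ∧
      ∃ t ∈ Tt K c k q.natDegree * W, ph q • f = Ph K t := by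
    intro f hf
    induction hf using Submodule.span_induction with
    | mem f hf =>
      obtain ⟨t, ht, rfl⟩ := hf
      exact ⟨1, one_ne_zero, t, by simpa using ht, by simp⟩
    | zero => exact ⟨1, one_ne_zero, 0, Submodule.zero_mem _, by simp⟩
    | add u v _ _ hu hv =>
      obtain ⟨q, hq, t, ht, e⟩ := hu
      obtain ⟨q', hq', t', ht', e'⟩ := hv
      refine ⟨q * q', mul_ne_zero hq hq', C q' * t + C q * t', Submodule.add_mem _
        (C_mul_mem_PP ht (by rw [natDegree_mul hq hq']; omega))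
        (C_mul_mem_PP ht' (by rw [natDegree_mul hq hq'])), ?_⟩
      rw [map_add, Ph_C_mul, Ph_C_mul, ← e, ← e', smul_smul, smul_smul, smul_add]
      simp only [ph, map_mul, mul_comm]
    | smul o u _ hu =>
      obtain ⟨q, hq, t, ht, e⟩ := hu
      obtain ⟨r, s', hs', hd, e'⟩ := o.2
      refine ⟨q * s', mul_ne_zero hq hs', C r * t,
        C_mul_mem_PP ht (by rw [natDegree_mul hq hs']; omega), ?_⟩
      rw [Ph_C_mul, ← e, ← e']
      show _ • (o : FF K) • u = _
      simp only [ph, map_mul, smul_smul]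
      congr 1; ring
  obtain ⟨q, hq, t, ht, e⟩ := key _ hloc
  refine ⟨q, hq, ?_⟩
  have e2 : C q * g = C (X ^ (J + c)) * t := Ph_inj (by
    rw [Ph_C_mul, Ph_C_mul, ← e, smul_comm (ph q), smul_smul, mul_inv_cancel₀ (ph_ne (hX _)),
      one_smul])
  rw [e2]
  exact C_mul_mem_PP ht (by simp)

end Pool.Agent.MP_36bee5_al.Scr
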