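import Mathlib

set_option autoImplicit false

/-!
Products of lattices of linear forms over a discrete valuation ring are saturated.
-/

namespace Pool.Agent.MP_36bee5_al.Scr

open Polynomial

variable {F : Type} [Field F]

/-- `O` is a discrete valuation ring of `F` with uniformizer `π`. -/
structure IsPlace (O : Subring F) (π : F) : Prop where
  mem : π ∈ O
  ne : π ≠ 0
  inv : π⁻¹ ∉ O
  dich : ∀ a ∈ O, (a ≠ 0 ∧ a⁻¹ ∈ O) ∨ a / π ∈ O
  arch : ∀ a : F, ∃ n : ℕ, π ^ n * a ∈ O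

/-- A basis of the polynomials of degree at most one. -/
structure Fr (p q : F[X]) : Prop where
  left : p.natDegree ≤ 1
  right : q.natDegree ≤ 1
  ind : ∀ α β : F, α • p + β • q = 0 → α = 0 ∧ β = 0

theorem Fr.symm {p q : F[X]} (h : Fr p q) : Fr q p :=
  ⟨h.right, h.left, fun α β e => (h.ind β α (by rw [add_comm]; exact e)).symm⟩

theorem Fr.ne {p q : F[X]} (h : Fr p q) : p ≠ 0 := by
  intro e
  have := (h.ind 1 0 (by simp [e])).1
  exact one_ne_zero this

theorem Fr.uniq {p q : F[X]} (h : Fr p q) {α β α' β' : F}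
    (e : α • p + β • q = α' • p + β' • q) : α = α' ∧ β = β' := by
  have := h.ind (α - α') (β - β') (by
    rw [sub_smul, sub_smul]
    linear_combination e)
  exact ⟨sub_eq_zero.1 this.1, sub_eq_zero.1 this.2⟩

theorem Fr.smul {p q : F[X]} (h : Fr p q) {c c' : F} (hc : c ≠ 0) (hc' : c' ≠ 0) :
    Fr (c • p) (c' • q) :=
  ⟨(natDegree_smul_le _ _).trans h.left, (natDegree_smul_le _ _).trans h.right, fun α β e => by
    rw [smul_smul, smul_smul] at e
    obtain ⟨h1, h2⟩ := h.ind _ _ e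
    exact ⟨(mul_eq_zero.1 h1).resolve_right hc, (mul_eq_zero.1 h2).resolve_right hc'⟩⟩

/-- Submodules of the polynomial ring over the valuation ring. -/
abbrev Lat (O : Subring F) : Type := @Submodule O F[X] _ _ Algebra.toModule

/-- The lattice spanned by two polynomials. -/
noncomputable def lat (O : Subring F) (p q : F[X]) : Lat O := Submodule.span O {p, q}

variable {O : Subring F} {π : F}

theorem smul_mem' {M : Lat O} {c : F} (hc : c ∈ O) {f : F[X]} (hf : f ∈ M) :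
    c • f ∈ M := M.smul_mem (⟨c, hc⟩ : O) hf

theorem mem_lat {p q f : F[X]} :
    f ∈ lat O p q ↔ ∃ α ∈ O, ∃ β ∈ O, f = α • p + β • q := by
  rw [lat, Submodule.mem_span_pair]
  constructor
  · rintro ⟨α, β, rfl⟩
    exact ⟨α, α.2, β, β.2, rfl⟩
  · rintro ⟨α, hα, β, hβ, rfl⟩
    exact ⟨⟨α, hα⟩, ⟨β, hβ⟩, rfl⟩

theorem left_mem_lat (p q : F[X]) : p ∈ lat O p q := Submodule.subset_span (by simp)

theorem right_mem_lat (p q : F[X]) : q ∈ lat O p q := Submodule.subset_span (by simp)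

theorem lat_le {p q : F[X]} {M : Lat O} (hp : p ∈ M) (hq : q ∈ M) : lat O p q ≤ M := by
  rw [lat, Submodule.span_le]
  rintro _ (rfl | rfl)
  · exact hp
  · exact hq

theorem lat_comm (p q : F[X]) : lat O p q = lat O q p := by
  rw [lat, lat, Set.pair_comm]

theorem mem_lat_mul {p q f : F[X]} {M : Lat O} (hf : f ∈ lat O p q * M) :
    ∃ m ∈ M, ∃ m' ∈ M, f = p * m + q * m' := by
  refine Submodule.mul_induction_on hf ?_ ?_
  · intro l hl m hm
    obtain ⟨α, hα, β, hβ, rfl⟩ := mem_lat.1 hl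
    exact ⟨α • m, smul_mem' hα hm, β • m, smul_mem' hβ hm, by
      simp only [add_mul, smul_mul_assoc, mul_smul_comm]⟩
  · rintro _ _ ⟨m, hm, m', hm', rfl⟩ ⟨n, hn, n', hn', rfl⟩
    exact ⟨m + n, M.add_mem hm hn, m' + n', M.add_mem hm' hn', by ring⟩

/-- Polynomials of degree at most `e`. -/
noncomputable def dg (O : Subring F) (e : ℕ) : Lat O where
  carrier := {f | f.natDegree ≤ e}
  add_mem' ha hb := (natDegree_add_le _ _).trans (max_le ha hb)
  zero_mem' := by simp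
  smul_mem' c f hf := (natDegree_smul_le (c : F) f).trans hf

theorem dg_mul {M N : Lat O} {e e' : ℕ} (hM : M ≤ dg O e) (hN : N ≤ dg O e') :
    M * N ≤ dg O (e + e') :=
  Submodule.mul_le.2 fun _ hm _ hn => natDegree_mul_le.trans (add_le_add (hM hm) (hN hn))

theorem dg_prod {ι : Type} (s : Finset ι) (L : ι → Lat O)
    (h : ∀ j ∈ s, L j ≤ dg O 1) : ∏ j ∈ s, L j ≤ dg O s.card := by
  classical
  induction s using Finset.induction_on with
  | empty =>
    rw [Finset.prod_empty, Submodule.one_le]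
    show (1 : F[X]).natDegree ≤ _
    simp
  | insert a s ha ih =>
    rw [Finset.prod_insert ha, Finset.card_insert_of_notMem ha, Nat.add_comm]
    exact dg_mul (h a (by simp)) (ih fun j hj => h j (by simp [hj]))

/-- Powers of a lattice. -/
noncomputable def pw (L : Lat O) (e : ℕ) : Lat O := ∏ _i ∈ Finset.range e, L

theorem pw_zero (L : Lat O) : pw L 0 = 1 := by simp [pw]

theorem pw_succ (L : Lat O) (e : ℕ) : pw L (e + 1) = L * pw L e := by
  rw [pw, Finset.prod_range_succ, mul_comm, pw]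

theorem prod_eq_pw {ι : Type} (s : Finset ι) (L : Lat O) :
    ∏ _i ∈ s, L = pw L s.card := by
  rw [pw, Finset.prod_const, Finset.prod_const, Finset.card_range]

theorem dg_pow {L : Lat O} (h : L ≤ dg O 1) (e : ℕ) : pw L e ≤ dg O e := by
  have := dg_prod (Finset.range e) (fun _ => L) fun _ _ => h
  rwa [Finset.card_range] at this

theorem Fr.lat_le {p q : F[X]} (h : Fr p q) : lat O p q ≤ dg O 1 := Scr.lat_le h.left h.right

theorem key_zero {l l' h : F[X]} (hf : Fr l l') {e : ℕ} {c : F} (hh : h.natDegree ≤ e)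
    (hc : l * h = c • l' ^ (e + 1)) : c = 0 := by
  by_contra hc0
  obtain ⟨a1, a0, rfl⟩ : ∃ a1 a0 : F, l = C a1 * X + C a0 :=
    ⟨_, _, eq_X_add_C_of_natDegree_le_one hf.left⟩
  obtain ⟨b1, b0, rfl⟩ : ∃ a1 a0 : F, l' = C a1 * X + C a0 :=
    ⟨_, _, eq_X_add_C_of_natDegree_le_one hf.right⟩
  by_cases h1 : a1 = 0
  · subst h1
    have h1' : b1 ≠ 0 := by
      rintro rfl
      have := hf.ind b0 (-a0) (by
        simp only [smul_eq_C_mul, map_neg, map_zero]
        ring)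
      apply hf.ne
      rw [neg_eq_zero.1 this.2]
      simp
    have hd' : (C b1 * X + C b0).natDegree = 1 := natDegree_linear h1'
    have hd : (C (0 : F) * X + C a0).natDegree = 0 := by simp
    have h2 : ((C (0 : F) * X + C a0) * h).natDegree ≤ e := natDegree_mul_le.trans (by omega)
    rw [hc, natDegree_smul _ hc0, natDegree_pow, hd'] at h2
    omega
  · have h2 : (C a1 * X + C a0).eval (-a0 / a1) = 0 := by
      simp only [eval_add, eval_mul, eval_C, eval_X]
      field_simp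
      ring
    have h3 := congrArg (eval (-a0 / a1)) hc
    rw [eval_mul, h2, zero_mul, eval_smul, eval_pow, smul_eq_mul] at h3
    have h4 : (C b1 * X + C b0).eval (-a0 / a1) = 0 := pow_eq_zero_iff (Nat.succ_ne_zero e) |>.1
      ((mul_eq_zero.1 h3.symm).resolve_left hc0)
    simp only [eval_add, eval_mul, eval_C, eval_X] at h4
    have h5 : b0 * a1 = b1 * a0 := by
      field_simp at h4
      linear_combination h4
    have h6 := congrArg C h5
    rw [map_mul, map_mul] at h6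
    have := hf.ind b1 (-a1) (by
      simp only [smul_eq_C_mul, map_neg]
      linear_combination -h6)
    exact h1 (neg_eq_zero.1 this.2)

theorem lat_pow_succ (l l' : F[X]) (e : ℕ) : ∀ f ∈ pw (lat O l l') (e + 1),
    ∃ n ∈ pw (lat O l l') e, ∃ c ∈ O, f = l * n + c • l' ^ (e + 1) := by
  induction e with
  | zero =>
    intro f hf
    rw [pw_succ, pw_zero, mul_one] at hf
    obtain ⟨α, hα, β, hβ, rfl⟩ := mem_lat.1 hf
    refine ⟨α • 1, smul_mem' hα (by rw [pw_zero]; exact Submodule.one_le.1 le_rfl), β, hβ, ?_⟩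
    simp
  | succ e ih =>
    intro f hf
    rw [pw_succ] at hf
    obtain ⟨m, hm, m', hm', rfl⟩ := mem_lat_mul hf
    obtain ⟨n, hn, c, hc, rfl⟩ := ih m' hm'
    refine ⟨m + l' * n, Submodule.add_mem _ hm ?_, c, hc, ?_⟩
    · rw [pw_succ]
      exact Submodule.mul_mem_mul (right_mem_lat _ _) hn
    · rw [pow_succ' l' (e + 1), mul_add, mul_add, mul_smul_comm]
      ring

/-- Gauss lemma: a primitive vector of a lattice cancels. -/
theorem gauss {l l' g : F[X]} (hf : Fr l l') {e : ℕ} (hg : g.natDegree ≤ e)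
    (h : l * g ∈ pw (lat O l l') (e + 1)) : g ∈ pw (lat O l l') e := by
  obtain ⟨n, hn, c, -, hc⟩ := lat_pow_succ l l' e _ h
  have hn' : n.natDegree ≤ e := dg_pow hf.lat_le e hn
  have h0 : c = 0 := key_zero hf (h := g - n) ((natDegree_sub_le _ _).trans (max_le hg hn'))
    (by rw [mul_sub, hc]; ring)
  rw [h0, zero_smul, add_zero] at hc
  rwa [mul_left_cancel₀ hf.ne hc]

theorem IsPlace.exists_pow (h : IsPlace O π) {a : F} (ha : a ≠ 0) (hO : a ∈ O) :
    ∃ (n : ℕ) (u : F), u ∈ O ∧ u⁻¹ ∈ O ∧ u ≠ 0 ∧ a = π ^ n * u := by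
  obtain ⟨N, hN⟩ := h.arch a⁻¹
  induction N generalizing a with
  | zero => exact ⟨0, a, hO, by simpa using hN, ha, by simp⟩
  | succ N ih =>
    rcases h.dich a hO with h1 | h1
    · exact ⟨0, a, hO, h1.2, ha, by simp⟩
    · have hπ := h.ne
      obtain ⟨n, u, h2, h3, h4, h5⟩ := ih (div_ne_zero ha h.ne) h1 (by
        have : π ^ N * (a / π)⁻¹ = π ^ (N + 1) * a⁻¹ := by field_simp; ring
        rwa [this])
      refine ⟨n + 1, u, h2, h3, h4, ?_⟩
      rw [pow_succ, mul_right_comm, ← h5]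
      field_simp

theorem smith_aux (h : IsPlace O π) {p q : F[X]} (hf : Fr p q) {L : Lat O} {c : F}
    (hc : c ≠ 0) (hL : L ≤ lat O (c • p) (c • q)) {α β : F} (hα : α ∈ O) (hα0 : α ≠ 0)
    (hα' : α⁻¹ ∈ O) (hβ : β ∈ O) (hv : c • (α • p + β • q) ∈ L) :
    ∃ p', Fr p' q ∧ lat O p' q = lat O p q ∧
      (L = lat O (c • p') 0 ∨ ∃ n : ℕ, L = lat O (c • p') ((c * π ^ n) • q)) := by
  classical
  set p' := α • p + β • q with hp'
  have ep : p = α⁻¹ • p' + (-(α⁻¹ * β)) • q := by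
    rw [hp', smul_add, smul_smul, smul_smul, inv_mul_cancel₀ hα0, one_smul, neg_smul]
    abel
  have hfr : Fr p' q := by
    refine ⟨hf.lat_le (O := O) (mem_lat.2 ⟨α, hα, β, hβ, rfl⟩), hf.right, fun γ δ e => ?_⟩
    have := hf.ind (γ * α) (γ * β + δ) (by
      rw [← e, hp', smul_add, smul_smul, smul_smul, add_smul]
      abel)
    have h1 : γ = 0 := (mul_eq_zero.1 this.1).resolve_right hα0
    exact ⟨h1, by simpa [h1] using this.2⟩
  have hlat : lat O p' q = lat O p q := le_antisymm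
    (lat_le (mem_lat.2 ⟨α, hα, β, hβ, rfl⟩) (right_mem_lat _ _))
    (lat_le (mem_lat.2 ⟨α⁻¹, hα', _, O.neg_mem (O.mul_mem hα' hβ), ep⟩) (right_mem_lat _ _))
  have dec : ∀ f ∈ L, ∃ γ ∈ O, ∃ δ ∈ O, f = γ • (c • p') + δ • (c • q) ∧ δ • (c • q) ∈ L := by
    intro f hf
    obtain ⟨γ, hγ, δ, hδ, e⟩ := mem_lat.1 (hL hf)
    have e' : f = (γ * α⁻¹) • (c • p') + (δ - γ * (α⁻¹ * β)) • (c • q) := by
      rw [e]
      conv_lhs => rw [ep]
      simp only [smul_eq_C_mul, map_mul, map_sub, map_neg]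
      ring
    refine ⟨γ * α⁻¹, O.mul_mem hγ hα', _, O.sub_mem hδ (O.mul_mem hγ (O.mul_mem hα' hβ)), e', ?_⟩
    have := L.sub_mem hf (smul_mem' (O.mul_mem hγ hα') hv)
    rwa [e', add_sub_cancel_left] at this
  refine ⟨p', hfr, hlat, ?_⟩
  by_cases hex : ∃ n : ℕ, (c * π ^ n) • q ∈ L
  · refine Or.inr ⟨Nat.find hex, le_antisymm (fun f hf => ?_) (lat_le hv (Nat.find_spec hex))⟩
    obtain ⟨γ, hγ, δ, hδ, e, hδL⟩ := dec f hf
    by_cases hδ0 : δ = 0
    · exact mem_lat.2 ⟨γ, hγ, 0, O.zero_mem, by rw [e, hδ0]; simp⟩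
    obtain ⟨m, u, h1, h2, h3, h4⟩ := h.exists_pow hδ0 hδ
    have hm : Nat.find hex ≤ m := Nat.find_min' hex (by
      have := smul_mem' h2 hδL
      rwa [smul_smul, smul_smul, show u⁻¹ * δ * c = c * π ^ m by rw [h4]; field_simp] at this)
    obtain ⟨k, hk⟩ := Nat.exists_eq_add_of_le hm
    refine mem_lat.2 ⟨γ, hγ, π ^ k * u, O.mul_mem (O.pow_mem h.mem k) h1, ?_⟩
    rw [e, smul_smul δ, smul_smul (π ^ k * u), h4, hk, pow_add]
    congr 2
    ring
  · refine Or.inl (le_antisymm (fun f hf => ?_) (lat_le hv L.zero_mem))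
    obtain ⟨γ, hγ, δ, hδ, e, hδL⟩ := dec f hf
    by_cases hδ0 : δ = 0
    · exact mem_lat.2 ⟨γ, hγ, 0, O.zero_mem, by rw [e, hδ0]; simp⟩
    obtain ⟨m, u, h1, h2, h3, h4⟩ := h.exists_pow hδ0 hδ
    refine (hex ⟨m, ?_⟩).elim
    have := smul_mem' h2 hδL
    rwa [smul_smul, smul_smul, show u⁻¹ * δ * c = c * π ^ m by rw [h4]; field_simp] at this

/-- Smith normal form of a bounded submodule relative to a lattice. -/
theorem smith (h : IsPlace O π) {p q : F[X]} (hf : Fr p q) {L : Lat O} {c0 : F}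
    (hc0 : c0 ≠ 0) (hL : L ≤ lat O (c0 • p) (c0 • q)) :
    L = ⊥ ∨ ∃ c p' q', c ≠ 0 ∧ Fr p' q' ∧ lat O p' q' = lat O p q ∧
      (L = lat O (c • p') 0 ∨ ∃ n : ℕ, L = lat O (c • p') ((c * π ^ n) • q')) := by
  classical
  by_cases hbot : L = ⊥
  · exact Or.inl hbot
  right
  have hπ := h.ne
  have hex : ∃ m : ℕ, ¬ L ≤ lat O ((c0 * π ^ (m + 1)) • p) ((c0 * π ^ (m + 1)) • q) := by
    by_contra hcon
    push Not at hcon
    apply hbot
    rw [eq_bot_iff]
    intro v hv
    obtain ⟨α, -, β, -, e⟩ := mem_lat.1 (hL hv)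
    have key : ∀ a : F, (∀ m : ℕ, ∃ a' ∈ O, a = a' * π ^ (m + 1)) → a = 0 := by
      intro a ha
      by_contra ha0
      obtain ⟨N, hN⟩ := h.arch a⁻¹
      obtain ⟨a', ha', e'⟩ := ha N
      apply h.inv
      have h0 : a' ≠ 0 := by rintro rfl; exact ha0 (by simpa using e')
      have : π⁻¹ = a' * (π ^ N * a⁻¹) := by rw [e']; field_simp; ring
      rw [this]
      exact O.mul_mem ha' hN
    have co : ∀ m : ℕ, (∃ a' ∈ O, α = a' * π ^ (m + 1)) ∧ ∃ a' ∈ O, β = a' * π ^ (m + 1) := by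
      intro m
      obtain ⟨α', hα', β', hβ', e'⟩ := mem_lat.1 (hcon m hv)
      rw [e] at e'
      simp only [smul_smul] at e'
      obtain ⟨e1, e2⟩ := hf.uniq e'
      exact ⟨⟨α', hα', mul_right_cancel₀ hc0 (by rw [e1]; ring)⟩,
        ⟨β', hβ', mul_right_cancel₀ hc0 (by rw [e2]; ring)⟩⟩
    rw [e, key α fun m => (co m).1, key β fun m => (co m).2]
    simp
  set m := Nat.find hex with hm
  set c := c0 * π ^ m with hc
  have hc' : c ≠ 0 := mul_ne_zero hc0 (pow_ne_zero _ hπ)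
  have hLc : L ≤ lat O (c • p) (c • q) := by
    rcases Nat.eq_zero_or_pos m with h0 | h0
    · rw [hc, h0]; simpa using hL
    · have := Nat.find_min hex (m := m - 1) (by omega)
      rw [not_not, Nat.sub_add_cancel h0] at this
      exact this
  obtain ⟨v, hv, hv'⟩ := SetLike.not_le_iff_exists.1 (Nat.find_spec hex)
  obtain ⟨α, hα, β, hβ, e⟩ := mem_lat.1 (hLc hv)
  have ev : c • (α • p + β • q) ∈ L := by
    rw [smul_add, smul_comm c α, smul_comm c β, ← e]; exact hv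
  rcases h.dich α hα with h1 | h1
  · obtain ⟨p', h2, h3, h4⟩ := smith_aux h hf hc' hLc hα h1.1 h1.2 hβ ev
    exact ⟨c, p', q, hc', h2, h3, h4⟩
  rcases h.dich β hβ with h2 | h2
  · obtain ⟨p', h3, h4, h5⟩ := smith_aux (L := L) h hf.symm hc' (by rwa [lat_comm]) hβ h2.1 h2.2 hα
      (by rwa [add_comm])
    exact ⟨c, p', p, hc', h3, by rw [h4, lat_comm], h5⟩
  refine (hv' (mem_lat.2 ⟨_, h1, _, h2, ?_⟩)).elim
  rw [e, ← hm]
  simp only [smul_smul, hc]
  congr 2 <;> field_simp <;> ring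

end Pool.Agent.MP_36bee5_al.Scr
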