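import Pool.Agent.MP_36bee5_al.ScrRes

set_option autoImplicit false

/-!
The coordinate ring of the scroll `S(a, a + c)` as a subring of `K[y][x][z]`.
-/

namespace Pool.Agent.MP_36bee5_al.Scr

open Polynomial

variable (K : Type) [Field K] (a c : ℕ)

/-- The images of the variables, without the factor `z`. -/
noncomputable def vr : Fin (a + 1) ⊕ Fin (a + c + 1) → K[X][X] :=
  Sum.elim (fun i => C (X ^ (i : ℕ))) (fun j => C (X ^ (j : ℕ)) * X)

/-- The dehomogenised parametrisation. -/
noncomputable def psi : MvPolynomial (Fin (a + 1) ⊕ Fin (a + c + 1)) K →ₐ[K] K[X][X][X] :=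
  MvPolynomial.aeval fun s => C (vr K a c s) * X

/-- The parametrisation of the scroll. -/
noncomputable def phi :
    MvPolynomial (Fin (a + 1) ⊕ Fin (a + c + 1)) K →ₐ[K] MvPolynomial (Fin 4) K :=
  MvPolynomial.aeval (Sum.elim
    (fun i : Fin (a + 1) => MvPolynomial.X 0 * MvPolynomial.X 2 ^ (i : ℕ) *
      MvPolynomial.X 3 ^ (a - i) : Fin (a + 1) → MvPolynomial (Fin 4) K)
    (fun j : Fin (a + c + 1) => MvPolynomial.X 1 * MvPolynomial.X 2 ^ (j : ℕ) *
      MvPolynomial.X 3 ^ (a + c - j)))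

theorem psi_C (r : K) : psi K a c (MvPolynomial.C r) = C (C (C r)) :=
  (psi K a c).commutes r

theorem psi_X (s : Fin (a + 1) ⊕ Fin (a + c + 1)) :
    psi K a c (MvPolynomial.X s) = C (vr K a c s) * X := MvPolynomial.aeval_X _ _

theorem vr_mem (s : Fin (a + 1) ⊕ Fin (a + c + 1)) : vr K a c s ∈ Tt K c 1 a := by
  rcases s with i | j
  · exact Tt_mono (by omega) le_rfl (C_mem_Tt (by simpa using Nat.lt_succ_iff.1 i.2))
  · refine ⟨(natDegree_C_mul_le _ _).trans (by simp), fun l => ?_⟩
    simp only [vr, Sum.elim_inr, coeff_C_mul, coeff_X]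
    split_ifs with h
    · subst h; simpa using Nat.lt_succ_iff.1 j.2
    · simp

theorem ker_phi : RingHom.ker (phi K a c) = RingHom.ker (psi K a c) := by
  ext p
  rw [RingHom.mem_ker, RingHom.mem_ker]
  constructor
  · intro h
    have e : (MvPolynomial.aeval (![X, C X * X, C (C X), 1] : Fin 4 → K[X][X][X])).comp
        (phi K a c) = psi K a c := by
      ext1 s
      rw [psi_X]
      rcases s with i | j <;> simp [phi, vr] <;> ring
    rw [← e, AlgHom.comp_apply, h, map_zero]
  · intro h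
    let e := algebraMap (MvPolynomial (Fin 4) K) (FractionRing (MvPolynomial (Fin 4) K))
    have he : Function.Injective e := IsFractionRing.injective _ _
    have hX : ∀ i, e (MvPolynomial.X i) ≠ 0 := fun i =>
      (map_ne_zero_iff e he).2 (MvPolynomial.X_ne_zero i)
    let ρ := eval₂RingHom (eval₂RingHom (eval₂RingHom (e.comp MvPolynomial.C)
      (e (MvPolynomial.X 2) / e (MvPolynomial.X 3)))
      (e (MvPolynomial.X 1) * e (MvPolynomial.X 3) ^ c / e (MvPolynomial.X 0)))
      (e (MvPolynomial.X 0) * e (MvPolynomial.X 3) ^ a)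
    have key : ρ.comp (psi K a c : _ →+* K[X][X][X]) = e.comp (phi K a c).toRingHom := by
      refine MvPolynomial.ringHom_ext (fun r => ?_) fun s => ?_
      · simp [ρ, psi_C, phi]
      · have h0 := hX 0
        have h3 := hX 3
        rcases s with i | j
        · obtain ⟨l, hl⟩ := Nat.exists_eq_add_of_le (Nat.lt_succ_iff.1 i.2)
          have h4 : a - i = l := by omega
          simp only [ρ, RingHom.comp_apply, RingHom.coe_coe, psi_X, phi, vr, Sum.elim_inl, AlgHom.toRingHom_eq_coe,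
            MvPolynomial.aeval_X, map_mul, map_pow, coe_eval₂RingHom, eval₂_C, eval₂_X, h4]
          rw [show e (MvPolynomial.X 3) ^ a = e (MvPolynomial.X 3) ^ (i : ℕ) *
            e (MvPolynomial.X 3) ^ l by rw [← pow_add, ← hl], div_pow]
          field_simp
        · obtain ⟨l, hl⟩ := Nat.exists_eq_add_of_le (Nat.lt_succ_iff.1 j.2)
          have h4 : a + c - j = l := by omega
          simp only [ρ, RingHom.comp_apply, RingHom.coe_coe, psi_X, phi, vr, Sum.elim_inr, AlgHom.toRingHom_eq_coe,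
            MvPolynomial.aeval_X, map_mul, map_pow, coe_eval₂RingHom, eval₂_C, eval₂_X, h4]
          have h5 : e (MvPolynomial.X 3) ^ a * e (MvPolynomial.X 3) ^ c =
              e (MvPolynomial.X 3) ^ (j : ℕ) * e (MvPolynomial.X 3) ^ l := by
            rw [← pow_add, ← pow_add, ← hl]
          rw [div_pow]
          field_simp
          linear_combination e (MvPolynomial.X 1) * e (MvPolynomial.X 2) ^ (j : ℕ) * h5
    have := RingHom.congr_fun key p
    rw [RingHom.comp_apply, RingHom.comp_apply, RingHom.coe_coe, h, map_zero] at this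
    exact (map_eq_zero_iff e he).1 this.symm

theorem psi_coe (p : MvPolynomial (Fin (a + 1) ⊕ Fin (a + c + 1)) K) :
    ∀ k, (psi K a c p).coeff k ∈ Tt K c k (k * a) := by
  induction p using MvPolynomial.induction_on with
  | C r =>
    intro k
    rw [psi_C, coeff_C]
    split_ifs
    · exact Tt_mono (by omega) (Nat.zero_le _) (C_mem_Tt (by simp))
    · exact Submodule.zero_mem _
  | add p q hp hq => intro k; rw [map_add, coeff_add]; exact Submodule.add_mem _ (hp k) (hq k)
  | mul_X p s hp =>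
    intro k
    rw [map_mul, psi_X, ← mul_assoc]
    rcases k with _ | k
    · rw [coeff_mul_X_zero]; exact Submodule.zero_mem _
    · rw [coeff_mul_X, coeff_mul_C, add_mul, one_mul]
      exact Tt_mul (hp k) (vr_mem K a c s)

theorem prod_aux {S σ : Type} [CommRing S] (s : Finset σ) (f : σ → S) (z : S) (m : σ → ℕ) :
    ∏ x ∈ s, (f x * z) ^ m x = (∏ x ∈ s, f x ^ m x) * z ^ ∑ x ∈ s, m x := by
  simp only [mul_pow, Finset.prod_mul_distrib, Finset.prod_pow_eq_pow_sum]

theorem psi_hom {k : ℕ} {p : MvPolynomial (Fin (a + 1) ⊕ Fin (a + c + 1)) K}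
    (hp : p.IsHomogeneous k) : ∃ t ∈ Tt K c k (k * a), psi K a c p = C t * X ^ k := by
  suffices h : ∃ t, psi K a c p = C t * X ^ k by
    obtain ⟨t, ht⟩ := h
    have := psi_coe K a c p k
    rw [ht, coeff_C_mul_X_pow, if_pos rfl] at this
    exact ⟨t, this, ht⟩
  refine ⟨∑ m ∈ p.support, C (C (p.coeff m)) * m.prod fun s e => vr K a c s ^ e, ?_⟩
  conv_lhs => rw [p.as_sum]
  rw [map_sum, map_sum, Finset.sum_mul]
  refine Finset.sum_congr rfl fun m hm => ?_
  have h1 : k = ∑ s ∈ m.support, m s := by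
    rw [← hp (MvPolynomial.mem_support_iff.1 hm), Finsupp.weight_apply, Finsupp.sum]
    simp
  rw [MvPolynomial.monomial_eq, map_mul, psi_C, h1]
  simp only [Finsupp.prod, map_prod, map_pow, psi_X, map_mul, mul_assoc]
  rw [prod_aux (S := K[X][X][X])]

theorem psi_sur (k : ℕ) : ∀ t ∈ Tt K c k (k * a),
    ∃ p : MvPolynomial (Fin (a + 1) ⊕ Fin (a + c + 1)) K,
      p.IsHomogeneous k ∧ psi K a c p = C t * X ^ k := by
  let P : Sp K :=
    { carrier := {t | ∃ p : MvPolynomial (Fin (a + 1) ⊕ Fin (a + c + 1)) K,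
        p.IsHomogeneous k ∧ psi K a c p = C t * X ^ k}
      add_mem' := by
        rintro s t ⟨p, hp, e⟩ ⟨q, hq, e'⟩
        exact ⟨p + q, hp.add hq, by rw [map_add, e, e', map_add, add_mul]⟩
      zero_mem' := ⟨0, MvPolynomial.isHomogeneous_zero _ _ _, by simp⟩
      smul_mem' := by
        rintro r t ⟨p, hp, e⟩
        exact ⟨MvPolynomial.C r * p, hp.C_mul r, by
          rw [map_mul, psi_C, e, ksmul, map_mul, mul_assoc]⟩ }
  refine fun t ht => Tt_le (P := P) ?_ ht
  show ∀ i ≤ k, ∀ j ≤ k * a + i * c, ∃ p : MvPolynomial (Fin (a + 1) ⊕ Fin (a + c + 1)) K,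
    p.IsHomogeneous k ∧ psi K a c p = C (C (X ^ j) * X ^ i) * X ^ k
  clear ht t P
  induction k with
  | zero =>
    intro i hi j hj
    obtain rfl : i = 0 := by omega
    obtain rfl : j = 0 := by omega
    exact ⟨1, MvPolynomial.isHomogeneous_one _ _, by simp⟩
  | succ k ih =>
    intro i hi j hj
    rw [add_mul, one_mul] at hj
    rcases i with _ | i
    · obtain ⟨p, hp, e⟩ := ih 0 (by omega) (j - min j a) (by omega)
      refine ⟨p * MvPolynomial.X (Sum.inl ⟨min j a, by omega⟩),
        hp.mul (MvPolynomial.isHomogeneous_X _ _), ?_⟩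
      rw [map_mul, e, psi_X]
      conv_rhs => rw [show j = (j - min j a) + min j a by omega]
      simp only [vr, Sum.elim_inl, map_mul, map_pow]
      ring
    · rw [add_mul, one_mul] at hj
      obtain ⟨p, hp, e⟩ := ih i (by omega) (j - min j (a + c)) (by omega)
      refine ⟨p * MvPolynomial.X (Sum.inr ⟨min j (a + c), by omega⟩),
        hp.mul (MvPolynomial.isHomogeneous_X _ _), ?_⟩
      rw [map_mul, e, psi_X]
      conv_rhs => rw [show j = (j - min j (a + c)) + min j (a + c) by omega]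
      simp only [vr, Sum.elim_inr, map_mul, map_pow]
      ring

theorem scroll_model (J : Ideal (MvPolynomial (Fin (a + 1) ⊕ Fin (a + c + 1)) K))
    (hJ : J = RingHom.ker (phi K a c)) :
    ∃ ι : (MvPolynomial (Fin (a + 1) ⊕ Fin (a + c + 1)) K ⧸ J) →+* K[X][X][X],
      Model K a c ι (fun k r => ∃ p : MvPolynomial (Fin (a + 1) ⊕ Fin (a + c + 1)) K,
        p.IsHomogeneous k ∧ Ideal.Quotient.mk J p = r) ∧ ∀ r : K, ∃ x, ι x = C (C (C r)) := by
  rw [ker_phi] at hJ
  have h1 : ∀ p ∈ J, (psi K a c : _ →+* K[X][X][X]) p = 0 := fun p hp => by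
    rw [hJ] at hp; exact hp
  refine ⟨Ideal.Quotient.lift J _ h1, ⟨RingHom.lift_injective_of_ker_le_ideal J h1 hJ.ge, ?_, ?_,
    ?_⟩, fun r => ⟨Ideal.Quotient.mk J (MvPolynomial.C r), psi_C K a c r⟩⟩
  · intro r k
    obtain ⟨p, rfl⟩ := Ideal.Quotient.mk_surjective r
    exact psi_coe K a c p k
  · intro k t ht
    obtain ⟨p, hp, e⟩ := psi_sur K a c k t ht
    exact ⟨_, ⟨p, hp, rfl⟩, e⟩
  · rintro k _ ⟨p, hp, rfl⟩
    exact psi_hom K a c hp

end Pool.Agent.MP_36bee5_al.Scr
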