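import Pool.Agent.MP_36bee5_al.ScrGlob

set_option autoImplicit false

/-!
Degree control: generic generation of a filtered `K[y]`-module gives generation with degree bounds.
-/

namespace Pool.Agent.MP_36bee5_al.Scr

open Polynomial

variable {K : Type} [Field K] {M : Type} [AddCommGroup M] [Module K[X] M]

/-- A degree filtration. -/
structure IsFil (K : Type) [Field K] {M : Type} [AddCommGroup M] [Module K[X] M]
    (G : ℕ → AddSubgroup M) : Prop where
  smul : ∀ (p : K[X]) (j j' : ℕ) (m : M), m ∈ G j → p.natDegree + j ≤ j' → p • m ∈ G j'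
  reg : ∀ (j : ℕ) (m : M), (X : K[X]) • m ∈ G (j + 1) → m ∈ G j

theorem IsFil.mono {G : ℕ → AddSubgroup M} (h : IsFil K G) {j j' : ℕ} {m : M} (hm : m ∈ G j)
    (hj : j ≤ j') : m ∈ G j' := by
  simpa using h.smul 1 j j' m hm (by simpa using hj)

theorem IsFil.reg_pow {G : ℕ → AddSubgroup M} (h : IsFil K G) (q : ℕ) {j : ℕ} {m : M}
    (hm : (X : K[X]) ^ q • m ∈ G (j + q)) : m ∈ G j := by
  induction q with
  | zero => simpa using hm
  | succ q ih =>
    refine ih (h.reg _ _ ?_)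
    rwa [smul_smul, ← pow_succ']

/-- Combinations of elements of `S` with coefficients of degree at most `t`. -/
def Cl (K : Type) [Field K] {M : Type} [AddCommGroup M] [Module K[X] M] (S : Set M) (t : ℕ) :
    AddSubgroup M :=
  AddSubgroup.closure {m | ∃ p : K[X], ∃ s ∈ S, p.natDegree ≤ t ∧ m = p • s}

theorem smul_mem_Cl {S : Set M} {t : ℕ} {p : K[X]} {s : M} (hs : s ∈ S) (hp : p.natDegree ≤ t) :
    p • s ∈ Cl K S t := AddSubgroup.subset_closure ⟨p, s, hs, hp, rfl⟩

theorem Cl_mono {S : Set M} {t t' : ℕ} (h : t ≤ t') : Cl K S t ≤ Cl K S t' :=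
  AddSubgroup.closure_mono fun _ ⟨p, s, hs, hp, e⟩ => ⟨p, s, hs, hp.trans h, e⟩

theorem Cl_le {S : Set M} {t : ℕ} {H : AddSubgroup M}
    (h : ∀ p : K[X], ∀ s ∈ S, p.natDegree ≤ t → p • s ∈ H) : Cl K S t ≤ H := by
  rw [Cl, AddSubgroup.closure_le]
  rintro _ ⟨p, s, hs, hp, rfl⟩
  exact h p s hs hp

theorem Cl_le_span {S : Set M} {t : ℕ} {m : M} (hm : m ∈ Cl K S t) :
    m ∈ Submodule.span K[X] S :=
  Cl_le (H := (Submodule.span K[X] S).toAddSubgroup)
    (fun p _ hs _ => Submodule.smul_mem _ p (Submodule.subset_span hs)) hm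

theorem exists_Cl {S : Set M} {m : M} (hm : m ∈ Submodule.span K[X] S) : ∃ t, m ∈ Cl K S t := by
  have : ∀ p : K[X], ∃ t, p • m ∈ Cl K S t := by
    induction hm using Submodule.span_induction with
    | mem s hs => exact fun p => ⟨_, smul_mem_Cl hs le_rfl⟩
    | zero => exact fun p => ⟨0, by simp⟩
    | add u v _ _ hu hv =>
      intro p
      obtain ⟨t, ht⟩ := hu p
      obtain ⟨t', ht'⟩ := hv p
      exact ⟨t + t', by
        rw [smul_add]
        exact AddSubgroup.add_mem _ (Cl_mono (by omega) ht) (Cl_mono (by omega) ht')⟩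
    | smul r u _ hu => intro p; rw [smul_smul]; exact hu _
  simpa using this 1

theorem Cl_le_fil {G : ℕ → AddSubgroup M} (h : IsFil K G) {S : Set M} {r : ℕ}
    (hS : ∀ s ∈ S, s ∈ G r) (t : ℕ) : Cl K S t ≤ G (r + t) :=
  Cl_le fun p s hs hp => h.smul p r _ s (hS s hs) (by omega)

theorem Cl_top {G : ℕ → AddSubgroup M} (h : IsFil K G) (N : Submodule K[X] M) (r t : ℕ) {m : M}
    (hm : m ∈ Cl K {s | s ∈ N ∧ s ∈ G r} (t + 1)) :
    ∃ s, (s ∈ N ∧ s ∈ G r) ∧ m - (X : K[X]) ^ (t + 1) • s ∈ Cl K {s | s ∈ N ∧ s ∈ G r} t := by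
  induction hm using AddSubgroup.closure_induction with
  | mem m hm =>
    obtain ⟨p, s, hs, hp, rfl⟩ := hm
    refine ⟨(C (p.coeff (t + 1)) : K[X]) • s,
      ⟨N.smul_mem _ hs.1, h.smul _ r r s hs.2 (by simp)⟩, ?_⟩
    rw [smul_smul, ← sub_smul]
    refine smul_mem_Cl hs (natDegree_le_iff_coeff_eq_zero.2 fun i hi => ?_)
    rw [coeff_sub, mul_comm, coeff_C_mul_X_pow]
    split_ifs with e
    · rw [e, sub_self]
    · rw [coeff_eq_zero_of_natDegree_lt (by omega), sub_zero]
  | zero => exact ⟨0, ⟨N.zero_mem, (G r).zero_mem⟩, by simp⟩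
  | add u v _ _ hu hv =>
    obtain ⟨s, hs, h1⟩ := hu
    obtain ⟨s', hs', h2⟩ := hv
    refine ⟨s + s', ⟨N.add_mem hs.1 hs'.1, (G r).add_mem hs.2 hs'.2⟩, ?_⟩
    rw [smul_add, add_sub_add_comm]
    exact AddSubgroup.add_mem _ h1 h2
  | neg u _ hu =>
    obtain ⟨s, hs, h1⟩ := hu
    refine ⟨-s, ⟨N.neg_mem hs.1, (G r).neg_mem hs.2⟩, ?_⟩
    rw [smul_neg, neg_sub_neg, ← neg_sub]
    exact AddSubgroup.neg_mem _ h1

theorem Cl_down {G : ℕ → AddSubgroup M} (h : IsFil K G) (N : Submodule K[X] M) (r t i : ℕ) {m : M}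
    (hm : m ∈ Cl K {s | s ∈ N ∧ s ∈ G r} i) (hG : m ∈ G (r + t)) :
    m ∈ Cl K {s | s ∈ N ∧ s ∈ G r} t := by
  induction i with
  | zero => exact Cl_mono (Nat.zero_le _) hm
  | succ i ih =>
    by_cases hi : i + 1 ≤ t
    · exact Cl_mono hi hm
    obtain ⟨s, hs, h1⟩ := Cl_top h N r i hm
    have h2 : (X : K[X]) ^ i • (X : K[X]) • s ∈ G (r + i) := by
      have := AddSubgroup.sub_mem _ (h.mono hG (show r + t ≤ r + i by omega))
        (Cl_le_fil h (fun s hs => hs.2) i h1)
      rwa [sub_sub_cancel, pow_succ, mul_smul] at this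
    have h3 : (X : K[X]) ^ i • (X : K[X]) • s ∈ Cl K {s | s ∈ N ∧ s ∈ G r} i :=
      smul_mem_Cl ⟨N.smul_mem _ hs.1, h.reg_pow i h2⟩ (by simp)
    have := AddSubgroup.add_mem _ h1 h3
    rw [pow_succ, mul_smul, sub_add_cancel] at this
    exact ih this

/-- The saturation of a submodule. -/
def Sat (N : Submodule K[X] M) : Submodule K[X] M where
  carrier := {m | ∃ p : K[X], p ≠ 0 ∧ p • m ∈ N}
  add_mem' := by
    rintro u v ⟨p, hp, hu⟩ ⟨q, hq, hv⟩
    refine ⟨p * q, mul_ne_zero hp hq, ?_⟩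
    rw [smul_add]
    exact N.add_mem (by rw [mul_comm, mul_smul]; exact N.smul_mem _ hu)
      (by rw [mul_smul]; exact N.smul_mem _ hv)
  zero_mem' := ⟨1, one_ne_zero, by simp⟩
  smul_mem' := by
    rintro r u ⟨p, hp, hu⟩
    exact ⟨p, hp, by rw [smul_comm]; exact N.smul_mem _ hu⟩

theorem mem_Sat_of_mem {N : Submodule K[X] M} {m : M} (h : m ∈ N) : m ∈ Sat N :=
  ⟨1, one_ne_zero, by simpa using h⟩

theorem mem_Sat_span {S : Set M} {m : M} (h : m ∈ S) : m ∈ Sat (Submodule.span K[X] S) :=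
  mem_Sat_of_mem (Submodule.subset_span h)

theorem Sat_cancel {N : Submodule K[X] M} {m : M} {p : K[X]} (hp : p ≠ 0) (h : p • m ∈ Sat N) :
    m ∈ Sat N := by
  obtain ⟨q, hq, h⟩ := h
  exact ⟨q * p, mul_ne_zero hq hp, by rwa [mul_smul]⟩

theorem Sat_map {M' : Type} [AddCommGroup M'] [Module K[X] M'] (f : M →ₗ[K[X]] M') {S : Set M}
    {N' : Submodule K[X] M'} (h : ∀ s ∈ S, f s ∈ Sat N') {m : M}
    (hm : m ∈ Sat (Submodule.span K[X] S)) : f m ∈ Sat N' := by
  obtain ⟨p, hp, hm⟩ := hm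
  refine Sat_cancel hp ?_
  rw [← map_smul]
  exact (Submodule.span_le (p := (Sat N').comap f)).2 h hm

theorem re {G : ℕ → AddSubgroup M} (h : IsFil K G) (N : Submodule K[X] M) (r : ℕ)
    (hN : ∀ m ∈ N, m ∈ Sat (Submodule.span K[X] {s | s ∈ N ∧ s ∈ G r})) (t : ℕ) :
    ∀ m ∈ N, m ∈ G (r + t) → m ∈ Cl K {s | s ∈ N ∧ s ∈ G r} t := by
  induction t with
  | zero =>
    intro m hm hG
    simpa using smul_mem_Cl (K := K) (S := {s | s ∈ N ∧ s ∈ G r}) (p := 1) (t := 0) (s := m)
      ⟨hm, hG⟩ (by simp)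
  | succ t ih =>
    intro m hm hG
    obtain ⟨p0, hp0, hpm⟩ := hN m hm
    set p := p0 * C (leadingCoeff p0)⁻¹ with hp
    have hmon : p.Monic := monic_mul_leadingCoeff_inv hp0
    have hpm' : p • m ∈ Submodule.span K[X] {s | s ∈ N ∧ s ∈ G r} := by
      rw [hp, mul_comm, mul_smul]; exact Submodule.smul_mem _ _ hpm
    obtain ⟨i, hi⟩ := exists_Cl hpm'
    obtain ⟨s, hs, h1⟩ := Cl_top h N r (t + p.natDegree) (Cl_down h N r _ i hi
      (h.smul p _ _ m hG (by omega)))
    have h2 := Cl_le_fil h (fun s hs => hs.2) _ h1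
    have h3 : (p - X ^ p.natDegree) • m ∈ G (r + (t + p.natDegree)) := by
      by_cases e : p - X ^ p.natDegree = 0
      · rw [e, zero_smul]; exact AddSubgroup.zero_mem _
      · have : (p - X ^ p.natDegree).natDegree < p.natDegree :=
          natDegree_lt_natDegree e (degree_sub_lt_left (by rw [degree_X_pow, degree_eq_natDegree
            hmon.ne_zero]) hmon.ne_zero (by rw [hmon.leadingCoeff, leadingCoeff_X_pow]))
        exact h.smul _ _ _ m hG (by omega)
    have h4 : (X : K[X]) ^ p.natDegree • (m - (X : K[X]) ^ (t + 1) • s) ∈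
        G (r + t + p.natDegree) := by
      have := AddSubgroup.sub_mem _ h2 h3
      rw [sub_smul, sub_sub_sub_comm, sub_self, zero_sub, neg_sub] at this
      rwa [smul_sub, smul_smul, ← pow_add, show p.natDegree + (t + 1) = t + p.natDegree + 1 by omega,
        Nat.add_assoc]
    have h5 := ih _ (N.sub_mem hm (N.smul_mem _ hs.1)) (h.reg_pow _ h4)
    have := AddSubgroup.add_mem _ (Cl_mono (Nat.le_succ t) h5)
      (smul_mem_Cl (p := X ^ (t + 1)) hs (by simp))
    rwa [sub_add_cancel] at this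

/-- Division with remainder inside a module generated at level `r`. -/
theorem div_rem {G : ℕ → AddSubgroup M} (h : IsFil K G) (N : Submodule K[X] M) {r J : ℕ}
    (hr : r ≤ J + 1) {q : K[X]} (hq : q ≠ 0) {m : M}
    (hm : m ∈ Submodule.span K[X] {s | s ∈ N ∧ s ∈ G r}) :
    ∃ m' ∈ N, m - q • m' ∈ G (J + q.natDegree) := by
  have : ∀ p : K[X], ∃ m' ∈ N, p • m - q • m' ∈ G (J + q.natDegree) := by
    induction hm using Submodule.span_induction with
    | mem s hs =>
      intro p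
      refine ⟨(p / q) • s, N.smul_mem _ hs.1, ?_⟩
      rw [smul_smul, ← sub_smul, ← EuclideanDomain.mod_eq_sub_mul_div]
      by_cases e : p % q = 0
      · rw [e, zero_smul]; exact AddSubgroup.zero_mem _
      · have : (p % q).natDegree < q.natDegree :=
          natDegree_lt_natDegree e (EuclideanDomain.mod_lt p hq)
        exact h.smul _ _ _ s hs.2 (by omega)
    | zero => exact fun p => ⟨0, N.zero_mem, by simp⟩
    | add u v _ _ hu hv =>
      intro p
      obtain ⟨a, ha, h1⟩ := hu p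
      obtain ⟨b, hb, h2⟩ := hv p
      refine ⟨a + b, N.add_mem ha hb, ?_⟩
      rw [smul_add, smul_add, add_sub_add_comm]
      exact AddSubgroup.add_mem _ h1 h2
    | smul r u _ hu => intro p; rw [smul_smul]; exact hu _
  simpa using this 1

theorem IsFil.cancel {G : ℕ → AddSubgroup M} (h : IsFil K G) {q : K[X]} (hq : q ≠ 0) {m : M}
    {j J : ℕ} (hm : m ∈ G j) (h1 : q • m ∈ G (J + q.natDegree)) : m ∈ G J := by
  induction j with
  | zero => exact h.mono hm (Nat.zero_le _)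
  | succ j ih =>
    by_cases hj : j + 1 ≤ J
    · exact h.mono hm hj
    apply ih
    have h3 : (q - C q.leadingCoeff * X ^ q.natDegree) • m ∈ G (j + q.natDegree) := by
      by_cases e : q - C q.leadingCoeff * X ^ q.natDegree = 0
      · rw [e, zero_smul]; exact AddSubgroup.zero_mem _
      · have hl := leadingCoeff_ne_zero.2 hq
        have : (q - C q.leadingCoeff * X ^ q.natDegree).natDegree < q.natDegree :=
          natDegree_lt_natDegree e (degree_sub_lt_left (by
            rw [degree_C_mul_X_pow _ hl, degree_eq_natDegree hq]) hq (by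
            rw [leadingCoeff_C_mul_X_pow]))
        exact h.smul _ _ _ m hm (by omega)
    have h4 := AddSubgroup.sub_mem _ (h.mono h1 (show J + q.natDegree ≤ j + q.natDegree by omega)) h3
    rw [← sub_smul, sub_sub_cancel] at h4
    have h5 := h.smul (C q.leadingCoeff⁻¹) _ (j + q.natDegree) _ h4 (by simp)
    rw [smul_smul, ← mul_assoc, ← C_mul, inv_mul_cancel₀ (leadingCoeff_ne_zero.2 hq), C_1,
      one_mul] at h5
    exact h.reg_pow _ h5

end Pool.Agent.MP_36bee5_al.Scr
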