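import Pool.Agent.MP_36bee5_al.ScrCone

set_option autoImplicit false

/-!
From good families to linear resolutions over a ring embedded in `K[y][x][z]`.
-/

namespace Pool.Agent.MP_36bee5_al.Scr

open Polynomial

variable {K : Type} [Field K] {a c : ℕ} {R : Type} [CommRing R]

/-- `R` is the graded ring with components `Tt k (k a)`. -/
structure Model (K : Type) [Field K] (a c : ℕ) {R : Type} [CommRing R] (ι : R →+* K[X][X][X])
    (Hom : ℕ → R → Prop) : Prop where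
  inj : Function.Injective ι
  coe : ∀ (r : R) (k : ℕ), (ι r).coeff k ∈ Tt K c k (k * a)
  sur : ∀ (k : ℕ), ∀ t ∈ Tt K c k (k * a), ∃ r, Hom k r ∧ ι r = C t * X ^ k
  hom : ∀ (k : ℕ) (r : R), Hom k r → ∃ t ∈ Tt K c k (k * a), ι r = C t * X ^ k

variable {ι : R →+* K[X][X][X]} {Hom : ℕ → R → Prop}

theorem Model.sum_eq_zero (h : Model K a c ι Hom) {κ : Type} [Fintype κ] {e : ℕ} {g : κ → R}
    {t : κ → K[X][X]} (hg : ∀ j, ι (g j) = C (t j) * X ^ e) (v : κ → R) :
    ∑ j, v j * g j = 0 ↔ ∀ k, lc t (fun j => (ι (v j)).coeff k) = 0 := by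
  have e1 : ι (∑ j, v j * g j) = (∑ j, ι (v j) * C (t j)) * X ^ e := by
    rw [map_sum, Finset.sum_mul]
    exact Finset.sum_congr rfl fun j _ => by rw [map_mul, hg, mul_assoc]
  rw [← map_eq_zero_iff ι h.inj, e1, mul_eq_zero, or_iff_left (pow_ne_zero _ X_ne_zero),
    Polynomial.ext_iff]
  refine forall_congr' fun k => ?_
  simp only [lc_apply, finsetSum_coeff, coeff_mul_C, coeff_zero, smul_eq_mul]

/-- The syzygies over `R` attached to a family. -/
def Nz (ι : R →+* K[X][X][X]) {n : ℕ} {M : Type} [AddCommGroup M] [Module K[X][X] M]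
    (h : Fin n → M) : Set (Fin n → R) := {v | ∀ k, lc h (fun j => (ι (v j)).coeff k) = 0}

theorem Model.step (hm : Model K a c ι Hom) {n : ℕ} {M : Type} [AddCommGroup M]
    [Module K[X][X] M] {h : Fin n → M} (p0 : ∀ z ∈ Lv K c 0 (Fin n) 0, lc h z = 0 → z = 0)
    {m : ℕ} {b : Fin m → Fin n → K[X][X]} (hb1 : ∀ i, b i ∈ Lv K c 1 (Fin n) a ∧ lc h (b i) = 0)
    (hb2 : ∀ k, ∀ z ∈ Lv K c (k + 1) (Fin n) (k * a + a), lc h z = 0 →
      ∃ t ∈ Lv K c k (Fin m) (k * a), lc b t = z) :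
    ∃ A : Matrix (Fin n) (Fin m) R,
      (∀ i j, Hom 1 (A i j)) ∧ (∀ v, v ∈ Nz ι h ↔ ∃ w, A.mulVec w = v) ∧
      ∀ w, A.mulVec w = 0 ↔ w ∈ Nz ι b := by
  choose A hA1 hA2 using fun (i : Fin n) (j : Fin m) =>
    hm.sur 1 (b j i) (by rw [one_mul]; exact (hb1 j).1 i)
  have hco : ∀ (w : Fin m → R) (i : Fin n),
      ι (Matrix.mulVec (Matrix.of A) w i) = (∑ j, ι (w j) * C (b j i)) * X := by
    intro w i
    rw [Matrix.mulVec, dotProduct, map_sum, Finset.sum_mul]
    exact Finset.sum_congr rfl fun j _ => by rw [map_mul, Matrix.of_apply, hA2]; ring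
  have hc0 : ∀ (w : Fin m → R),
      (fun i => (ι (Matrix.mulVec (Matrix.of A) w i)).coeff 0) = 0 := by
    intro w; funext i; rw [hco]; simp
  have hc1 : ∀ (w : Fin m → R) (k : ℕ),
      (fun i => (ι (Matrix.mulVec (Matrix.of A) w i)).coeff (k + 1)) =
        lc b fun j => (ι (w j)).coeff k := by
    intro w k
    funext i
    rw [hco, coeff_mul_X, lc_apply]
    simp only [finsetSum_coeff, coeff_mul_C, Finset.sum_apply, Pi.smul_apply, smul_eq_mul]
  have hlc : ∀ t : Fin m → K[X][X], lc h (lc b t) = 0 := fun t => by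
    rw [lc_apply b, map_sum]
    exact Finset.sum_eq_zero fun i _ => by rw [map_smul, (hb1 i).2, smul_zero]
  refine ⟨Matrix.of A, hA1, fun v => ⟨fun hv => ?_, ?_⟩, fun w => ⟨fun hw k => ?_,
    fun hw => ?_⟩⟩
  · choose t ht1 ht2 using fun k => hb2 k (fun i => (ι (v i)).coeff (k + 1))
      (fun i => by have := hm.coe (v i) (k + 1); rwa [add_mul, one_mul] at this) (hv (k + 1))
    choose r hr1 hr2 using fun k j => hm.sur k (t k j) (ht1 k j)
    set N := Finset.univ.sup fun i => (ι (v i)).natDegree with hN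
    refine ⟨fun j => ∑ k ∈ Finset.range N, r k j, funext fun i => hm.inj ?_⟩
    ext1 k
    rcases k with _ | k
    · rw [congrFun (hc0 _) i,
        congrFun (p0 _ (fun i => by simpa using hm.coe (v i) 0) (hv 0)) i]
    · rw [congrFun (hc1 _ k) i]
      have e : (fun j => (ι (∑ k ∈ Finset.range N, r k j)).coeff k) =
          if k < N then t k else 0 := by
        funext j
        simp only [map_sum, hr2, finsetSum_coeff, coeff_C_mul_X_pow, Finset.sum_ite_eq,
          Finset.mem_range]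
        split_ifs <;> rfl
      rw [e]
      split_ifs with hk
      · exact congrFun (ht2 k) i
      · rw [map_zero, Pi.zero_apply, coeff_eq_zero_of_natDegree_lt]
        have := Finset.le_sup (f := fun i => (ι (v i)).natDegree) (Finset.mem_univ i)
        omega
  · rintro ⟨w, rfl⟩ k
    rcases k with _ | k
    · rw [hc0, map_zero]
    · rw [hc1, hlc]
  · rw [← hc1, hw]
    funext i; simp
  · funext i
    apply hm.inj
    ext1 k
    rcases k with _ | k
    · rw [congrFun (hc0 _) i]; simp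
    · rw [congrFun (hc1 _ k) i, hw k]; simp

/-- A class of families closed under passing to a basis of the linear syzygies. -/
structure Closed (K : Type) [Field K] (a c : ℕ) (P : (n : ℕ) → (M : Type) → [AddCommGroup M] →
    [Module K[X][X] M] → (Fin n → M) → Prop) : Prop where
  p0 : ∀ (n : ℕ) (M : Type) [AddCommGroup M] [Module K[X][X] M] (h : Fin n → M), P n M h →
    ∀ z ∈ Lv K c 0 (Fin n) 0, lc h z = 0 → z = 0
  next : ∀ (n : ℕ) (M : Type) [AddCommGroup M] [Module K[X][X] M] (h : Fin n → M), P n M h →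
    ∃ (m : ℕ) (b : Fin m → Fin n → K[X][X]), (∀ i, b i ∈ Lv K c 1 (Fin n) a ∧ lc h (b i) = 0) ∧
      (∀ k, ∀ z ∈ Lv K c (k + 1) (Fin n) (k * a + a), lc h z = 0 →
        ∃ t ∈ Lv K c k (Fin m) (k * a), lc b t = z) ∧ P m (Fin n → K[X][X]) b

variable {P : (n : ℕ) → (M : Type) → [AddCommGroup M] → [Module K[X][X] M] → (Fin n → M) → Prop}

theorem Model.resolution (hm : Model K a c ι Hom) (hP : Closed K a c P) {n : ℕ}
    {w : Fin n → K[X][X]} (hg : P n K[X][X] w) {d : ℕ} {g : Fin n → R} (hw : ∀ j, ι (g j) = C (w j) * X ^ d) :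
    ∃ (b : ℕ → ℕ) (g' : Fin (b 0) → R) (A : (i : ℕ) → Matrix (Fin (b i)) (Fin (b (i + 1))) R),
      Set.range g' = Set.range g ∧ (∀ i p q, Hom 1 (A i p q)) ∧
      (∀ v : Fin (b 0) → R, ∑ j, v j * g' j = 0 ↔ ∃ u, (A 0).mulVec u = v) ∧
      (∀ (i : ℕ) (v : Fin (b (i + 1)) → R),
        (A i).mulVec v = 0 ↔ ∃ u, (A (i + 1)).mulVec u = v) := by
  let St : Type := {p : (k : ℕ) × Set (Fin k → R) // ∃ (M : Type) (_ : AddCommGroup M)
    (_ : Module K[X][X] M) (h : Fin p.1 → M), P p.1 M h ∧ p.2 = Nz ι h}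
  have step : ∀ s : St, ∃ (t : St) (A : Matrix (Fin s.1.1) (Fin t.1.1) R),
      (∀ p q, Hom 1 (A p q)) ∧ (∀ v, v ∈ s.1.2 ↔ ∃ u, A.mulVec u = v) ∧
      (∀ u, A.mulVec u = 0 ↔ u ∈ t.1.2) := by
    rintro ⟨⟨k, N⟩, M, _, _, h, h1, h2⟩
    obtain ⟨m, b, hb1, hb2, h3⟩ := hP.next _ _ _ h1
    obtain ⟨A, h4, h5, h6⟩ := hm.step (hP.p0 _ _ _ h1) hb1 hb2
    refine ⟨⟨⟨m, Nz ι b⟩, _, _, _, b, h3, rfl⟩, A, h4, fun v => ?_, h6⟩
    have h2' : N = Nz ι h := h2
    exact (Set.ext_iff.1 h2' v).trans (h5 v)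
  choose next A hA1 hA2 hA3 using step
  let s : ℕ → St := fun i =>
    Nat.rec (⟨⟨n, Nz ι w⟩, _, _, _, w, hg, rfl⟩ : St) (fun _ t => next t) i
  exact ⟨fun i => (s i).1.1, g, fun i => A (s i), rfl, fun i => hA1 (s i),
    fun v => (hm.sum_eq_zero hw v).trans (hA2 (s 0) v),
    fun i v => (hA3 (s i) v).trans (hA2 (s (i + 1)) v)⟩

theorem rankOk_bal {κ : Type} [Fintype κ] {v : κ → K[X][X]} (hv : ∀ i, v i ∈ Tt K 0 1 a) :
    RankOk K a 0 v := by
  intro hd
  by_cases h0 : ∀ i, v i = 0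
  · exact rankOk_zero h0 a
  obtain ⟨i1, hi1⟩ := not_forall.1 h0
  obtain ⟨l, h2, -, h3⟩ := exists_coeff (fun i => (hv i).1) hd hi1
  exact gen_of_coeff hi1 h2 h3 fun i => by simpa using (hv i).2 l

theorem Model.rankOk (hm : Model K a c ι Hom) (ha : 1 ≤ a) {n : ℕ} {g : Fin n → R}
    {v : Fin n → K[X][X]} (hv : ∀ i, v i ∈ Tt K c 1 a) (hg : ∀ i, ι (g i) = C (v i) * X ^ 1)
    (hex : ∀ u : Fin n → R, ∑ j, u j * g j = 0 →
      u ∈ Submodule.span R {w : Fin n → R | (∀ j, Hom 1 (w j)) ∧ ∑ j, w j * g j = 0}) :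
    RankOk K a c v := by
  classical
  intro hd
  by_cases h0 : ∀ i, v i = 0
  · exact rankOk_zero h0 a
  obtain ⟨i1, hi1⟩ := not_forall.1 h0
  obtain ⟨l', h2, -, h3⟩ := exists_coeff (fun i => (hv i).1) hd hi1
  intro z hz
  obtain ⟨J, hJ⟩ := exists_Lv (c := c) hz.1
  choose r _ hr using fun i => hm.sur (J + 1) (z i) (Tt_mono (by omega) (by nlinarith) (hJ i))
  obtain ⟨l, w, A, hw⟩ := Submodule.mem_span_set'.1 (hex r ((hm.sum_eq_zero hg r).2 fun k => by
    simp only [hr, coeff_C_mul_X_pow]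
    split_ifs
    · exact hz.2
    · exact map_zero _))
  choose s hs1 hs2 using fun i j => hm.hom 1 _ ((A j).2.1 i)
  have hcol : ∀ j, lc v (fun i => (C ((s i j).coeff 0) : K[X][X])) = 0 := by
    intro j
    have h4 := (hm.sum_eq_zero hg _).1 (A j).2.2 1
    simp only [hs2, coeff_C_mul_X_pow, if_true, lc_apply, smul_eq_mul] at h4
    have h5 : ∑ i, s i j * C ((v i).coeff l') = 0 := by
      apply mul_right_cancel₀ hi1
      rw [zero_mul, ← mul_zero (C ((v i1).coeff l') : K[X][X]), ← h4, Finset.sum_mul,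
        Finset.mul_sum]
      exact Finset.sum_congr rfl fun i _ => by linear_combination -s i j * h3 i
    have h6 := congrArg (fun f : K[X][X] => (C (f.coeff 0) : K[X][X])) h5
    simp only [finsetSum_coeff, coeff_mul_C, map_sum, map_mul, coeff_zero, map_zero] at h6
    apply mul_left_cancel₀ (C_ne_zero.2 h2 : (C ((v i1).coeff l') : K[X][X]) ≠ 0)
    rw [mul_zero, lc_apply, ← zero_mul (v i1), ← h6, Finset.sum_mul, Finset.mul_sum]
    exact Finset.sum_congr rfl fun i _ => by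
      rw [smul_eq_mul]; linear_combination C ((s i j).coeff 0) * h3 i
  have key : z = ∑ j, ((ι (w j)).coeff J).coeff 0 •
      (fun i => (C ((s i j).coeff 0) : K[X][X])) := by
    funext i
    have h4 := congrArg (fun f : K[X][X][X] => (C ((f.coeff (J + 1)).coeff 0) : K[X][X])) (hr i)
    simp only [coeff_C_mul_X_pow, if_true] at h4
    rw [← eq_C_of_natDegree_le_zero (hz.1 i), ← hw, Finset.sum_apply, map_sum] at h4
    rw [← h4]
    simp only [map_mul, hs2, pow_one, finsetSum_coeff, map_sum, Finset.sum_apply, dsmul,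
      Pi.smul_apply, smul_eq_mul]
    refine Finset.sum_congr rfl fun j _ => ?_
    rw [← mul_assoc, coeff_mul_X, coeff_mul_C, mul_coeff_zero, map_mul]
  rw [key]
  exact Submodule.sum_mem _ fun j _ => Submodule.smul_mem _ _
    (mem_Sg (fun i => C_mem_Tt (by simpa using (hs1 i j).2 0)) (hcol j))

theorem Model.zero (hm : Model K a c ι Hom) (k : ℕ) : Hom k 0 := by
  obtain ⟨r, h1, h2⟩ := hm.sur k 0 (Submodule.zero_mem _)
  rwa [hm.inj (h2.trans (by simp) : ι r = ι 0)] at h1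

theorem neg_aux {S : Type} [CommRing S] {m : ℕ} (p t z : S) (r v : Fin m → S)
    (h : ∑ i, r i * v i * z * z = p * t * z * z) :
    p * z ^ 1 * (t * z ^ 1) + ∑ i, -r i * z ^ 1 * (v i * z ^ 1) = 0 := by
  have e : ∑ i, -r i * z ^ 1 * (v i * z ^ 1) = -∑ i, r i * v i * z * z := by
    rw [← Finset.sum_neg_distrib]
    exact Finset.sum_congr rfl fun j _ => by ring
  rw [e, h]
  ring

theorem Model.koszul (hm : Model K a c ι Hom) (hK : ∀ r : K, ∃ x : R, ι x = C (C (C r)))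
    (F : Set (Ideal R)) (h1 : ∀ I ∈ F, I = Ideal.span {y | y ∈ I ∧ Hom 1 y})
    (h2 : ∀ I ∈ F, I ≠ ⊥ → ∃ I' ∈ F, I' ≤ I ∧ (∃ x, Hom 1 x ∧ I = I' ⊔ Ideal.span {x}) ∧
      ∃ D ∈ F, ∀ r, r ∈ D ↔ ∀ y ∈ I, r * y ∈ I') (I : Ideal R) (hI : I ∈ F) :
    ∃ (m : ℕ) (g : Fin m → R), (∀ j, Hom 1 (g j)) ∧ Ideal.span (Set.range g) = I ∧
      ∀ u : Fin m → R, ∑ j, u j * g j = 0 →
        u ∈ Submodule.span R {w : Fin m → R | (∀ j, Hom 1 (w j)) ∧ ∑ j, w j * g j = 0} := by
  let V : Ideal R → Sp K := fun I =>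
    { carrier := {t | t ∈ Tt K c 1 (1 * a) ∧ ∃ r ∈ I, ι r = C t * X ^ 1}
      add_mem' := by
        rintro p q ⟨hp, r, hr, e⟩ ⟨hq, r', hr', e'⟩
        exact ⟨Submodule.add_mem _ hp hq, r + r', I.add_mem hr hr', by
          rw [map_add, e, e', map_add, add_mul]⟩
      zero_mem' := ⟨Submodule.zero_mem _, 0, I.zero_mem, by simp⟩
      smul_mem' := by
        rintro l p ⟨hp, r, hr, e⟩
        obtain ⟨x, hx⟩ := hK l
        exact ⟨Submodule.smul_mem _ _ hp, x * r, I.mul_mem_left _ hr, by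
          rw [map_mul, hx, e, ksmul, map_mul, mul_assoc]⟩ }
  have hfin : ∀ I, Module.Finite K (V I) := fun I =>
    Module.Finite.iff_fg.2 (Submodule.FG.of_le (Tt_fg 1 (1 * a)) fun t ht => ht.1)
  obtain ⟨N, hN⟩ : ∃ N, Module.finrank K (V I) = N := ⟨_, rfl⟩
  induction N using Nat.strong_induction_on generalizing I with
  | _ N ih =>
  by_cases h0 : I = ⊥
  · exact ⟨0, Fin.elim0, fun j => j.elim0, by simp [h0], fun u _ => by
      rw [Subsingleton.elim u 0]; exact Submodule.zero_mem _⟩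
  obtain ⟨I', hI', hle, ⟨x, hx, e⟩, D, hD, hcol⟩ := h2 I hI h0
  have hxI : x ∈ I := e ▸ Ideal.mem_sup_right (Ideal.subset_span rfl)
  have hlt : V I' < V I := by
    refine lt_of_le_of_ne (fun t ⟨ht, r, hr, e⟩ => ⟨ht, r, hle hr, e⟩) fun hV => ?_
    have hII : I ≤ I' := by
      rw [h1 I hI, Ideal.span_le]
      rintro y ⟨hy, hy'⟩
      obtain ⟨t, ht, et⟩ := hm.hom 1 y hy'
      obtain ⟨-, r, hr, er⟩ : t ∈ V I' := hV ▸ (⟨ht, y, hy, et⟩ : t ∈ V I)
      rwa [hm.inj (et.trans er.symm)]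
    have h3 : (1 : R) ∈ Ideal.span {y | y ∈ D ∧ Hom 1 y} := by
      rw [← h1 D hD]
      exact (hcol 1).2 fun y hy => by rw [one_mul]; exact hII hy
    have h4 : ∀ y ∈ Ideal.span {y | y ∈ D ∧ Hom 1 y}, (ι y).coeff 0 = 0 := by
      intro y hy
      induction hy using Submodule.span_induction with
      | mem y hy => obtain ⟨t, -, et⟩ := hm.hom 1 y hy.2; simp [et]
      | zero => simp
      | add y z _ _ hy hz => simp [hy, hz]
      | smul r y _ hy => simp [hy]
    simpa using h4 1 h3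
  have := hfin I
  obtain ⟨m, g, hg1, hg2, hg3⟩ := ih _ (hN ▸ Submodule.finrank_lt_finrank_of_lt hlt) I' hI' rfl
  choose v hv1 hv2 using fun j => hm.hom 1 _ (hg1 j)
  obtain ⟨t, ht1, ht2⟩ := hm.hom 1 x hx
  have hg0 : ∀ j, Hom 1 ((Fin.cons x g : Fin (m + 1) → R) j) := fun j =>
    Fin.cases hx (fun j => hg1 j) j
  set S := Submodule.span R {w : Fin (m + 1) → R | (∀ j, Hom 1 (w j)) ∧
    ∑ j, w j * (Fin.cons x g : Fin (m + 1) → R) j = 0} with hS
  have hS0 : S ≤ LinearMap.ker (Fintype.linearCombination R (Fin.cons x g : Fin (m + 1) → R)) :=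
    Submodule.span_le.2 fun w hw => hw.2
  have h5 : ∀ u : Fin m → R, ∑ j, u j * g j = 0 → (Fin.cons 0 u : Fin (m + 1) → R) ∈ S := by
    intro u hu
    have := hg3 u hu
    clear hu
    induction this using Submodule.span_induction with
    | mem w hw =>
      exact Submodule.subset_span ⟨fun j => Fin.cases (hm.zero 1) (fun j => hw.1 j) j, by
        simpa [Fin.sum_univ_succ] using hw.2⟩
    | zero => exact (by ext j; cases j using Fin.cases <;> simp :
        (0 : Fin (m + 1) → R) = Fin.cons 0 0) ▸ S.zero_mem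
    | add y z _ _ hy hz => exact (by ext j; cases j using Fin.cases <;> simp :
        (Fin.cons 0 y + Fin.cons 0 z : Fin (m + 1) → R) = Fin.cons 0 (y + z)) ▸ S.add_mem hy hz
    | smul r y _ hy => exact (by ext j; cases j using Fin.cases <;> simp :
        (r • Fin.cons 0 y : Fin (m + 1) → R) = Fin.cons 0 (r • y)) ▸ S.smul_mem r hy
  have h6 : ∀ y ∈ Ideal.span {y | y ∈ D ∧ Hom 1 y}, ∃ w ∈ S, w 0 = y := by
    intro y hy
    induction hy using Submodule.span_induction with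
    | mem y hy =>
      obtain ⟨p, hp1, hp2⟩ := hm.hom 1 y hy.2
      have h7 : y * x ∈ Ideal.span (Set.range g) := hg2 ▸ (hcol y).1 hy.1 x hxI
      obtain ⟨r, hr⟩ := (Submodule.mem_span_range_iff_exists_fun R).1 h7
      choose q hq1 hq2 using fun j => hm.sur 1 _ (Submodule.neg_mem _ (hm.coe (r j) 1))
      refine ⟨Fin.cons y q, Submodule.subset_span ⟨fun j => Fin.cases hy.2 (fun j => hq1 j) j,
        hm.inj ?_⟩, rfl⟩
      have h8 := congrArg (fun f => (ι f).coeff (1 + 1)) hr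
      simp only [smul_eq_mul, map_sum, map_mul, hv2, hp2, ht2, finsetSum_coeff, pow_one,
        ← mul_assoc, coeff_mul_X, coeff_mul_C, coeff_C_zero] at h8
      simp only [Fin.sum_univ_succ, Fin.cons_zero, Fin.cons_succ, map_add, map_sum, map_mul, hv2,
        hp2, ht2, hq2, map_zero, map_neg]
      have h9 := congrArg (fun f : K[X][X] => (C f * X * X : K[X][X][X])) h8
      simp only [map_sum, map_mul, Finset.sum_mul] at h9
      exact neg_aux (S := K[X][X][X]) _ _ _ _ _ h9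
    | zero => exact ⟨0, S.zero_mem, rfl⟩
    | add y z _ _ hy hz =>
      obtain ⟨w, hw, rfl⟩ := hy
      obtain ⟨w', hw', rfl⟩ := hz
      exact ⟨w + w', S.add_mem hw hw', rfl⟩
    | smul r y _ hy =>
      obtain ⟨w, hw, rfl⟩ := hy
      exact ⟨r • w, S.smul_mem r hw, rfl⟩
  refine ⟨m + 1, Fin.cons x g, hg0, ?_, fun u hu => ?_⟩
  · rw [Fin.range_cons, Ideal.span_insert, hg2, sup_comm, ← e]
  · have hu0 : u 0 ∈ D := by
      refine (hcol _).2 fun y hy => ?_
      rw [e] at hy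
      obtain ⟨y', hy', z, hz, rfl⟩ := Submodule.mem_sup.1 hy
      obtain ⟨r, rfl⟩ := Ideal.mem_span_singleton'.1 hz
      rw [Fin.sum_univ_succ, add_eq_zero_iff_eq_neg, Fin.cons_zero] at hu
      rw [mul_add, mul_left_comm, hu]
      refine I'.add_mem (I'.mul_mem_left _ hy') (I'.mul_mem_left _ (I'.neg_mem
        (I'.sum_mem fun j _ => I'.mul_mem_left _ ?_)))
      exact hg2 ▸ Ideal.subset_span ⟨j, rfl⟩
    obtain ⟨w, hw, hw0⟩ := h6 (u 0) (h1 D hD ▸ hu0)
    have h7 : ∑ j, (u - w) j * (Fin.cons x g : Fin (m + 1) → R) j = 0 := by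
      have : ∑ j, w j * (Fin.cons x g : Fin (m + 1) → R) j = 0 := hS0 hw
      simp only [Pi.sub_apply, sub_mul, Finset.sum_sub_distrib, hu, this, sub_self]
    have h8 := h5 (Fin.tail (u - w)) (by simpa [Fin.sum_univ_succ, hw0, Fin.tail] using h7)
    have h9 : u = Fin.cons 0 (Fin.tail (u - w)) + w := by
      ext j; cases j using Fin.cases <;> simp [hw0, Fin.tail]
    rw [h9]
    exact S.add_mem h8 hw

theorem prod_span (hK : ∀ r : K, ∃ x : R, ι x = C (C (C r)))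
    {σ : Type} (n : σ → ℕ) (g : (j : σ) → Fin (n j) → R) (v : (j : σ) → Fin (n j) → K[X][X])
    (hg : ∀ j i, ι (g j i) = C (v j i) * X ^ 1) (s : Finset σ) :
    (∀ t ∈ ∏ j ∈ s, (Submodule.span K (Set.range (v j)) : Sp K),
      ∃ r ∈ ∏ j ∈ s, Ideal.span (Set.range (g j)), ι r = C t * X ^ s.card) ∧
    ∏ j ∈ s, Ideal.span (Set.range (g j)) ≤ Ideal.span {r | ∃ t ∈ ∏ j ∈ s,
      (Submodule.span K (Set.range (v j)) : Sp K), ι r = C t * X ^ s.card} := by
  classical
  induction s using Finset.induction_on with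
  | empty =>
    simp only [Finset.prod_empty, Finset.card_empty, pow_zero, mul_one, Ideal.one_eq_top]
    refine ⟨fun t ht => ?_, ?_⟩
    · obtain ⟨r, rfl⟩ := Submodule.mem_one.1 ht
      obtain ⟨x, hx⟩ := hK r
      exact ⟨x, Submodule.mem_top, hx⟩
    · rw [top_le_iff, Ideal.eq_top_iff_one]
      exact Ideal.subset_span ⟨1, Submodule.one_le.1 le_rfl, by simp⟩
  | insert j s hj ih =>
    simp only [Finset.prod_insert hj, Finset.card_insert_of_notMem hj]
    refine ⟨fun t ht => ?_, ?_⟩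
    · refine Submodule.mul_induction_on ht (fun p hp q hq => ?_) ?_
      · obtain ⟨r, hr, e⟩ := ih.1 q hq
        obtain ⟨l, rfl⟩ := (Submodule.mem_span_range_iff_exists_fun K).1 hp
        choose x hx using fun i => hK (l i)
        refine ⟨(∑ i, x i * g j i) * r, Ideal.mul_mem_mul (Ideal.sum_mem _ fun i _ =>
          Ideal.mul_mem_left _ _ (Ideal.subset_span ⟨i, rfl⟩)) hr, ?_⟩
        simp only [map_mul, map_sum, e, hx, hg, ksmul, Finset.sum_mul]
        exact Finset.sum_congr rfl fun i _ => by ring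
      · rintro p q ⟨r, hr, e⟩ ⟨r', hr', e'⟩
        exact ⟨r + r', Ideal.add_mem _ hr hr', by rw [map_add, e, e', map_add, add_mul]⟩
    · refine (Ideal.mul_mono_right ih.2).trans ?_
      rw [Ideal.span_mul_span', Ideal.span_le]
      rintro _ ⟨_, ⟨i, rfl⟩, r, ⟨t, ht, e⟩, rfl⟩
      refine Ideal.subset_span ⟨v j i * t,
        Submodule.mul_mem_mul (Submodule.subset_span ⟨i, rfl⟩) ht, ?_⟩
      show ι (g j i * r) = _
      rw [map_mul, hg, e, map_mul]
      ring

theorem prod_le_Tt {σ : Type} (V : σ → Sp K) (hV : ∀ j, V j ≤ Tt K c 1 a) (s : Finset σ) :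
    ∏ j ∈ s, V j ≤ Tt K c s.card (s.card * a) := by
  classical
  induction s using Finset.induction_on with
  | empty => rw [Finset.prod_empty, Submodule.one_le]; simpa using one_mem_Tt
  | insert j s hj ih =>
    rw [Finset.prod_insert hj, Finset.card_insert_of_notMem hj]
    refine Submodule.mul_le.2 fun p hp q hq => ?_
    have := Tt_mul (hV j hp) (ih hq)
    rwa [Nat.add_comm 1, Nat.add_comm a, ← Nat.succ_mul] at this

theorem Model.main_of (hm : Model K a c ι Hom) (hP : Closed K a c P)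
    (hK : ∀ r : K, ∃ x : R, ι x = C (C (C r))) (d : ℕ) (I : Fin d → Ideal R) (n : Fin d → ℕ)
    (g : (k : Fin d) → Fin (n k) → R) (hg2 : ∀ k, Ideal.span (Set.range (g k)) = I k)
    (v : (k : Fin d) → Fin (n k) → K[X][X]) (hv1 : ∀ k j, v k j ∈ Tt K c 1 a)
    (hv2 : ∀ k j, ι (g k j) = C (v k j) * X ^ 1) {m : ℕ} {w : Fin m → K[X][X]}
    (hw : (Submodule.span K (Set.range w) : Sp K) =
      ∏ j, (Submodule.span K (Set.range (v j)) : Sp K)) (hgood : P m K[X][X] w) :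
    ∃ (b : ℕ → ℕ) (g : Fin (b 0) → R) (A : (i : ℕ) → Matrix (Fin (b i)) (Fin (b (i + 1))) R),
      (∀ j, Hom d (g j)) ∧ (∀ i p q, Hom 1 (A i p q)) ∧ Ideal.span (Set.range g) = ∏ k, I k ∧
      (∀ v : Fin (b 0) → R, ∑ j, v j * g j = 0 ↔ ∃ u, (A 0).mulVec u = v) ∧
      (∀ (i : ℕ) (v : Fin (b (i + 1)) → R),
        (A i).mulVec v = 0 ↔ ∃ u, (A (i + 1)).mulVec u = v) := by
  obtain ⟨h1, h2⟩ := prod_span hK n g v hv2 Finset.univ
  have hle := prod_le_Tt (c := c) (a := a) (fun j => Submodule.span K (Set.range (v j)))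
    (fun j => Submodule.span_le.2 (by rintro _ ⟨i, rfl⟩; exact hv1 j i)) Finset.univ
  rw [← hw, Finset.card_univ, Fintype.card_fin] at h1 h2 hle
  simp only [hg2] at h1 h2
  choose G hG1 hG2 using fun j => hm.sur d (w j) (hle (Submodule.subset_span ⟨j, rfl⟩))
  obtain ⟨b, G', A, e, h3, h4, h5⟩ := hm.resolution hP hgood hG2
  refine ⟨b, G', A, fun j => ?_, h3, ?_, h4, h5⟩
  · obtain ⟨i, hi⟩ : G' j ∈ Set.range G := e ▸ ⟨j, rfl⟩
    exact hi ▸ hG1 i
  · rw [e]
    apply le_antisymm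
    · rw [Ideal.span_le]
      rintro _ ⟨j, rfl⟩
      obtain ⟨r, hr, e'⟩ := h1 (w j) (Submodule.subset_span ⟨j, rfl⟩)
      rwa [hm.inj ((hG2 j).trans e'.symm)]
    · refine h2.trans (Ideal.span_le.2 ?_)
      rintro r ⟨t, ht, e'⟩
      obtain ⟨l, rfl⟩ := (Submodule.mem_span_range_iff_exists_fun K).1 ht
      choose x hx using fun i => hK (l i)
      have : r = ∑ i, x i * G i := hm.inj (by
        simp only [map_mul, map_sum, e', hx, hG2, ksmul, Finset.sum_mul]
        exact Finset.sum_congr rfl fun i _ => by ring)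
      rw [this]
      exact Ideal.sum_mem _ fun i _ => Ideal.mul_mem_left _ _ (Ideal.subset_span ⟨i, rfl⟩)

theorem Model.main (hm : Model K a c ι Hom) (hac : 1 ≤ a + c)
    (hK : ∀ r : K, ∃ x : R, ι x = C (C (C r))) (d : ℕ) (I : Fin d → Ideal R)
    (hI : ∀ k, ∃ (m : ℕ) (g : Fin m → R), (∀ j, Hom 1 (g j)) ∧ Ideal.span (Set.range g) = I k ∧
      (a = 0 ∨ c = 0 ∨ ∀ u : Fin m → R, ∑ j, u j * g j = 0 →
        u ∈ Submodule.span R {w : Fin m → R | (∀ j, Hom 1 (w j)) ∧ ∑ j, w j * g j = 0})) :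
    ∃ (b : ℕ → ℕ) (g : Fin (b 0) → R) (A : (i : ℕ) → Matrix (Fin (b i)) (Fin (b (i + 1))) R),
      (∀ j, Hom d (g j)) ∧ (∀ i p q, Hom 1 (A i p q)) ∧ Ideal.span (Set.range g) = ∏ k, I k ∧
      (∀ v : Fin (b 0) → R, ∑ j, v j * g j = 0 ↔ ∃ u, (A 0).mulVec u = v) ∧
      (∀ (i : ℕ) (v : Fin (b (i + 1)) → R),
        (A i).mulVec v = 0 ↔ ∃ u, (A (i + 1)).mulVec u = v) := by
  choose n g hg1 hg2 hg3 using hI
  choose v hv1 hv2 using fun k j => hm.hom 1 _ (hg1 k j)
  simp only [one_mul] at hv1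
  rcases Nat.eq_zero_or_pos a with rfl | ha
  · obtain ⟨m, w, hw, hgood⟩ := good0_prod (c := c) n v hv1
    exact hm.main_of (P := fun _ _ _ _ h => Good0 K c h)
      ⟨fun _ _ _ _ _ h => h.p0, fun _ _ _ _ _ h => h.next (by omega)⟩ hK d I n g hg2 v hv1 hv2 hw
      hgood
  · obtain ⟨m, w, hw, hgood⟩ := good_prod (c := c) n v hv1 (fun k => by
      rcases hg3 k with h | rfl | h1
      · omega
      · exact rankOk_bal (hv1 k)
      · exact hm.rankOk ha (hv1 k) (hv2 k) h1) Finset.univ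
    exact hm.main_of (P := fun _ _ _ _ h => Good K a c h)
      ⟨fun _ _ _ _ _ h => h.p0, fun _ _ _ _ _ h => h.next ha⟩ hK d I n g hg2 v hv1 hv2 hw hgood

end Pool.Agent.MP_36bee5_al.Scr
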