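import Pool.Agent.MP_36bee5_al.ScrLocal

set_option autoImplicit false

/-!
The local saturation theorem for products of lattices.
-/

namespace Pool.Agent.MP_36bee5_al.Scr

open Polynomial

variable {F : Type} [Field F] {O : Subring F} {π : F}

/-- The principal lattice of a scalar. -/
noncomputable def sc (O : Subring F) (c : F) : Lat O := Submodule.span O {C c}

theorem mem_sc_mul {c : F} (hc : c ≠ 0) {M : Lat O} {f : F[X]} :
    f ∈ sc O c * M ↔ c⁻¹ • f ∈ M := by
  rw [sc, Submodule.mem_span_singleton_mul]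
  constructor
  · rintro ⟨z, hz, rfl⟩
    rwa [← smul_eq_C_mul, smul_smul, inv_mul_cancel₀ hc, one_smul]
  · intro h
    exact ⟨_, h, by rw [← smul_eq_C_mul, smul_smul, mul_inv_cancel₀ hc, one_smul]⟩

theorem lat_smul {c : F} (hc : c ≠ 0) (p q : F[X]) :
    lat O (c • p) (c • q) = sc O c * lat O p q := by
  ext f
  rw [mem_sc_mul hc, mem_lat, mem_lat]
  refine exists_congr fun α => and_congr_right fun _ => exists_congr fun β =>
    and_congr_right fun _ => ?_
  rw [smul_comm α c, smul_comm β c, ← smul_add, inv_smul_eq_iff₀ hc]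

theorem sc_mul (c c' : F) : sc O c * sc O c' = sc O (c * c') := by
  rw [sc, sc, sc, Submodule.span_mul_span, Set.singleton_mul_singleton, map_mul]

theorem prod_sc {ι : Type} (s : Finset ι) (c : ι → F) :
    ∏ j ∈ s, sc O (c j) = sc O (∏ j ∈ s, c j) := by
  classical
  induction s using Finset.induction_on with
  | empty => simp [sc, Submodule.one_eq_span]
  | insert a s ha ih => rw [Finset.prod_insert ha, Finset.prod_insert ha, ih, sc_mul]

theorem prod_scale {ι : Type} (s : Finset ι) (c : ι → F) (L L' : ι → Lat O)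
    (h : ∀ j ∈ s, L j = sc O (c j) * L' j) :
    ∏ j ∈ s, L j = sc O (∏ j ∈ s, c j) * ∏ j ∈ s, L' j := by
  rw [Finset.prod_congr rfl h, Finset.prod_mul_distrib, prod_sc]

/-- The second type of position of a lattice relative to `lat z x`. -/
def Far (O : Subring F) (π : F) (z x : F[X]) (L' : Lat O) : Prop :=
  ∃ xj zj yj : F[X], Fr xj zj ∧ lat O xj zj = lat O z x ∧ L' = lat O xj yj ∧ L' ≤ lat O z x ∧
    π⁻¹ • (x * yj) ∈ lat O z x * L'

theorem classify (h : IsPlace O π) {z q pj qj : F[X]} (hf : Fr z q) (n nj : ℕ) (hn : nj ≤ n)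
    {c : F} (hc : c ≠ 0) (hl : lat O pj qj = lat O z q) :
    ∃ c' : F, c' ≠ 0 ∧ ∃ L' : Lat O, lat O (c • pj) ((c * π ^ nj) • qj) = sc O c' * L' ∧
      (L' = lat O z (π ^ n • q) ∨ Far O π z (π ^ n • q) L') := by
  have hπ := h.ne
  have hπn : π ^ n ≠ 0 := pow_ne_zero _ hπ
  set x := π ^ n • q with hx
  have hfx : Fr z x := by simpa using hf.smul one_ne_zero hπn
  set Lj := lat O (c • pj) ((c * π ^ nj) • qj) with hLj
  have h1 : Lj ≤ lat O (c • z) (c • q) := by
    rw [lat_smul hc, ← hl, ← lat_smul hc]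
    refine lat_le (left_mem_lat _ _) ?_
    rw [mul_comm, mul_smul]
    exact smul_mem' (O.pow_mem h.mem _) (right_mem_lat _ _)
  have h2 : ∀ f ∈ lat O z q, (c * π ^ n) • f ∈ Lj := by
    intro f hf'
    rw [← hl] at hf'
    obtain ⟨μ, hμ, ν, hν, rfl⟩ := mem_lat.1 hf'
    obtain ⟨k, rfl⟩ := Nat.exists_eq_add_of_le hn
    refine mem_lat.2 ⟨μ * π ^ (nj + k), O.mul_mem hμ (O.pow_mem h.mem _), ν * π ^ k,
      O.mul_mem hν (O.pow_mem h.mem _), ?_⟩
    simp only [smul_add, smul_smul]
    congr 2 <;> ring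
  have h2x : c • x ∈ Lj := by
    rw [hx, smul_smul]; exact h2 q (right_mem_lat _ _)
  have h3 : Lj ≤ lat O ((c * (π ^ n)⁻¹) • z) ((c * (π ^ n)⁻¹) • x) := by
    refine h1.trans (lat_le ?_ ?_)
    · have : c • z = π ^ n • (c * (π ^ n)⁻¹) • z := by
        rw [smul_smul]; congr 1; field_simp
      rw [this]
      exact smul_mem' (O.pow_mem h.mem _) (left_mem_lat _ _)
    · have : c • q = (c * (π ^ n)⁻¹) • x := by
        rw [hx, smul_smul]; congr 1; field_simp
      rw [this]
      exact right_mem_lat _ _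
  have hrank : ∀ p' : F[X], Lj ≠ lat O p' 0 := by
    intro p' e
    obtain ⟨γ, -, _, -, e1⟩ := mem_lat.1 (e ▸ h2x)
    obtain ⟨γ', -, _, -, e2⟩ := mem_lat.1 (e ▸ h2 z (left_mem_lat _ _))
    rw [smul_zero, add_zero] at e1 e2
    have := hfx.ind (γ * (c * π ^ n)) (-(γ' * c)) (by
      rw [mul_smul, e2, neg_smul, mul_smul, e1, smul_comm γ γ', add_neg_cancel])
    have h0 : γ = 0 := (mul_eq_zero.1 this.1).resolve_right (mul_ne_zero hc hπn)
    rw [h0, zero_smul] at e1
    exact hfx.symm.ne ((smul_eq_zero.1 e1).resolve_left hc)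
  rcases smith h hfx (mul_ne_zero hc (inv_ne_zero hπn)) h3 with e | ⟨c', xj, zj, hc', hfj, hlj, e⟩
  · exact (hrank 0 (by rw [e]; simp [lat])).elim
  rcases e with e | ⟨m, e⟩
  · exact (hrank _ e).elim
  refine ⟨c', hc', lat O xj (π ^ m • zj), by rw [e, ← lat_smul hc', mul_smul], ?_⟩
  rcases Nat.eq_zero_or_pos m with rfl | hm
  · left; rw [pow_zero, one_smul, hlj]
  right
  obtain ⟨m, rfl⟩ : ∃ k, m = k + 1 := ⟨m - 1, by omega⟩
  obtain ⟨α, hα, β, hβ, ex⟩ := mem_lat.1 (hlj ▸ right_mem_lat z x : x ∈ lat O xj zj)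
  have hzj : zj ∈ lat O z x := hlj ▸ right_mem_lat xj zj
  have hxj : xj ∈ lat O z x := hlj ▸ left_mem_lat xj zj
  refine ⟨xj, zj, π ^ (m + 1) • zj, hfj, hlj, rfl,
    lat_le hxj (smul_mem' (O.pow_mem h.mem _) hzj), ?_⟩
  rcases h.dich β hβ with hu | hu
  · exfalso
    obtain ⟨α', -, β', hβ', e1⟩ := mem_lat.1 (e ▸ h2x)
    have e2 : c * β = β' * (c' * π ^ (m + 1)) := by
      rw [ex, smul_add] at e1
      simp only [smul_smul] at e1
      exact (hfj.uniq e1).2
    obtain ⟨γ, hγ, ε, -, e3⟩ := mem_lat.1 (h1 (e ▸ left_mem_lat _ _ : c' • xj ∈ Lj))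
    obtain ⟨γ', hγ', ε', -, e4⟩ := mem_lat.1 hxj
    obtain ⟨γ'', hγ'', ε'', -, e5⟩ := mem_lat.1 hzj
    obtain ⟨μ, hμ, ν, hν, e6⟩ := mem_lat.1 (hlj ▸ left_mem_lat z x : z ∈ lat O xj zj)
    have e7 : c' * γ' = γ * c := by
      rw [e4, hx, smul_add] at e3
      simp only [smul_smul] at e3
      exact (hf.uniq e3).1
    have e8 : α * γ' + β * γ'' = 0 := by
      have : (0 : F) • z + (1 : F) • x = (α * γ' + β * γ'') • z + (α * ε' + β * ε'') • x := by
        rw [zero_smul, one_smul, zero_add]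
        conv_lhs => rw [ex, e4, e5]
        simp only [smul_add, smul_smul, add_smul]
        abel
      exact (hfx.uniq this).1.symm
    have e9 : μ * γ' + ν * γ'' = 1 := by
      have : (1 : F) • z + (0 : F) • x = (μ * γ' + ν * γ'') • z + (μ * ε' + ν * ε'') • x := by
        rw [zero_smul, one_smul, add_zero]
        conv_lhs => rw [e6, e4, e5]
        simp only [smul_add, smul_smul, add_smul]
        abel
      exact (hfx.uniq this).1.symm
    have hβ0 := hu.1
    apply h.inv
    have e10 : π⁻¹ = (μ - ν * α * β⁻¹) * (γ * (β' * π ^ m * β⁻¹)) := by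
      have a1 : γ'' = -(α * γ' * β⁻¹) := by field_simp; linear_combination e8
      have a2 : γ' = γ * (β' * π ^ (m + 1) * β⁻¹) := by
        apply mul_left_cancel₀ hc'
        rw [e7]
        field_simp
        linear_combination γ * e2
      have a3 : (μ - ν * α * β⁻¹) * γ' = 1 := by rw [← e9, a1]; ring
      rw [a2] at a3
      field_simp
      field_simp at a3
      linear_combination -a3
    rw [e10]
    exact O.mul_mem (O.sub_mem hμ (O.mul_mem (O.mul_mem hν hα) hu.2))
      (O.mul_mem hγ (O.mul_mem (O.mul_mem hβ' (O.pow_mem h.mem _)) hu.2))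
  · have : π⁻¹ • (x * π ^ (m + 1) • zj) =
        (α * π ^ m) • (zj * xj) + (β / π) • (zj * π ^ (m + 1) • zj) := by
      conv_lhs => rw [ex]
      simp only [add_mul, smul_add, smul_mul_assoc, mul_smul_comm, smul_smul, mul_comm xj zj]
      congr 2 <;> field_simp <;> ring
    rw [this]
    exact Submodule.add_mem _
      (smul_mem' (O.mul_mem hα (O.pow_mem h.mem _)) (Submodule.mul_mem_mul hzj (left_mem_lat _ _)))
      (smul_mem' hu (Submodule.mul_mem_mul hzj (right_mem_lat _ _)))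

theorem decomp {ι : Type} {z x : F[X]} (L' : ι → Lat O) (t : Finset ι)
    (ht : ∀ j ∈ t, L' j = lat O z x ∨ Far O π z x (L' j)) :
    ∃ (Y : F[X]) (m k : ℕ), m + k = t.card ∧ Y.natDegree ≤ m ∧
      (∀ (e : ℕ) (h : F[X]), h.natDegree ≤ e → Y * h ∈ pw (lat O z x) (m + e) →
        h ∈ pw (lat O z x) e) ∧
      (∀ h ∈ pw (lat O z x) k, Y * h ∈ ∏ j ∈ t, L' j) ∧
      ∀ f ∈ ∏ j ∈ t, L' j, ∃ h ∈ pw (lat O z x) k,
        π⁻¹ • (x * f) - π⁻¹ • (x * (Y * h)) ∈ lat O z x * ∏ j ∈ t, L' j := by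
  classical
  induction t using Finset.induction_on with
  | empty =>
    refine ⟨1, 0, 0, rfl, by simp, fun e h _ hh => by simpa using hh, fun h hh => ?_,
      fun f hf => ⟨f, ?_, by simp⟩⟩
    · rw [pw_zero] at hh; simpa using hh
    · rw [pw_zero]; simpa using hf
  | insert a t ha ih =>
    obtain ⟨Y, m, k, h1, h2, h3, h4, h5⟩ := ih fun j hj => ht j (by simp [hj])
    rw [Finset.prod_insert ha, Finset.card_insert_of_notMem ha]
    rcases ht a (by simp) with e | ⟨xj, zj, yj, hfj, hlj, e, -, hy⟩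
    · rw [e]
      refine ⟨Y, m, k + 1, by omega, h2, h3, fun h hh => ?_, fun f hf => ?_⟩
      · rw [pw_succ] at hh
        refine Submodule.mul_induction_on hh (fun l hl u hu => ?_) (fun u v hu hv => ?_)
        · rw [mul_left_comm]; exact Submodule.mul_mem_mul hl (h4 u hu)
        · rw [mul_add]; exact Submodule.add_mem _ hu hv
      · rw [pw_succ]
        refine Submodule.mul_induction_on hf (fun l hl u hu => ?_) ?_
        · obtain ⟨h, hh, hd⟩ := h5 u hu
          refine ⟨l * h, Submodule.mul_mem_mul hl hh, ?_⟩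
          have : π⁻¹ • (x * (l * u)) - π⁻¹ • (x * (Y * (l * h))) =
              l * (π⁻¹ • (x * u) - π⁻¹ • (x * (Y * h))) := by
            simp only [smul_eq_C_mul]; ring
          rw [this]
          exact Submodule.mul_mem_mul hl hd
        · rintro u v ⟨h, hh, hd⟩ ⟨h', hh', hd'⟩
          refine ⟨h + h', Submodule.add_mem _ hh hh', ?_⟩
          have : π⁻¹ • (x * (u + v)) - π⁻¹ • (x * (Y * (h + h'))) =
              (π⁻¹ • (x * u) - π⁻¹ • (x * (Y * h))) + (π⁻¹ • (x * v) - π⁻¹ • (x * (Y * h'))) := by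
            simp only [smul_eq_C_mul]; ring
          rw [this]
          exact Submodule.add_mem _ hd hd'
    · have hxj : xj ∈ L' a := e ▸ left_mem_lat _ _
      refine ⟨xj * Y, m + 1, k, by omega, natDegree_mul_le.trans (by have := hfj.left; omega),
        fun e' h hh hY => ?_, fun h hh => ?_, fun f hf => ?_⟩
      · refine h3 e' h hh ?_
        rw [← hlj]
        refine gauss hfj (natDegree_mul_le.trans (add_le_add h2 hh)) ?_
        rw [hlj, ← mul_assoc, Nat.add_right_comm]
        exact hY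
      · rw [mul_assoc]; exact Submodule.mul_mem_mul hxj (h4 h hh)
      · rw [e] at hf
        obtain ⟨f1, hf1, f2, hf2, rfl⟩ := mem_lat_mul hf
        obtain ⟨h, hh, hd⟩ := h5 f1 hf1
        refine ⟨h, hh, ?_⟩
        have : π⁻¹ • (x * (xj * f1 + yj * f2)) - π⁻¹ • (x * (xj * Y * h)) =
            xj * (π⁻¹ • (x * f1) - π⁻¹ • (x * (Y * h))) + π⁻¹ • (x * yj) * f2 := by
          simp only [smul_eq_C_mul]; ring
        rw [this]
        refine Submodule.add_mem _ ?_ ?_
        · rw [mul_left_comm]; exact Submodule.mul_mem_mul hxj hd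
        · rw [← mul_assoc]; exact Submodule.mul_mem_mul hy hf2

theorem prod_le_pw {ι : Type} (s : Finset ι) (L : ι → Lat O) (N : Lat O)
    (h : ∀ j ∈ s, L j ≤ N) : ∏ j ∈ s, L j ≤ pw N s.card := by
  rw [← prod_eq_pw]
  exact Finset.prod_le_prod' h

theorem sat_two (h : IsPlace O π) {p0 q0 : F[X]} (h0 : Fr p0 q0) {ι : Type} (s : Finset ι)
    (N : ℕ) : ∀ (n : ι → ℕ) (L : ι → Lat O), ∑ j ∈ s, n j = N →
      (∀ j ∈ s, ∃ (c : F) (p q : F[X]), c ≠ 0 ∧ Fr p q ∧ lat O p q = lat O p0 q0 ∧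
        L j = lat O (c • p) ((c * π ^ n j) • q)) →
      ∀ g : F[X], g.natDegree ≤ s.card →
        (∀ l ∈ lat O p0 q0, l * g ∈ lat O p0 q0 * ∏ j ∈ s, L j) → g ∈ ∏ j ∈ s, L j := by
  classical
  have scal : ∀ (L L' : ι → Lat O) (c : ι → F), (∀ j ∈ s, c j ≠ 0) →
      (∀ j ∈ s, L j = sc O (c j) * L' j) → ∀ g : F[X],
      (∀ l ∈ lat O p0 q0, l * g ∈ lat O p0 q0 * ∏ j ∈ s, L j) →
      ∀ l ∈ lat O p0 q0, l * ((∏ j ∈ s, c j)⁻¹ • g) ∈ lat O p0 q0 * ∏ j ∈ s, L' j := by
    intro L L' c hc hL g hg l hl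
    have := hg l hl
    rwa [prod_scale s c L L' hL, mul_left_comm, mem_sc_mul (Finset.prod_ne_zero_iff.2 hc),
      ← mul_smul_comm] at this
  induction N with
  | zero =>
    intro n L hn hL g hg hyp
    have hL' : ∀ j, ∃ c : F, j ∈ s → c ≠ 0 ∧ L j = sc O c * lat O p0 q0 := by
      intro j
      by_cases hj : j ∈ s
      · obtain ⟨c, p, q, hc, -, h2, h3⟩ := hL j hj
        refine ⟨c, fun _ => ⟨hc, ?_⟩⟩
        rw [h3, Finset.sum_eq_zero_iff.1 hn j hj, pow_zero, mul_one, lat_smul hc, h2]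
      · exact ⟨1, fun h' => (hj h').elim⟩
    choose c hc using hL'
    have h1 := scal L (fun _ => lat O p0 q0) c (fun j hj => (hc j hj).1) (fun j hj => (hc j hj).2)
      g hyp p0 (left_mem_lat _ _)
    rw [prod_scale s c L (fun _ => lat O p0 q0) (fun j hj => (hc j hj).2),
      mem_sc_mul (Finset.prod_ne_zero_iff.2 fun j hj => (hc j hj).1), prod_eq_pw]
    rw [prod_eq_pw, ← pw_succ] at h1
    exact gauss h0 ((natDegree_smul_le _ _).trans hg) h1
  | succ N ih =>
    intro n L hn hL g hg hyp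
    have hne : s.Nonempty := by
      rcases s.eq_empty_or_nonempty with rfl | h'
      · simp at hn
      · exact h'
    obtain ⟨j0, hj0, hmax⟩ := Finset.exists_max_image s n hne
    obtain ⟨n0, hn0⟩ : ∃ n0, n j0 = n0 + 1 := by
      refine Nat.exists_eq_succ_of_ne_zero fun e => ?_
      have : ∑ j ∈ s, n j = 0 := Finset.sum_eq_zero fun j hj => by have := hmax j hj; omega
      omega
    obtain ⟨c0, z, q, hc0, hf, hl, hLj0⟩ := hL j0 hj0
    have hπ := h.ne
    set x := π ^ (n0 + 1) • q with hx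
    have hfx : Fr z x := by simpa using hf.smul one_ne_zero (pow_ne_zero (n0 + 1) hπ)
    have hcl : ∀ j, ∃ (c : F) (L' : Lat O), j ∈ s → c ≠ 0 ∧ L j = sc O c * L' ∧
        (L' = lat O z x ∨ Far O π z x L') ∧ (j = j0 → c = c0 ∧ L' = lat O z x) := by
      intro j
      by_cases hj : j ∈ s
      · by_cases e : j = j0
        · refine ⟨c0, lat O z x, fun _ => ⟨hc0, ?_, Or.inl rfl, fun _ => ⟨rfl, rfl⟩⟩⟩
          rw [e, hLj0, hn0, ← lat_smul hc0, hx, mul_smul]
        · obtain ⟨c, p, q', hc, -, h2, h3⟩ := hL j hj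
          obtain ⟨c', hc', L', h4, h5⟩ := classify h hf (n0 + 1) (n j) (hn0 ▸ hmax j hj) hc
            (h2.trans hl.symm)
          exact ⟨c', L', fun _ => ⟨hc', h3.trans h4, h5, fun e' => (e e').elim⟩⟩
      · exact ⟨1, ⊥, fun h' => (hj h').elim⟩
    choose c L' hc using hcl
    have hc1 : ∀ j ∈ s, c j ≠ 0 := fun j hj => (hc j hj).1
    have hc2 : ∀ j ∈ s, L j = sc O (c j) * L' j := fun j hj => (hc j hj).2.1
    have hle : ∀ j ∈ s, L' j ≤ lat O z x := fun j hj => by
      rcases (hc j hj).2.2.1 with e | ⟨_, _, _, -, -, -, e, -⟩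
      · exact e.le
      · exact e
    obtain ⟨hc3, hc4⟩ := (hc j0 hj0).2.2.2 rfl
    set L2 := Function.update L j0 (lat O (c0 • z) ((c0 * π ^ n0) • q)) with hL2
    have hLL : ∀ j ∈ s, L j ≤ L2 j := by
      intro j hj
      by_cases e : j = j0
      · rw [e, hL2, Function.update_self, hLj0, hn0]
        refine lat_le (left_mem_lat _ _) ?_
        rw [show c0 * π ^ (n0 + 1) = π * (c0 * π ^ n0) by ring, mul_smul π]
        exact smul_mem' h.mem (right_mem_lat _ _)
      · rw [hL2, Function.update_of_ne e]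
    have hg2 := ih (Function.update n j0 n0) L2 (by
        rw [← Finset.add_sum_erase s _ hj0] at hn ⊢
        rw [Function.update_self, Finset.sum_congr rfl fun j hj =>
          Function.update_of_ne (Finset.ne_of_mem_erase hj) n0 n]
        have hn' : n j0 + (s.erase j0).sum n = N + 1 := hn
        omega) (fun j hj => by
        by_cases e : j = j0
        · rw [e, hL2, Function.update_self, Function.update_self]
          exact ⟨c0, z, q, hc0, hf, hl, rfl⟩
        · rw [hL2, Function.update_of_ne e, Function.update_of_ne e]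
          exact hL j hj) g hg
      (fun l hl' => mul_le_mul_right (Finset.prod_le_prod' hLL) _ (hyp l hl'))
    have hP : (∏ j ∈ s, c j) ≠ 0 := Finset.prod_ne_zero_iff.2 hc1
    set g' := (∏ j ∈ s, c j)⁻¹ • g with hg'
    have hg3 : g' ∈ lat O z (π⁻¹ • x) * ∏ j ∈ s.erase j0, L' j := by
      have e1 : ∏ j ∈ s, L2 j = sc O (∏ j ∈ s, c j) *
          ∏ j ∈ s, Function.update L' j0 (lat O z (π⁻¹ • x)) j := by
        refine prod_scale s c _ _ fun j hj => ?_
        by_cases e : j = j0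
        · rw [e, hL2, Function.update_self, Function.update_self, hc3, ← lat_smul hc0, hx,
            smul_smul, smul_smul]
          congr 2
          field_simp
          ring
        · rw [hL2, Function.update_of_ne e, Function.update_of_ne e]
          exact hc2 j hj
      rw [e1, mem_sc_mul hP, ← Finset.mul_prod_erase s _ hj0, Function.update_self,
        Finset.prod_congr rfl fun j hj =>
          Function.update_of_ne (Finset.ne_of_mem_erase hj) _ L'] at hg2
      exact hg2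
    have hcard : (s.erase j0).card + 1 = s.card := Finset.card_erase_add_one hj0
    have hg4 : g' ∈ pw (lat O z x) s.card := by
      rw [lat_comm]
      refine gauss hfx.symm ((natDegree_smul_le _ _).trans hg) ?_
      rw [lat_comm, pw_succ]
      have h1 := scal L L' c hc1 hc2 g hyp q (hl ▸ right_mem_lat _ _)
      rw [← hl] at h1
      obtain ⟨m1, hm1, m2, hm2, e⟩ := mem_lat_mul h1
      have : x * g' = (π ^ (n0 + 1) • z) * m1 + x * m2 := by
        rw [hx, smul_mul_assoc, e]
        simp only [smul_add, smul_mul_assoc]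
      rw [this]
      exact Submodule.add_mem _
        (Submodule.mul_mem_mul (smul_mem' (O.pow_mem h.mem _) (left_mem_lat _ _))
          (prod_le_pw s L' _ hle hm1))
        (Submodule.mul_mem_mul (right_mem_lat _ _) (prod_le_pw s L' _ hle hm2))
    obtain ⟨Y, m, k, h1, h2, h3, h4, h5⟩ := decomp (π := π) L' (s.erase j0)
      (fun j hj => (hc j (Finset.mem_of_mem_erase hj)).2.2.1)
    obtain ⟨f1, hf1, f2, hf2, e⟩ := mem_lat_mul hg3
    obtain ⟨u, hu, hd⟩ := h5 f2 hf2
    have hM : lat O z x * ∏ j ∈ s.erase j0, L' j = ∏ j ∈ s, L' j := by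
      rw [← Finset.mul_prod_erase s _ hj0, hc4]
    have hrest : g' - π⁻¹ • (x * (Y * u)) ∈ lat O z x * ∏ j ∈ s.erase j0, L' j := by
      rw [e, smul_mul_assoc, add_sub_assoc]
      exact Submodule.add_mem _ (Submodule.mul_mem_mul (left_mem_lat _ _) hf1) hd
    have hlast : π⁻¹ • (x * (Y * u)) ∈ pw (lat O z x) s.card := by
      have := Submodule.sub_mem _ hg4 (prod_le_pw s L' _ hle (hM ▸ hrest))
      rwa [sub_sub_cancel] at this
    have hu1 : (π⁻¹ • u).natDegree ≤ k :=
      (natDegree_smul_le _ _).trans (dg_pow hfx.lat_le k hu)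
    have hu2 : π⁻¹ • u ∈ pw (lat O z x) k := by
      rw [lat_comm]
      refine gauss hfx.symm hu1 ?_
      rw [lat_comm]
      refine h3 (k + 1) _ (natDegree_mul_le.trans (by have := hfx.right; omega)) ?_
      have e1 : Y * (x * π⁻¹ • u) = π⁻¹ • (x * (Y * u)) := by
        simp only [smul_eq_C_mul]; ring
      rw [e1, show m + (k + 1) = s.card by omega]
      exact hlast
    rw [prod_scale s c L L' hc2, mem_sc_mul hP, ← hM, ← hg']
    have := Submodule.add_mem _ hrest
      (Submodule.mul_mem_mul (right_mem_lat z x) (h4 _ hu2))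
    rwa [mul_smul_comm, mul_smul_comm, sub_add_cancel] at this

theorem sat (h : IsPlace O π) {κ : F} (hκ : κ ≠ 0) {ι : Type} (L : ι → Lat O) (s : Finset ι) :
    (∀ j ∈ s, ∃ c : F, c ≠ 0 ∧ L j ≤ lat O (c • 1) (c • κ • X)) →
      ∀ g : F[X], g ∈ lat O 1 (κ • X) * ∏ j ∈ s, L j →
        (κ • X) * g ∈ lat O 1 (κ • X) * ∏ j ∈ s, L j → g ∈ ∏ j ∈ s, L j := by
  classical
  have h0 : Fr (1 : F[X]) (κ • X) := ⟨by simp, (natDegree_smul_le _ _).trans (by simp),
    fun α β e => by
      have e0 := congrArg (coeff · 0) e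
      have e1 := congrArg (coeff · 1) e
      simp [coeff_one] at e0 e1
      exact ⟨e0, e1.resolve_right hκ⟩⟩
  induction s using Finset.strongInduction with
  | H s ih =>
    intro hL g hg1 hg2
    have hdg : ∀ j ∈ s, L j ≤ dg O 1 := fun j hj => by
      obtain ⟨c, hc, h1⟩ := hL j hj
      exact h1.trans (h0.smul hc hc).lat_le
    by_cases hg0 : g = 0
    · rw [hg0]; exact Submodule.zero_mem _
    have hdeg : ∀ (t : Finset ι) (u : F[X]), (∀ j ∈ t, L j ≤ dg O 1) →
        u ∈ lat O 1 (κ • X) * ∏ j ∈ t, L j → u.natDegree ≤ 1 + t.card :=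
      fun t u ht hu => dg_mul h0.lat_le (dg_prod t L ht) hu
    have hXg : ((κ • X) * g).natDegree = 1 + g.natDegree := by
      rw [smul_mul_assoc, natDegree_smul _ hκ, natDegree_X_mul hg0, Nat.add_comm]
    have hg : g.natDegree ≤ s.card := by have := hdeg s _ hdg hg2; omega
    by_cases hex : ∃ j ∈ s, ∃ l, L j = lat O l 0
    · obtain ⟨j, hj, l, hl⟩ := hex
      rw [← Finset.mul_prod_erase s _ hj, hl] at hg1 hg2 ⊢
      rw [mul_left_comm] at hg1 hg2
      obtain ⟨a, ha, a', -, e1⟩ := mem_lat_mul hg1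
      obtain ⟨b, hb, b', -, e2⟩ := mem_lat_mul hg2
      rw [zero_mul, add_zero] at e1 e2
      have hl0 : l ≠ 0 := by rintro rfl; exact hg0 (by simpa using e1)
      have e3 : (κ • X) * a = b := mul_left_cancel₀ hl0 (by rw [← e2, e1]; ring)
      rw [e1]
      exact Submodule.mul_mem_mul (left_mem_lat _ _)
        (ih _ (Finset.erase_ssubset hj) (fun i hi => hL i (Finset.mem_of_mem_erase hi)) a ha
          (e3 ▸ hb))
    · have hL' : ∀ j, ∃ n : ℕ, j ∈ s → ∃ (c : F) (p q : F[X]), c ≠ 0 ∧ Fr p q ∧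
          lat O p q = lat O 1 (κ • X) ∧ L j = lat O (c • p) ((c * π ^ n) • q) := by
        intro j
        by_cases hj : j ∈ s
        · obtain ⟨c, hc, h1⟩ := hL j hj
          rcases smith h h0 hc h1 with e | ⟨c', p, q, h2, h3, h4, e | ⟨n, e⟩⟩
          · exact (hex ⟨j, hj, 0, by rw [e]; simp [lat]⟩).elim
          · exact (hex ⟨j, hj, _, e⟩).elim
          · exact ⟨n, fun _ => ⟨c', p, q, h2, h3, h4, e⟩⟩
        · exact ⟨0, fun h' => (hj h').elim⟩
      choose n hn using hL'
      refine sat_two h h0 s _ n L rfl hn g hg fun l hl => ?_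
      obtain ⟨α, hα, β, hβ, rfl⟩ := mem_lat.1 hl
      rw [add_mul, smul_mul_assoc, one_mul, smul_mul_assoc β]
      exact Submodule.add_mem _ (smul_mem' hα hg1) (smul_mem' hβ hg2)

end Pool.Agent.MP_36bee5_al.Scr
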