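import Mathlib

set_option autoImplicit false

/-!
Products of block ideals in a polynomial extension: flatness and the dimension shift.
-/

namespace Pool.Agent.MP_36bee5_al.Stb

open MvPolynomial Matrix

variable {A : Type} [CommRing A] {σ : Type} {n : ℕ}

/-- The ideal of one block of variables. -/
noncomputable def IX (A : Type) [CommRing A] (n : ℕ) (k : σ) :
    Ideal (MvPolynomial (σ × Fin n) A) :=
  Ideal.span (Set.range fun i => X (k, i))

/-- The diagonal forms. -/
noncomputable def Yv (y : Fin n → A) (s : Finset σ) (i : Fin n) : MvPolynomial (σ × Fin n) A :=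
  C (y i) - ∑ k ∈ s, X (k, i)

/-- The ideal of the diagonal forms. -/
noncomputable def IY (y : Fin n → A) (s : Finset σ) : Ideal (MvPolynomial (σ × Fin n) A) :=
  Ideal.span (Set.range (Yv y s))

/-- Product of the blocks in `s` and the diagonal ideal of `t`. -/
noncomputable def W (y : Fin n → A) (s t : Finset σ) : Ideal (MvPolynomial (σ × Fin n) A) :=
  (∏ k ∈ s, IX A n k) * IY y t

/-- The ideal of all linear forms. -/
noncomputable def M (σ : Type) (y : Fin n → A) : Ideal (MvPolynomial (σ × Fin n) A) :=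
  Ideal.span (Set.range X ∪ Set.range fun i => C (y i))

theorem X_mem_IX (k : σ) (i : Fin n) : X (k, i) ∈ IX A n k := Ideal.subset_span ⟨i, rfl⟩

theorem X_mem_M (y : Fin n → A) (t : σ × Fin n) : X t ∈ M σ y :=
  Ideal.subset_span (Or.inl ⟨t, rfl⟩)

theorem C_mem_M (y : Fin n → A) (i : Fin n) : C (y i) ∈ M σ y :=
  Ideal.subset_span (Or.inr ⟨i, rfl⟩)

/-- Monomial ideals. -/
def Mon {τ : Type} (I : Ideal (MvPolynomial τ A)) : Prop :=
  ∀ f ∈ I, ∀ m ∈ f.support, monomial m (1 : A) ∈ I

theorem Mon.mul {τ : Type} {I I' : Ideal (MvPolynomial τ A)} (h : Mon I) (h' : Mon I') :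
    Mon (I * I') := by
  classical
  intro f hf
  refine Submodule.mul_induction_on hf (fun a ha b hb m hm => ?_) (fun a b ha hb m hm => ?_)
  · obtain ⟨u, hu, v, hv, rfl⟩ := Finset.mem_add.1 (support_mul a b hm)
    have := Ideal.mul_mem_mul (h a ha u hu) (h' b hb v hv)
    rwa [monomial_mul, one_mul] at this
  · rcases Finset.mem_union.1 (support_add hm) with h1 | h1
    exacts [ha m h1, hb m h1]

theorem mon_IX (k : σ) : Mon (IX A n k) := by
  classical
  have e : IX A n k = Ideal.span (X '' Set.range fun i : Fin n => (k, i)) := by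
    rw [IX, ← Set.range_comp]; rfl
  rw [e]
  intro f hf m hm
  refine mem_ideal_span_X_image.2 fun m' hm' => ?_
  rw [Finset.mem_singleton.1 (support_monomial_subset hm')]
  exact mem_ideal_span_X_image.1 hf m hm

theorem mon_prod (s : Finset σ) : Mon (∏ k ∈ s, IX A n k) :=
  Finset.prod_induction _ Mon (fun _ _ => Mon.mul)
    (fun _ _ _ _ => by rw [Ideal.one_eq_top]; trivial) fun k _ => mon_IX k

theorem Mon.inf_le {τ : Type} {E : Ideal (MvPolynomial τ A)} (h : Mon E) (J : Ideal A) :
    E ⊓ J.map C ≤ E * J.map C := by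
  rintro f ⟨h1, h2⟩
  rw [f.as_sum]
  refine Ideal.sum_mem _ fun m hm => ?_
  have := Ideal.mul_mem_mul (h f h1 m hm) (Ideal.mem_map_of_mem C (mem_map_C_iff.1 h2 m))
  rwa [mul_comm (monomial m (1 : A)), C_mul_monomial, mul_one] at this

theorem coeff_mulVec {τ a b : Type} [Fintype b] (D : Matrix a b A) (u : b → MvPolynomial τ A)
    (m : τ →₀ ℕ) (i : a) :
    coeff m ((D.map C *ᵥ u) i) = (D *ᵥ fun j => coeff m (u j)) i := by
  simp only [Matrix.mulVec, dotProduct, Matrix.map_apply, coeff_sum, coeff_C_mul]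

theorem Mon.flat {τ a b c : Type} [Fintype b] [Fintype c] {E : Ideal (MvPolynomial τ A)}
    (h : Mon E) {D : Matrix a b A} {D' : Matrix b c A}
    (hex : ∀ v, D *ᵥ v = 0 → ∃ w, D' *ᵥ w = v) {u : b → MvPolynomial τ A} (hu : ∀ j, u j ∈ E)
    (h0 : D.map C *ᵥ u = 0) : ∃ w, (∀ l, w l ∈ E) ∧ D'.map C *ᵥ w = u := by
  classical
  choose w hw using fun m : τ →₀ ℕ => hex (fun j => coeff m (u j)) (funext fun i => by
    rw [← coeff_mulVec, h0]; rfl)
  let T := Finset.univ.biUnion fun j => (u j).support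
  refine ⟨fun l => ∑ m ∈ T, monomial m (w m l), fun l => Ideal.sum_mem _ fun m hm => ?_, ?_⟩
  · obtain ⟨j, -, hj⟩ := Finset.mem_biUnion.1 hm
    have := E.mul_mem_left (C (w m l)) (h _ (hu j) m hj)
    rwa [C_mul_monomial, mul_one] at this
  · funext j
    refine MvPolynomial.ext _ _ fun m => ?_
    rw [coeff_mulVec]
    by_cases hm : m ∈ T
    · rw [← congrFun (hw m) j]
      congr 1
      funext l
      simp [coeff_sum, coeff_monomial, hm]
    · have h1 : coeff m (u j) = 0 :=
        notMem_support_iff.1 fun h2 => hm (Finset.mem_biUnion.2 ⟨j, Finset.mem_univ _, h2⟩)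
      have h2 : (fun l => coeff m (∑ m ∈ T, monomial m (w m l))) = 0 := by
        funext l
        simp [coeff_sum, coeff_monomial, hm]
      rw [h1, h2, Matrix.mulVec_zero]; rfl

theorem map_mulVec' {B a b : Type} [CommRing B] [Algebra A B] [Fintype b] (φ : B →ₐ[A] B)
    (D : Matrix a b A) (u : b → B) :
    (D.map (algebraMap A B) *ᵥ fun j => φ (u j)) = fun i => φ ((D.map (algebraMap A B) *ᵥ u) i) := by
  funext i
  simp only [Matrix.mulVec, dotProduct, Matrix.map_apply, map_sum, map_mul, AlgHom.commutes]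

theorem map_prod_le {B : Type} [CommRing B] (φ : B →+* B) (s : Finset σ) {I I' : σ → Ideal B}
    (h : ∀ k ∈ s, (I k).map φ ≤ I' k) : (∏ k ∈ s, I k).map φ ≤ ∏ k ∈ s, I' k := by
  have := map_prod (Ideal.mapHom φ) I s
  simp only [Ideal.mapHom_apply] at this
  rw [this]
  exact Finset.prod_le_prod' h

theorem map_span_le {B ι : Type} [CommRing B] (φ : B →+* B) {v : ι → B} {I : Ideal B}
    (h : ∀ i, φ (v i) ∈ I) : (Ideal.span (Set.range v)).map φ ≤ I := by
  rw [Ideal.map_le_iff_le_comap, Ideal.span_le]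
  rintro _ ⟨i, rfl⟩
  exact h i

variable [DecidableEq σ]

/-- The automorphism that exchanges a block with the diagonal forms. -/
noncomputable def sw (y : Fin n → A) (t : Finset σ) (k : σ) :
    MvPolynomial (σ × Fin n) A →ₐ[A] MvPolynomial (σ × Fin n) A :=
  aeval fun u => if u.1 = k then Yv y t u.2 else X u

theorem sw_X (y : Fin n → A) (t : Finset σ) (k : σ) (i : Fin n) :
    sw y t k (X (k, i)) = Yv y t i := by simp [sw]

theorem sw_X' (y : Fin n → A) (t : Finset σ) {k l : σ} (h : l ≠ k) (i : Fin n) :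
    sw y t k (X (l, i)) = X (l, i) := by simp [sw, h]

theorem sw_Y (y : Fin n → A) {s : Finset σ} {k : σ} (hk : k ∉ s) (i : Fin n) :
    sw y (insert k s) k (Yv y (insert k s) i) = X (k, i) := by
  have h1 : sw y (insert k s) k (C (y i)) = C (y i) := AlgHom.commutes _ _
  conv_lhs => arg 2; rw [Yv, Finset.sum_insert hk]
  rw [map_sub, map_add, map_sum, sw_X, h1,
    Finset.sum_congr rfl fun l hl => sw_X' y _ (ne_of_mem_of_not_mem hl hk) i, Yv,
    Finset.sum_insert hk]
  ring

theorem sw_sw (y : Fin n → A) {s : Finset σ} {k : σ} (hk : k ∉ s)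
    (f : MvPolynomial (σ × Fin n) A) : sw y (insert k s) k (sw y (insert k s) k f) = f := by
  have : (sw y (insert k s) k).comp (sw y (insert k s) k) = AlgHom.id A _ := by
    refine MvPolynomial.algHom_ext fun u => ?_
    obtain ⟨l, i⟩ := u
    rw [AlgHom.comp_apply, AlgHom.id_apply]
    by_cases h : l = k
    · rw [h, sw_X, sw_Y y hk]
    · rw [sw_X' y _ h, sw_X' y _ h]
  exact AlgHom.congr_fun this f

theorem sw_prod (y : Fin n → A) {s : Finset σ} {k : σ} (hk : k ∉ s) (t : Finset σ) :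
    (∏ l ∈ s, IX A n l).map (sw y t k).toRingHom ≤ ∏ l ∈ s, IX A n l :=
  map_prod_le _ s fun l hl => map_span_le _ fun i => by
    have := sw_X' y t (ne_of_mem_of_not_mem hl hk) i
    show sw y t k (X (l, i)) ∈ _
    rw [this]; exact X_mem_IX l i

theorem sw_W (y : Fin n → A) {s : Finset σ} {k : σ} (hk : k ∉ s) {f : MvPolynomial (σ × Fin n) A}
    (hf : f ∈ W y s (insert k s)) : sw y (insert k s) k f ∈ ∏ l ∈ insert k s, IX A n l := by
  have : (W y s (insert k s)).map (sw y (insert k s) k).toRingHom ≤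
      ∏ l ∈ insert k s, IX A n l := by
    rw [W, Ideal.map_mul, Finset.prod_insert hk, mul_comm]
    refine Ideal.mul_mono (map_span_le _ fun i => ?_) (sw_prod y hk _)
    show sw y (insert k s) k (Yv y (insert k s) i) ∈ _
    rw [sw_Y y hk i]; exact X_mem_IX k i
  exact this (Ideal.mem_map_of_mem _ hf)

theorem sw_W' (y : Fin n → A) {s : Finset σ} {k : σ} (hk : k ∉ s) {f : MvPolynomial (σ × Fin n) A}
    (hf : f ∈ ∏ l ∈ insert k s, IX A n l) : sw y (insert k s) k f ∈ W y s (insert k s) := by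
  have : (∏ l ∈ insert k s, IX A n l).map (sw y (insert k s) k).toRingHom ≤
      W y s (insert k s) := by
    rw [W, Finset.prod_insert hk, mul_comm, Ideal.map_mul]
    refine Ideal.mul_mono (sw_prod y hk _) (map_span_le _ fun i => ?_)
    show sw y (insert k s) k (X (k, i)) ∈ _
    rw [sw_X]; exact Ideal.subset_span ⟨i, rfl⟩
  exact this (Ideal.mem_map_of_mem _ hf)

theorem alg_map_C {τ : Type} (φ : MvPolynomial τ A →ₐ[A] MvPolynomial τ A) (J : Ideal A)
    {f : MvPolynomial τ A} (hf : f ∈ J.map C) : φ f ∈ J.map C := by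
  have : (J.map C).map φ.toRingHom ≤ J.map C := by
    rw [Ideal.map_map, Ideal.map_le_iff_le_comap]
    intro a ha
    have h1 : φ (C a) = C a := φ.commutes a
    show φ (C a) ∈ J.map C
    rw [h1]; exact Ideal.mem_map_of_mem _ ha
  exact this (Ideal.mem_map_of_mem _ hf)

theorem W_inf_le (y : Fin n → A) {s : Finset σ} {k : σ} (hk : k ∉ s) (J : Ideal A) :
    W y s (insert k s) ⊓ J.map C ≤ W y s (insert k s) * J.map C := by
  rintro f ⟨h1, h2⟩
  have h3 := (mon_prod (insert k s)).inf_le J ⟨sw_W y hk h1, alg_map_C _ J h2⟩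
  rw [← sw_sw y hk f]
  refine Submodule.mul_induction_on h3 (fun a ha b hb => ?_) (fun a b ha hb => ?_)
  · rw [map_mul]; exact Ideal.mul_mem_mul (sw_W' y hk ha) (alg_map_C _ J hb)
  · rw [map_add]; exact add_mem ha hb

theorem W_flat (y : Fin n → A) {s : Finset σ} {k : σ} (hk : k ∉ s) {a b c : Type} [Fintype b]
    [Fintype c] {D : Matrix a b A} {D' : Matrix b c A}
    (hex : ∀ v, D *ᵥ v = 0 → ∃ w, D' *ᵥ w = v) {u : b → MvPolynomial (σ × Fin n) A}
    (hu : ∀ j, u j ∈ W y s (insert k s)) (h0 : D.map C *ᵥ u = 0) :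
    ∃ w, (∀ l, w l ∈ W y s (insert k s)) ∧ D'.map C *ᵥ w = u := by
  obtain ⟨w, h1, h2⟩ := (mon_prod (insert k s)).flat hex (fun j => sw_W y hk (hu j)) (by
    have := map_mulVec' (sw y (insert k s) k) D u
    rw [algebraMap_eq, h0] at this
    rw [this]; funext i; exact map_zero _)
  refine ⟨fun l => sw y (insert k s) k (w l), fun l => sw_W' y hk (h1 l), ?_⟩
  have := map_mulVec' (sw y (insert k s) k) D' w
  rw [algebraMap_eq, h2] at this
  rw [this]; funext j; exact sw_sw y hk _

theorem W_insert (y : Fin n → A) {s : Finset σ} {k : σ} (hk : k ∉ s) (t : Finset σ) :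
    W y (insert k s) t = IX A n k * W y s t := by
  rw [W, W, Finset.prod_insert hk, mul_assoc]

theorem M_mul_le [Fintype σ] (y : Fin n → A) (J : Ideal A) :
    M σ y * (W y Finset.univ Finset.univ ⊓ J.map C) ≤ W y Finset.univ Finset.univ * J.map C := by
  have hX : ∀ (t : σ × Fin n), ∀ f ∈ W y (Finset.univ : Finset σ) Finset.univ ⊓ J.map C,
      X t * f ∈ W y (Finset.univ : Finset σ) Finset.univ * J.map C := by
    rintro ⟨k, i⟩ f ⟨h1, h2⟩
    have hk := Finset.notMem_erase k (Finset.univ : Finset σ)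
    rw [← Finset.insert_erase (Finset.mem_univ k), W_insert y hk] at h1 ⊢
    rw [mul_assoc]
    exact Ideal.mul_mem_mul (X_mem_IX k i) (W_inf_le y hk J ⟨Ideal.mul_le_right h1, h2⟩)
  have hY : ∀ (i : Fin n), ∀ f ∈ W y (Finset.univ : Finset σ) Finset.univ ⊓ J.map C,
      Yv y Finset.univ i * f ∈ W y (Finset.univ : Finset σ) Finset.univ * J.map C := by
    rintro i f ⟨h1, h2⟩
    have h3 := (mon_prod (Finset.univ : Finset σ)).inf_le J ⟨Ideal.mul_le_left h1, h2⟩
    rw [W, mul_comm _ (IY y _), mul_assoc]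
    exact Ideal.mul_mem_mul (Ideal.subset_span ⟨i, rfl⟩) h3
  refine Ideal.mul_le.2 fun r hr f hf => ?_
  refine Submodule.span_induction (p := fun r _ => r * f ∈ _) ?_ ?_ ?_ ?_ hr
  · rintro _ (⟨t, rfl⟩ | ⟨i, rfl⟩)
    · exact hX t f hf
    · have : C (y i) * f = Yv y Finset.univ i * f + ∑ k : σ, X (k, i) * f := by
        rw [Yv, ← Finset.sum_mul]; ring
      rw [this]
      exact add_mem (hY i f hf) (Ideal.sum_mem _ fun k _ => hX _ f hf)
  · rw [zero_mul]; exact zero_mem _
  · intro a b _ _ ha hb; rw [add_mul]; exact add_mem ha hb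
  · intro a b _ hb; rw [smul_eq_mul, mul_assoc]; exact Ideal.mul_mem_left _ _ hb

/-- Killing the blocks outside `s`. -/
noncomputable def eps (A : Type) [CommRing A] (n : ℕ) (s : Finset σ) :
    MvPolynomial (σ × Fin n) A →ₐ[A] MvPolynomial (σ × Fin n) A :=
  aeval fun u => if u.1 ∈ s then X u else 0

theorem eps_X {s : Finset σ} {k : σ} (h : k ∈ s) (i : Fin n) :
    eps A n s (X (k, i)) = X (k, i) := by simp [eps, h]

theorem eps_X' {s : Finset σ} {k : σ} (h : k ∉ s) (i : Fin n) :
    eps A n s (X (k, i)) = 0 := by simp [eps, h]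

theorem eps_IX {s : Finset σ} {k : σ} (h : k ∉ s) {f : MvPolynomial (σ × Fin n) A}
    (hf : f ∈ IX A n k) : eps A n s f = 0 := by
  have : (IX A n k).map (eps A n s).toRingHom ≤ ⊥ := map_span_le _ fun i => eps_X' h i
  exact this (Ideal.mem_map_of_mem _ hf)

theorem eps_eps {s t : Finset σ} (h : s ⊆ t) (f : MvPolynomial (σ × Fin n) A) :
    eps A n s (eps A n t f) = eps A n s f := by
  have : (eps A n s).comp (eps A n t) = eps A n s := by
    refine MvPolynomial.algHom_ext fun u => ?_
    obtain ⟨l, i⟩ := u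
    rw [AlgHom.comp_apply]
    by_cases h1 : l ∈ t
    · rw [eps_X h1]
    · rw [eps_X' h1, eps_X' fun h2 => h1 (h h2), map_zero]
  exact AlgHom.congr_fun this f

theorem eps_W (y : Fin n → A) {s t u : Finset σ} (h : s ⊆ u) {f : MvPolynomial (σ × Fin n) A}
    (hf : f ∈ W y s t) : eps A n u f ∈ W y s (t ∩ u) := by
  have : (W y s t).map (eps A n u).toRingHom ≤ W y s (t ∩ u) := by
    rw [W, W, Ideal.map_mul]
    refine Ideal.mul_mono (map_prod_le _ s fun l hl => map_span_le _ fun i => ?_)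
      (map_span_le _ fun i => ?_)
    · show eps A n u (X (l, i)) ∈ _
      rw [eps_X (h hl)]; exact X_mem_IX l i
    · show eps A n u (Yv y t i) ∈ _
      have h1 : eps A n u (C (y i)) = C (y i) := AlgHom.commutes _ _
      have h2 : eps A n u (Yv y t i) = Yv y (t ∩ u) i := by
        rw [Yv, Yv, map_sub, h1, map_sum, ← Finset.sum_ite_mem]
        congr 1
        refine Finset.sum_congr rfl fun l _ => ?_
        split_ifs with h3
        exacts [eps_X h3 i, eps_X' h3 i]
      rw [h2]; exact Ideal.subset_span ⟨i, rfl⟩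
  exact this (Ideal.mem_map_of_mem _ hf)

/-- Boundaries with coefficients in `N * W` are boundaries of chains with coefficients in `W`. -/
def Bd (y : Fin n → A) (s : Finset σ) {a b : Type} (N : a → Ideal (MvPolynomial (σ × Fin n) A))
    [Fintype b] (D : Matrix a b A) : Prop :=
  ∀ c : b → MvPolynomial (σ × Fin n) A, (∀ i, (D.map C *ᵥ c) i ∈ N i * W y s s) →
    ∃ w, (∀ j, w j ∈ W y s s) ∧ D.map C *ᵥ w = fun i => eps A n s ((D.map C *ᵥ c) i)

theorem step (y : Fin n → A) {s : Finset σ} {k : σ} (hk : k ∉ s)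
    (ι : MvPolynomial (σ × Fin n) A →+* MvPolynomial (σ × Fin n) A) (h1 : ∀ t, ι (X t) = X t)
    (h2 : ∀ i, ι (C (y i)) = C (y i) - X (k, i)) (h3 : ∀ f, f - ι f ∈ IX A n k)
    {a b c : Type} [Fintype b] [Fintype c] {N : a → Ideal (MvPolynomial (σ × Fin n) A)}
    {N' : b → Ideal (MvPolynomial (σ × Fin n) A)} {D : Matrix a b A} {D' : Matrix b c A}
    (hN' : ∀ j, (N' j).map ι ≤ N' j)
    (hN : ∀ i j, ∀ x ∈ N' j, (C (D i j) - ι (C (D i j))) * x ∈ IX A n k * N i)
    (hex : ∀ v, D *ᵥ v = 0 → ∃ w, D' *ᵥ w = v) (hDD : D * D' = 0)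
    (h : Bd y (insert k s) N D) : Bd y s N' D' := by
  intro c0 hc
  set c := D'.map C *ᵥ c0 with hc0
  have hDc : D.map C *ᵥ c = 0 := by
    rw [hc0, Matrix.mulVec_mulVec, ← Matrix.map_mul, hDD, Matrix.map_zero _ (map_zero _),
      Matrix.zero_mulVec]
  have hι : ∀ j, (N' j * W y s s).map ι ≤ N' j * W y s (insert k s) := fun j => by
    rw [W, W, Ideal.map_mul, Ideal.map_mul]
    refine Ideal.mul_mono (hN' j) (Ideal.mul_mono
      (map_prod_le _ s fun l _ => map_span_le _ fun i => ?_) (map_span_le _ fun i => ?_))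
    · rw [h1]; exact X_mem_IX l i
    · have : ι (Yv y s i) = Yv y (insert k s) i := by
        rw [Yv, Yv, map_sub, h2, map_sum, Finset.sum_insert hk, sub_sub]
        simp only [h1]
      rw [this]; exact Ideal.subset_span ⟨i, rfl⟩
  have h4 : ∀ j, ι (c j) ∈ N' j * W y s (insert k s) := fun j =>
    hι j (Ideal.mem_map_of_mem _ (hc j))
  obtain ⟨w, h5, h6⟩ := h (fun j => ι (c j)) fun i => by
    have e1 : ∑ j, ι (C (D i j)) * ι (c j) = 0 := by
      have := congrArg ι (congrFun hDc i)
      simpa only [Matrix.mulVec, dotProduct, Matrix.map_apply, map_sum, map_mul, Pi.zero_apply,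
        map_zero] using this
    have e2 : (D.map C *ᵥ fun j => ι (c j)) i = ∑ j, (C (D i j) - ι (C (D i j))) * ι (c j) := by
      simp only [sub_mul, Finset.sum_sub_distrib, e1, sub_zero]; rfl
    have e3 : N i * W y (insert k s) (insert k s) = (IX A n k * N i) * W y s (insert k s) := by
      rw [W_insert y hk]; ring
    rw [e2, e3]
    refine Ideal.sum_mem _ fun j _ => ?_
    refine Submodule.mul_induction_on (h4 j) (fun u hu v hv => ?_) (fun u v hu hv => ?_)
    · rw [← mul_assoc]; exact Ideal.mul_mem_mul (hN i j u hu) hv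
    · rw [mul_add]; exact add_mem hu hv
  have h7 : ∀ j, w j ∈ IX A n k * W y s (insert k s) := fun j => W_insert y hk _ ▸ h5 j
  obtain ⟨u, h8, h9⟩ := W_flat y hk hex
    (u := (fun j => eps A n (insert k s) (ι (c j))) - w) (fun j => by
      have := eps_W y (Finset.subset_insert k s) (Ideal.mul_le_right (h4 j))
      rw [Finset.inter_self] at this
      exact sub_mem this (Ideal.mul_le_right (h7 j))) (by
      have := map_mulVec' (eps A n (insert k s)) D fun j => ι (c j)
      rw [algebraMap_eq] at this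
      rw [Matrix.mulVec_sub, this, h6, sub_self])
  refine ⟨fun l => eps A n s (u l), fun l => ?_, ?_⟩
  · have := eps_W y (Finset.Subset.refl s) (h8 l)
    rwa [Finset.inter_eq_right.2 (Finset.subset_insert k s)] at this
  · have := map_mulVec' (eps A n s) D' u
    rw [algebraMap_eq, h9] at this
    rw [this]
    funext j
    have e1 := eps_IX hk (h3 (c j))
    rw [map_sub, sub_eq_zero] at e1
    rw [Pi.sub_apply, map_sub, eps_eps (Finset.subset_insert k s),
      eps_IX hk (Ideal.mul_le_left (h7 j)), sub_zero, e1]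

end Pool.Agent.MP_36bee5_al.Stb
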