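import Mathlib

set_option autoImplicit false

namespace Pool.Agent.MP_36bee5_al.Stb

/-- The ideal `P` has finitely many generators whose syzygy module is generated by the columns of
a finite matrix, each column having its entries in `L ^ e` for some `e ≤ c`. When `L` is the space
of linear forms of a standard graded algebra, `L ^ e` is the space of forms of degree `e`. -/
def PresDeg {K A : Type} [Field K] [CommRing A] [Algebra K A] (L : Submodule K A) (c : ℕ)
    (P : Ideal A) : Prop :=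
  ∃ (b m : ℕ) (g : Fin b → A) (D : Matrix (Fin b) (Fin m) A) (e : Fin m → ℕ),
    Ideal.span (Set.range g) = P ∧ (∀ t, e t ≤ c) ∧ (∀ j t, D j t ∈ L ^ e t) ∧
    ∀ v : Fin b → A, ∑ j, v j * g j = 0 ↔ ∃ w, D.mulVec w = v

/-- `F` is a Koszul filtration of `A`, where `L` is the set of linear forms. -/
def KoszulFil {A : Type} [CommRing A] (L : Set A) (F : Set (Ideal A)) : Prop :=
  (∀ I ∈ F, I = Ideal.span {y | y ∈ I ∧ y ∈ L}) ∧ ⊥ ∈ F ∧ Ideal.span L ∈ F ∧
    ∀ I ∈ F, I ≠ ⊥ → ∃ I' ∈ F, I' ≤ I ∧ (∃ x ∈ L, I = I' ⊔ Ideal.span {x}) ∧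
      ∃ Q ∈ F, ∀ r, r ∈ Q ↔ ∀ y ∈ I, r * y ∈ I'

end Pool.Agent.MP_36bee5_al.Stb
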