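import Pool.Agent.MP_36bee5_al.TrDG

set_option autoImplicit false

/-!
Graded rings, linear complexes, and the homotopy on the maximal linear complex.
-/

namespace Pool.Agent.MP_36bee5_al.Tr

open Matrix

/-- A grading given by its components and projections. -/
structure Gr (K : Type) [Field K] {R : Type} [CommRing R] [Algebra K R] (A : ℤ → Submodule K R)
    (π : ℤ → R →+ R) : Prop where
  one : 1 ∈ A 0
  mul : ∀ {i j : ℤ} {r s : R}, r ∈ A i → s ∈ A j → r * s ∈ A (i + j)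
  mem : ∀ e r, π e r ∈ A e
  self : ∀ {e : ℤ} {r : R}, r ∈ A e → π e r = r
  ne : ∀ {e e' : ℤ} {r : R}, r ∈ A e → e ≠ e' → π e' r = 0
  neg : ∀ {e : ℤ} {r : R}, r ∈ A e → e < 0 → r = 0
  sum : ∀ r, ∃ N : ℕ, ∀ N', N ≤ N' → ∑ e ∈ Finset.range N', π e r = r
  zero : ∀ r ∈ A 0, ∃ l : K, algebraMap K R l = r
  fg : ∀ e, (A e).FG

variable {K : Type} [Field K] {R : Type} [CommRing R] [Algebra K R] {A : ℤ → Submodule K R}
  {π : ℤ → R →+ R}

theorem Gr.hom (h : Gr K A π) (e : ℤ) {k : ℤ} (r : R) {s : R} (hs : s ∈ A k) :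
    π (e + k) (r * s) = π e r * s := by
  obtain ⟨N, hN⟩ := h.sum r
  conv_lhs => rw [← hN (N + e.toNat + 1) (by omega), Finset.sum_mul, map_sum]
  by_cases he : e < 0
  · rw [h.neg (h.mem e r) he, zero_mul]
    exact Finset.sum_eq_zero fun i _ => h.ne (h.mul (h.mem _ _) hs) (by omega)
  · obtain ⟨n, rfl⟩ := Int.eq_ofNat_of_zero_le (not_lt.1 he)
    rw [Finset.sum_eq_single n (fun i _ hi => h.ne (h.mul (h.mem _ _) hs) (by omega))
      (fun hn => absurd (Finset.mem_range.2 (by simp)) hn)]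
    exact h.self (h.mul (h.mem _ _) hs)

theorem Gr.pow (h : Gr K A π) {x : R} (hx : x ∈ A 1) (n : ℕ) : x ^ n ∈ A n := by
  induction n with
  | zero => simpa using h.one
  | succ n ih => rw [pow_succ]; exact_mod_cast h.mul ih hx

theorem Gr.alg (h : Gr K A π) (l : K) : algebraMap K R l ∈ A 0 := by
  rw [Algebra.algebraMap_eq_smul_one]; exact (A 0).smul_mem l h.one

theorem Gr.quot (h : Gr K A π) {R' : Type} [CommRing R'] [Algebra K R'] (φ : R →ₐ[K] R')
    (hs : Function.Surjective φ) (hk : ∀ e r, φ r = 0 → φ (π e r) = 0) :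
    ∃ π' : ℤ → R' →+ R', Gr K (fun e => (A e).map φ.toLinearMap) π' ∧
      ∀ e r, π' e (φ r) = φ (π e r) := by
  have key : ∀ e r, φ (π e (Function.surjInv hs (φ r))) = φ (π e r) := fun e r => by
    rw [← sub_eq_zero, ← map_sub, ← map_sub]
    exact hk _ _ (by rw [map_sub, Function.surjInv_eq hs, sub_self])
  let π' : ℤ → R' →+ R' := fun e => AddMonoidHom.mk' (fun r => φ (π e (Function.surjInv hs r)))
    fun a b => by
      obtain ⟨a, rfl⟩ := hs a
      obtain ⟨b, rfl⟩ := hs b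
      rw [← map_add, key, key, key, map_add, map_add]
  have h1 : ∀ e r, π' e (φ r) = φ (π e r) := key
  refine ⟨π', ⟨⟨1, h.one, map_one φ⟩, ?_, fun e r => ⟨_, h.mem e _, rfl⟩, ?_, ?_, ?_, fun r => ?_,
    ?_, fun e => (h.fg e).map _⟩, h1⟩
  · rintro i j _ _ ⟨r, hr, rfl⟩ ⟨s, hs, rfl⟩
    exact ⟨r * s, h.mul hr hs, map_mul φ r s⟩
  · rintro e _ ⟨r, hr, rfl⟩
    exact (h1 e r).trans (congrArg φ (h.self hr))
  · rintro e e' _ ⟨r, hr, rfl⟩ he
    exact (h1 e' r).trans (by rw [h.ne hr he, map_zero])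
  · rintro e _ ⟨r, hr, rfl⟩ he
    rw [h.neg hr he, map_zero]
  · obtain ⟨r, rfl⟩ := hs r
    obtain ⟨N, hN⟩ := h.sum r
    exact ⟨N, fun N' hN' => by simp only [h1, ← map_sum, hN N' hN']⟩
  · rintro _ ⟨r, hr, rfl⟩
    obtain ⟨l, rfl⟩ := h.zero r hr
    exact ⟨l, (φ.commutes l).symm⟩

/-- The homogeneous components of a polynomial ring, indexed by the integers. -/
noncomputable def Ap (K : Type) [Field K] (υ : Type) (e : ℤ) : Submodule K (MvPolynomial υ K) :=
  if 0 ≤ e then MvPolynomial.homogeneousSubmodule υ K e.toNat else ⊥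

theorem mem_Ap {υ : Type} {n : ℕ} {p : MvPolynomial υ K} : p ∈ Ap K υ n ↔ p.IsHomogeneous n := by
  rw [Ap, if_pos (Int.natCast_nonneg n), Int.toNat_natCast]; rfl

theorem Ap_neg {υ : Type} {e : ℤ} {p : MvPolynomial υ K} (hp : p ∈ Ap K υ e) (he : e < 0) :
    p = 0 := by
  rwa [Ap, if_neg (by omega)] at hp

theorem gr_poly (K : Type) [Field K] (υ : Type) [Finite υ] :
    ∃ π : ℤ → MvPolynomial υ K →+ MvPolynomial υ K, Gr K (Ap K υ) π := by
  let π : ℤ → MvPolynomial υ K →+ MvPolynomial υ K := fun e =>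
    if 0 ≤ e then (MvPolynomial.homogeneousComponent e.toNat).toAddMonoidHom else 0
  have h1 : ∀ (n : ℕ) p, π n p = MvPolynomial.homogeneousComponent n p := fun n p => by
    simp only [π, if_pos (Int.natCast_nonneg n), Int.toNat_natCast]; rfl
  have h2 : ∀ e < 0, ∀ p, π e p = 0 := fun e he p => by
    simp only [π, if_neg (not_le.2 he)]; rfl
  refine ⟨π, mem_Ap.2 (MvPolynomial.isHomogeneous_one _ _), fun {i j r s} hr hs => ?_,
    fun e r => ?_, fun {e r} hr => ?_, fun {e e' r} hr he => ?_, Ap_neg, fun r => ?_,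
    fun r hr => ?_, fun e => ?_⟩
  · by_cases hi : i < 0
    · rw [Ap_neg hr hi, zero_mul]; exact zero_mem _
    by_cases hj : j < 0
    · rw [Ap_neg hs hj, mul_zero]; exact zero_mem _
    obtain ⟨i, rfl⟩ := Int.eq_ofNat_of_zero_le (not_lt.1 hi)
    obtain ⟨j, rfl⟩ := Int.eq_ofNat_of_zero_le (not_lt.1 hj)
    exact_mod_cast mem_Ap.2 ((mem_Ap.1 hr).mul (mem_Ap.1 hs))
  · by_cases he : e < 0
    · rw [h2 e he]; exact zero_mem _
    obtain ⟨e, rfl⟩ := Int.eq_ofNat_of_zero_le (not_lt.1 he)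
    rw [h1]; exact mem_Ap.2 (MvPolynomial.homogeneousComponent_isHomogeneous _ _)
  · by_cases he : e < 0
    · rw [Ap_neg hr he, map_zero]
    obtain ⟨e, rfl⟩ := Int.eq_ofNat_of_zero_le (not_lt.1 he)
    rw [h1]; exact MvPolynomial.homogeneousComponent_eq_self (mem_Ap.1 hr)
  · by_cases h3 : e < 0
    · rw [Ap_neg hr h3, map_zero]
    by_cases h4 : e' < 0
    · exact h2 e' h4 _
    obtain ⟨e, rfl⟩ := Int.eq_ofNat_of_zero_le (not_lt.1 h3)
    obtain ⟨e', rfl⟩ := Int.eq_ofNat_of_zero_le (not_lt.1 h4)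
    rw [h1, MvPolynomial.homogeneousComponent_of_mem (mem_Ap.1 hr), if_neg (by omega)]
  · refine ⟨r.totalDegree + 1, fun N' hN' => ?_⟩
    simp only [h1]
    conv_rhs => rw [← MvPolynomial.sum_homogeneousComponent r]
    exact (Finset.sum_subset (Finset.range_mono hN') fun i _ hi =>
      MvPolynomial.homogeneousComponent_eq_zero _ _ (by simpa using hi)).symm
  · have := MvPolynomial.homogeneousComponent_eq_self ((mem_Ap (n := 0)).1 hr)
    rw [MvPolynomial.homogeneousComponent_zero] at this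
    exact ⟨_, this⟩
  · unfold Ap
    split_ifs
    · exact MvPolynomial.homogeneousSubmodule_fg _ _ _
    · exact Submodule.fg_bot

theorem Gr.span (h : Gr K A π) {κ : Type} [Fintype κ] {g : κ → R} {d : ℤ} (hg : ∀ j, g j ∈ A d)
    {k : ℤ} {r : R} (hr : r ∈ Ideal.span (Set.range g)) (hr' : r ∈ A (k + d)) :
    ∃ c : κ → R, (∀ j, c j ∈ A k) ∧ ∑ j, c j * g j = r := by
  obtain ⟨c, rfl⟩ := (Submodule.mem_span_range_iff_exists_fun R).1 hr
  refine ⟨fun j => π k (c j), fun j => h.mem _ _, ?_⟩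
  rw [← h.self hr', map_sum]
  exact Finset.sum_congr rfl fun j _ => (h.hom k _ (hg j)).symm

theorem Gr.closed (h : Gr K A π) {s : Set R} (hs : ∀ y ∈ s, ∃ k, y ∈ A k) (e : ℤ) {r : R}
    (hr : r ∈ Ideal.span s) : π e r ∈ Ideal.span s := by
  have : ∀ c : R, π e (c * r) ∈ Ideal.span s := by
    induction hr using Submodule.span_induction with
    | mem y hy =>
      intro c
      obtain ⟨k, hk⟩ := hs y hy
      rw [← sub_add_cancel e k, h.hom _ _ hk]
      exact Ideal.mul_mem_left _ _ (Ideal.subset_span hy)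
    | zero => intro c; rw [mul_zero, map_zero]; exact zero_mem _
    | add y z _ _ hy hz => intro c; rw [mul_add, map_add]; exact add_mem (hy c) (hz c)
    | smul a y _ hy => intro c; rw [smul_eq_mul, ← mul_assoc]; exact hy _
  simpa using this 1

/-- Generators and a sequence of matrices. -/
structure Cx (R : Type) where
  b : ℕ → ℕ
  g : Fin (b 0) → R
  D : (i : ℕ) → Matrix (Fin (b i)) (Fin (b (i + 1))) R

/-- The cycles of a complex. -/
noncomputable def Cx.cyc (X : Cx R) : (i : ℕ) → Submodule R (Fin (X.b i) → R)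
  | 0 => LinearMap.ker (Fintype.linearCombination R X.g)
  | i + 1 => LinearMap.ker (X.D i).mulVecLin

theorem Cx.mem0 {X : Cx R} {v : Fin (X.b 0) → R} : v ∈ X.cyc 0 ↔ ∑ j, v j * X.g j = 0 := Iff.rfl

theorem Cx.mem1 {X : Cx R} {i : ℕ} {v : Fin (X.b (i + 1)) → R} :
    v ∈ X.cyc (i + 1) ↔ X.D i *ᵥ v = 0 := Iff.rfl

/-- A linear complex with generators of degree `d`. -/
structure Lin (A : ℤ → Submodule K R) (X : Cx R) (d : ℤ) : Prop where
  g : ∀ j, X.g j ∈ A d
  D : ∀ i p q, X.D i p q ∈ A 1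
  cx : ∀ i w, X.D i *ᵥ w ∈ X.cyc i

/-- Cycles with coefficients of degree `k + 1` are boundaries. -/
def Lf (A : ℤ → Submodule K R) (X : Cx R) (k : ℤ) : Prop :=
  ∀ i, ∀ v ∈ X.cyc i, (∀ j, v j ∈ A (k + 1)) → ∃ w, (∀ j, w j ∈ A k) ∧ X.D i *ᵥ w = v

/-- Exactness. -/
def Cx.Exact (X : Cx R) : Prop := ∀ i, ∀ v ∈ X.cyc i, ∃ w, X.D i *ᵥ w = v

theorem Gr.mulVec (h : Gr K A π) {m n : Type} [Fintype n] {M : Matrix m n R} {k : ℤ}
    (hM : ∀ p q, M p q ∈ A k) (e : ℤ) (w : n → R) :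
    M *ᵥ (fun j => π e (w j)) = fun i => π (e + k) ((M *ᵥ w) i) := by
  funext i
  simp only [Matrix.mulVec, dotProduct, map_sum]
  exact Finset.sum_congr rfl fun j _ => by rw [mul_comm, mul_comm (M i j), h.hom _ _ (hM i j)]

theorem Gr.mulVec_mem (h : Gr K A π) {m n : Type} [Fintype n] {M : Matrix m n R} {k e : ℤ}
    (hM : ∀ p q, M p q ∈ A k) {w : n → R} (hw : ∀ j, w j ∈ A e) (i : m) :
    (M *ᵥ w) i ∈ A (k + e) := Submodule.sum_mem _ fun j _ => h.mul (hM i j) (hw j)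

theorem Gr.mat_mem (h : Gr K A π) {m n l : Type} [Fintype n] {M : Matrix m n R} {k e : ℤ}
    (hM : ∀ p q, M p q ∈ A k) {N : Matrix n l R} (hN : ∀ p q, N p q ∈ A e) (i : m) (j : l) :
    (M * N) i j ∈ A (k + e) := Submodule.sum_mem _ fun q _ => h.mul (hM i q) (hN q j)

theorem Gr.lf (h : Gr K A π) {X : Cx R} {d : ℤ} (hX : Lin A X d) (he : X.Exact) (k : ℤ) :
    Lf A X k := fun i v hv hv' => by
  obtain ⟨w, rfl⟩ := he i v hv
  exact ⟨fun j => π k (w j), fun j => h.mem _ _, by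
    rw [h.mulVec (hX.D i)]; exact funext fun j => h.self (hv' j)⟩

theorem Gr.exact (h : Gr K A π) {X : Cx R} {d : ℤ} (hX : Lin A X d) (hl : ∀ k, Lf A X k) :
    X.Exact := fun i v hv => by
  have h1 : ∀ e, (fun j => π e (v j)) ∈ X.cyc i := fun e => by
    rcases i with _ | i
    · have := congrArg (π (e + d)) (Cx.mem0.1 hv)
      rw [map_sum, map_zero] at this
      exact Cx.mem0.2 (by rw [← this]; exact Finset.sum_congr rfl fun j _ =>
        (h.hom _ _ (hX.g j)).symm)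
    · rw [Cx.mem1, h.mulVec (hX.D i), Cx.mem1.1 hv]
      funext j; exact map_zero _
  choose w _ hw using fun e : ℕ => hl (e - 1) i _ (h1 e) fun j => by
    rw [sub_add_cancel]; exact h.mem _ _
  choose N hN using fun j => h.sum (v j)
  refine ⟨∑ e ∈ Finset.range (Finset.univ.sup N), w e, ?_⟩
  rw [Matrix.mulVec_sum]
  funext j
  simp only [hw, Finset.sum_apply]
  exact hN j _ (Finset.le_sup (Finset.mem_univ j))

theorem Lf.lift {Y : Cx R} {k : ℤ} (hY : Lf A Y k) {i : ℕ} {κ : Type} [Fintype κ] [DecidableEq κ]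
    (B : Matrix (Fin (Y.b i)) κ R) (h1 : ∀ v, B *ᵥ v ∈ Y.cyc i) (h2 : ∀ p q, B p q ∈ A (k + 1)) :
    ∃ B' : Matrix (Fin (Y.b (i + 1))) κ R, (∀ p q, B' p q ∈ A k) ∧ Y.D i * B' = B := by
  choose w hw1 hw2 using fun q => hY i _ (h1 (Pi.single q 1)) fun p => by simpa using h2 p q
  refine ⟨Matrix.of fun p q => w q p, fun p q => hw1 q p, ?_⟩
  ext p q
  have := congrFun (hw2 q) p
  rw [Matrix.mulVec_single_one] at this
  simpa [Matrix.mul_apply, Matrix.mulVec, dotProduct] using this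

theorem Gr.kill (h : Gr K A π) {X G : Cx R} {d : ℤ} (hX : Lin A X (d + 1)) (hX0 : Lf A X 0)
    (hG : Lin A G d) (hGe : G.Exact) {x : R} (hx : x ∈ A 1)
    (h1 : ∀ j, x * G.g j ∈ Ideal.span (Set.range X.g))
    (h2 : ∀ j, X.g j ∈ Ideal.span (Set.range G.g)) (i : ℕ) (e : ℤ) (v : Fin (X.b i) → R)
    (hv : v ∈ X.cyc i) (hv' : ∀ j, v j ∈ A e) : ∃ w, (∀ j, w j ∈ A e) ∧ X.D i *ᵥ w = x • v := by
  have hone : ∀ (n : ℕ) (p q : Fin n), (x • (1 : Matrix (Fin n) (Fin n) R)) p q ∈ A (0 + 1) := by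
    intro n p q
    rw [Matrix.smul_apply, Matrix.one_apply, zero_add]
    split_ifs
    · simpa using hx
    · simp
  have key : ∀ i, ∃ (μ : Matrix (Fin (X.b i)) (Fin (G.b i)) R)
      (ν : Matrix (Fin (G.b i)) (Fin (X.b i)) R) (σ : Matrix (Fin (X.b (i + 1))) (Fin (X.b i)) R),
      (∀ p q, μ p q ∈ A 0) ∧ (∀ p q, ν p q ∈ A 1) ∧ (∀ p q, σ p q ∈ A 0) ∧
      (∀ v ∈ G.cyc i, μ *ᵥ v ∈ X.cyc i) ∧ (∀ v ∈ X.cyc i, ν *ᵥ v ∈ G.cyc i) ∧
      ∀ v ∈ X.cyc i, X.D i *ᵥ σ *ᵥ v = x • v - μ *ᵥ ν *ᵥ v := by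
    intro i
    induction i with
    | zero =>
      choose μ hμ1 hμ2 using fun j => h.span hX.g (k := 0) (h1 j) (by
        rw [zero_add, add_comm]; exact h.mul hx (hG.g j))
      choose ν hν1 hν2 using fun j => h.span hG.g (k := 1) (h2 j) (by
        rw [add_comm]; exact hX.g j)
      have e1 : ∀ v, ∑ p, ((Matrix.of fun p q => μ q p) *ᵥ v) p * X.g p = x * ∑ q, v q * G.g q := by
        intro v
        simp only [Matrix.mulVec, dotProduct, Matrix.of_apply, Finset.sum_mul, Finset.mul_sum]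
        rw [Finset.sum_comm]
        refine Finset.sum_congr rfl fun q _ => ?_
        rw [mul_left_comm, ← hμ2, Finset.mul_sum]
        exact Finset.sum_congr rfl fun p _ => by ring
      have e2 : ∀ v, ∑ p, ((Matrix.of fun p q => ν q p) *ᵥ v) p * G.g p = ∑ q, v q * X.g q := by
        intro v
        simp only [Matrix.mulVec, dotProduct, Matrix.of_apply, Finset.sum_mul]
        rw [Finset.sum_comm]
        refine Finset.sum_congr rfl fun q _ => ?_
        rw [← hν2, Finset.mul_sum]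
        exact Finset.sum_congr rfl fun p _ => by ring
      obtain ⟨σ, hσ1, hσ2⟩ := hX0.lift (i := 0)
        (x • 1 - (Matrix.of fun p q => μ q p) * Matrix.of fun p q => ν q p) (fun v => by
          rw [Cx.mem0, Matrix.sub_mulVec, Matrix.smul_mulVec, Matrix.one_mulVec,
            ← Matrix.mulVec_mulVec]
          simp only [Pi.sub_apply, sub_mul, Finset.sum_sub_distrib, e1, e2, Pi.smul_apply,
            smul_eq_mul, mul_assoc, ← Finset.mul_sum, sub_self])
        fun p q => sub_mem (hone _ p q) (h.mat_mem (fun p q => hμ1 q p) (fun p q => hν1 q p) p q)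
      refine ⟨Matrix.of fun p q => μ q p, Matrix.of fun p q => ν q p, σ, fun p q => hμ1 q p,
        fun p q => hν1 q p, hσ1, fun v hv => ?_, fun v hv => ?_, fun v _ => ?_⟩
      · rw [Cx.mem0, e1, Cx.mem0.1 hv, mul_zero]
      · rw [Cx.mem0, e2, Cx.mem0.1 hv]
      · rw [Matrix.mulVec_mulVec, hσ2, Matrix.sub_mulVec, Matrix.smul_mulVec, Matrix.one_mulVec,
          Matrix.mulVec_mulVec]
    | succ i ih =>
      obtain ⟨μ, ν, σ, h3, h4, h5, h6, h7, h8⟩ := ih
      obtain ⟨μ', h9, h10⟩ := hX0.lift (μ * G.D i)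
        (fun v => by rw [← Matrix.mulVec_mulVec]; exact h6 _ (hG.cx i v)) (h.mat_mem h3 (hG.D i))
      obtain ⟨ν', h11, h12⟩ := (h.lf hG hGe 1).lift (ν * X.D i)
        (fun v => by rw [← Matrix.mulVec_mulVec]; exact h7 _ (hX.cx i v)) (h.mat_mem h4 (hX.D i))
      obtain ⟨σ', h13, h14⟩ := hX0.lift (i := i + 1) (x • 1 - μ' * ν' - σ * X.D i) (fun v => by
          rw [Cx.mem1, Matrix.sub_mulVec, Matrix.sub_mulVec, Matrix.smul_mulVec, Matrix.one_mulVec,
            Matrix.mulVec_sub, Matrix.mulVec_sub, ← Matrix.mulVec_mulVec v σ, h8 _ (hX.cx i v),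
            Matrix.mulVec_mulVec v (X.D i), ← Matrix.mul_assoc, h10, Matrix.mul_assoc, h12,
            Matrix.mulVec_smul, Matrix.mulVec_mulVec, Matrix.mulVec_mulVec, Matrix.mul_assoc,
            sub_self])
        fun p q => sub_mem (sub_mem (hone _ p q) (h.mat_mem h9 h11 p q))
          (h.mat_mem h5 (hX.D i) p q)
      refine ⟨μ', ν', σ', h9, h11, h13, fun v hv => ?_, fun v hv => ?_, fun v hv => ?_⟩
      · rw [Cx.mem1, Matrix.mulVec_mulVec, h10, ← Matrix.mulVec_mulVec, Cx.mem1.1 hv,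
          Matrix.mulVec_zero]
      · rw [Cx.mem1, Matrix.mulVec_mulVec, h12, ← Matrix.mulVec_mulVec, Cx.mem1.1 hv,
          Matrix.mulVec_zero]
      · rw [Matrix.mulVec_mulVec, h14, Matrix.sub_mulVec, Matrix.sub_mulVec, Matrix.smul_mulVec,
          Matrix.one_mulVec, ← Matrix.mulVec_mulVec v σ, Cx.mem1.1 hv, Matrix.mulVec_zero,
          sub_zero, Matrix.mulVec_mulVec]
  obtain ⟨μ, ν, σ, h3, h4, h5, h6, h7, h8⟩ := key i
  obtain ⟨μ', h9, h10⟩ := hX0.lift (μ * G.D i)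
    (fun v => by rw [← Matrix.mulVec_mulVec]; exact h6 _ (hG.cx i v)) (h.mat_mem h3 (hG.D i))
  obtain ⟨γ, h11, h12⟩ := h.lf hG hGe e i _ (h7 v hv) fun j => by
    rw [add_comm]; exact h.mulVec_mem h4 hv' j
  refine ⟨σ *ᵥ v + μ' *ᵥ γ, fun j => ?_, ?_⟩
  · have := add_mem (h.mulVec_mem h5 hv' j) (h.mulVec_mem h9 h11 j)
    rwa [zero_add] at this
  · rw [Matrix.mulVec_add, h8 v hv, Matrix.mulVec_mulVec γ, h10, ← Matrix.mulVec_mulVec, h12,
      sub_add_cancel]

theorem exists_basis' {V : Type} [AddCommGroup V] [Module K V] (H : Submodule K V) (hH : H.FG) :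
    ∃ (m : ℕ) (b : Fin m → V), (∀ i, b i ∈ H) ∧ (∀ l : Fin m → K, ∑ i, l i • b i = 0 → l = 0) ∧
      ∀ v ∈ H, ∃ l : Fin m → K, ∑ i, l i • b i = v := by
  have : Module.Finite K H := Module.Finite.iff_fg.2 hH
  let b := Module.finBasis K H
  refine ⟨_, fun i => b i, fun i => (b i).2, fun l hl => ?_, fun v hv => ⟨b.repr ⟨v, hv⟩, ?_⟩⟩
  · funext i
    exact Fintype.linearIndependent_iff.1 b.linearIndependent l (Subtype.ext (by simpa using hl)) i
  · have := congrArg Subtype.val (b.sum_repr ⟨v, hv⟩)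
    rw [Submodule.coe_sum] at this
    exact this

theorem Gr.maximal (h : Gr K A π) {n : ℕ} {g : Fin n → R} {d : ℤ} (hg : ∀ j, g j ∈ A d)
    (hi : ∀ l : Fin n → K, ∑ i, l i • g i = 0 → l = 0) :
    ∃ X : Cx R, Set.range X.g = Set.range g ∧ Lin A X d ∧ ∀ k ≤ 0, Lf A X k := by
  let St : Type := {p : (k : ℕ) × Submodule R (Fin k → R) //
    ∀ v ∈ p.2, (∀ j, v j ∈ A 0) → v = 0}
  have step : ∀ s : St, ∃ (t : St) (M : Matrix (Fin s.1.1) (Fin t.1.1) R),
      (∀ p q, M p q ∈ A 1) ∧ (∀ w, M *ᵥ w ∈ s.1.2) ∧ t.1.2 = LinearMap.ker M.mulVecLin ∧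
      ∀ v ∈ s.1.2, (∀ j, v j ∈ A 1) → ∃ w, (∀ j, w j ∈ A 0) ∧ M *ᵥ w = v := by
    rintro ⟨⟨k, N⟩, hN⟩
    obtain ⟨m, b, hb1, hb2, hb3⟩ := exists_basis'
      (N.restrictScalars K ⊓ Submodule.pi Set.univ fun _ => A 1)
      (Submodule.FG.of_le (Submodule.fg_pi (p := fun _ : Fin k => A 1) fun _ => h.fg 1)
        inf_le_right)
    have e1 : ∀ w : Fin m → R, (Matrix.of fun p q => b q p) *ᵥ w = ∑ q, w q • b q := fun w => by
      funext p
      simp only [Matrix.mulVec, dotProduct, Matrix.of_apply, Finset.sum_apply, Pi.smul_apply,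
        smul_eq_mul, mul_comm]
    have e2 : ∀ l : Fin m → K, ∑ q, algebraMap K R (l q) • b q = ∑ q, l q • b q := fun l =>
      Finset.sum_congr rfl fun q _ => algebraMap_smul R _ _
    refine ⟨⟨⟨m, LinearMap.ker (Matrix.of fun p q => b q p).mulVecLin⟩, fun v hv hv' => ?_⟩,
      Matrix.of fun p q => b q p, fun p q => (hb1 q).2 p trivial, fun w => ?_, rfl,
      fun v hv hv' => ?_⟩
    · choose l hl using fun j => h.zero _ (hv' j)
      obtain rfl : v = fun j => algebraMap K R (l j) := funext fun j => (hl j).symm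
      rw [hb2 l ((e2 l).symm.trans ((e1 _).symm.trans hv))]
      funext j; simp
    · rw [e1]; exact N.sum_mem fun q _ => N.smul_mem _ (hb1 q).1
    · obtain ⟨l, rfl⟩ := hb3 v ⟨hv, fun j _ => hv' j⟩
      exact ⟨fun q => algebraMap K R (l q), fun q => h.alg _, (e1 _).trans (e2 l)⟩
  choose next M hM1 hM2 hM3 hM4 using step
  let s0 : St := ⟨⟨n, LinearMap.ker (Fintype.linearCombination R g)⟩, fun v hv hv' => by
    choose l hl using fun j => h.zero _ (hv' j)
    obtain rfl : v = fun j => algebraMap K R (l j) := funext fun j => (hl j).symm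
    rw [hi l ((Finset.sum_congr rfl fun q _ => (algebraMap_smul R _ _).symm).trans hv)]
    funext j; simp⟩
  let s : ℕ → St := fun i => Nat.rec s0 (fun _ t => next t) i
  let X : Cx R := ⟨fun i => (s i).1.1, g, fun i => M (s i)⟩
  have hc : ∀ i, X.cyc i = (s i).1.2 := fun i => by
    rcases i with _ | i
    · rfl
    · exact (hM3 (s i)).symm
  refine ⟨X, rfl, ⟨hg, fun i => hM1 (s i), fun i w => by rw [hc]; exact hM2 (s i) w⟩,
    fun k hk i v hv hv' => ?_⟩
  rw [hc] at hv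
  rcases hk.eq_or_lt with rfl | hk
  · exact hM4 (s i) v hv hv'
  · refine ⟨0, fun _ => zero_mem _, ?_⟩
    rw [Matrix.mulVec_zero]
    rcases (show k + 1 ≤ 0 by omega).eq_or_lt with h0 | h0
    · rw [h0] at hv'
      exact ((s i).2 v hv hv').symm
    · exact funext fun j => (h.neg (hv' j) h0).symm

end Pool.Agent.MP_36bee5_al.Tr
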