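import Pool.Agent.MP_36bee5_al.StbA
import Pool.Agent.MP_36bee5_al.StbDef
import Pool.Agent.MP_36bee5_al.TrGr

set_option autoImplicit false

/-!
Linear presentation of the block products forces a 2-linear resolution.
-/

namespace Pool.Agent.MP_36bee5_al.Stb

open MvPolynomial Matrix

theorem mul_span_sum {B ι : Type} [CommRing B] [Fintype ι] {N : Ideal B} {g : ι → B} {f : B}
    (hf : f ∈ N * Ideal.span (Set.range g)) : ∃ c : ι → B, (∀ j, c j ∈ N) ∧ ∑ j, c j * g j = f := by
  refine Submodule.mul_induction_on hf (fun a ha b hb => ?_) (fun a b ha hb => ?_)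
  · obtain ⟨u, rfl⟩ := Ideal.mem_span_range_iff_exists_fun.1 hb
    exact ⟨fun j => a * u j, fun j => N.mul_mem_right _ ha, by
      simp only [Finset.mul_sum, mul_assoc]⟩
  · obtain ⟨u, h1, rfl⟩ := ha
    obtain ⟨v, h2, rfl⟩ := hb
    exact ⟨u + v, fun j => add_mem (h1 j) (h2 j), by
      simp only [Pi.add_apply, add_mul, Finset.sum_add_distrib]⟩

variable {K : Type} [Field K] {n : ℕ} {σ : Type}

/-- The linear forms of a polynomial extension. -/
noncomputable def Lf (K : Type) [Field K] (σ : Type) {A : Type} [CommRing A] [Algebra K A]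
    (y : Fin n → A) : Submodule K (MvPolynomial (σ × Fin n) A) :=
  Submodule.span K (Set.range X ∪ Set.range fun i => C (y i))

theorem Lf_le {A : Type} [CommRing A] [Algebra K A] (y : Fin n → A)
    {z : MvPolynomial (σ × Fin n) A} (hz : z ∈ Lf K σ y) : z ∈ M σ y :=
  Submodule.span_le_restrictScalars K _ _ hz

/-- The flat form of the iterated polynomial ring. -/
noncomputable abbrev fl (K : Type) [Field K] (σ : Type) (n : ℕ) :=
  (sumAlgEquiv K (σ × Fin n) (Fin n)).symm

theorem fl_M : (M σ X).map (fl K σ n) = idealOfVars ((σ × Fin n) ⊕ Fin n) K := by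
  rw [M, Ideal.map_span, idealOfVars]
  congr 1
  refine Set.Subset.antisymm ?_ ?_
  · rintro _ ⟨_, ⟨t, rfl⟩ | ⟨i, rfl⟩, rfl⟩
    exacts [⟨_, (sumAlgEquiv_symm_X _ _ _ t).symm⟩, ⟨_, (sumAlgEquiv_symm_C_X _ _ _ i).symm⟩]
  · rintro _ ⟨t | i, rfl⟩
    exacts [⟨_, Or.inl ⟨t, rfl⟩, sumAlgEquiv_symm_X _ _ _ t⟩,
      ⟨_, Or.inr ⟨i, rfl⟩, sumAlgEquiv_symm_C_X _ _ _ i⟩]

theorem fl_mem {I : Ideal (MvPolynomial (σ × Fin n) (MvPolynomial (Fin n) K))}
    {f : MvPolynomial (σ × Fin n) (MvPolynomial (Fin n) K)} :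
    fl K σ n f ∈ I.map (fl K σ n) ↔ f ∈ I := by
  rw [Ideal.mem_map_iff_of_surjective _ (fl K σ n).surjective]
  exact ⟨by rintro ⟨x, hx, h⟩; rwa [← (fl K σ n).injective h], fun h => ⟨f, h, rfl⟩⟩

theorem fl_pow {m : ℕ} {f : MvPolynomial (σ × Fin n) (MvPolynomial (Fin n) K)} :
    f ∈ M σ X ^ m ↔ ∀ x, x.degree < m → coeff x (fl K σ n f) = 0 := by
  rw [← fl_mem, Ideal.map_pow, fl_M, mem_pow_idealOfVars_iff']

theorem fl_hom {m : ℕ} {z : MvPolynomial (σ × Fin n) (MvPolynomial (Fin n) K)}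
    (h : z ∈ Lf K σ X ^ m) : (fl K σ n z).IsHomogeneous m := by
  have h1 : ∀ z ∈ Lf K σ X, (fl K σ n z).IsHomogeneous 1 := fun z h1 => by
    refine Submodule.span_induction (p := fun z _ => (fl K σ n z).IsHomogeneous 1) ?_ ?_ ?_ ?_ h1
    · rintro _ (⟨t, rfl⟩ | ⟨i, rfl⟩)
      · rw [sumAlgEquiv_symm_X]; exact isHomogeneous_X _ _
      · rw [sumAlgEquiv_symm_C_X]; exact isHomogeneous_X _ _
    · rw [map_zero]; exact isHomogeneous_zero _ _ _
    · intro a b _ _ ha hb; rw [map_add]; exact ha.add hb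
    · intro a b _ hb; rw [map_smul]; exact (homogeneousSubmodule _ K 1).smul_mem a hb
  refine Submodule.pow_induction_on_left' (C := fun m z _ => (fl K σ n z).IsHomogeneous m) _
    (fun r => ?_) (fun a b i _ _ ha hb => ?_) (fun a ha i b _ hb => ?_) h
  · rw [AlgEquiv.commutes]; exact isHomogeneous_C _ _
  · rw [map_add]; exact ha.add hb
  · rw [map_mul, Nat.succ_eq_add_one, add_comm]; exact (h1 a ha).mul hb

theorem fl_closed {J : Ideal (MvPolynomial (Fin n) K)}
    (hh : ∀ p ∈ J, ∀ i, homogeneousComponent i p ∈ J)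
    {f : MvPolynomial ((σ × Fin n) ⊕ Fin n) K} (hf : f ∈ (J.map C).map (fl K σ n)) (l : ℕ) :
    homogeneousComponent l f ∈ (J.map C).map (fl K σ n) := by
  let _ := MvPolynomial.gradedAlgebra (σ := (σ × Fin n) ⊕ Fin n) (R := K)
  have e1 : ∀ g : MvPolynomial (Fin n) K, fl K σ n (C g) = rename Sum.inr g := fun g =>
    (fl K σ n).symm.injective (by
      rw [AlgEquiv.symm_apply_apply]
      exact (AlgHom.congr_fun (sumAlgEquiv_comp_rename_inr K (σ × Fin n) (Fin n)) g).symm)
  have e2 : (J.map C).map (fl K σ n) =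
      Ideal.span {f | ∃ g ∈ J, ∃ i, fl K σ n (C (homogeneousComponent i g)) = f} := by
    refine le_antisymm ?_ (Ideal.span_le.2 ?_)
    · rw [Ideal.map_le_iff_le_comap, Ideal.map_le_iff_le_comap]
      intro g hg
      show fl K σ n (C g) ∈ Ideal.span _
      rw [← sum_homogeneousComponent g, map_sum, map_sum]
      exact Ideal.sum_mem _ fun i _ => Ideal.subset_span ⟨g, hg, i, rfl⟩
    · rintro _ ⟨g, hg, i, rfl⟩
      exact Ideal.mem_map_of_mem _ (Ideal.mem_map_of_mem _ (hh g hg i))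
  rw [e2] at hf ⊢
  have := Ideal.homogeneous_span (homogeneousSubmodule ((σ × Fin n) ⊕ Fin n) K) _ (by
    rintro _ ⟨g, -, i, rfl⟩
    exact ⟨i, by rw [e1]; exact (homogeneousComponent_isHomogeneous i g).rename_isHomogeneous⟩)
    l hf
  rwa [show ((DirectSum.decompose (homogeneousSubmodule ((σ × Fin n) ⊕ Fin n) K) f l) :
    MvPolynomial _ K) = homogeneousComponent l f from decomposition.decompose'_apply f l] at this

theorem coeff_low {τ : Type} (k : ℕ) (f : MvPolynomial τ K) (x : τ →₀ ℕ) :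
    coeff x (∑ i ∈ Finset.range k, homogeneousComponent i f) =
      if x.degree < k then coeff x f else 0 := by
  simp only [coeff_sum, coeff_homogeneousComponent, Finset.sum_ite_eq, Finset.mem_range]

theorem cut {J : Ideal (MvPolynomial (Fin n) K)} (hh : ∀ p ∈ J, ∀ i, homogeneousComponent i p ∈ J)
    {c : ℕ} {β γ : Type} [Fintype γ] {e : γ → ℕ} (he : ∀ t, e t ≤ c)
    {D : β → γ → MvPolynomial (σ × Fin n) (MvPolynomial (Fin n) K)}
    (hD : ∀ j t, D j t ∈ Lf K σ X ^ e t) {u : β → MvPolynomial (σ × Fin n) (MvPolynomial (Fin n) K)}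
    (hu : ∀ j, u j ∈ M σ X ^ (c + 1)) {w : γ → MvPolynomial (σ × Fin n) (MvPolynomial (Fin n) K)}
    (h : ∀ j, u j - ∑ t, D j t * w t ∈ J.map C) :
    ∃ w' : γ → MvPolynomial (σ × Fin n) (MvPolynomial (Fin n) K),
      (∀ t, w' t ∈ M σ X) ∧ ∀ j, u j - ∑ t, D j t * w' t ∈ J.map C := by
  let lo := fun t => (fl K σ n).symm
    (∑ i ∈ Finset.range (c - e t + 1), homogeneousComponent i (fl K σ n (w t)))
  have h1 : ∀ t, w t - lo t ∈ M σ X ^ (c - e t + 1) := fun t => fl_pow.2 fun x hx => by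
    rw [map_sub, AlgEquiv.apply_symm_apply, coeff_sub, coeff_low, if_pos hx, sub_self]
  refine ⟨fun t => w t - lo t, fun t => Ideal.pow_le_self (by omega) (h1 t), fun j => ?_⟩
  have h2 : ∑ t, D j t * lo t + (u j - ∑ t, D j t * w t) ∈ M σ X ^ (c + 1) := by
    have : ∑ t, D j t * lo t + (u j - ∑ t, D j t * w t) = u j - ∑ t, D j t * (w t - lo t) := by
      simp only [mul_sub, Finset.sum_sub_distrib]; ring
    rw [this]
    refine sub_mem (hu j) (Ideal.sum_mem _ fun t _ => ?_)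
    rw [show c + 1 = e t + (c - e t + 1) by have := he t; omega, pow_add]
    exact Ideal.mul_mem_mul
      (fl_pow.2 fun x hx => (fl_hom (hD j t)).coeff_eq_zero (by omega)) (h1 t)
  have h3 : fl K σ n (∑ t, D j t * lo t) = -∑ i ∈ Finset.range (c + 1),
      homogeneousComponent i (fl K σ n (u j - ∑ t, D j t * w t)) := by
    refine MvPolynomial.ext _ _ fun x => ?_
    rw [coeff_neg, coeff_low]
    split_ifs with hx
    · have := fl_pow.1 h2 x hx
      rwa [map_add, coeff_add, add_eq_zero_iff_eq_neg] at this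
    · simp only [lo, map_sum, map_mul, AlgEquiv.apply_symm_apply, Finset.mul_sum, coeff_sum,
        neg_zero]
      refine Finset.sum_eq_zero fun t _ => Finset.sum_eq_zero fun i hi => ?_
      have := Finset.mem_range.1 hi
      have := he t
      exact ((fl_hom (hD j t)).mul (homogeneousComponent_isHomogeneous i _)).coeff_eq_zero
        (by omega)
  have h4 : ∑ t, D j t * lo t ∈ J.map C := fl_mem.1 (by
    rw [h3]
    exact neg_mem (Ideal.sum_mem _ fun i _ => fl_closed hh (fl_mem.2 (h j)) i))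
  have : u j - ∑ t, D j t * (w t - lo t) = ∑ t, D j t * lo t + (u j - ∑ t, D j t * w t) := by
    simp only [mul_sub, Finset.sum_sub_distrib]; ring
  rw [this]
  exact add_mem h4 (h j)

theorem map_C_vars : (Ideal.span (Set.range (X : Fin n → MvPolynomial (Fin n) K))).map C ≤ M σ X := by
  rw [Ideal.map_le_iff_le_comap, Ideal.span_le]
  rintro _ ⟨i, rfl⟩
  exact C_mem_M X i

theorem map_W {A A' : Type} [CommRing A] [CommRing A'] (f : A →+* A') (y : Fin n → A)
    (s t : Finset σ) : (W y s t).map (MvPolynomial.map f) = W (fun i => f (y i)) s t := by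
  have := map_prod (Ideal.mapHom (MvPolynomial.map (σ := σ × Fin n) f)) (IX A n) s
  simp only [Ideal.mapHom_apply] at this
  rw [W, W, Ideal.map_mul, this]
  congr 1
  · refine Finset.prod_congr rfl fun k _ => ?_
    rw [IX, IX, Ideal.map_span, ← Set.range_comp]
    congr 2
    funext i; exact map_X _ _
  · rw [IY, IY, Ideal.map_span, ← Set.range_comp]
    congr 2
    funext i
    simp [Yv]

variable [Fintype σ] [DecidableEq σ]

theorem base_le {J : Ideal (MvPolynomial (Fin n) K)}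
    (hh : ∀ p ∈ J, ∀ i, homogeneousComponent i p ∈ J) {c : ℕ}
    (h : PresDeg (Lf K σ fun i => Ideal.Quotient.mk J (X i)) c
      (W (fun i => Ideal.Quotient.mk J (X i)) (Finset.univ : Finset σ) Finset.univ)) :
    (M σ X ^ (c + 1) * W X (Finset.univ : Finset σ) Finset.univ) ⊓ J.map C ≤
      W X (Finset.univ : Finset σ) Finset.univ * J.map C := by
  classical
  obtain ⟨b, m, g, D, e, h1, he, h2, h3⟩ := h
  let ψ := MvPolynomial.map (σ := σ × Fin n) (Ideal.Quotient.mk J)
  have hs : Function.Surjective ψ := map_surjective _ Ideal.Quotient.mk_surjective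
  have hk : ∀ f, ψ f = 0 ↔ f ∈ J.map C := fun f => by
    rw [← RingHom.mem_ker, ker_map, Ideal.mk_ker]
  set V := W (X : Fin n → MvPolynomial (Fin n) K) (Finset.univ : Finset σ) Finset.univ with hV
  have hP : V.map ψ = Ideal.span (Set.range g) := (map_W _ _ _ _).trans h1.symm
  choose g' hg1 hg2 using fun j => (Ideal.mem_map_iff_of_surjective ψ hs).1
    (hP.symm ▸ Ideal.subset_span ⟨j, rfl⟩ : g j ∈ V.map ψ)
  have hl : (Lf K σ X).map (mapAlgHom (σ := σ × Fin n) (Ideal.Quotient.mkₐ K J)).toLinearMap =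
      Lf K σ fun i => Ideal.Quotient.mk J (X i) := by
    rw [Lf, Lf, Submodule.map_span, Set.image_union, ← Set.range_comp, ← Set.range_comp]
    congr 3
    · funext t; exact map_X _ _
    · funext i; exact map_C _ _
  rw [← hl] at h2
  simp only [← Submodule.map_pow] at h2
  choose D' hD1 hD2 using h2
  replace hD2 : ∀ j t, ψ (D' j t) = D j t := hD2
  have hM := M_mul_le (σ := σ) X J
  have hVg : V ≤ Ideal.span (Set.range g') ⊔ (V ⊓ J.map C) := by
    intro w hw
    obtain ⟨u, hu⟩ := Ideal.mem_span_range_iff_exists_fun.1 (hP ▸ Ideal.mem_map_of_mem ψ hw)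
    choose u' hu' using fun j => hs (u j)
    rw [← add_sub_cancel (∑ j, u' j * g' j) w]
    refine Submodule.add_mem_sup (Ideal.mem_span_range_iff_exists_fun.2 ⟨u', rfl⟩)
      ⟨sub_mem hw (Ideal.sum_mem _ fun j _ => V.mul_mem_left _ (hg1 j)), (hk _).1 ?_⟩
    simp only [map_sub, map_sum, map_mul, hu', hg2, hu, sub_self]
  rintro f ⟨hf1, hf2⟩
  have hf3 := Ideal.mul_mono_right hVg hf1
  rw [Ideal.mul_sup] at hf3
  obtain ⟨f1, h4, f2, h5, rfl⟩ := Submodule.mem_sup.1 hf3
  have h6 : f2 ∈ V * J.map C := hM (Ideal.mul_mono_left (Ideal.pow_le_self (by omega)) h5)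
  refine add_mem ?_ h6
  have h7 : ψ f1 = 0 := (hk _).2 ((add_mem_cancel_right (Ideal.mul_le_right h6)).1 hf2)
  obtain ⟨u, h8, rfl⟩ := mul_span_sum h4
  obtain ⟨w, h9⟩ := (h3 fun j => ψ (u j)).1 (by simpa only [map_sum, map_mul, hg2] using h7)
  choose w0 hw0 using fun t => hs (w t)
  obtain ⟨w', ha, h10⟩ := cut hh he hD1 h8 (w := w0) fun j => (hk _).1 (by
    simp only [map_sub, map_sum, map_mul, hD2, hw0]
    exact sub_eq_zero.2 (congrFun h9 j).symm)
  have h12 : ∑ j, u j * g' j = ∑ j, g' j * (u j - ∑ t, D' j t * w' t) +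
      ∑ t, w' t * ∑ j, D' j t * g' j := by
    simp only [Finset.mul_sum]
    rw [Finset.sum_comm (s := Finset.univ (α := Fin m)), ← Finset.sum_add_distrib]
    refine Finset.sum_congr rfl fun j _ => ?_
    have : ∑ t, w' t * (D' j t * g' j) = (∑ t, D' j t * w' t) * g' j := by
      rw [Finset.sum_mul]
      exact Finset.sum_congr rfl fun t _ => by ring
    rw [this]; ring
  rw [h12]
  refine add_mem (Ideal.sum_mem _ fun j _ => Ideal.mul_mem_mul (hg1 j) (h10 j))
    (Ideal.sum_mem _ fun t _ => hM (Ideal.mul_mem_mul (ha t)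
      ⟨Ideal.sum_mem _ fun j _ => V.mul_mem_left _ (hg1 j), (hk _).1 ?_⟩))
  simp only [map_sum, map_mul, hD2, hg2]
  exact (h3 fun j => D j t).2 ⟨Pi.single t 1, by rw [Matrix.mulVec_single_one]; rfl⟩

theorem base {J : Ideal (MvPolynomial (Fin n) K)}
    (hh : ∀ p ∈ J, ∀ i, homogeneousComponent i p ∈ J) {c : ℕ}
    (h : PresDeg (Lf K σ fun i => Ideal.Quotient.mk J (X i)) c
      (W (fun i => Ideal.Quotient.mk J (X i)) (Finset.univ : Finset σ) Finset.univ))
    {b : Type} [Fintype b] {D : Matrix (Fin 1) b (MvPolynomial (Fin n) K)}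
    (hg : Ideal.span (Set.range (D 0)) = J)
    {N : Fin 1 → Ideal (MvPolynomial (σ × Fin n) (MvPolynomial (Fin n) K))}
    (hN : N 0 ≤ M σ X ^ (c + 1)) : Bd X (Finset.univ : Finset σ) N D := by
  intro u hc
  have e : J.map (C (σ := σ × Fin n)) = Ideal.span (Set.range fun j => C (D 0 j)) := by
    rw [← hg, Ideal.map_span, ← Set.range_comp]; rfl
  have h1 := base_le hh h ⟨Ideal.mul_mono_left hN (hc 0), by
    rw [e]
    exact Ideal.sum_mem _ fun j _ => Ideal.mul_mem_right _ _ (Ideal.subset_span ⟨j, rfl⟩)⟩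
  rw [e] at h1
  obtain ⟨w, h2, h3⟩ := mul_span_sum h1
  refine ⟨w, h2, funext fun i => ?_⟩
  have h4 : eps (MvPolynomial (Fin n) K) n (Finset.univ : Finset σ) = AlgHom.id _ _ :=
    MvPolynomial.algHom_ext fun u => eps_X (Finset.mem_univ _) _
  rw [h4, AlgHom.id_apply, Subsingleton.elim i 0, ← h3]
  exact Finset.sum_congr rfl fun j _ => mul_comm _ _

end Pool.Agent.MP_36bee5_al.Stb
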