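import Pool.Agent.MP_36bee5_al.StbB

set_option autoImplicit false

/-!
The induction along the maximal linear complex.
-/

namespace Pool.Agent.MP_36bee5_al.Stb

open MvPolynomial Matrix Tr

variable {K : Type} [Field K] {n : ℕ} {σ : Type}

theorem exists_shift (K : Type) [Field K] (n : ℕ) (k : σ) :
    ∃ ι : MvPolynomial (σ × Fin n) (MvPolynomial (Fin n) K) →+*
        MvPolynomial (σ × Fin n) (MvPolynomial (Fin n) K), (∀ t, ι (X t) = X t) ∧
      (∀ i, ι (C (X i)) = C (X i) - X (k, i)) ∧ (∀ f, f - ι f ∈ IX _ n k) ∧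
      (∀ a : K, ι (C (C a)) = C (C a)) ∧ (∀ m, (M σ X ^ m).map ι ≤ M σ X ^ m) ∧
      ∀ m, ∀ f ∈ M σ X ^ (m + 1), f - ι f ∈ IX _ n k * M σ X ^ m := by
  let φ : MvPolynomial (Fin n) K →ₐ[K] MvPolynomial (σ × Fin n) (MvPolynomial (Fin n) K) :=
    aeval fun i => C (X i) - X (k, i)
  let ι := eval₂Hom φ.toRingHom (X : σ × Fin n → _)
  have h1 : ∀ t, ι (X t) = X t := fun t => eval₂Hom_X' _ _ t
  have h0 : ∀ d, ι (C d) = φ d := fun d => eval₂Hom_C _ _ d
  have h2 : ∀ i, ι (C (X i)) = C (X i) - X (k, i) := fun i => by rw [h0]; exact aeval_X _ _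
  have hm : ∀ f g, f - ι f ∈ IX _ n k → g - ι g ∈ IX _ n k → f * g - ι (f * g) ∈ IX _ n k := by
    intro f g hf hg
    rw [show f * g - ι (f * g) = (f - ι f) * g + ι f * (g - ι g) by rw [map_mul]; ring]
    exact add_mem (Ideal.mul_mem_right _ _ hf) (Ideal.mul_mem_left _ _ hg)
  have ha : ∀ (I : Ideal _) f g, f - ι f ∈ I → g - ι g ∈ I → f + g - ι (f + g) ∈ I := by
    intro I f g hf hg
    rw [map_add, add_sub_add_comm]; exact add_mem hf hg
  have h3 : ∀ f, f - ι f ∈ IX _ n k := by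
    intro f
    induction f using MvPolynomial.induction_on with
    | C d =>
      induction d using MvPolynomial.induction_on with
      | C a =>
        rw [h0, show φ (C a) = C (C a) from φ.commutes a, sub_self]; exact zero_mem _
      | add p q hp hq => rw [map_add]; exact ha _ _ _ hp hq
      | mul_X p i hp =>
        rw [map_mul]
        exact hm _ _ hp (by rw [h2, sub_sub_cancel]; exact X_mem_IX k i)
    | add p q hp hq => exact ha _ _ _ hp hq
    | mul_X p t hp => exact hm _ _ hp (by rw [h1, sub_self]; exact zero_mem _)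
  have h4 : IX (MvPolynomial (Fin n) K) n k ≤ M σ X := Ideal.span_le.2 (by
    rintro _ ⟨i, rfl⟩; exact X_mem_M X _)
  have h5 : ∀ m, (M σ X ^ m).map ι ≤ M σ X ^ m := fun m => by
    rw [Ideal.map_pow]
    refine Ideal.pow_right_mono (Ideal.map_le_iff_le_comap.2 fun f hf => ?_) m
    have := sub_mem hf (h4 (h3 f))
    rwa [sub_sub_cancel] at this
  refine ⟨ι, h1, h2, h3, fun a => (h0 _).trans (φ.commutes a), h5, fun m => ?_⟩
  induction m with
  | zero => intro f _; rw [pow_zero, mul_one]; exact h3 f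
  | succ m ih =>
    intro f hf
    rw [pow_succ] at hf
    refine Submodule.mul_induction_on hf (fun a ha' b hb => ?_) (fun a b => ha _ a b)
    rw [show a * b - ι (a * b) = (a - ι a) * b + (b - ι b) * ι a by rw [map_mul]; ring]
    refine add_mem ?_ (Ideal.mul_mem_mul (h3 b) (h5 _ (Ideal.mem_map_of_mem _ ha')))
    rw [pow_succ, ← mul_assoc]
    exact Ideal.mul_mem_mul (ih a ha') hb

theorem map_C_pow (m : ℕ) : (idealOfVars (Fin n) K ^ m).map C ≤ M σ X ^ m := by
  rw [Ideal.map_pow]; exact Ideal.pow_right_mono map_C_vars m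

theorem extract [DecidableEq σ] {a b : Type} [Fintype b] {D : Matrix a b (MvPolynomial (Fin n) K)}
    {e : a → ℕ} (h : Bd X (∅ : Finset σ) (fun i => M σ X ^ e i) D) (w : b → MvPolynomial (Fin n) K)
    (hw : ∀ i, (D *ᵥ w) i ∈ idealOfVars (Fin n) K ^ (e i + 1)) :
    ∃ z : Fin n → b → MvPolynomial (Fin n) K,
      D *ᵥ w = ∑ i, (X i : MvPolynomial (Fin n) K) • (D *ᵥ z i) := by
  have e1 : ∀ i, (D.map (C (σ := σ × Fin n)) *ᵥ fun j => C (w j)) i = C ((D *ᵥ w) i) := fun i => by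
    simp only [Matrix.mulVec, dotProduct, Matrix.map_apply, map_sum, map_mul]
  have e2 : W (X : Fin n → MvPolynomial (Fin n) K) (∅ : Finset σ) ∅ =
      (idealOfVars (Fin n) K).map C := by
    rw [W, Finset.prod_empty, one_mul, IY, idealOfVars, Ideal.map_span, ← Set.range_comp]
    congr 2
    funext i
    simp [Yv]
  obtain ⟨u, h1, h2⟩ := h (fun j => C (w j)) fun i => by
    rw [e1, e2]
    refine Ideal.mul_mono_left (map_C_pow _) ?_
    rw [← Ideal.map_mul, ← pow_succ]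
    exact Ideal.mem_map_of_mem _ (hw i)
  choose z hz using fun j => Ideal.mem_span_range_iff_exists_fun.1
    (mem_map_C_iff.1 (e2 ▸ h1 j) 0)
  refine ⟨fun i j => z j i, funext fun l => ?_⟩
  have h3 := congrArg (coeff 0) (congrFun h2 l)
  rw [coeff_mulVec, e1, show eps _ n (∅ : Finset σ) (C ((D *ᵥ w) l)) = C _ from
    AlgHom.commutes _ _, coeff_zero_C] at h3
  rw [← h3]
  simp only [← hz, Matrix.mulVec, dotProduct, Finset.sum_apply, Pi.smul_apply, smul_eq_mul,
    Finset.mul_sum]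
  rw [Finset.sum_comm]
  exact Finset.sum_congr rfl fun i _ => Finset.sum_congr rfl fun j _ => by ring

theorem hom_mem_pow {e e' : ℕ} (h : e' ≤ e) {p : MvPolynomial (Fin n) K} (hp : p.IsHomogeneous e) :
    p ∈ idealOfVars (Fin n) K ^ e' :=
  (mem_pow_idealOfVars_iff' _ _).2 fun x hx => hp.coeff_eq_zero (by omega)

theorem nak {π : ℤ → MvPolynomial (Fin n) K →+ MvPolynomial (Fin n) K}
    (hG : Gr K (Ap K (Fin n)) π) {β : Type} [Fintype β] (d : β → ℕ)
    {Z Z' : Submodule (MvPolynomial (Fin n) K) (β → MvPolynomial (Fin n) K)} {e0 : ℕ}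
    (hZ : ∀ e : ℤ, ∀ v ∈ Z, (fun j => π (e - d j) (v j)) ∈ Z)
    (h0 : ∀ e : ℕ, e ≤ e0 → ∀ v ∈ Z, (∀ j, v j ∈ Ap K (Fin n) (e - d j)) → v ∈ Z')
    (h1 : ∀ e : ℕ, e0 < e → ∀ v ∈ Z, (∀ j, v j ∈ Ap K (Fin n) (e - d j)) →
      ∃ z : Fin n → β → MvPolynomial (Fin n) K, (∀ i, z i ∈ Z) ∧
        v = ∑ i, (X i : MvPolynomial (Fin n) K) • z i) : Z ≤ Z' := by
  have key : ∀ e : ℕ, ∀ v ∈ Z, (∀ j, v j ∈ Ap K (Fin n) (e - d j)) → v ∈ Z' := by
    intro e
    induction e with
    | zero => exact h0 0 (Nat.zero_le _)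
    | succ e ih =>
      by_cases he : e + 1 ≤ e0
      · exact h0 _ he
      intro v hv hv'
      obtain ⟨z, h2, h3⟩ := h1 _ (not_le.1 he) v hv hv'
      have h4 : v = ∑ i, (X i : MvPolynomial (Fin n) K) • fun j => π (e - d j) (z i j) := by
        funext j
        rw [← hG.self (hv' j), congrFun h3 j]
        simp only [Finset.sum_apply, Pi.smul_apply, smul_eq_mul, map_sum]
        refine Finset.sum_congr rfl fun i _ => ?_
        rw [mul_comm, mul_comm (X i), show ((e + 1 : ℕ) : ℤ) - d j = e - d j + (1 : ℕ) by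
          push_cast; ring]
        exact hG.hom _ (z i j) (mem_Ap.2 (isHomogeneous_X K i))
      rw [h4]
      exact Z'.sum_mem fun i _ => Z'.smul_mem _ (ih _ (hZ e _ (h2 i)) fun j => hG.mem _ _)
  intro v hv
  choose N hN using fun j => hG.sum (v j)
  have : v = ∑ e ∈ Finset.range (Finset.univ.sup fun j => d j + N j),
      fun j => π (e - d j) (v j) := by
    funext j
    obtain ⟨T, hT⟩ := Nat.exists_eq_add_of_le
      (Finset.le_sup (f := fun j => d j + N j) (Finset.mem_univ j))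
    rw [Finset.sum_apply, hT, add_assoc, Finset.sum_range_add, Finset.sum_eq_zero fun e he =>
      hG.neg (hG.mem _ _) (by have := Finset.mem_range.1 he; omega), zero_add]
    simp only [Nat.cast_add, add_sub_cancel_left]
    exact (hN j _ (by omega)).symm
  rw [this]
  exact Z'.sum_mem fun e _ => key e _ (hZ e v hv) fun j => hG.mem _ _

theorem next {π : ℤ → MvPolynomial (Fin n) K →+ MvPolynomial (Fin n) K}
    (hG : Gr K (Ap K (Fin n)) π) {β : Type} [Fintype β] (d : β → ℕ)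
    (Z : Submodule (MvPolynomial (Fin n) K) (β → MvPolynomial (Fin n) K)) (e0 : ℕ) :
    ∃ (b : ℕ) (d' : Fin b → ℕ) (D : Matrix β (Fin b) (MvPolynomial (Fin n) K)),
      (∀ j, d' j ≤ e0) ∧ (∀ i j, D i j ∈ Ap K (Fin n) (d' j - d i)) ∧ (∀ w, D *ᵥ w ∈ Z) ∧
      (∀ e : ℕ, e ≤ e0 → ∀ v ∈ Z, (∀ j, v j ∈ Ap K (Fin n) (e - d j)) → ∃ w, D *ᵥ w = v) ∧
      ∀ e : ℤ, ∀ v ∈ LinearMap.ker D.mulVecLin,
        (fun j => π (e - d' j) (v j)) ∈ LinearMap.ker D.mulVecLin := by
  obtain ⟨T, h1, h2⟩ := (Submodule.fg_span_iff_fg_span_finset_subset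
    {v | v ∈ Z ∧ ∃ e : ℕ, e ≤ e0 ∧ ∀ j, v j ∈ Ap K (Fin n) (e - d j)}).1
    (IsNoetherian.noetherian (R := MvPolynomial (Fin n) K) _)
  let f : Fin T.card → β → MvPolynomial (Fin n) K := fun j => T.equivFin.symm j
  have h3 : Set.range f = T := by
    ext v
    exact ⟨by rintro ⟨j, rfl⟩; exact (T.equivFin.symm j).2,
      fun hv => ⟨T.equivFin ⟨v, hv⟩, by simp [f]⟩⟩
  have h4 := fun j => h1 (h3 ▸ ⟨j, rfl⟩ : f j ∈ (T : Set _))
  choose h5 d' h6 h7 using h4
  have e1 : ∀ w, (Matrix.of fun i j => f j i) *ᵥ w = ∑ j, w j • f j := fun w => funext fun i => by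
    simp only [Matrix.mulVec, dotProduct, Matrix.of_apply, Finset.sum_apply, Pi.smul_apply,
      smul_eq_mul, mul_comm]
  refine ⟨_, d', Matrix.of fun i j => f j i, h6, fun i j => h7 j i, fun w => ?_,
    fun e he v hv hv' => ?_, fun e v hv => ?_⟩
  · rw [e1]; exact Z.sum_mem fun j _ => Z.smul_mem _ (h5 j)
  · have h8 := Submodule.subset_span (R := MvPolynomial (Fin n) K)
      (s := {v | v ∈ Z ∧ ∃ e : ℕ, e ≤ e0 ∧ ∀ j, v j ∈ Ap K (Fin n) (e - d j)}) ⟨hv, e, he, hv'⟩
    rw [h2, ← h3, SetLike.mem_coe, Submodule.mem_span_range_iff_exists_fun] at h8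
    exact h8.imp fun w hw => (e1 w).trans hw
  · funext i
    have := congrArg (π (e - d i)) (congrFun (show (Matrix.of fun i j => f j i) *ᵥ v = 0 from hv) i)
    rw [Pi.zero_apply, map_zero] at this
    rw [Pi.zero_apply, ← this]
    simp only [Matrix.mulVecLin_apply, Matrix.mulVec, dotProduct, Matrix.of_apply, map_sum]
    refine Finset.sum_congr rfl fun j _ => ?_
    rw [mul_comm, mul_comm (f j i), ← hG.hom _ _ (h7 j i)]
    congr 2
    ring

theorem exists_mat {S β : Type} [CommRing S] [IsNoetherianRing S] [Fintype β]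
    (Z : Submodule S (β → S)) :
    ∃ (c : ℕ) (D : Matrix β (Fin c) S), ∀ v, v ∈ Z ↔ ∃ w, D *ᵥ w = v := by
  obtain ⟨c, s, rfl⟩ := Submodule.fg_iff_exists_fin_generating_family.1 (IsNoetherian.noetherian Z)
  refine ⟨c, Matrix.of fun i j => s j i, fun v => ?_⟩
  rw [Submodule.mem_span_range_iff_exists_fun]
  refine exists_congr fun w => ?_
  rw [show (Matrix.of fun i j => s j i) *ᵥ w = ∑ j, w j • s j from funext fun i => by
    simp only [Matrix.mulVec, dotProduct, Matrix.of_apply, Finset.sum_apply, Pi.smul_apply,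
      smul_eq_mul, mul_comm]]

theorem chain [Fintype σ] [DecidableEq σ] {b : ℕ → ℕ} {d : (q : ℕ) → Fin (b q) → ℕ}
    {D : (q : ℕ) → Matrix (Fin (b q)) (Fin (b (q + 1))) (MvPolynomial (Fin n) K)}
    {Z : (q : ℕ) → Submodule (MvPolynomial (Fin n) K) (Fin (b q) → MvPolynomial (Fin n) K)}
    (hD : ∀ q i j, D q i j ∈ Ap K (Fin n) (d (q + 1) j - d q i)) (hcx : ∀ q w, D q *ᵥ w ∈ Z q)
    (hZ : ∀ q v, v ∈ Z (q + 1) ↔ D q *ᵥ v = 0) {e : ℕ}
    (hb : ∀ (c : ℕ) (D' : Matrix (Fin (b 0)) (Fin c) (MvPolynomial (Fin n) K)),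
      (∀ v, v ∈ Z 0 ↔ ∃ w, D' *ᵥ w = v) →
      Bd X (Finset.univ : Finset σ) (fun i => M σ X ^ (e - d 0 i - Fintype.card σ - 1)) D')
    (r : ℕ) (hex : ∀ j < r, ∀ v ∈ Z j, ∃ w, D j *ᵥ w = v) (s : Finset σ)
    (hs : s.card + r = Fintype.card σ) (c : ℕ)
    (D' : Matrix (Fin (b r)) (Fin c) (MvPolynomial (Fin n) K))
    (hD' : ∀ v, v ∈ Z r ↔ ∃ w, D' *ᵥ w = v) :
    Bd X s (fun i => M σ X ^ (e - d r i - s.card - 1)) D' := by
  induction r generalizing s c with
  | zero =>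
    obtain rfl := Finset.eq_univ_of_card s hs
    exact hb c D' hD'
  | succ r ih =>
    obtain ⟨k, -, hk⟩ := Finset.exists_mem_notMem_of_card_lt_card
      (show s.card < (Finset.univ : Finset σ).card by rw [Finset.card_univ]; omega)
    obtain ⟨ι, h1, h2, h3, h4, h5, h6⟩ := exists_shift K n k
    have hc := Finset.card_insert_of_notMem hk
    refine step X hk ι h1 h2 h3 (D := D r) (fun j => h5 _) (fun i j x hx => ?_)
      (fun v hv => (hD' v).1 ((hZ r v).2 hv)) (Matrix.ext_iff_mulVec.2 fun w => ?_)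
      (ih (fun j hj => hex j (by omega)) _ (by omega) _ _
        fun v => ⟨hex r (by omega) v, by rintro ⟨w, rfl⟩; exact hcx r w⟩)
    · have h7 := hD r i j
      rcases lt_trichotomy (d (r + 1) j) (d r i) with h8 | h8 | h8
      · rw [Ap_neg h7 (by omega), map_zero, map_zero, sub_self, zero_mul]; exact zero_mem _
      · rw [h8, sub_self] at h7
        have := homogeneousComponent_eq_self ((mem_Ap (n := 0)).1 h7)
        rw [homogeneousComponent_zero] at this
        rw [← this, h4, sub_self, zero_mul]; exact zero_mem _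
      · obtain ⟨m, hm⟩ := Nat.exists_eq_add_of_lt h8
        rw [show (d (r + 1) j : ℤ) - d r i = (m + 1 : ℕ) by omega] at h7
        have := Ideal.mul_mem_mul (h6 m _ (map_C_pow _
          (Ideal.mem_map_of_mem C (hom_mem_pow le_rfl (mem_Ap.1 h7))))) hx
        rw [mul_assoc, ← pow_add] at this
        exact Ideal.mul_mono_right (Ideal.pow_le_pow_right (by omega)) this
    · rw [← Matrix.mulVec_mulVec, Matrix.zero_mulVec]
      exact (hZ r _).1 ((hD' _).2 ⟨w, rfl⟩)

theorem reg_le {J : Ideal (MvPolynomial (Fin n) K)}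
    (hh : ∀ p ∈ J, ∀ i, homogeneousComponent i p ∈ J) {c : ℕ}
    (h : ∀ p : ℕ, PresDeg (Lf K (Fin p) fun i => Ideal.Quotient.mk J (X i)) c
      (W (fun i => Ideal.Quotient.mk J (X i)) (Finset.univ : Finset (Fin p)) Finset.univ)) :
    ∃ (b : ℕ → ℕ) (d : (i : ℕ) → Fin (b i) → ℕ) (g : Fin (b 0) → MvPolynomial (Fin n) K)
      (A : (i : ℕ) → Matrix (Fin (b i)) (Fin (b (i + 1))) (MvPolynomial (Fin n) K)),
      (∀ i j, d i j ≤ i + c + 1) ∧ (∀ j, (g j).IsHomogeneous (d 0 j)) ∧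
      (∀ i p q, ∀ m ∈ (A i p q).support, d i p + m.degree = d (i + 1) q) ∧
      Ideal.span (Set.range g) = J ∧
      (∀ v : Fin (b 0) → MvPolynomial (Fin n) K, ∑ j, v j * g j = 0 ↔ ∃ w, (A 0).mulVec w = v) ∧
      (∀ (i : ℕ) (v : Fin (b (i + 1)) → MvPolynomial (Fin n) K),
        (A i).mulVec v = 0 ↔ ∃ w, (A (i + 1)).mulVec w = v) := by
  classical
  obtain ⟨π, hG⟩ := gr_poly K (Fin n)
  have hπ : ∀ e, ∀ r ∈ J, π e r ∈ J := fun e r hr => by
    rw [← sum_homogeneousComponent r, map_sum]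
    refine J.sum_mem fun i _ => ?_
    have h3 := mem_Ap.2 (homogeneousComponent_isHomogeneous i r)
    by_cases he : (i : ℤ) = e
    · rw [← he, hG.self h3]; exact hh r hr i
    · rw [hG.ne h3 he]; exact zero_mem _
  let St : Type := (b : ℕ) × (Fin b → ℕ) ×
    Submodule (MvPolynomial (Fin n) K) (Fin b → MvPolynomial (Fin n) K)
  choose nb nd nD h1 h2 h3 h4 h5 using fun (t : St) (q : ℕ) => next hG t.2.1 t.2.2 (q + c + 1)
  let s : ℕ → St := fun q => Nat.rec ⟨1, fun _ => 0, Submodule.pi Set.univ fun _ => J⟩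
    (fun q t => ⟨nb t q, nd t q, LinearMap.ker (nD t q).mulVecLin⟩) q
  let D : (q : ℕ) → Matrix (Fin (s q).1) (Fin (s (q + 1)).1) (MvPolynomial (Fin n) K) :=
    fun q => nD (s q) q
  have e1 : ∀ (c : ℕ) (D' : Matrix (Fin 1) (Fin c) (MvPolynomial (Fin n) K)),
      (∀ v, v ∈ (Submodule.pi Set.univ fun _ => J) ↔ ∃ w, D' *ᵥ w = v) →
      Ideal.span (Set.range (D' 0)) = J := fun c D' hD' => by
    refine le_antisymm (Ideal.span_le.2 ?_) fun r hr => ?_
    · rintro _ ⟨j, rfl⟩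
      have := (hD' _).2 ⟨Pi.single j 1, rfl⟩ 0 trivial
      rwa [Matrix.mulVec_single_one] at this
    · obtain ⟨w, hw⟩ := (hD' fun _ => r).1 fun _ _ => hr
      exact Ideal.mem_span_range_iff_exists_fun.2
        ⟨w, (Finset.sum_congr rfl fun j _ => mul_comm _ _).trans (congrFun hw 0)⟩
  have hex : ∀ r, ∀ v ∈ (s r).2.2, ∃ w, D r *ᵥ w = v := fun r => by
    induction r using Nat.strong_induction_on with
    | _ r ih =>
      obtain ⟨c', D', hD'⟩ := exists_mat (s r).2.2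
      refine nak hG (s r).2.1 (Z' := LinearMap.range (D r).mulVecLin) (e0 := r + c + 1) ?_
        (h4 (s r) r) fun e he v hv hv' => ?_
      · rcases r with _ | r
        exacts [fun e v hv j _ => hπ _ _ (hv j trivial), h5 (s r) r]
      · have hb := chain (σ := Fin r) (b := fun q => (s q).1) (d := fun q => (s q).2.1) (D := D)
          (Z := fun q => (s q).2.2) (fun q => h2 (s q) q) (fun q => h3 (s q) q)
          (fun q v => Iff.rfl) (e := e) (fun c' D' hD' => base hh (h r) (e1 c' D' hD')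
            (Ideal.pow_le_pow_right (by
              show c + 1 ≤ e - 0 - Fintype.card (Fin r) - 1
              rw [Fintype.card_fin]; omega))) r ih ∅ (by simp) c' D' hD'
        obtain ⟨w, rfl⟩ := (hD' v).1 hv
        obtain ⟨z, h6⟩ := extract hb w fun i => by
          have h7 : (s r).2.1 i ≤ r + c := by
            rcases r with _ | r
            · exact Nat.zero_le _
            · exact (h1 (s r) r i).trans (by omega)
          have h8 := hv' i
          rw [← Nat.cast_sub (by omega)] at h8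
          exact hom_mem_pow (by rw [Finset.card_empty]; omega) (mem_Ap.1 h8)
        exact ⟨_, fun i => (hD' _).2 ⟨_, rfl⟩, h6⟩
  have hiff : ∀ r v, v ∈ (s r).2.2 ↔ ∃ w, D r *ᵥ w = v := fun r v =>
    ⟨hex r v, by rintro ⟨w, rfl⟩; exact h3 (s r) r w⟩
  refine ⟨fun i => (s (i + 1)).1, fun i => (s (i + 1)).2.1, D 0 (0 : Fin 1), fun i => D (i + 1),
    fun i => h1 (s i) i, fun j => ?_, fun i p q m hm => ?_, e1 _ (D 0) (hiff 0), fun v => ?_,
    fun i v => hiff (i + 2) v⟩
  · have := h2 (s 0) 0 (0 : Fin 1) j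
    rw [show (((s 0).2.1 (0 : Fin 1) : ℕ) : ℤ) = 0 from rfl, sub_zero] at this
    exact mem_Ap.1 this
  · have h6 := h2 (s (i + 1)) (i + 1) p q
    by_cases h7 : (s (i + 1)).2.1 p ≤ nd (s (i + 1)) (i + 1) q
    · rw [← Nat.cast_sub h7] at h6
      have h8 : m.degree = _ := by_contra fun h8 =>
        mem_support_iff.1 hm ((mem_Ap.1 h6).coeff_eq_zero h8)
      show (s (i + 1)).2.1 p + _ = nd (s (i + 1)) (i + 1) q
      omega
    · exact absurd (congrArg (coeff m) (Ap_neg h6 (by omega))) (mem_support_iff.1 hm)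
  · have e2 : ∀ (c : ℕ) (D' : Matrix (Fin 1) (Fin c) (MvPolynomial (Fin n) K)) v,
        ∑ j, v j * D' 0 j = 0 ↔ D' *ᵥ v = 0 := fun c D' v => by
      rw [_root_.funext_iff, Fin.forall_fin_one]
      simp only [Matrix.mulVec, dotProduct, Pi.zero_apply, mul_comm]
    exact (e2 _ (D 0) v).trans (hiff 1 v)

end Pool.Agent.MP_36bee5_al.Stb
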