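import Pool.Agent.MP_36bee5_al.StbC

set_option autoImplicit false

/-!
Koszul filtrations of polynomial extensions.
-/

namespace Pool.Agent.MP_36bee5_al.Stb

open MvPolynomial

theorem KoszulFil.union {A : Type} [CommRing A] {L : Set A} {F G : Set (Ideal A)}
    (hF : KoszulFil L F) (hG : KoszulFil L G) : KoszulFil L (F ∪ G) := by
  refine ⟨fun I hI => hI.elim (hF.1 I) (hG.1 I), Or.inl hF.2.1, Or.inl hF.2.2.1, ?_⟩
  rintro I (hI | hI) h0
  · obtain ⟨I', h1, h2, h3, Q, h4, h5⟩ := hF.2.2.2 I hI h0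
    exact ⟨I', Or.inl h1, h2, h3, Q, Or.inl h4, h5⟩
  · obtain ⟨I', h1, h2, h3, Q, h4, h5⟩ := hG.2.2.2 I hI h0
    exact ⟨I', Or.inr h1, h2, h3, Q, Or.inr h4, h5⟩

theorem KoszulFil.map {A : Type} [CommRing A] {L : Set A} {F : Set (Ideal A)}
    (hF : KoszulFil L F) (θ : A →+* A) (h1 : ∀ r, θ (θ r) = r) (h2 : ∀ r ∈ L, θ r ∈ L) :
    KoszulFil L (Ideal.map θ '' F) := by
  have hm : ∀ (I : Ideal A) r, r ∈ I.map θ ↔ θ r ∈ I := fun I r => by
    rw [Ideal.mem_map_iff_of_surjective θ fun r => ⟨θ r, h1 r⟩]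
    exact ⟨by rintro ⟨x, hx, rfl⟩; rwa [h1], fun h => ⟨_, h, h1 r⟩⟩
  refine ⟨?_, ⟨⊥, hF.2.1, Ideal.map_bot⟩, ⟨_, hF.2.2.1, ?_⟩, ?_⟩
  · rintro _ ⟨I, hI, rfl⟩
    refine le_antisymm ?_ (Ideal.span_le.2 fun y hy => hy.1)
    conv_lhs => rw [hF.1 I hI, Ideal.map_span]
    refine Ideal.span_mono ?_
    rintro _ ⟨y, hy, rfl⟩
    exact ⟨Ideal.mem_map_of_mem _ hy.1, h2 y hy.2⟩
  · rw [Ideal.map_span]
    congr 1
    exact Set.Subset.antisymm (by rintro _ ⟨y, hy, rfl⟩; exact h2 y hy)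
      fun y hy => ⟨θ y, h2 y hy, h1 y⟩
  · rintro _ ⟨I, hI, rfl⟩ h0
    obtain ⟨I', h3, h4, ⟨x, h5, h6⟩, Q, h7, h8⟩ := hF.2.2.2 I hI (by
      rintro rfl; exact h0 Ideal.map_bot)
    refine ⟨_, ⟨I', h3, rfl⟩, Ideal.map_mono h4, ⟨θ x, h2 x h5, ?_⟩, _, ⟨Q, h7, rfl⟩, fun r => ?_⟩
    · rw [h6, Ideal.map_sup, Ideal.map_span, Set.image_singleton]
    · rw [hm, h8]
      refine ⟨fun h y hy => ?_, fun h y hy => ?_⟩
      · rw [hm, map_mul]; exact h _ ((hm _ _).1 hy)
      · have := h _ (Ideal.mem_map_of_mem θ hy)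
        rwa [hm, map_mul, h1] at this

theorem mem_ext {A τ : Type} [CommRing A] (I : Ideal A) (T : Finset τ) (f : MvPolynomial τ A) :
    f ∈ I.map C ⊔ Ideal.span (X '' (T : Set τ)) ↔ ∀ m : τ →₀ ℕ, (∀ t ∈ T, m t = 0) → coeff m f ∈ I := by
  classical
  constructor
  · intro hf m hm
    obtain ⟨a, ha, b, hb, rfl⟩ := Submodule.mem_sup.1 hf
    have : coeff m b = 0 := notMem_support_iff.1 fun h => by
      obtain ⟨t, h1, h2⟩ := mem_ideal_span_X_image.1 hb m h
      exact h2 (hm t h1)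
    rw [coeff_add, this, add_zero]
    exact mem_map_C_iff.1 ha m
  · intro h
    rw [f.as_sum]
    refine Ideal.sum_mem _ fun m _ => ?_
    by_cases hm : ∀ t ∈ T, m t = 0
    · refine Ideal.mem_sup_left ?_
      have := Ideal.mul_mem_right (monomial m (1 : A)) _ (Ideal.mem_map_of_mem C (h m hm))
      rwa [C_mul_monomial, mul_one] at this
    · refine Ideal.mem_sup_right (mem_ideal_span_X_image.2 fun m' hm' => ?_)
      rw [Finset.mem_singleton.1 (support_monomial_subset hm')]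
      push Not at hm
      exact hm

theorem KoszulFil.ext {A τ : Type} [CommRing A] [Fintype τ] {L : Set A} {F : Set (Ideal A)}
    (hF : KoszulFil L F) {L' : Set (MvPolynomial τ A)} (h1 : ∀ t, X t ∈ L')
    (h2 : ∀ r ∈ L, C r ∈ L') (h3 : L' ⊆ ↑((Ideal.span L).map C ⊔ Ideal.span (Set.range X) :
      Ideal (MvPolynomial τ A))) :
    KoszulFil L' {P | ∃ I ∈ F, ∃ T : Finset τ, P = I.map C ⊔ Ideal.span (X '' (T : Set τ))} := by
  classical
  refine ⟨?_, ⟨⊥, hF.2.1, ∅, by simp⟩, ⟨_, hF.2.2.1, Finset.univ, ?_⟩, ?_⟩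
  · rintro _ ⟨I, hI, T, rfl⟩
    refine le_antisymm (sup_le ?_ (Ideal.span_mono ?_)) (Ideal.span_le.2 fun y hy => hy.1)
    · conv_lhs => rw [hF.1 I hI, Ideal.map_span]
      refine Ideal.span_mono ?_
      rintro _ ⟨y, hy, rfl⟩
      exact ⟨Ideal.mem_sup_left (Ideal.mem_map_of_mem _ hy.1), h2 y hy.2⟩
    · rintro _ ⟨t, ht, rfl⟩
      exact ⟨Ideal.mem_sup_right (Ideal.subset_span ⟨t, ht, rfl⟩), h1 t⟩
  · rw [Finset.coe_univ, Set.image_univ]
    refine le_antisymm (Ideal.span_le.2 h3) (sup_le ?_ (Ideal.span_mono ?_))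
    · rw [Ideal.map_span]
      refine Ideal.span_mono ?_
      rintro _ ⟨y, hy, rfl⟩
      exact h2 y hy
    · rintro _ ⟨t, rfl⟩; exact h1 t
  · rintro _ ⟨I, hI, T, rfl⟩ h0
    rcases T.eq_empty_or_nonempty with rfl | ⟨t, ht⟩
    · simp only [Finset.coe_empty, Set.image_empty, Ideal.span_empty, sup_bot_eq] at h0 ⊢
      obtain ⟨I', h4, h5, ⟨x, h6, h7⟩, Q, h8, h9⟩ := hF.2.2.2 I hI (by
        rintro rfl; exact h0 Ideal.map_bot)
      refine ⟨I'.map C, ⟨I', h4, ∅, by simp⟩, Ideal.map_mono h5, ⟨C x, h2 x h6, ?_⟩, Q.map C,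
        ⟨Q, h8, ∅, by simp⟩, fun r => ⟨fun h y hy => ?_, fun h => ?_⟩⟩
      · rw [h7, Ideal.map_sup, Ideal.map_span, Set.image_singleton]
      · have := Ideal.mul_mem_mul h hy
        rw [← Ideal.map_mul] at this
        exact Ideal.map_mono (Ideal.mul_le.2 fun a ha b hb => (h9 a).1 ha b hb) this
      · refine mem_map_C_iff.2 fun m => (h9 _).2 fun y hy => ?_
        have := mem_map_C_iff.1 (h _ (Ideal.mem_map_of_mem C hy)) m
        rwa [mul_comm, coeff_C_mul, mul_comm] at this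
    · have e : I.map C ⊔ Ideal.span (X '' (T : Set τ)) =
          (I.map C ⊔ Ideal.span (X '' (T.erase t : Set τ))) ⊔ Ideal.span {X t} := by
        conv_lhs => rw [← Finset.insert_erase ht, Finset.coe_insert, Set.image_insert_eq,
          Ideal.span_insert, sup_comm (Ideal.span {X t}), ← sup_assoc]
      refine ⟨_, ⟨I, hI, T.erase t, rfl⟩, e ▸ le_sup_left, ⟨X t, h1 t, e⟩, _,
        ⟨I, hI, T.erase t, rfl⟩, fun r => ⟨fun h y _ => Ideal.mul_mem_right _ _ h, fun h => ?_⟩⟩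
      have h4 := (mem_ext _ _ _).1 (h (X t) (Ideal.mem_sup_right (Ideal.subset_span ⟨t, ht, rfl⟩)))
      refine (mem_ext _ _ _).2 fun m hm => ?_
      have := h4 (m + Finsupp.single t 1) fun u hu => by
        rw [Finsupp.add_apply, hm u hu, Finsupp.single_eq_of_ne (Finset.ne_of_mem_erase hu), add_zero]
      rwa [coeff_mul_X] at this

theorem exists_fil {K : Type} [Field K] {n : ℕ} {σ A : Type} [Fintype σ] [CommRing A] [Algebra K A]
    (y : Fin n → A) {F : Set (Ideal A)} (hF : KoszulFil (Submodule.span K (Set.range y) : Set A) F) :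
    ∃ F', KoszulFil (Lf K σ y : Set _) F' ∧ IY y (Finset.univ : Finset σ) ∈ F' ∧
      ∀ k : σ, IX A n k ∈ F' := by
  classical
  have hC : ∀ r ∈ Submodule.span K (Set.range y), C r ∈ Lf K σ y := by
    intro r hr
    refine Submodule.span_induction (p := fun r _ => C r ∈ Lf K σ y) ?_ ?_ ?_ ?_ hr
    · rintro _ ⟨i, rfl⟩; exact Submodule.subset_span (Or.inr ⟨i, rfl⟩)
    · rw [map_zero]; exact zero_mem _
    · intro a b _ _ ha hb; rw [map_add]; exact add_mem ha hb
    · intro a b _ hb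
      rw [show C (a • b) = a • C b from
        map_smul (IsScalarTower.toAlgHom K A (MvPolynomial (σ × Fin n) A)) a b]
      exact Submodule.smul_mem _ _ hb
  have hX : ∀ t, X t ∈ Lf K σ y := fun t => Submodule.subset_span (Or.inl ⟨t, rfl⟩)
  have hG := hF.ext (L' := (Lf K σ y : Set (MvPolynomial (σ × Fin n) A))) hX hC fun z hz => by
    refine (show M σ y ≤ _ from Ideal.span_le.2 ?_) (Lf_le (K := K) y hz)
    rintro _ (⟨t, rfl⟩ | ⟨i, rfl⟩)
    · exact Ideal.mem_sup_right (Ideal.subset_span ⟨t, rfl⟩)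
    · exact Ideal.mem_sup_left (Ideal.mem_map_of_mem _
        (Ideal.subset_span (Submodule.subset_span ⟨i, rfl⟩)))
  have hI : ∀ k : σ, ∃ I ∈ F, ∃ T : Finset (σ × Fin n),
      IX A n k = I.map C ⊔ Ideal.span (X '' (T : Set (σ × Fin n))) := fun k =>
    ⟨⊥, hF.2.1, Finset.univ.image fun i => (k, i), by
      rw [Ideal.map_bot, bot_sup_eq, Finset.coe_image, Finset.coe_univ, Set.image_univ,
        ← Set.range_comp]; rfl⟩
  rcases isEmpty_or_nonempty σ with h | ⟨⟨k⟩⟩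
  · refine ⟨_, hG, ⟨_, hF.2.2.1, ∅, ?_⟩, hI⟩
    rw [Ideal.span, Submodule.span_span_of_tower, Finset.coe_empty, Set.image_empty,
      Ideal.span_empty, sup_bot_eq, ← Ideal.span, Ideal.map_span, ← Set.range_comp, IY]
    congr 2
    funext i
    simp [Yv]
  · have hk := Finset.notMem_erase k (Finset.univ : Finset σ)
    have e := Finset.insert_erase (Finset.mem_univ k)
    refine ⟨_, hG.union (hG.map (sw y Finset.univ k).toRingHom (fun r => ?_) fun r hr => ?_),
      Or.inr ⟨_, hI k, ?_⟩, fun l => Or.inl (hI l)⟩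
    · have := sw_sw y hk r
      rwa [e] at this
    · refine Submodule.span_induction (p := fun r _ => sw y Finset.univ k r ∈ Lf K σ y)
        ?_ ?_ ?_ ?_ hr
      · rintro _ (⟨⟨l, i⟩, rfl⟩ | ⟨i, rfl⟩)
        · by_cases h : l = k
          · rw [h, sw_X]
            exact sub_mem (Submodule.subset_span (Or.inr ⟨i, rfl⟩))
              (Submodule.sum_mem _ fun l _ => hX _)
          · rw [sw_X' y _ h]; exact hX _
        · rw [show sw y Finset.univ k (C (y i)) = C (y i) from AlgHom.commutes _ _]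
          exact Submodule.subset_span (Or.inr ⟨i, rfl⟩)
      · rw [map_zero]; exact zero_mem _
      · intro a b _ _ ha hb; rw [map_add]; exact add_mem ha hb
      · intro a b _ hb
        rw [show sw y Finset.univ k (a • b) = a • sw y Finset.univ k b from
          map_smul ((sw y Finset.univ k).restrictScalars K) a b]
        exact Submodule.smul_mem _ _ hb
    · rw [IX, IY, Ideal.map_span, ← Set.range_comp]
      congr 2
      funext i
      exact sw_X y _ k i

end Pool.Agent.MP_36bee5_al.Stb
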