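import Pool.Agent.MP_36bee5_al.TrReg

set_option autoImplicit false

/-!
The approximate-resolution argument for a product of ideals.
-/

namespace Pool.Agent.MP_36bee5_al.Tr

open Matrix

variable {K : Type} [Field K] {R : Type} [CommRing R] [Algebra K R] {A : ℤ → Submodule K R}
  {π : ℤ → R →+ R}

/-- Combinations of the elements of a list with coefficients of degree `M`. -/
def Sp (A : ℤ → Submodule K R) (M : ℕ) : List R → R → Prop
  | [], w => w = 0
  | z :: zs, w => ∃ c ∈ A M, Sp A M zs (w - c * z)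

theorem Sp.mul (h : Gr K A π) {M k : ℕ} {zs : List R} {w r : R} (hw : Sp A M zs w)
    (hr : r ∈ A k) : Sp A (M + k) zs (w * r) := by
  induction zs generalizing w with
  | nil => rw [show w = 0 from hw]; exact zero_mul r
  | cons z zs ih =>
    obtain ⟨c, hc, h1⟩ := hw
    exact ⟨c * r, by exact_mod_cast h.mul hc hr, by
      have := ih h1
      rwa [sub_mul, mul_right_comm] at this⟩

theorem Gr.md (h : Gr K A π) {xs : List R} (hx : ∀ x ∈ xs, x ∈ A 1) {ρ : ℤ} {zs : List R}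
    (hz : ∀ z ∈ zs, z ∈ A 1) {C : DG R} {Y F : Fam C} (hY : Ok (Ah A) Y) (hF : Ok (Ah A) F)
    (hle : Y ≤ F)
    (hp : ∀ x ∈ xs, ∃ (M : ℕ) (u : R), u ∈ A (M + 1 : ℕ) ∧ Kills Y u (M + 1) ∧
      Sp A M zs (x ^ (M + 1) - u))
    (hr : ∀ L, Pows xs L → ∀ i e, i + 1 + ρ < e → V L C F (fun _ _ => ⊥) i e)
    (hl : ∀ i e, e ≤ i + 1 + ρ → Hz C Y (fun _ _ => ⊥) i e) {i0 : ℤ}
    (hq : ∀ j e, i0 + 1 - zs.length ≤ j → V (zs.map fun z => (z, 1)) C F Y j e) :
    ∀ i e, i0 ≤ i → Hz C Y (fun _ _ => ⊥) i e := by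
  induction zs generalizing C i0 with
  | nil =>
    intro i e hi
    by_cases he : e ≤ i + 1 + ρ
    · exact hl i e he
    intro c hc hd
    obtain ⟨b, hb, h1⟩ := up (A := Ah A) (fun x hx' n => h.pow (hx x hx') n) hY hle (fun x hx' => by
      obtain ⟨M, u, -, h1, h2⟩ := hp x hx'
      exact ⟨M, (sub_eq_zero.1 h2).symm ▸ h1⟩) (fun L hL => hr L hL i e (by omega)) hc hd
    obtain ⟨b', hb', h2⟩ := hq (i + 1) e (by simpa using hi) b hb (h1 ▸ hc)
    exact ⟨b - C.d b', by simpa using neg_mem h2, by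
      rw [map_sub, C.dd, sub_zero, h1, sub_self]; exact zero_mem _⟩
  | cons z zs ih =>
    have hz1 : Ah A 1 z := hz z List.mem_cons_self
    have key := ih (fun y hy => hz y (List.mem_cons_of_mem _ hy)) (C := C.cone z) (hY.cone hz1)
      (hF.cone hz1) (coneF_mono hle _ _) (fun x hx' => by
        obtain ⟨M, u, h1, h2, c, hc, h3⟩ := hp x hx'
        have h4 : x ^ (M + 1) + u ∈ A (M + 1 : ℕ) := add_mem (h.pow (hx x hx') _) h1
        have h5 : Ah A (M + (M + 1)) (c * (x ^ (M + 1) + u)) := by exact_mod_cast h.mul hc h4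
        refine ⟨M + (M + 1), u * u + c * (x ^ (M + 1) + u) * z, add_mem ?_ ?_, Kills.add ?_ ?_, ?_⟩
        · have := h.mul h1 h1
          rwa [← Nat.cast_add, add_right_comm] at this
        · exact_mod_cast h.mul h5 hz1
        · have := h2.cone hY hz1 h1
          rwa [add_right_comm] at this
        · exact (Kills.self Y z 1).mul (hY.cone hz1) h5
        · have := h3.mul h h4
          rwa [show (x ^ (M + 1) - u - c * z) * (x ^ (M + 1) + u) =
            x ^ (M + (M + 1) + 1) - (u * u + c * (x ^ (M + 1) + u) * z) by ring] at this)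
      (fun L hL i e he => by
        have := V.cone (hL.hom h hx) hF Ok.bot (fun _ _ => bot_le) hz1 (hr L hL i e he)
          (hr L hL _ _ (by push_cast; omega))
        rwa [V, coneF_bot] at this)
      (fun i e he => by
        have := (hl i e he).cone hY Ok.bot hz1 (hl _ _ (by push_cast; omega))
        rwa [coneF_bot] at this) (i0 := i0 - 1)
      fun j e hj => hq j e (by rw [List.length_cons]; push_cast; omega)
    intro i e hi
    by_cases he : e ≤ i + 1 + ρ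
    · exact hl i e he
    refine Int.leInduction (motive := fun e _ => Hz C Y (fun _ _ => ⊥) i e) (hl i _ le_rfl)
      (fun e _ ih c hc hd => ?_) e (not_le.1 he).le
    obtain ⟨⟨a, b⟩, ⟨ha, hb⟩, h1⟩ := key (i - 1) e (by omega) (0, c)
      ⟨zero_mem _, by rw [sub_add_cancel]; exact hc⟩ (AddSubgroup.mem_bot.2 (Prod.ext (map_zero _)
        (by
          show z • (0 : C.E) - C.d c = 0
          rw [AddSubgroup.mem_bot.1 hd, smul_zero, sub_zero])))
    rw [sub_add_cancel] at ha hb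
    have h2 := sub_eq_zero.1 (AddSubgroup.mem_bot.1 h1)
    obtain ⟨a', ha', h3⟩ := ih a ha (AddSubgroup.mem_bot.2 (congrArg Prod.fst h2))
    refine ⟨z • a' - b, sub_mem (hY.mul 1 z hz1 _ _ _ ha') hb, AddSubgroup.mem_bot.2 ?_⟩
    rw [map_sub, map_smul, sub_eq_zero.1 (AddSubgroup.mem_bot.1 h3)]
    exact sub_eq_zero.2 (congrArg Prod.snd h2)

/-- Regular sequences modulo an ideal. -/
def Rs : Ideal R → List R → Prop
  | _, [] => True
  | P, y :: ys => (∀ c, y * c ∈ P → c ∈ P) ∧ Rs (P ⊔ Ideal.span {y}) ys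

theorem Gr.rs (h : Gr K A π) {ys : List R} (hy : ∀ y ∈ ys, y ∈ A 1) {z : R} (hz : z ∈ A 1)
    {P : Ideal R} (hP : ∀ e, ∀ r ∈ P, π e r ∈ P) (hr : Rs P ys) {j e : ℤ} (hj : 0 ≤ j + ys.length) :
    V ((ys ++ [z]).map fun z => (z, 1)) (DG.triv R R) (conc (cut A ⊤)) (conc (cut A P)) j e := by
  induction ys generalizing P j e with
  | nil =>
    refine V.supp_ge (k := 1) (fun j hj e c hc => ?_) (by simpa using hj)
    rw [(mem_conc.1 hc).2 (by omega)]; exact zero_mem _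
  | cons y ys ih =>
    have h1 := hy y List.mem_cons_self
    have h2 : ∀ y ∈ ys, y ∈ A 1 := fun y hy' => hy y (List.mem_cons_of_mem _ hy')
    refine h.step hP (N := 1) h1 hr.1 ?_ (ih h2 (h.sup hP h1) hr.2 (by
      rw [List.length_cons] at hj; push_cast at hj; omega))
    intro p hp
    obtain ⟨w, hw, rfl⟩ := List.mem_map.1 hp
    rcases List.mem_append.1 hw with hw | hw
    · exact h2 w hw
    · rw [List.mem_singleton.1 hw]; exact hz

theorem Gr.sp (h : Gr K A π) {zs : List R} (hz : ∀ z ∈ zs, z ∈ A 1) {Q : Ideal R}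
    (hQ : ∀ e, ∀ r ∈ Q, π e r ∈ Q) {M : ℕ} {r : R} (hr : r ∈ A (M + 1 : ℕ))
    (h1 : r ∈ Q ⊔ Ideal.span {z | z ∈ zs}) : ∃ u ∈ A (M + 1 : ℕ), u ∈ Q ∧ Sp A M zs (r - u) := by
  induction zs generalizing r with
  | nil => exact ⟨r, hr, by simpa using h1, sub_self r⟩
  | cons z zs ih =>
    have h2 := hz z List.mem_cons_self
    have h3 : ∀ y ∈ zs, y ∈ A 1 := fun y hy => hz y (List.mem_cons_of_mem _ hy)
    rw [show {y | y ∈ z :: zs} = insert z {y | y ∈ zs} by ext; simp, Ideal.span_insert,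
      sup_left_comm] at h1
    obtain ⟨p, hp, q, hq, h4⟩ := Submodule.mem_sup.1 h1
    obtain ⟨a, rfl⟩ := Ideal.mem_span_singleton'.1 hp
    have h5 : r - π M a * z = π (M + 1) q := by
      conv_lhs => rw [← h.self hr, ← h4, map_add]
      push_cast
      rw [h.hom M a h2, add_sub_cancel_left]
    obtain ⟨u, h6, h7, h8⟩ := ih h3 (r := r - π M a * z) (by rw [h5]; exact_mod_cast h.mem _ _) (by
      rw [h5]
      obtain ⟨s, hs, t, ht, rfl⟩ := Submodule.mem_sup.1 hq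
      rw [map_add]
      exact Submodule.add_mem_sup (hQ _ s hs) (h.closed (fun y hy => ⟨1, h3 y hy⟩) _ ht))
    exact ⟨u, h6, h7, π M a, h.mem _ _, by rwa [sub_right_comm]⟩

theorem Gr.kills (h : Gr K A π) {C : DG R} {Y : Fam C} (hY : Ok (Ah A) Y) {T : Set R}
    (hT : ∀ t ∈ T, t ∈ A 1 ∧ Kills Y t 1) {M : ℕ} {u : R} (hu : u ∈ A (M + 1 : ℕ))
    (h1 : u ∈ Ideal.span T) : Kills Y u (M + 1) := by
  have : ∀ c : R, Kills Y (π (M + 1) (c * u)) (M + 1) := by
    clear hu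
    induction h1 using Submodule.span_induction with
    | mem t ht =>
      intro c
      rw [h.hom M c (hT t ht).1]
      exact (hT t ht).2.mul hY (h.mem M c)
    | zero => intro c; rw [mul_zero, map_zero]; exact Kills.zero _ _
    | add y z _ _ hy hz => intro c; rw [mul_add, map_add]; exact (hy c).add (hz c)
    | smul a y _ hy => intro c; rw [smul_eq_mul, ← mul_assoc]; exact hy _
  have h2 := this 1
  rwa [one_mul, h.self (by exact_mod_cast hu)] at h2

/-- The ideal has a `d`-linear resolution. -/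
def LR (A : ℤ → Submodule K R) (P : Ideal R) (d : ℤ) : Prop :=
  ∃ X : Cx R, Lin A X d ∧ X.Exact ∧ Ideal.span (Set.range X.g) = P

theorem Gr.core (h : Gr K A π) {xs : List R} (hx : ∀ x ∈ xs, x ∈ A 1) (hr : Reg (A := A) xs 1)
    {d : ℤ} (hd : 0 ≤ d) {P : Ideal R} (hP : P ≤ Ideal.span {r | r ∈ P ∧ r ∈ A (d + 1)})
    {T : Set R} (hT : ∀ t ∈ T, t ∈ A 1 ∧ ∃ G, LR A G d ∧ P ≤ G ∧ ∀ r ∈ G, t * r ∈ P)
    {ys : List R} (hy : ∀ y ∈ ys, y ∈ A 1) (hys : Rs P ys) {z : R} (hz : z ∈ A 1)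
    (hn : ∀ x ∈ xs, ∃ N : ℕ, x ^ N ∈ Ideal.span T ⊔ Ideal.span {y | y ∈ ys ++ [z]}) :
    LR A P (d + 1) := by
  obtain ⟨n, g, hg1, hg2, hg3⟩ := exists_basis' (P.restrictScalars K ⊓ A (d + 1))
    ((h.fg _).of_le inf_le_right)
  obtain ⟨X, h1, hX, h2⟩ := h.maximal (fun j => (hg1 j).2) hg2
  have h3 : Ideal.span (Set.range X.g) = P := by
    rw [h1]
    refine le_antisymm (Ideal.span_le.2 ?_) (hP.trans (Ideal.span_le.2 fun r hr => ?_))
    · rintro _ ⟨j, rfl⟩; exact (hg1 j).1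
    · obtain ⟨l, rfl⟩ := hg3 r hr
      exact sum_mem fun j _ => Submodule.smul_of_tower_mem _ _ (Ideal.subset_span ⟨j, rfl⟩)
  have hg : ∀ j, X.g j ∈ P := fun j => h3 ▸ Ideal.subset_span ⟨j, rfl⟩
  have hzs : ∀ y ∈ ys ++ [z], y ∈ A 1 := fun y hy' => by
    rcases List.mem_append.1 hy' with hw | hw
    · exact hy y hw
    · rw [List.mem_singleton.1 hw]; exact hz
  have hL : ∀ p ∈ (ys ++ [z]).map fun z => (z, 1), Ah A p.2 p.1 := fun p hp => by
    obtain ⟨w, hw, rfl⟩ := List.mem_map.1 hp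
    exact hzs w hw
  refine ⟨X, hX, h.exact hX (hX.lf (h.md hx (ρ := d + 1) hzs (h.okY hX)
    (h.okF hX (Q := ⊤) fun _ => trivial) (hX.Y_le _) (fun x hx' => ?_)
    (fun L hL i e he => h.tot hX (by omega) hx hr hL (by omega))
    (fun i e he => hX.hz (h2 _ (by omega))) fun j e hj => ?_)), h3⟩
  · obtain ⟨N, hN⟩ := hn x hx'
    obtain ⟨u, h4, h5, h6⟩ := h.sp hzs (h.closed fun t ht => ⟨1, (hT t ht).1⟩)
      (h.pow (hx x hx') (N + 1)) (by rw [pow_succ]; exact Ideal.mul_mem_right _ _ hN)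
    refine ⟨N, u, h4, h.kills (h.okY hX) (fun t ht => ?_) h4 h5, h6⟩
    obtain ⟨h7, _, ⟨G, hG, hGe, rfl⟩, h8, h9⟩ := hT t ht
    refine ⟨h7, fun i e c hc hd => hX.kill (fun k _ v hv hv' => ?_) hc hd⟩
    obtain ⟨w, h10, h11⟩ := h.kill hX (h2 0 le_rfl) hG hGe h7
      (fun j => h3 ▸ h9 _ (Ideal.subset_span ⟨j, rfl⟩)) (fun j => h8 (hg j)) k _ v hv hv'
    exact ⟨w, by rwa [show e + (1 : ℕ) - (d + 1) - (k + 1 : ℕ) = e - (d + 1) - k by
      push_cast; ring], h11⟩
  · refine V.s1 (hX.Y_le P) (hX.F_mono le_top)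
      (V.acyc (h.okF hX hg) (h.okY hX) hL (h3 ▸ h.acyc hX) _ _) ?_
    exact ((hX.iso (RingHom.id R) (A' := A) (by simp) (P := P) (fun _ => Iff.rfl) hg h).iff' hL
      (h.okF hX fun _ => trivial) (ok_conc (h.cut_mul P)) (add_zero j).symm (add_zero e).symm).2
      (h.rs hy hz (h3 ▸ h.closed (by rintro _ ⟨j, rfl⟩; exact ⟨_, hX.g j⟩)) hys (by
        rw [List.length_append, List.length_singleton] at hj; push_cast at hj; omega))

end Pool.Agent.MP_36bee5_al.Tr
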