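import Mathlib

set_option autoImplicit false

/-!
Differential modules with bigraded families of subgroups, and iterated cones.
-/

namespace Pool.Agent.MP_36bee5_al.Tr

/-- A module with a differential. -/
structure DG (S : Type) [CommRing S] where
  E : Type
  [ab : AddCommGroup E]
  [md : Module S E]
  d : E →ₗ[S] E
  dd : ∀ x, d (d x) = 0

instance {S : Type} [CommRing S] (C : DG S) : AddCommGroup C.E := C.ab

instance {S : Type} [CommRing S] (C : DG S) : Module S C.E := C.md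

variable {S : Type} [CommRing S]

/-- Families indexed by homological position and internal degree. -/
abbrev Fam (C : DG S) : Type := ℤ → ℤ → AddSubgroup C.E

/-- The cone of the multiplication by `f`. -/
abbrev DG.cone (C : DG S) (f : S) : DG S where
  E := C.E × C.E
  d :=
    { toFun := fun p => (C.d p.1, f • p.1 - C.d p.2)
      map_add' := fun p q => by
        ext
        · simp
        · simp only [Prod.fst_add, Prod.snd_add, smul_add, map_add]; abel
      map_smul' := fun r p => by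
        ext
        · simp
        · simp only [Prod.smul_fst, Prod.smul_snd, map_smul, RingHom.id_apply, smul_sub,
            smul_comm f r] }
  dd p := by
    ext
    · exact C.dd _
    · show f • C.d p.1 - C.d (f • p.1 - C.d p.2) = 0
      rw [map_sub, map_smul, C.dd, sub_zero, sub_self]

/-- The product of two subgroups. -/
def pr {E E' : Type} [AddCommGroup E] [AddCommGroup E'] (H : AddSubgroup E) (H' : AddSubgroup E') :
    AddSubgroup (E × E') where
  carrier := {c | c.1 ∈ H ∧ c.2 ∈ H'}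
  add_mem' h h' := ⟨add_mem h.1 h'.1, add_mem h.2 h'.2⟩
  zero_mem' := ⟨zero_mem _, zero_mem _⟩
  neg_mem' h := ⟨neg_mem h.1, neg_mem h.2⟩

/-- The product of a family of subgroups. -/
def pw {ι E : Type} [AddCommGroup E] (H : ι → AddSubgroup E) : AddSubgroup (ι → E) where
  carrier := {c | ∀ j, c j ∈ H j}
  add_mem' h h' j := add_mem (h j) (h' j)
  zero_mem' _ := zero_mem _
  neg_mem' h j := neg_mem (h j)

/-- The family on the cone. -/
def coneF {C : DG S} (f : S) (N : ℕ) (F : Fam C) : Fam (C.cone f) :=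
  fun i e => pr (F i e) (F (i + 1) (e + N))

/-- Exactness of `F / Z` at position `i + 1` in degree `e`. -/
def Hz (C : DG S) (F Z : Fam C) (i e : ℤ) : Prop :=
  ∀ c ∈ F (i + 1) e, C.d c ∈ Z i e → ∃ b ∈ F (i + 1 + 1) e, C.d b - c ∈ Z (i + 1) e

/-- Exactness after the cones on the elements of a list. -/
def V : List (S × ℕ) → (C : DG S) → Fam C → Fam C → ℤ → ℤ → Prop
  | [], C, F, Z, i, e => Hz C F Z i e
  | p :: L, C, F, Z, i, e => V L (C.cone p.1) (coneF p.1 p.2 F) (coneF p.1 p.2 Z) i e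

/-- The family is a graded subcomplex. -/
structure Ok (A : ℕ → S → Prop) {C : DG S} (F : Fam C) : Prop where
  dc : ∀ i e c, c ∈ F (i + 1) e → C.d c ∈ F i e
  mul : ∀ k r, A k r → ∀ i e c, c ∈ F i e → r • c ∈ F i (e + k)

variable {A : ℕ → S → Prop}

theorem Ok.cone {C : DG S} {F : Fam C} (h : Ok A F) {f : S} {N : ℕ} (hf : A N f) :
    Ok A (coneF f N F) where
  dc i e c hc := ⟨h.dc _ _ _ hc.1, sub_mem (h.mul N f hf _ _ _ hc.1) (h.dc _ _ _ hc.2)⟩
  mul k r hr i e c hc := ⟨h.mul k r hr _ _ _ hc.1, by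
    have := h.mul k r hr _ _ _ hc.2
    rwa [add_right_comm] at this⟩

theorem Ok.bot {C : DG S} : Ok A (fun _ _ => ⊥ : Fam C) where
  dc i e c hc := by rw [AddSubgroup.mem_bot.1 hc, map_zero]; exact zero_mem _
  mul k r hr i e c hc := by rw [AddSubgroup.mem_bot.1 hc, smul_zero]; exact zero_mem _

theorem coneF_bot {C : DG S} (f : S) (N : ℕ) :
    coneF f N (fun _ _ => ⊥ : Fam C) = fun _ _ => ⊥ := by
  funext i e
  exact eq_bot_iff.2 fun c hc => AddSubgroup.mem_bot.2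
    (Prod.ext (AddSubgroup.mem_bot.1 hc.1) (AddSubgroup.mem_bot.1 hc.2))

theorem coneF_mono {C : DG S} {F F' : Fam C} (h : F ≤ F') (f : S) (N : ℕ) :
    coneF f N F ≤ coneF f N F' := fun _ _ _ hc => ⟨h _ _ hc.1, h _ _ hc.2⟩

theorem V.s1 {L : List (S × ℕ)} {C : DG S} {F Y Z : Fam C} (h1 : Z ≤ Y) (h2 : Y ≤ F) {i e : ℤ}
    (hY : V L C Y Z i e) (hF : V L C F Y i e) : V L C F Z i e := by
  induction L generalizing C with
  | cons p L ih => exact ih (coneF_mono h1 _ _) (coneF_mono h2 _ _) hY hF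
  | nil =>
    intro c hc hd
    obtain ⟨b, hb, h3⟩ := hF c hc (h1 _ _ hd)
    obtain ⟨b', hb', h4⟩ := hY _ h3 (by rw [map_sub, C.dd, zero_sub]; exact neg_mem hd)
    refine ⟨b - b', sub_mem hb (h2 _ _ hb'), ?_⟩
    have := neg_mem h4
    rwa [neg_sub, sub_right_comm, ← map_sub] at this

theorem V.s2 {L : List (S × ℕ)} {C : DG S} {F Y Z : Fam C} (h1 : Z ≤ Y) (h2 : Y ≤ F) {i e : ℤ}
    (hZ : Ok A Z) (hL : ∀ p ∈ L, A p.2 p.1)
    (hF : V L C F Z (i + 1) e) (hY : V L C Y Z i e) : V L C F Y (i + 1) e := by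
  induction L generalizing C with
  | cons p L ih =>
    exact ih (coneF_mono h1 _ _) (coneF_mono h2 _ _) (hZ.cone (hL p List.mem_cons_self))
      (fun q hq => hL q (List.mem_cons_of_mem _ hq)) hF hY
  | nil =>
    intro c hc hd
    obtain ⟨y, hy, h3⟩ := hY _ hd (by rw [C.dd]; exact zero_mem _)
    obtain ⟨b, hb, h4⟩ := hF (c - y) (sub_mem hc (h2 _ _ hy)) (by
      have := neg_mem h3
      rwa [neg_sub, ← map_sub] at this)
    refine ⟨b, hb, ?_⟩
    have := sub_mem (h1 _ _ h4) hy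
    rwa [sub_sub, sub_add_cancel] at this

theorem V.supp_le {L : List (S × ℕ)} {C : DG S} {F Z : Fam C} {k : ℤ}
    (h : ∀ j ≤ k, ∀ e, F j e ≤ Z j e) {i e : ℤ} (hi : i + 1 + L.length ≤ k) : V L C F Z i e := by
  induction L generalizing C k with
  | cons p L ih =>
    refine ih (k := k - 1) (fun j hj e c hc => ⟨h j (by omega) _ hc.1, h _ (by omega) _ hc.2⟩) ?_
    rw [List.length_cons] at hi
    push_cast at hi
    omega
  | nil =>
    intro c hc _
    exact ⟨0, zero_mem _, by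
      rw [map_zero, zero_sub]; exact neg_mem (h _ (by simpa using hi) _ hc)⟩

theorem V.supp_ge {L : List (S × ℕ)} {C : DG S} {F Z : Fam C} {k : ℤ}
    (h : ∀ j, k ≤ j → ∀ e, F j e ≤ Z j e) {i e : ℤ} (hi : k ≤ i + 1) : V L C F Z i e := by
  induction L generalizing C with
  | cons p L ih => exact ih fun j hj e c hc => ⟨h j hj _ hc.1, h _ (by omega) _ hc.2⟩
  | nil =>
    intro c hc _
    exact ⟨0, zero_mem _, by rw [map_zero, zero_sub]; exact neg_mem (h _ hi _ hc)⟩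

theorem Hz.cone {C : DG S} {F Z : Fam C} (hF : Ok A F) (hZ : Ok A Z) {f : S} {N : ℕ} (hf : A N f)
    {i e : ℤ} (h1 : Hz C F Z i e) (h2 : Hz C F Z (i + 1) (e + N)) :
    Hz (C.cone f) (coneF f N F) (coneF f N Z) i e := by
  rintro ⟨a, b⟩ ⟨ha, hb⟩ ⟨h3, h4⟩
  obtain ⟨a', ha', h5⟩ := h1 a ha h3
  have h6 : C.d (b - f • a') ∈ Z (i + 1) (e + N) := by
    have := neg_mem (add_mem h4 (hZ.mul N f hf _ _ _ h5))
    have e : C.d (b - f • a') = -(f • a - C.d b + f • (C.d a' - a)) := by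
      rw [map_sub, map_smul, smul_sub]; abel
    rwa [e]
  obtain ⟨b', hb', h7⟩ := h2 _ (sub_mem hb (hF.mul N f hf _ _ _ ha')) h6
  refine ⟨(a', -b'), ⟨ha', neg_mem hb'⟩, h5, ?_⟩
  have e : f • a' - C.d (-b') - b = C.d b' - (b - f • a') := by rw [map_neg]; abel
  show f • a' - C.d (-b') - b ∈ _
  rwa [e]

theorem V.acyc {L : List (S × ℕ)} {C : DG S} {F Z : Fam C} (hF : Ok A F) (hZ : Ok A Z)
    (hL : ∀ p ∈ L, A p.2 p.1) (h : ∀ i e, Hz C F Z i e) (i e : ℤ) : V L C F Z i e := by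
  induction L generalizing C with
  | cons p L ih =>
    have hp := hL p List.mem_cons_self
    exact ih (hF.cone hp) (hZ.cone hp) (fun q hq => hL q (List.mem_cons_of_mem _ hq))
      fun i e => (h i e).cone hF hZ hp (h _ _)
  | nil => exact h i e

/-- An isomorphism of subquotient complexes, up to sign and shifts. -/
structure Iso {S' : Type} [CommRing S'] (φ : S →+* S') {C : DG S} {C' : DG S'} (F Z : Fam C)
    (F' Z' : Fam C') (π : C.E →+ C'.E) (ε s t : ℤ) : Prop where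
  sq : ε * ε = 1
  lin : ∀ r c, π (r • c) = φ r • π c
  map : ∀ i e i' e', i' = i + s → e' = e + t → ∀ c ∈ F i e, π c ∈ F' i' e'
  sur : ∀ i e i' e', i' = i + s → e' = e + t → ∀ c' ∈ F' i' e', ∃ c ∈ F i e, π c - c' ∈ Z' i' e'
  ref : ∀ i e i' e', i' = i + s → e' = e + t → ∀ c ∈ F i e, (π c ∈ Z' i' e' ↔ c ∈ Z i e)
  chain : ∀ i e i' e', i' = i + s → e' = e + t → ∀ c ∈ F (i + 1) e,
    C'.d (π c) - ε • π (C.d c) ∈ Z' i' e'

theorem zsmul_mem_iff {G : Type} [AddCommGroup G] {H : AddSubgroup G} {ε : ℤ} (h : ε * ε = 1)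
    {x : G} : ε • x ∈ H ↔ x ∈ H :=
  ⟨fun hx => by
    have := H.zsmul_mem hx ε
    rwa [smul_smul, h, one_smul] at this, fun hx => H.zsmul_mem hx ε⟩

theorem Iso.cone {S' : Type} [CommRing S'] {φ : S →+* S'} {C : DG S} {C' : DG S'} {F Z : Fam C}
    {F' Z' : Fam C'} {π : C.E →+ C'.E} {ε s t : ℤ} (h : Iso φ F Z F' Z' π ε s t) (f : S) (N : ℕ) :
    Iso φ (coneF f N F) (coneF f N Z) (coneF (φ f) N F') (coneF (φ f) N Z')
      (π.prodMap (ε • π)) ε s t where
  sq := h.sq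
  lin r c := Prod.ext (h.lin r c.1) (by
    show ε • π (r • c.2) = φ r • ε • π c.2
    rw [h.lin, smul_comm])
  map i e i' e' hi he c hc := ⟨h.map _ _ _ _ hi he _ hc.1,
    AddSubgroup.zsmul_mem _ (h.map _ _ _ _ (by omega) (by omega) _ hc.2) ε⟩
  sur i e i' e' hi he c' hc' := by
    obtain ⟨a, ha, h1⟩ := h.sur _ _ _ _ hi he _ hc'.1
    obtain ⟨b, hb, h2⟩ := h.sur (i + 1) (e + N) _ _ (by omega) (by omega) _ hc'.2
    refine ⟨(a, ε • b), ⟨ha, AddSubgroup.zsmul_mem _ hb ε⟩, h1, ?_⟩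
    show ε • π (ε • b) - c'.2 ∈ _
    rwa [map_zsmul, smul_smul, h.sq, one_smul]
  ref i e i' e' hi he c hc := and_congr (h.ref _ _ _ _ hi he _ hc.1)
    ((zsmul_mem_iff h.sq).trans (h.ref _ _ _ _ (by omega) (by omega) _ hc.2))
  chain i e i' e' hi he c hc := by
    refine ⟨h.chain _ _ _ _ hi he _ hc.1, ?_⟩
    have h1 := AddSubgroup.zsmul_mem _
      (neg_mem (h.chain (i + 1) (e + N) (i' + 1) (e' + N) (by omega) (by omega) _ hc.2)) ε
    show (φ f • π c.1 - C'.d (ε • π c.2)) - ε • ε • π (f • c.1 - C.d c.2) ∈ _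
    rw [smul_neg, smul_sub, smul_smul, h.sq, one_smul] at h1
    rw [smul_smul, h.sq, one_smul, map_sub, h.lin, map_zsmul]
    have e : φ f • π c.1 - ε • C'.d (π c.2) - (φ f • π c.1 - π (C.d c.2)) =
        -(ε • C'.d (π c.2) - π (C.d c.2)) := by abel
    rwa [e]

theorem Iso.iff {S' : Type} [CommRing S'] {φ : S →+* S'} {A' : ℕ → S' → Prop}
    (hA : ∀ k r, A k r → A' k (φ r)) {L : List (S × ℕ)} (hL : ∀ p ∈ L, A p.2 p.1) {C : DG S}
    {C' : DG S'} {F Z : Fam C} {F' Z' : Fam C'} {π : C.E →+ C'.E} {ε s t : ℤ}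
    (h : Iso φ F Z F' Z' π ε s t) (hF : Ok A F) (hZ' : Ok A' Z') {i e i' e' : ℤ} (hi : i' = i + s)
    (he : e' = e + t) :
    V L C F Z i e ↔ V (L.map fun p => (φ p.1, p.2)) C' F' Z' i' e' := by
  induction L generalizing C C' with
  | cons p L ih =>
    have hp := hL p List.mem_cons_self
    exact ih (fun q hq => hL q (List.mem_cons_of_mem _ hq)) (h.cone p.1 p.2) (hF.cone hp)
      (hZ'.cone (hA _ _ hp))
  | nil =>
    constructor
    · intro hz c' hc' hd
      obtain ⟨c, hc, h1⟩ := h.sur (i + 1) e _ _ (by omega) he _ hc'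
      have h2 : C.d c ∈ Z i e := by
        rw [← h.ref _ _ _ _ hi he _ (hF.dc _ _ _ hc), ← zsmul_mem_iff h.sq]
        have := sub_mem (add_mem (hZ'.dc _ _ _ h1) hd) (h.chain _ _ _ _ hi he _ hc)
        rwa [map_sub, sub_add_cancel, sub_sub_cancel] at this
      obtain ⟨b, hb, h3⟩ := hz c hc h2
      refine ⟨ε • π b, AddSubgroup.zsmul_mem _ (h.map _ _ _ _ (by omega) he _ hb) ε, ?_⟩
      have h4 := AddSubgroup.zsmul_mem _ (h.chain (i + 1) e (i' + 1) e' (by omega) he _ hb) ε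
      have h5 := (h.ref (i + 1) e (i' + 1) e' (by omega) he _
        (sub_mem (hF.dc _ _ _ hb) hc)).2 h3
      have := add_mem (add_mem h4 h5) h1
      rw [smul_sub, smul_smul, h.sq, one_smul, map_sub, sub_add_sub_cancel,
        sub_add_sub_cancel] at this
      rwa [map_zsmul]
    · intro hz c hc hd
      have h1 : C'.d (π c) ∈ Z' i' e' := by
        have := add_mem (h.chain _ _ _ _ hi he _ hc) (AddSubgroup.zsmul_mem _
          ((h.ref _ _ _ _ hi he _ (hF.dc _ _ _ hc)).2 hd) ε)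
        rwa [sub_add_cancel] at this
      obtain ⟨b', hb', h2⟩ := hz _ (h.map (i + 1) e _ _ (by omega) he _ hc) h1
      obtain ⟨b, hb, h3⟩ := h.sur (i + 1 + 1) e _ _ (by omega) he _ hb'
      refine ⟨ε • b, AddSubgroup.zsmul_mem _ hb ε, ?_⟩
      rw [← h.ref (i + 1) e (i' + 1) e' (by omega) he _ (sub_mem
        (hF.dc _ _ _ (AddSubgroup.zsmul_mem _ hb ε)) hc)]
      have := sub_mem (add_mem (hZ'.dc _ _ _ h3) h2) (h.chain (i + 1) e _ _ (by omega) he _ hb)
      rw [map_sub, sub_add_sub_cancel, sub_sub_sub_cancel_left] at this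
      rwa [map_sub, map_zsmul, map_zsmul]

theorem Iso.iff' {L : List (S × ℕ)} (hL : ∀ p ∈ L, A p.2 p.1) {C C' : DG S} {F Z : Fam C}
    {F' Z' : Fam C'} {π : C.E →+ C'.E} {ε s t : ℤ} (h : Iso (RingHom.id S) F Z F' Z' π ε s t)
    (hF : Ok A F) (hZ' : Ok A Z') {i e i' e' : ℤ} (hi : i' = i + s) (he : e' = e + t) :
    V L C F Z i e ↔ V L C' F' Z' i' e' := by
  have := h.iff (A' := A) (fun _ _ h => h) hL hF hZ' hi he
  simpa using this

theorem V.cone {L : List (S × ℕ)} (hL : ∀ p ∈ L, A p.2 p.1) {C : DG S} {F Z : Fam C}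
    (hF : Ok A F) (hZ : Ok A Z) (hle : Z ≤ F) {f : S} {N : ℕ} (hf : A N f) {i e : ℤ}
    (h1 : V L C F Z i e) (h2 : V L C F Z (i + 1) (e + N)) : V ((f, N) :: L) C F Z i e := by
  let Y : Fam (C.cone f) := fun i e => pr (Z i e) (F (i + 1) (e + N))
  have hY : Ok A Y :=
    ⟨fun i e c hc => ⟨hZ.dc _ _ _ hc.1,
      sub_mem (hF.mul N f hf _ _ _ (hle _ _ hc.1)) (hF.dc _ _ _ hc.2)⟩,
    fun k r hr i e c hc => ⟨hZ.mul k r hr _ _ _ hc.1, by
      have := hF.mul k r hr _ _ _ hc.2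
      rwa [add_right_comm] at this⟩⟩
  have i1 : Iso (RingHom.id S) Y (coneF f N Z) F Z (AddMonoidHom.snd _ _) (-1) 1 N :=
    ⟨by norm_num, fun _ _ => rfl, by rintro i e _ _ rfl rfl c hc; exact hc.2, by
      rintro i e _ _ rfl rfl c hc
      exact ⟨(0, c), ⟨zero_mem _, hc⟩, by
        show c - c ∈ _
        rw [sub_self]; exact zero_mem _⟩, by
      rintro i e _ _ rfl rfl c hc
      exact ⟨fun h => ⟨hc.1, h⟩, fun h => h.2⟩, by
      rintro i e _ _ rfl rfl c hc
      show C.d c.2 - (-1 : ℤ) • (f • c.1 - C.d c.2) ∈ _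
      rw [neg_one_zsmul, sub_neg_eq_add, add_sub_cancel]
      exact hZ.mul N f hf _ _ _ hc.1⟩
  have i2 : Iso (RingHom.id S) (coneF f N F) Y F Z (AddMonoidHom.fst _ _) 1 0 0 :=
    ⟨by norm_num, fun _ _ => rfl, by
      rintro i e _ _ rfl rfl c hc
      rw [add_zero, add_zero]; exact hc.1, by
      rintro i e _ _ rfl rfl c hc
      rw [add_zero, add_zero] at hc
      exact ⟨(c, 0), ⟨hc, zero_mem _⟩, by
        show c - c ∈ _
        rw [sub_self]; exact zero_mem _⟩, by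
      rintro i e _ _ rfl rfl c hc
      rw [add_zero, add_zero]
      exact ⟨fun h => ⟨h, hc.2⟩, fun h => h.1⟩, by
      rintro i e _ _ rfl rfl c hc
      show C.d c.1 - (1 : ℤ) • C.d c.1 ∈ _
      rw [one_smul, sub_self]; exact zero_mem _⟩
  exact V.s1 (Y := Y) (Z := coneF f N Z) (F := coneF f N F)
    (fun i e c hc => ⟨hc.1, hle _ _ hc.2⟩) (fun i e c hc => ⟨hle _ _ hc.1, hc.2⟩)
    ((i1.iff' hL hY hZ rfl rfl).2 h2)
    ((i2.iff' hL (hF.cone hf) hZ (add_zero i).symm (add_zero e).symm).2 h1)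

theorem V.filt {L : List (S × ℕ)} {C : DG S} {F : Fam C} (h0 : ∀ j < 0, ∀ e, F j e ≤ ⊥) {i e : ℤ}
    (h : ∀ n : ℕ, V L C (fun j e => if j < n + 1 then F j e else ⊥)
      (fun j e => if j < n then F j e else ⊥) i e) : V L C F (fun _ _ => ⊥) i e := by
  have key : ∀ n : ℕ, V L C (fun j e => if j < n then F j e else ⊥) (fun _ _ => ⊥) i e := by
    intro n
    induction n with
    | zero =>
      refine V.supp_ge (k := i + 1) (fun j _ e => ?_) le_rfl
      split_ifs with hj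
      · exact h0 j (by simpa using hj) e
      · exact le_rfl
    | succ n ih =>
      refine V.s1 (fun _ _ => bot_le) (fun j e => ?_) ih (by exact_mod_cast h n)
      split_ifs with h1 h2
      · exact le_rfl
      · push_cast at h2; omega
      · exact bot_le
      · exact le_rfl
  refine V.s1 (fun _ _ => bot_le) (fun j e => ?_) (key ((i + 1 + L.length).toNat + 1))
    (V.supp_le (k := i + 1 + L.length) (fun j hj e => ?_) le_rfl)
  · split_ifs
    · exact le_rfl
    · exact bot_le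
  · rw [if_pos (by push_cast; omega)]

/-- The element `u` of degree `N` kills the homology of `Y`. -/
def Kills {C : DG S} (Y : Fam C) (u : S) (N : ℕ) : Prop :=
  ∀ i e c, c ∈ Y (i + 1) e → C.d c = 0 → ∃ b ∈ Y (i + 1 + 1) (e + N), C.d b = u • c

theorem Kills.add {C : DG S} {Y : Fam C} {u v : S} {N : ℕ} (hu : Kills Y u N) (hv : Kills Y v N) :
    Kills Y (u + v) N := fun i e c hc hd => by
  obtain ⟨b, hb, h1⟩ := hu i e c hc hd
  obtain ⟨b', hb', h2⟩ := hv i e c hc hd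
  exact ⟨b + b', add_mem hb hb', by rw [map_add, h1, h2, add_smul]⟩

theorem Kills.zero {C : DG S} (Y : Fam C) (N : ℕ) : Kills Y 0 N := fun _ _ _ _ _ =>
  ⟨0, zero_mem _, by rw [map_zero, zero_smul]⟩

theorem Kills.mul {C : DG S} {Y : Fam C} (hY : Ok A Y) {r u : S} {k N : ℕ} (hr : A k r)
    (hu : Kills Y u N) : Kills Y (r * u) (k + N) := fun i e c hc hd => by
  obtain ⟨b, hb, h1⟩ := hu i e c hc hd
  refine ⟨r • b, ?_, by rw [map_smul, h1, mul_smul]⟩
  have := hY.mul k r hr _ _ _ hb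
  rwa [add_assoc e, add_comm (N : ℤ), ← Nat.cast_add] at this

theorem Kills.self {C : DG S} (Y : Fam C) (f : S) (N : ℕ) : Kills (coneF f N Y) f N := by
  rintro i e ⟨a, b⟩ ⟨_, hb⟩ hd
  refine ⟨(b, 0), ⟨hb, zero_mem _⟩, Prod.ext ?_ ?_⟩
  · exact (sub_eq_zero.1 (congrArg Prod.snd hd)).symm
  · show f • b - C.d 0 = f • b
    rw [map_zero, sub_zero]

theorem Kills.cone {C : DG S} {Y : Fam C} (hY : Ok A Y) {f u : S} {M N : ℕ} (hf : A M f)
    (hu : A N u) (h : Kills Y u N) : Kills (coneF f M Y) (u * u) (N + N) := by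
  rintro i e ⟨a, b⟩ ⟨ha, hb⟩ hd
  have h1 : C.d a = 0 := congrArg Prod.fst hd
  have h2 : f • a = C.d b := sub_eq_zero.1 (congrArg Prod.snd hd)
  obtain ⟨a', ha', h3⟩ := h i e a ha h1
  obtain ⟨b', hb', h4⟩ := h (i + 1) (e + N + M) (u • b - f • a') (sub_mem (by
    have := hY.mul N u hu _ _ _ hb
    rw [add_right_comm e] at this
    exact this) (hY.mul M f hf _ _ _ ha')) (by
      rw [map_sub, map_smul, map_smul, h3, ← h2, smul_comm, sub_self])
  refine ⟨(u • a', -b'), ⟨?_, ?_⟩, Prod.ext ?_ ?_⟩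
  · have := hY.mul N u hu _ _ _ ha'
    rwa [add_assoc e, ← Nat.cast_add] at this
  · have := neg_mem hb'
    rwa [add_right_comm (e + N), add_assoc e, ← Nat.cast_add] at this
  · show C.d (u • a') = (u * u) • a
    rw [map_smul, h3, mul_smul]
  · show f • u • a' - C.d (-b') = (u * u) • b
    rw [map_neg, h4, smul_sub, mul_smul, smul_comm f u]
    abel

/-- The list `L` consists of positive powers of the elements of `xs`. -/
def Pows (xs : List S) (L : List (S × ℕ)) : Prop :=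
  List.Forall₂ (fun x p => ∃ M : ℕ, p = (x ^ (M + 1), M + 1)) xs L

theorem up {xs : List S} (hA : ∀ x ∈ xs, ∀ n, A n (x ^ n)) {C : DG S} {Y F : Fam C}
    (hY : Ok A Y) (hle : Y ≤ F) (hk : ∀ x ∈ xs, ∃ M : ℕ, Kills Y (x ^ (M + 1)) (M + 1)) {i e : ℤ}
    (hV : ∀ L, Pows xs L → V L C F (fun _ _ => ⊥) i e) {c : C.E} (hc : c ∈ Y (i + 1) e)
    (hd : C.d c = 0) : ∃ b ∈ F (i + 1 + 1) e, C.d b = c := by
  induction xs generalizing C with
  | nil =>
    obtain ⟨b, hb, h⟩ := hV [] List.Forall₂.nil c (hle _ _ hc) (by rw [hd]; exact zero_mem _)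
    exact ⟨b, hb, sub_eq_zero.1 (AddSubgroup.mem_bot.1 h)⟩
  | cons x xs ih =>
    obtain ⟨M, hM⟩ := hk x List.mem_cons_self
    obtain ⟨b, hb, h1⟩ := hM i e c hc hd
    have hx := hA x List.mem_cons_self (M + 1)
    obtain ⟨b', hb', h2⟩ := ih (fun y hy => hA y (List.mem_cons_of_mem _ hy))
      (C := C.cone (x ^ (M + 1))) (hY.cone hx) (coneF_mono hle _ _) (fun y hy => by
        obtain ⟨M', hM'⟩ := hk y (List.mem_cons_of_mem _ hy)
        refine ⟨M' + 1 + M', ?_⟩
        have := hM'.cone hY hx (hA y (List.mem_cons_of_mem _ hy) _)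
        rwa [← pow_add] at this)
      (fun L hL => by
        have := hV _ (List.Forall₂.cons ⟨M, rfl⟩ hL)
        rwa [V, coneF_bot] at this) (c := (c, b)) ⟨hc, hb⟩
      (Prod.ext hd (sub_eq_zero.2 h1.symm))
    exact ⟨b'.1, hb'.1, congrArg Prod.fst h2⟩

/-- A module with zero differential. -/
abbrev DG.triv (S : Type) [CommRing S] (E : Type) [AddCommGroup E] [Module S E] : DG S where
  E := E
  d := 0
  dd _ := rfl

/-- A family concentrated in position zero. -/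
def conc {E : Type} [AddCommGroup E] (B : ℤ → AddSubgroup E) : ℤ → ℤ → AddSubgroup E :=
  fun i e => if i = 0 then B e else ⊥

theorem mem_conc {E : Type} [AddCommGroup E] {B : ℤ → AddSubgroup E} {i e : ℤ} {c : E} :
    c ∈ conc B i e ↔ (i = 0 → c ∈ B e) ∧ (i ≠ 0 → c = 0) := by
  unfold conc
  split_ifs with h <;> simp [h]

theorem conc_mono {E : Type} [AddCommGroup E] {B B' : ℤ → AddSubgroup E} (h : ∀ e, B e ≤ B' e) :
    conc B ≤ conc B' := fun _ e _ hc =>
  mem_conc.2 ⟨fun hi => h e ((mem_conc.1 hc).1 hi), (mem_conc.1 hc).2⟩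

theorem ok_conc {E : Type} [AddCommGroup E] [Module S E] {B : ℤ → AddSubgroup E}
    (h : ∀ k r, A k r → ∀ e c, c ∈ B e → r • c ∈ B (e + k)) :
    Ok A (C := DG.triv S E) (conc B) :=
  ⟨fun _ _ _ _ => zero_mem _, fun k r hr _ e c hc => mem_conc.2
    ⟨fun hi => h k r hr e c ((mem_conc.1 hc).1 hi), fun hi => by
      rw [(mem_conc.1 hc).2 hi]; exact smul_zero r⟩⟩

theorem V.reg {L : List (S × ℕ)} (hL : ∀ p ∈ L, A p.2 p.1) {E : Type} [AddCommGroup E]
    [Module S E] {G B B' : ℤ → AddSubgroup E}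
    (hG : ∀ k r, A k r → ∀ e c, c ∈ G e → r • c ∈ G (e + k))
    (hB : ∀ k r, A k r → ∀ e c, c ∈ B e → r • c ∈ B (e + k))
    (hB' : ∀ k r, A k r → ∀ e c, c ∈ B' e → r • c ∈ B' (e + k))
    (h1 : ∀ e, B e ≤ B' e) (h2 : ∀ e, B' e ≤ G e) {f : S} {N : ℕ} (hf : A N f)
    (h3 : ∀ e, ∀ c ∈ G e, f • c ∈ B' (e + N))
    (h4 : ∀ e, ∀ c ∈ B' (e + N), ∃ a ∈ G e, f • a - c ∈ B (e + N))
    (h5 : ∀ e, ∀ c ∈ G e, f • c ∈ B (e + N) → c ∈ B e) {i e : ℤ}
    (h : V L (DG.triv S E) (conc G) (conc B') (i + 1) (e + N)) :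
    V ((f, N) :: L) (DG.triv S E) (conc G) (conc B) i e := by
  let Y : Fam ((DG.triv S E).cone f) := fun i e => pr (conc G i e) (conc B' (i + 1) (e + N))
  have hY : Ok A Y := ⟨fun i e c hc => ⟨zero_mem _, by
      show f • c.1 - 0 ∈ conc B' (i + 1) (e + N)
      rw [sub_zero]
      exact mem_conc.2 ⟨fun hi => h3 _ _ ((mem_conc.1 hc.1).1 hi), fun hi => by
        rw [(mem_conc.1 hc.1).2 hi]; exact smul_zero f⟩⟩,
    fun k r hr i e c hc => ⟨(ok_conc hG).mul k r hr _ _ _ hc.1, by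
      have := (ok_conc hB').mul k r hr _ _ _ hc.2
      rwa [add_right_comm] at this⟩⟩
  have i1 : Iso (RingHom.id S) (C' := DG.triv S E) (coneF (C := DG.triv S E) f N (conc G)) Y
      (conc G) (conc B') (AddMonoidHom.snd _ _) (-1) 1 N :=
    ⟨by norm_num, fun _ _ => rfl, by rintro i e _ _ rfl rfl c hc; exact hc.2, by
      rintro i e _ _ rfl rfl c hc
      exact ⟨(0, c), ⟨zero_mem _, hc⟩, by
        show c - c ∈ _
        rw [sub_self]; exact zero_mem _⟩, by
      rintro i e _ _ rfl rfl c hc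
      exact ⟨fun h => ⟨hc.1, h⟩, fun h => h.2⟩, by
      rintro i e _ _ rfl rfl c hc
      show (0 : E) - (-1 : ℤ) • (f • c.1 - 0) ∈ conc B' (i + 1) (e + N)
      rw [neg_one_zsmul, sub_neg_eq_add, zero_add, sub_zero]
      exact mem_conc.2 ⟨fun hi => h3 _ _ ((mem_conc.1 hc.1).1 hi), fun hi => by
        rw [(mem_conc.1 hc.1).2 hi]; exact smul_zero f⟩⟩
  refine V.s1 (Y := Y) (Z := coneF (C := DG.triv S E) f N (conc B))
    (F := coneF (C := DG.triv S E) f N (conc G)) (fun i e c hc => ⟨conc_mono (fun e => (h1 e).trans (h2 e)) _ _ hc.1,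
    conc_mono h1 _ _ hc.2⟩) (fun i e c hc => ⟨hc.1, conc_mono h2 _ _ hc.2⟩)
    (V.acyc hY ((ok_conc hB).cone hf) hL ?_ i e)
    ((i1.iff' hL ((ok_conc hG).cone hf) (ok_conc hB') rfl rfl).2 h)
  rintro i e ⟨a, b⟩ ⟨ha, hb⟩ ⟨-, hd⟩
  have hd' : f • a - 0 ∈ conc B (i + 1) (e + N) := hd
  rw [sub_zero] at hd'
  have h6 : ∃ a' ∈ conc G (i + 1 + 1) e, f • a' - b ∈ conc B (i + 1 + 1) (e + N) := by
    by_cases hi : i + 1 + 1 = 0
    · obtain ⟨a', h7, h8⟩ := h4 e b ((mem_conc.1 hb).1 hi)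
      exact ⟨a', mem_conc.2 ⟨fun _ => h7, fun h => absurd hi h⟩,
        mem_conc.2 ⟨fun _ => h8, fun h => absurd hi h⟩⟩
    · exact ⟨0, zero_mem _, by
        rw [show b = 0 from (mem_conc.1 hb).2 hi, smul_zero, sub_self]; exact zero_mem _⟩
  obtain ⟨a', h7, h8⟩ := h6
  refine ⟨(a', 0), ⟨h7, zero_mem _⟩, ?_, ?_⟩
  · show (0 : E) - a ∈ conc B (i + 1) e
    rw [zero_sub]
    exact neg_mem (mem_conc.2 ⟨fun hi => h5 e a ((mem_conc.1 ha).1 hi) ((mem_conc.1 hd').1 hi),
      (mem_conc.1 ha).2⟩)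
  · show f • a' - 0 - b ∈ conc B (i + 1 + 1) (e + N)
    rwa [sub_zero]

theorem V.pi {L : List (S × ℕ)} (hL : ∀ p ∈ L, A p.2 p.1) {E : Type} [AddCommGroup E]
    [Module S E] {G : ℤ → AddSubgroup E}
    (hG : ∀ k r, A k r → ∀ e c, c ∈ G e → r • c ∈ G (e + k)) {i e : ℤ}
    (h : V L (DG.triv S E) (conc G) (fun _ _ => ⊥) i e) (n : ℕ) :
    V L (DG.triv S (Fin n → E)) (conc fun e => pw fun _ => G e)
      (fun _ _ => ⊥) i e := by
  let H : ℕ → ℤ → AddSubgroup (Fin n → E) := fun m e =>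
    { carrier := {c | (∀ j, c j ∈ G e) ∧ ∀ j : Fin n, m ≤ j → c j = 0}
      add_mem' := fun h h' => ⟨fun j => add_mem (h.1 j) (h'.1 j), fun j hj => by
        rw [Pi.add_apply, h.2 j hj, h'.2 j hj, add_zero]⟩
      zero_mem' := ⟨fun _ => zero_mem _, fun _ _ => rfl⟩
      neg_mem' := fun h => ⟨fun j => neg_mem (h.1 j), fun j hj => by
        rw [Pi.neg_apply, h.2 j hj, neg_zero]⟩ }
  have hF : ∀ m, Ok A (C := DG.triv S (Fin n → E)) (conc (H m)) := fun m =>
    ok_conc fun k r hr e c hc => ⟨fun j => hG k r hr e _ (hc.1 j), fun j hj => by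
      rw [Pi.smul_apply, hc.2 j hj, smul_zero]⟩
  have key : ∀ m ≤ n, V L (DG.triv S (Fin n → E)) (conc (H m)) (fun _ _ => ⊥) i e := by
    intro m
    induction m with
    | zero =>
      refine fun _ => V.supp_ge (k := i + 1) (fun j _ e c hc => AddSubgroup.mem_bot.2 ?_) le_rfl
      by_cases hj : j = 0
      · exact funext fun l => ((mem_conc.1 hc).1 hj).2 l (Nat.zero_le _)
      · exact (mem_conc.1 hc).2 hj
    | succ m ih =>
      intro hm
      have i1 : Iso (RingHom.id S) (C := DG.triv S (Fin n → E)) (C' := DG.triv S E)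
          (conc (H (m + 1))) (conc (H m)) (conc G) (fun _ _ => ⊥)
          (Pi.evalAddMonoidHom (fun _ : Fin n => E) ⟨m, hm⟩) 1 0 0 := by
        refine ⟨by norm_num, fun _ _ => rfl, ?_, ?_, ?_, ?_⟩
        · rintro i e _ _ rfl rfl c hc
          rw [add_zero, add_zero]
          exact mem_conc.2 ⟨fun hi => ((mem_conc.1 hc).1 hi).1 ⟨m, hm⟩,
            fun hi => by rw [(mem_conc.1 hc).2 hi]; rfl⟩
        · rintro i e _ _ rfl rfl c hc
          rw [add_zero, add_zero] at hc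
          refine ⟨Pi.single (M := fun _ : Fin n => E) ⟨m, hm⟩ c, mem_conc.2 ⟨fun hi =>
            ⟨fun j => ?_, fun j hj => Pi.single_eq_of_ne (fun h => by subst h; simp at hj) _⟩,
            fun hi => by rw [(mem_conc.1 hc).2 hi]; exact Pi.single_zero _⟩, ?_⟩
          · by_cases hj : j = ⟨m, hm⟩
            · subst hj
              rw [Pi.single_eq_same]
              exact (mem_conc.1 hc).1 hi
            · rw [Pi.single_eq_of_ne hj]; exact zero_mem _
          · show Pi.single (M := fun _ : Fin n => E) ⟨m, hm⟩ c ⟨m, hm⟩ - c ∈ ⊥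
            rw [Pi.single_eq_same, sub_self]; exact zero_mem _
        · rintro i e _ _ rfl rfl c hc
          refine ⟨fun h => mem_conc.2 ⟨fun hi => ⟨((mem_conc.1 hc).1 hi).1, fun j hj => ?_⟩,
            (mem_conc.1 hc).2⟩, fun h => ?_⟩
          · by_cases h1 : j = ⟨m, hm⟩
            · subst h1; exact h
            · have h2 : (j : ℕ) ≠ m := fun h => h1 (Fin.ext h)
              exact ((mem_conc.1 hc).1 hi).2 j (by omega)
          · by_cases hi : i = 0
            · exact ((mem_conc.1 h).1 hi).2 ⟨m, hm⟩ le_rfl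
            · rw [(mem_conc.1 h).2 hi]; exact zero_mem _
        · rintro i e _ _ rfl rfl c hc
          show (0 : E) - (1 : ℤ) • (0 : E) ∈ ⊥
          simp
      exact V.s1 (fun _ _ => bot_le)
        (conc_mono (B := H m) (B' := H (m + 1)) fun e c hc => ⟨hc.1, fun j hj => hc.2 j (by omega)⟩)
        (ih (by omega))
        ((i1.iff' hL (hF _) Ok.bot (add_zero i).symm (add_zero e).symm).2 h)
  exact V.s1 (fun _ _ => bot_le) 
    (conc_mono (B := H n) (B' := fun e => pw fun _ => G e) fun e c hc => hc.1) (key n le_rfl)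
    (V.supp_ge (k := i + 1) (fun j _ => conc_mono (B := fun e => pw fun _ => G e) (B' := H n)
      (fun e c hc => ⟨hc, fun j hj => absurd j.2 (by omega)⟩) j) le_rfl)

end Pool.Agent.MP_36bee5_al.Tr
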