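import Pool.Agent.MP_36bee5_al.TrMain

set_option autoImplicit false

/-!
Polynomial extensions of quotients by ideals with a 2-linear resolution.
-/

namespace Pool.Agent.MP_36bee5_al.Tr

open Matrix MvPolynomial

theorem lr_iff {K R : Type} [Field K] [CommRing R] [Algebra K R] {A : ℤ → Submodule K R}
    {H : ℕ → R → Prop} (hH : ∀ k r, H k r ↔ r ∈ A k) (P : Ideal R) (d : ℕ) : LR A P d ↔
    ∃ (b : ℕ → ℕ) (g : Fin (b 0) → R) (D : (i : ℕ) → Matrix (Fin (b i)) (Fin (b (i + 1))) R),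
      (∀ j, H d (g j)) ∧ (∀ i p q, H 1 (D i p q)) ∧ Ideal.span (Set.range g) = P ∧
      (∀ v : Fin (b 0) → R, ∑ j, v j * g j = 0 ↔ ∃ w, (D 0).mulVec w = v) ∧
      (∀ (i : ℕ) (v : Fin (b (i + 1)) → R), (D i).mulVec v = 0 ↔ ∃ w, (D (i + 1)).mulVec w = v) := by
  constructor
  · rintro ⟨X, hX, he, rfl⟩
    exact ⟨X.b, X.g, X.D, fun j => (hH _ _).2 (hX.g j), fun i p q => (hH _ _).2 (hX.D i p q), rfl,
      fun v => ⟨he 0 v, by rintro ⟨w, rfl⟩; exact hX.cx 0 w⟩,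
      fun i v => ⟨he (i + 1) v, by rintro ⟨w, rfl⟩; exact hX.cx (i + 1) w⟩⟩
  · rintro ⟨b, g, D, h1, h2, h3, h4, h5⟩
    refine ⟨⟨b, g, D⟩, ⟨fun j => (hH _ _).1 (h1 j), fun i p q => (hH _ _).1 (h2 i p q),
      fun i w => ?_⟩, fun i v hv => ?_, h3⟩
    · rcases i with _ | i
      exacts [(h4 _).2 ⟨w, rfl⟩, (h5 i _).2 ⟨w, rfl⟩]
    · rcases i with _ | i
      exacts [(h4 v).1 hv, (h5 i v).1 hv]

variable {K : Type} [Field K] {σ τ : Type} [Fintype σ] [Fintype τ]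

/-- The presentation of the polynomial extension. -/
noncomputable abbrev pres (τ : Type) (J : Ideal (MvPolynomial σ K)) :
    MvPolynomial (τ ⊕ σ) K →ₐ[K] MvPolynomial τ (MvPolynomial σ K ⧸ J) :=
  aeval (Sum.elim X fun i => C (Ideal.Quotient.mk J (X i)))

/-- The grading of the polynomial extension. -/
noncomputable abbrev Ac (τ : Type) (J : Ideal (MvPolynomial σ K)) (e : ℤ) :
    Submodule K (MvPolynomial τ (MvPolynomial σ K ⧸ J)) :=
  (Ap K (τ ⊕ σ) e).map (pres τ J).toLinearMap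

theorem cone_products {J : Ideal (MvPolynomial σ K)} (hJ : LR (Ap K σ) J 2) {ι : Type}
    {I : ι → Ideal (MvPolynomial τ (MvPolynomial σ K ⧸ J))}
    (hI : ∀ k, I k ≤ Ideal.span {r | r ∈ I k ∧ r ∈ Ac τ J 1}) (s : Finset ι)
    (hs : ∀ s' ⊆ s, s'.Nonempty →
      LR (R := MvPolynomial τ (MvPolynomial σ K ⧸ J)) (Ac τ J) (∏ k ∈ s', I k) s'.card ∨
      (∀ u : MvPolynomial σ K, u.IsHomogeneous 1 →
        C (Ideal.Quotient.mk J u) ∈ ∑ k ∈ s', I k → u ∈ J) ∨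
      ∃ z : MvPolynomial σ K, z.IsHomogeneous 1 ∧ ∀ i, ∃ N : ℕ, X i ^ N ∈ J ⊔ Ideal.span
        (insert z {u | u.IsHomogeneous 1 ∧ C (Ideal.Quotient.mk J u) ∈ ∑ k ∈ s', I k})) :
    LR (R := MvPolynomial τ (MvPolynomial σ K ⧸ J)) (Ac τ J) (∏ k ∈ s, I k) s.card := by
  classical
  obtain ⟨π, h⟩ := gr_poly K (τ ⊕ σ)
  let E := sumAlgEquiv K τ σ
  have e1 : ∀ p, pres τ J p = MvPolynomial.map (Ideal.Quotient.mk J) (E p) := fun p => by
    induction p using MvPolynomial.induction_on with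
    | C r => simp [E]; rfl
    | add p q hp hq => simp only [map_add, hp, hq]
    | mul_X p i hp => rcases i with t | i <;> simp [map_mul, hp, E]
  let ρ : MvPolynomial σ K →+* MvPolynomial (τ ⊕ σ) K := E.symm.toRingEquiv.toRingHom.comp C
  have e2 : ∀ p, ρ p = rename Sum.inr p := fun p => by
    induction p using MvPolynomial.induction_on with
    | C r => simp [ρ, E]
    | add p q hp hq => simp only [map_add, hp, hq]
    | mul_X p i hp => rw [map_mul, map_mul, hp]; simp [ρ, E]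
  have e3 : ∀ p, pres τ J (ρ p) = C (Ideal.Quotient.mk J p) := fun p => by simp [e1, ρ]
  have e4 : ∀ e, ∀ p ∈ Ap K σ e, ρ p ∈ Ap K (τ ⊕ σ) e := fun e p hp => by
    by_cases he : e < 0
    · rw [Ap_neg hp he, map_zero]; exact zero_mem _
    obtain ⟨n, rfl⟩ := Int.eq_ofNat_of_zero_le (not_lt.1 he)
    rw [e2]; exact mem_Ap.2 (mem_Ap.1 hp).rename_isHomogeneous
  obtain ⟨Y, hY, hYe, e5⟩ := hJ.map (φ := ρ) ((RingHom.flat_algebraMap_iff.2 inferInstance).comp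
    (RingHom.Flat.of_bijective E.symm.bijective)) e4
  have e6 : ∀ r, r ∈ Ideal.span (Set.range Y.g) ↔ pres τ J r = 0 := fun r => by
    rw [e5, e1, ← RingHom.mem_ker, MvPolynomial.ker_map, Ideal.mk_ker, ← Ideal.map_map,
      Ideal.mem_map_iff_of_surjective E.symm.toRingEquiv.toRingHom E.symm.surjective]
    exact ⟨by rintro ⟨x, hx, rfl⟩; simpa using hx, fun hx => ⟨_, hx, E.symm_apply_apply r⟩⟩
  have hsur : Function.Surjective (pres τ J) := fun r => by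
    obtain ⟨p, rfl⟩ := MvPolynomial.map_surjective _ (Ideal.Quotient.mk_surjective (I := J)) r
    exact ⟨E.symm p, by rw [e1, E.apply_symm_apply]⟩
  obtain ⟨π', h', -⟩ := h.quot (R' := MvPolynomial τ (MvPolynomial σ K ⧸ J)) (pres τ J) hsur
    fun e r hr => (e6 _).1 (h.closed (by rintro _ ⟨j, rfl⟩; exact ⟨_, hY.g j⟩) e ((e6 r).2 hr))
  have hr := h.reg_quot hY hYe (xs := Finset.univ.toList.map X) (fun x hx => by
      obtain ⟨a, -, rfl⟩ := List.mem_map.1 hx; exact X_mem a)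
    (reg_poly h _ (Finset.nodup_toList _) (by simp)) (R' := MvPolynomial τ (MvPolynomial σ K ⧸ J))
    (A' := Ac τ J) (pres τ J).toRingHom
    (fun _ _ => Iff.rfl) e6
  have hX : ∀ t, X t ∈ Ac τ J 1 := fun t => ⟨X (Sum.inl t), X_mem _, by simp⟩
  have e7 : ∀ u : MvPolynomial σ K, u.IsHomogeneous 1 → C (Ideal.Quotient.mk J u) ∈ Ac τ J 1 :=
    fun u hu => ⟨ρ u, e4 1 u ((mem_Ap (n := 1)).2 hu), e3 u⟩
  have e8 : ∀ l : σ → K, (∑ i, l i • X i : MvPolynomial σ K).IsHomogeneous 1 := fun l =>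
    (mem_Ap (n := 1)).1 (sum_mem fun i _ => (Ap K σ _).smul_mem _ (X_mem i))
  have e9 : ∀ w ∈ Ac τ J 1, ∃ l : τ → K, ∃ l' : σ → K,
      form τ K _ (l, Ideal.Quotient.mk J (∑ i, l' i • X i)) = w := by
    rintro _ ⟨p, hp, rfl⟩
    obtain ⟨l, rfl⟩ := mem_Ap_one hp
    refine ⟨fun t => l (Sum.inl t), fun i => l (Sum.inr i), ?_⟩
    rw [form_apply, ← e3, e2]
    simp [Fintype.sum_sum_type]
  have hA : ∀ w ∈ Ac τ J 1, ∃ l u, C u ∈ Ac τ J 1 ∧ form τ K _ (l, u) = w := fun w hw => by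
    obtain ⟨l, l', h1⟩ := e9 w hw
    exact ⟨l, _, e7 _ (e8 l'), h1⟩
  have e10 : ∀ u, C u ∈ Ac τ J 1 → ∃ l : σ → K, Ideal.Quotient.mk J (∑ i, l i • X i) = u :=
    fun u hu => by
      obtain ⟨l, l', h1⟩ := e9 _ hu
      refine ⟨l', ?_⟩
      have := congrArg constantCoeff h1
      rw [form_apply, map_add, map_sum, constantCoeff_C, constantCoeff_C] at this
      rw [Finset.sum_eq_zero fun t _ => ?_, zero_add] at this
      · exact this
      rw [← algebraMap_smul (MvPolynomial σ K ⧸ J), constantCoeff_smul, constantCoeff_X, smul_zero]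
  refine h'.main hr hX (fun x hx => ?_) hA hI s fun s' h1 h2 => ?_
  · obtain ⟨_, hy, rfl⟩ := List.mem_map.1 hx
    obtain ⟨t | i, -, rfl⟩ := List.mem_map.1 hy
    · exact Or.inl ⟨t, by simp⟩
    · exact Or.inr ⟨_, by simp, e7 _ (isHomogeneous_X K i)⟩
  rcases hs s' h1 h2 with h3 | h3 | ⟨z, hz, h3⟩
  · exact Or.inl h3
  · refine Or.inl (h'.free hX hA hI s' fun u hu hu' => ?_)
    obtain ⟨l, rfl⟩ := e10 u hu
    exact Ideal.Quotient.eq_zero_iff_mem.2 (h3 _ (e8 l) hu')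
  · refine Or.inr ⟨_, e7 z hz, fun u hu => ?_⟩
    obtain ⟨l, rfl⟩ := e10 u hu
    rw [map_sum]
    refine sum_mem fun i _ => ?_
    obtain ⟨N, hN⟩ := h3 i
    rw [smul_eq_C_mul, map_mul]
    refine Ideal.mul_mem_left _ _ ⟨N, ?_⟩
    rw [← map_pow]
    refine Ideal.mem_comap.1 ((sup_le (fun p hp => ?_) (Ideal.span_le.2 ?_) :
      _ ≤ Ideal.comap (Ideal.Quotient.mk J) _) hN)
    · rw [Ideal.mem_comap, Ideal.Quotient.eq_zero_iff_mem.2 hp]; exact zero_mem _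
    · rintro v (rfl | hv)
      · exact Ideal.subset_span (Set.mem_insert _ _)
      · exact Ideal.subset_span (Set.mem_insert_of_mem _ ⟨e7 v hv.1, hv.2⟩)

end Pool.Agent.MP_36bee5_al.Tr
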