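import Pool.Agent.MP_36bee5_al.TrCore

set_option autoImplicit false

/-!
Products of ideals of linear forms in polynomial extensions.
-/

namespace Pool.Agent.MP_36bee5_al.Tr

open Matrix MvPolynomial

section flat

variable {S R : Type} [CommRing S] [CommRing R]

theorem flat_ker {φ : S →+* R} (hφ : φ.Flat) {m n l : Type} [Fintype m] [Fintype n] [Fintype l]
    (D : Matrix m n S) (D' : Matrix n l S) (h : ∀ v, D *ᵥ v = 0 → ∃ w, D' *ᵥ w = v) (v : n → R)
    (hv : D.map φ *ᵥ v = 0) : ∃ w, D'.map φ *ᵥ w = v := by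
  classical
  let _ := φ.toAlgebra
  have : Module.Flat S R := hφ
  obtain ⟨k, a, y, h1, h2⟩ := Module.Flat.exists_factorization_of_comp_eq_zero_of_free
    (f := D.vecMulLinear) (x := Fintype.linearCombination S v) (LinearMap.pi_ext' fun p =>
      LinearMap.ext_ring (by
        have := congrFun hv p
        simpa [Fintype.linearCombination_apply, Matrix.mulVec, dotProduct, Algebra.smul_def,
          RingHom.algebraMap_toAlgebra] using this))
  choose w hw using fun j : Fin k => h (fun q => a (Pi.single q 1) j) (funext fun p => by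
    have h3 : a (D p) = 0 := by simpa [Matrix.row] using LinearMap.congr_fun h2 (Pi.single p 1)
    rw [pi_eq_sum_univ' (D p), map_sum] at h3
    simpa [Matrix.mulVec, dotProduct] using DFunLike.congr_fun h3 j)
  refine ⟨∑ j, y (Finsupp.single j 1) • fun q => φ (w j q), funext fun q => ?_⟩
  have h4 : v q = y (a (Pi.single q 1)) := by simpa using LinearMap.congr_fun h1 (Pi.single q 1)
  rw [h4, ← Finsupp.univ_sum_single (a (Pi.single q 1)), map_sum, Matrix.mulVec_sum,
    Finset.sum_apply]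
  refine Finset.sum_congr rfl fun j _ => ?_
  rw [Matrix.mulVec_smul, Pi.smul_apply, ← congrFun (hw j) q,
    ← Finsupp.smul_single_one j ((D' *ᵥ w j) q), map_smul, smul_eq_mul, Algebra.smul_def, mul_comm]
  exact congrArg (· * _) (RingHom.map_mulVec φ D' (w j) q).symm

theorem flat_map {K : Type} [Field K] [Algebra K R] (τ : Type) :
    (MvPolynomial.map (σ := τ) (algebraMap K R)).Flat := by
  let _ : Algebra (MvPolynomial τ K) (MvPolynomial τ R) := algebraMvPolynomial
  exact RingHom.Flat.isStableUnderBaseChange K R (MvPolynomial τ K) (MvPolynomial τ R)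
    (RingHom.flat_algebraMap_iff.2 inferInstance)

end flat

variable {K : Type} [Field K]

section

variable {S R : Type} [CommRing S] [CommRing R] [Algebra K S] [Algebra K R]
  {A : ℤ → Submodule K S} {A' : ℤ → Submodule K R} {π : ℤ → S →+ S}

theorem LR.map {φ : S →+* R} (hφ : φ.Flat) (hA : ∀ e, ∀ r ∈ A e, φ r ∈ A' e) {P : Ideal S} {d : ℤ}
    (h : LR A P d) : LR A' (P.map φ) d := by
  obtain ⟨X, hX, hXe, rfl⟩ := h
  refine ⟨⟨X.b, φ ∘ X.g, fun i => (X.D i).map φ⟩, ⟨fun j => hA _ _ (hX.g j),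
    fun i p q => hA _ _ (hX.D i p q), fun i w => ?_⟩, fun i v hv => ?_, by
      rw [Ideal.map_span, ← Set.range_comp]⟩
  · rcases i with _ | i
    · have h1 : X.g ᵥ* X.D 0 = 0 := funext fun q => by
        simpa [Matrix.vecMul, dotProduct, mul_comm] using Cx.mem0.1 (hX.cx 0 (Pi.single q 1))
      show ((X.D 0).map φ *ᵥ w) ⬝ᵥ (φ ∘ X.g) = 0
      rw [dotProduct_comm, dotProduct_mulVec, show (φ ∘ X.g) ᵥ* (X.D 0).map φ = 0 from
        funext fun q => by rw [← RingHom.map_vecMul, h1]; exact map_zero φ, zero_dotProduct]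
    · have h1 : X.D i * X.D (i + 1) = 0 := Matrix.ext_iff_mulVec.2 fun w => by
        rw [← Matrix.mulVec_mulVec, Matrix.zero_mulVec]; exact hX.cx (i + 1) w
      show (X.D i).map φ *ᵥ (X.D (i + 1)).map φ *ᵥ w = 0
      rw [Matrix.mulVec_mulVec, ← Matrix.map_mul, h1, Matrix.map_zero _ (map_zero φ),
        Matrix.zero_mulVec]
  · rcases i with _ | i
    · refine flat_ker hφ (Matrix.of fun (_ : Unit) j => X.g j) (X.D 0)
        (fun v hv => hXe 0 v (Cx.mem0.2 ?_)) v (funext fun _ => ?_)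
      · simpa [Matrix.mulVec, dotProduct, mul_comm] using congrFun hv ()
      · simpa [Matrix.mulVec, dotProduct, mul_comm] using Cx.mem0.1 hv
    · exact flat_ker hφ (X.D i) (X.D (i + 1)) (hXe (i + 1)) v hv

theorem Gr.lr_top (h : Gr K A π) : LR A ⊤ 0 := by
  refine ⟨⟨fun i => 0 ^ i, fun _ => 1, fun _ => 0⟩, ⟨fun _ => h.one, fun _ _ _ => zero_mem _,
    fun i w => by rw [Matrix.zero_mulVec]; exact zero_mem _⟩, fun i v hv => ⟨0, ?_⟩, by simp⟩
  rw [Matrix.mulVec_zero]
  rcases i with _ | i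
  · funext j
    have : ∑ j : Fin 1, v j * 1 = 0 := hv
    rw [Subsingleton.elim (α := Fin 1) j 0]
    simpa using this.symm
  · exact funext fun j => absurd j.2 (by simp)

theorem Gr.prod_le (h : Gr K A π) {ι : Type} {I : ι → Ideal S}
    (hI : ∀ k, I k ≤ Ideal.span {r | r ∈ I k ∧ r ∈ A 1}) (s : Finset ι) :
    ∏ k ∈ s, I k ≤ Ideal.span {r | r ∈ ∏ k ∈ s, I k ∧ r ∈ A s.card} := by
  classical
  induction s using Finset.induction_on with
  | empty =>
    rw [Finset.prod_empty, Ideal.one_eq_top, top_le_iff, Ideal.eq_top_iff_one]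
    exact Ideal.subset_span ⟨trivial, h.one⟩
  | insert k s hk ih =>
    rw [Finset.prod_insert hk, Finset.card_insert_of_notMem hk]
    refine (Ideal.mul_mono (hI k) ih).trans ?_
    rw [Ideal.span_mul_span', Ideal.span_le]
    rintro _ ⟨a, ha, b, hb, rfl⟩
    refine Ideal.subset_span ⟨Ideal.mul_mem_mul ha.1 hb.1, ?_⟩
    have := h.mul ha.2 hb.2
    rw [add_comm] at this
    exact_mod_cast this

end

variable {R : Type} [CommRing R] [Algebra K R] {τ : Type} [Fintype τ]
  {A : ℤ → Submodule K (MvPolynomial τ R)} {π : ℤ → MvPolynomial τ R →+ MvPolynomial τ R}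

/-- The linear form with the given coefficients. -/
noncomputable def form (τ : Type) [Fintype τ] (K R : Type) [Field K] [CommRing R] [Algebra K R] :
    ((τ → K) × R) →ₗ[K] MvPolynomial τ R :=
  (Fintype.linearCombination K X).coprod (IsScalarTower.toAlgHom K R _).toLinearMap

theorem form_apply (l : τ → K) (u : R) : form τ K R (l, u) = ∑ t, l t • X t + C u := rfl

/-- The ideal is invariant under the translations fixing `W`. -/
def Fix (W : Submodule K (MvPolynomial τ R)) (P : Ideal (MvPolynomial τ R)) : Prop :=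
  ∀ θ : MvPolynomial τ R →+* Polynomial (MvPolynomial τ R),
    (∀ w ∈ W, θ w = Polynomial.C w) → P.map θ ≤ P.map Polynomial.C

theorem chain (hX : ∀ t, X t ∈ A 1) (W : Submodule K (MvPolynomial τ R))
    (hW : ∀ w ∈ W, ∃ l u, C u ∈ A 1 ∧ form τ K R (l, u) = w) (P : Ideal (MvPolynomial τ R))
    (hP : Fix W P) : ∃ ys : List (MvPolynomial τ R), (∀ y ∈ ys, y ∈ A 1) ∧ Rs P ys ∧
      ∀ t, ∃ u, C u ∈ A 1 ∧ X t + C u ∈ Ideal.span W ⊔ Ideal.span {y | y ∈ ys} := by
  classical
  let T : Submodule K (MvPolynomial τ R) → Submodule K (τ → K) := fun W =>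
    (W.comap (form τ K R) ⊓ (A 1).comap ((form τ K R).comp ((LinearMap.inr K _ _).comp
      (LinearMap.snd K _ _)))).map (LinearMap.fst K _ _)
  have hT : ∀ W l, l ∈ T W ↔ ∃ u, C u ∈ A 1 ∧ form τ K R (l, u) ∈ W := fun W l =>
    ⟨by
      rintro ⟨⟨l, u⟩, ⟨h1, h2⟩, rfl⟩
      exact ⟨u, by simpa [form_apply] using h2, h1⟩, by
      rintro ⟨u, h1, h2⟩
      exact ⟨(l, u), ⟨h2, by simpa [form_apply] using h1⟩, rfl⟩⟩
  have h1 : ∀ t u, form τ K R (Pi.single t 1, u) = X t + C u := fun t u => by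
    simp [form_apply, Pi.single_apply]
  generalize hT0 : T W = T0
  induction T0 using WellFoundedGT.induction generalizing W P with
  | ind T0 ih =>
  subst hT0
  rcases (le_top (a := T W)).eq_or_lt with h0 | h0
  · refine ⟨[], by simp, trivial, fun t => ?_⟩
    obtain ⟨u, h2, h3⟩ := (hT W (Pi.single t 1)).1 (h0 ▸ trivial)
    exact ⟨u, h2, Ideal.mem_sup_left (Ideal.subset_span (h1 t u ▸ h3))⟩
  obtain ⟨f, hf, h2⟩ := Submodule.exists_le_ker_of_lt_top _ h0
  obtain ⟨t, ht⟩ : ∃ t, f (Pi.single t 1) ≠ 0 := by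
    by_contra! hn
    exact hf (LinearMap.pi_ext' fun t => LinearMap.ext_ring (by simpa using hn t))
  obtain ⟨ys, h3, h4, h5⟩ := ih (T (W ⊔ Submodule.span K {X t})) (lt_of_le_of_ne
    (fun l hl => by
      obtain ⟨u, h3, h4⟩ := (hT W l).1 hl
      exact (hT _ l).2 ⟨u, h3, Submodule.mem_sup_left h4⟩) fun h => ht (h2 (by
        rw [h]
        exact (hT _ _).2 ⟨0, by simp, by
          rw [h1, C_0, add_zero]
          exact Submodule.mem_sup_right (Submodule.mem_span_singleton_self _)⟩)))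
    (W ⊔ Submodule.span K {X t}) (fun w hw => by
      obtain ⟨a, ha, b, hb, rfl⟩ := Submodule.mem_sup.1 hw
      obtain ⟨c, rfl⟩ := Submodule.mem_span_singleton.1 hb
      obtain ⟨l, u, h3, rfl⟩ := hW a ha
      refine ⟨l + c • Pi.single t 1, u, h3, ?_⟩
      rw [← add_zero (X t), ← C_0, ← h1, ← map_smul, ← map_add]
      simp) (P ⊔ Ideal.span {X t}) (fun θ hθ => by
      rw [Ideal.map_sup, Ideal.map_sup, Ideal.map_span, Ideal.map_span, Set.image_singleton,
        Set.image_singleton, hθ _ (Submodule.mem_sup_right (Submodule.mem_span_singleton_self _))]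
      exact sup_le_sup_right (hP θ fun w hw => hθ w (Submodule.mem_sup_left hw)) _) rfl
  refine ⟨X t :: ys, fun y hy => ?_, ⟨fun c hc => ?_, h4⟩, fun t' => ?_⟩
  · rcases List.mem_cons.1 hy with rfl | hy
    exacts [hX t, h3 y hy]
  · let θ : MvPolynomial τ R →ₐ[R] Polynomial (MvPolynomial τ R) := aeval fun s =>
      (f (Pi.single s 1) / f (Pi.single t 1)) • Polynomial.X + Polynomial.C (X s)
    have h6 := hP θ (fun w hw => by
      obtain ⟨l, u, h6, rfl⟩ := hW w hw
      have h7 : ∑ s, l s * f (Pi.single s 1) = 0 := by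
        have : f l = 0 := h2 ((hT W l).2 ⟨u, h6, hw⟩)
        rw [pi_eq_sum_univ' l, map_sum] at this
        simpa using this
      have h8 : ∀ (a : K) p, θ (a • p) = a • θ p := fun a p => map_smul (θ.restrictScalars K) a p
      show θ _ = _
      simp only [form_apply, map_add, map_sum, h8, θ, aeval_X, smul_add, Finset.sum_add_distrib,
        smul_smul, ← Finset.sum_smul, ← mul_div_assoc, ← Finset.sum_div, h7, zero_div, zero_smul,
        zero_add, aeval_C, Polynomial.smul_C]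
      rfl) (Ideal.mem_map_of_mem _ hc)
    have h7 : (Polynomial.constantCoeff.comp (θ : MvPolynomial τ R →+* _)) = RingHom.id _ :=
      MvPolynomial.ringHom_ext (fun r => by simp [θ]) fun s => by simp [θ]
    have h8 : (θ c).map (Ideal.Quotient.mk P) = 0 := by
      rw [← ((Polynomial.monic_X_add_C (X t)).map (Ideal.Quotient.mk P)).mul_right_eq_zero_iff,
        ← Polynomial.map_mul]
      ext n
      rw [Polynomial.coeff_map, Polynomial.coeff_zero, Ideal.Quotient.eq_zero_iff_mem]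
      refine Ideal.mem_map_C_iff.1 ?_ n
      simpa [θ, div_self ht] using h6
    have h9 := congrArg (Polynomial.coeff · 0) h8
    simp only [Polynomial.coeff_map, Polynomial.coeff_zero, Ideal.Quotient.eq_zero_iff_mem] at h9
    exact (show (θ c).coeff 0 = c from RingHom.congr_fun h7 c) ▸ h9
  · obtain ⟨u, h6, h7⟩ := h5 t'
    refine ⟨u, h6, (sup_le (Ideal.span_le.2 fun w hw => ?_) (le_sup_of_le_right (Ideal.span_mono
      fun y hy => List.mem_cons_of_mem _ hy)) : _ ≤ _ ⊔ Ideal.span {y | y ∈ X t :: ys}) h7⟩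
    obtain ⟨a, ha, b, hb, rfl⟩ := Submodule.mem_sup.1 hw
    obtain ⟨c, rfl⟩ := Submodule.mem_span_singleton.1 hb
    exact Submodule.add_mem_sup (Ideal.subset_span ha)
      (Submodule.smul_of_tower_mem _ c (Ideal.subset_span List.mem_cons_self))

theorem Gr.main (h : Gr K A π) {xs : List (MvPolynomial τ R)} (hr : Reg (A := A) xs 1)
    (hX : ∀ t, X t ∈ A 1) (hx : ∀ x ∈ xs, (∃ t, x = X t) ∨ ∃ u, x = C u ∧ C u ∈ A 1)
    (hA : ∀ w ∈ A 1, ∃ l u, C u ∈ A 1 ∧ form τ K R (l, u) = w) {ι : Type}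
    {I : ι → Ideal (MvPolynomial τ R)} (hI : ∀ k, I k ≤ Ideal.span {r | r ∈ I k ∧ r ∈ A 1})
    (s : Finset ι) (hs : ∀ s' ⊆ s, s'.Nonempty → LR A (∏ k ∈ s', I k) s'.card ∨
      ∃ z, C z ∈ A 1 ∧ ∀ u, C u ∈ A 1 →
        u ∈ (Ideal.span (insert z {u | C u ∈ A 1 ∧ C u ∈ ∑ k ∈ s', I k})).radical) :
    LR A (∏ k ∈ s, I k) s.card := by
  classical
  induction s using Finset.strongInduction with
  | H s ih =>
  rcases s.eq_empty_or_nonempty with rfl | hne
  · simpa using h.lr_top
  rcases hs s le_rfl hne with h1 | ⟨z, hz, h1⟩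
  · exact h1
  have hle : ∀ k ∈ s, I k ≤ ∑ k ∈ s, I k := fun k hk =>
    Finset.single_le_sum (f := I) (fun _ _ => bot_le) hk
  obtain ⟨ys, h2, h3, h4⟩ := chain hX (A 1 ⊓ (∑ k ∈ s, I k).restrictScalars K)
    (fun w hw => hA w hw.1) (∏ k ∈ s, I k) fun θ hθ => by
      refine (map_prod (Ideal.mapHom θ) _ _).trans_le (le_of_le_of_eq (Finset.prod_le_prod'
        fun k hk => (Ideal.map_mono (hI k)).trans ?_) (map_prod (Ideal.mapHom _) _ _).symm)
      rw [Ideal.map_span, Ideal.span_le]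
      rintro _ ⟨r, hr, rfl⟩
      rw [hθ r ⟨hr.2, hle k hk hr.1⟩]
      exact Ideal.mem_map_of_mem _ hr.1
  have hc : (s.card : ℤ) = (s.card - 1 : ℕ) + 1 := by have := hne.card_pos; omega
  have h5 : ∑ k ∈ s, I k ≤ Ideal.span {t | t ∈ A 1 ∧ ∃ k ∈ s, t ∈ I k} := by
    rw [Ideal.sum_eq_sup]
    exact Finset.sup_le fun k hk => (hI k).trans (Ideal.span_mono fun r hr => ⟨hr.2, k, hk, hr.1⟩)
  have h6 : ∀ u, C u ∈ A 1 → C u ∈ (Ideal.span {t | t ∈ A 1 ∧ ∃ k ∈ s, t ∈ I k} ⊔
      Ideal.span {y | y ∈ ys ++ [C z]}).radical := fun u hu => by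
    refine Ideal.radical_mono (Ideal.map_le_iff_le_comap.2 (Ideal.span_le.2 ?_))
      (Ideal.map_radical_le _ (Ideal.mem_map_of_mem C (h1 u hu)))
    rintro v (rfl | hv)
    · exact Ideal.mem_sup_right (Ideal.subset_span (by simp))
    · exact Ideal.mem_sup_left (h5 hv.2)
  rw [hc]
  refine h.core (fun x hx' => ?_) hr (Int.natCast_nonneg _) (hc ▸ h.prod_le hI s)
    (T := {t | t ∈ A 1 ∧ ∃ k ∈ s, t ∈ I k}) ?_ h2 h3 hz fun x hx' => ?_
  · rcases hx x hx' with ⟨t, rfl⟩ | ⟨u, rfl, hu⟩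
    exacts [hX t, hu]
  · rintro t ⟨ht, k, hk, ht'⟩
    refine ⟨ht, ∏ j ∈ s.erase k, I j, ?_, ?_, fun r hr => ?_⟩
    · rw [← Finset.card_erase_of_mem hk]
      exact ih _ (Finset.erase_ssubset hk) fun s' hs' => hs s' (hs'.trans (s.erase_subset k))
    · rw [← Finset.mul_prod_erase s I hk]; exact Ideal.mul_le_right
    · rw [← Finset.mul_prod_erase s I hk]; exact Ideal.mul_mem_mul ht' hr
  · rcases hx x hx' with ⟨t, rfl⟩ | ⟨u, rfl, hu⟩
    · obtain ⟨u, h7, h8⟩ := h4 t
      have := sub_mem (Ideal.le_radical ((sup_le_sup (Ideal.span_le.2 fun w hw => h5 hw.2)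
        (Ideal.span_mono fun y hy => List.mem_append_left [C z] hy)) h8)) (h6 u h7)
      rwa [add_sub_cancel_right] at this
    · exact h6 u hu

theorem mem_Ap_one {υ : Type} [Fintype υ] {p : MvPolynomial υ K} (hp : p ∈ Ap K υ 1) :
    ∃ l : υ → K, ∑ t, l t • X t = p := by
  have : p ∈ homogeneousSubmodule υ K 1 := (mem_Ap (n := 1)).1 hp
  rwa [homogeneousSubmodule_one_eq_span_X, Submodule.mem_span_range_iff_exists_fun] at this

theorem conca_herzog {ι : Type} {I : ι → Ideal (MvPolynomial τ K)}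
    (hI : ∀ k, I k ≤ Ideal.span {r | r ∈ I k ∧ r ∈ Ap K τ 1}) (s : Finset ι) :
    LR (Ap K τ) (∏ k ∈ s, I k) s.card := by
  obtain ⟨π, h⟩ := gr_poly K τ
  refine h.main (xs := Finset.univ.toList.map X) (fun L hL i e he => reg_poly h _
    (Finset.nodup_toList _) (by simp) L hL i e (by omega)) X_mem (fun x hx => ?_) (fun w hw => ?_)
    hI s fun s' _ _ => Or.inr ⟨0, by simp, fun u hu => ?_⟩
  · obtain ⟨t, -, rfl⟩ := List.mem_map.1 hx
    exact Or.inl ⟨t, rfl⟩
  · obtain ⟨l, rfl⟩ := mem_Ap_one hw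
    exact ⟨l, 0, by simp, by simp [form_apply]⟩
  · have := (h.self (h.alg u)).symm.trans (h.ne hu (by norm_num))
    rw [(map_eq_zero _).1 this]
    exact zero_mem _

theorem Gr.free (h : Gr K A π) (hX : ∀ t, X t ∈ A 1)
    (hA : ∀ w ∈ A 1, ∃ l u, C u ∈ A 1 ∧ form τ K R (l, u) = w) {ι : Type}
    {I : ι → Ideal (MvPolynomial τ R)} (hI : ∀ k, I k ≤ Ideal.span {r | r ∈ I k ∧ r ∈ A 1})
    (s : Finset ι) (hs : ∀ u, C u ∈ A 1 → C u ∈ ∑ k ∈ s, I k → u = 0) :
    LR A (∏ k ∈ s, I k) s.card := by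
  classical
  let V : Submodule K R := (A 1).comap (IsScalarTower.toAlgHom K R _).toLinearMap
  let T : Submodule K ((τ → K) × V) := ((∑ k ∈ s, I k).restrictScalars K).comap
    ((form τ K R).comp (LinearMap.id.prodMap V.subtype))
  obtain ⟨g, hg⟩ := LinearMap.exists_leftInverse_of_injective (K := K) (V := T) (V' := τ → K)
    ((LinearMap.fst K (τ → K) V).comp T.subtype) (LinearMap.ker_eq_bot'.2 (by
      rintro ⟨⟨l, u⟩, h1⟩ (rfl : l = 0)
      have h2 : u = 0 := Subtype.ext (hs u u.2 (by simpa [T, form_apply] using h1))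
      subst h2
      rfl))
  let μ : (τ → K) →ₗ[K] V := ((LinearMap.snd K _ _).comp T.subtype).comp g
  let θ : (τ → R) → MvPolynomial τ R →ₐ[R] MvPolynomial τ R := fun c => aeval fun t => X t + C (c t)
  have h1 : ∀ c c', c + c' = 0 → ∀ p, θ c (θ c' p) = p := fun c c' hc =>
    AlgHom.congr_fun (φ₁ := (θ c).comp (θ c')) (φ₂ := AlgHom.id _ _) (algHom_ext fun t => by
      simp [θ, add_assoc, ← C_add, show c t + c' t = 0 from congrFun hc t])
  let c : τ → R := fun t => μ (Pi.single t 1)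
  let ψ : MvPolynomial τ K →+* MvPolynomial τ R :=
    (θ c : MvPolynomial τ R →+* _).comp (MvPolynomial.map (algebraMap K R))
  have h2 : ψ.Flat := (flat_map τ).comp (RingHom.Flat.of_bijective
    (Function.bijective_iff_has_inverse.2 ⟨θ (-c), h1 _ _ (neg_add_cancel c),
      h1 _ _ (add_neg_cancel c)⟩))
  have h3 : ∀ t, ψ (X t) = X t + C (c t) := fun t => by simp [ψ, θ]
  have h4 : ∀ (a : K) p, ψ (a • p) = a • ψ p := fun a p => by
    simp [ψ, θ, Algebra.smul_def]
  have h5 : ∀ e, ∀ p ∈ Ap K τ e, ψ p ∈ A e := fun e p hp => by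
    by_cases he : e < 0
    · rw [Ap_neg hp he, map_zero]; exact zero_mem _
    obtain ⟨n, rfl⟩ := Int.eq_ofNat_of_zero_le (not_lt.1 he)
    have h6 : p ∈ homogeneousSubmodule τ K n := mem_Ap.1 hp
    rw [← homogeneousSubmodule_one_pow, homogeneousSubmodule_one_eq_span_X] at h6
    clear hp he
    induction h6 using Submodule.pow_induction_on_left' with
    | algebraMap r => rw [Algebra.algebraMap_eq_smul_one, h4, map_one]; exact (A 0).smul_mem r h.one
    | add x y i _ _ hx hy => rw [map_add]; exact add_mem hx hy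
    | mem_mul m hm i x _ hx =>
      obtain ⟨l, rfl⟩ := (Submodule.mem_span_range_iff_exists_fun K).1 hm
      rw [map_mul, Nat.cast_succ, add_comm]
      refine h.mul ?_ hx
      simp only [map_sum, h4, h3]
      exact sum_mem fun t _ => (A 1).smul_mem _ (add_mem (hX t) (μ _).2)
  have h6 := (conca_herzog (I := fun k => Ideal.span {p | p ∈ Ap K τ 1 ∧ ψ p ∈ I k})
    (fun k => Ideal.span_mono fun p hp => ⟨Ideal.subset_span hp, hp.1⟩) s).map h2 h5
  rwa [show Ideal.map ψ _ = _ from map_prod (Ideal.mapHom ψ) _ _,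
    Finset.prod_congr rfl fun k hk => (le_antisymm ?_ ((hI k).trans ?_) : _ = I k)] at h6
  · exact Ideal.map_le_iff_le_comap.2 (Ideal.span_le.2 fun p hp => hp.2)
  · refine Ideal.span_le.2 fun w hw => ?_
    obtain ⟨l, u, h7, rfl⟩ := hA w hw.2
    have h8 : μ l = ⟨u, h7⟩ := congrArg (fun x : T => x.1.2) (LinearMap.congr_fun hg
      ⟨(l, ⟨u, h7⟩), Finset.single_le_sum (f := I) (fun _ _ => bot_le) hk hw.1⟩)
    have h9 : ψ (∑ t, l t • X t) = form τ K R (l, u) := by
      have : u = ∑ t, l t • c t := by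
        have := congrArg Subtype.val h8
        rw [pi_eq_sum_univ' l, map_sum] at this
        simpa [c] using this.symm
      simp only [map_sum, h4, h3, smul_add, Finset.sum_add_distrib, form_apply, this]
      exact congrArg _ (Finset.sum_congr rfl fun t _ =>
        (map_smul (IsScalarTower.toAlgHom K R (MvPolynomial τ R)) _ _).symm)
    exact h9 ▸ Ideal.mem_map_of_mem ψ (Ideal.subset_span
      ⟨sum_mem fun t _ => (Ap K τ 1).smul_mem _ (X_mem t), h9 ▸ hw.1⟩)

end Pool.Agent.MP_36bee5_al.Tr
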