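import Pool.Agent.MP_36bee5_al.TrGr

set_option autoImplicit false

/-!
The total complex of a linear complex, and regularity bounds through cones on powers.
-/

namespace Pool.Agent.MP_36bee5_al.Tr

open Matrix

variable {K : Type} [Field K] {R : Type} [CommRing R] [Algebra K R] {A : ℤ → Submodule K R}
  {π : ℤ → R →+ R}

/-- Homogeneity as a predicate. -/
def Ah (A : ℤ → Submodule K R) (k : ℕ) (r : R) : Prop := r ∈ A k

/-- The homogeneous parts of an ideal. -/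
def cut (A : ℤ → Submodule K R) (P : Ideal R) (e : ℤ) : AddSubgroup R where
  carrier := {r | r ∈ A e ∧ r ∈ P}
  add_mem' h h' := ⟨add_mem h.1 h'.1, add_mem h.2 h'.2⟩
  zero_mem' := ⟨zero_mem _, zero_mem _⟩
  neg_mem' h := ⟨neg_mem h.1, neg_mem h.2⟩

theorem Gr.cut_mul (h : Gr K A π) (P : Ideal R) (k : ℕ) (r : R) (hr : Ah A k r) (e : ℤ) (c : R)
    (hc : c ∈ cut A P e) : r • c ∈ cut A P (e + k) :=
  ⟨by rw [add_comm]; exact h.mul hr hc.1, P.mul_mem_left r hc.2⟩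

theorem conc_bot : conc (cut A ⊥) = fun _ _ => ⊥ := by
  funext i e
  refine eq_bot_iff.2 fun c hc => ?_
  by_cases hi : i = 0
  · exact ((mem_conc.1 hc).1 hi).2
  · exact (mem_conc.1 hc).2 hi

theorem Gr.conc_mul (h : Gr K A π) {P : Ideal R} {k e e' i : ℤ} {r c : R} (hr : r ∈ A k)
    (hc : c ∈ conc (cut A ⊤) i e) (hP : r ∈ P) (he : e' = e + k) : r * c ∈ conc (cut A P) i e' :=
  mem_conc.2 ⟨fun hi => ⟨by rw [he, add_comm]; exact h.mul hr ((mem_conc.1 hc).1 hi).1,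
    P.mul_mem_right _ hP⟩, fun hi => by rw [(mem_conc.1 hc).2 hi, mul_zero]⟩

theorem Gr.sup (h : Gr K A π) {P : Ideal R} (hP : ∀ e, ∀ r ∈ P, π e r ∈ P) {f : R} {N : ℤ}
    (hf : f ∈ A N) : ∀ e, ∀ r ∈ P ⊔ Ideal.span {f}, π e r ∈ P ⊔ Ideal.span {f} := by
  intro e r hr
  obtain ⟨p, hp, q, hq, rfl⟩ := Submodule.mem_sup.1 hr
  rw [map_add]
  exact Submodule.add_mem_sup (hP e p hp) (h.closed (by rintro _ rfl; exact ⟨N, hf⟩) e hq)

theorem Gr.step (h : Gr K A π) {P : Ideal R} (hP : ∀ e, ∀ r ∈ P, π e r ∈ P) {f : R} {N : ℕ}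
    (hf : f ∈ A N) (hr : ∀ c, f * c ∈ P → c ∈ P) {L : List (R × ℕ)} (hL : ∀ p ∈ L, Ah A p.2 p.1)
    {i e : ℤ} (hV : V L (DG.triv R R) (conc (cut A ⊤)) (conc (cut A (P ⊔ Ideal.span {f})))
      (i + 1) (e + N)) : V ((f, N) :: L) (DG.triv R R) (conc (cut A ⊤)) (conc (cut A P)) i e := by
  refine V.reg hL (h.cut_mul ⊤) (h.cut_mul P) (h.cut_mul _)
    (fun e c hc => ⟨hc.1, Ideal.mem_sup_left hc.2⟩) (fun e c hc => ⟨hc.1, trivial⟩) hf
    (fun e c hc => ⟨(h.cut_mul ⊤ N f hf e c hc).1, Ideal.mem_sup_right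
      (Ideal.mul_mem_right _ _ (Ideal.mem_span_singleton_self f))⟩) (fun e c hc => ?_)
    (fun e c hc h1 => ⟨hc.1, hr c h1.2⟩) hV
  obtain ⟨p, hp, q, hq, h1⟩ := Submodule.mem_sup.1 hc.2
  obtain ⟨a, rfl⟩ := Ideal.mem_span_singleton'.1 hq
  have h2 : f • π e a - c = -π (e + N) p := by
    rw [← h.self hc.1, ← h1, map_add, h.hom e a hf, smul_eq_mul]; ring
  exact ⟨π e a, ⟨h.mem _ _, trivial⟩, by rw [h2]; exact neg_mem ⟨h.mem _ _, hP _ _ hp⟩⟩

/-- A bound for the regularity, through cones on powers of the elements of `xs`. -/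
def Reg {A : ℤ → Submodule K R} (xs : List R) (ρ : ℤ) : Prop :=
  ∀ L, Pows xs L → ∀ i e, i + 1 + ρ < e →
    V L (DG.triv R R) (conc (cut A ⊤)) (fun _ _ => ⊥) i e

theorem Pows.hom (h : Gr K A π) {xs : List R} (hx : ∀ x ∈ xs, x ∈ A 1) {L : List (R × ℕ)}
    (hL : Pows xs L) : ∀ p ∈ L, Ah A p.2 p.1 := by
  induction hL with
  | nil => simp
  | cons h1 _ ih =>
    obtain ⟨M, rfl⟩ := h1
    intro p hp
    rcases List.mem_cons.1 hp with rfl | hp
    · exact h.pow (hx _ List.mem_cons_self) _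
    · exact ih (fun x hx' => hx x (List.mem_cons_of_mem _ hx')) p hp

theorem X_mem {υ : Type} (a : υ) : (MvPolynomial.X a : MvPolynomial υ K) ∈ Ap K υ 1 :=
  (mem_Ap (n := 1)).2 (MvPolynomial.isHomogeneous_X _ _)

open MvPolynomial in
theorem reg_poly {υ : Type} [Fintype υ] {π : ℤ → MvPolynomial υ K →+ MvPolynomial υ K}
    (h : Gr K (Ap K υ) π) (l : List υ) (hl : l.Nodup) (hl' : ∀ a, a ∈ l) :
    Reg (A := Ap K υ) (l.map X) 0 := by
  classical
  have key : ∀ l : List υ, l.Nodup → ∀ (T : Set (υ →₀ ℕ)) (w : ℕ), (∀ μ ∈ T, ∀ a ∈ l, μ a = 0) →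
      (∀ μ : υ →₀ ℕ, (∀ ν ∈ T, ¬ ν ≤ μ) → ∑ b with b ∉ l, μ b ≤ w) →
      ∀ L : List (MvPolynomial υ K × ℕ), Pows (l.map X) L → ∀ i e : ℤ, i + 1 + w < e →
      V L (DG.triv _ (MvPolynomial υ K)) (conc (cut (Ap K υ) ⊤))
        (conc (cut (Ap K υ) (Ideal.span ((fun μ => monomial μ (1 : K)) '' T)))) i e := by
    intro l
    induction l with
    | nil =>
      intro _ T w _ h2 L hL i e he
      obtain rfl := List.forall₂_nil_left_iff.1 hL
      intro c hc _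
      refine ⟨0, zero_mem _, ?_⟩
      rw [map_zero, zero_sub]
      refine neg_mem (mem_conc.2 ⟨fun hi => ⟨((mem_conc.1 hc).1 hi).1,
        mem_ideal_span_monomial_image.2 fun μ hμ => ?_⟩, (mem_conc.1 hc).2⟩)
      obtain ⟨e, rfl⟩ := Int.eq_ofNat_of_zero_le (show 0 ≤ e by omega)
      have h3 := (mem_Ap.1 ((mem_conc.1 hc).1 hi).1) (mem_support_iff.1 hμ)
      by_contra hn
      have h4 := h2 μ fun ν hν h5 => hn ⟨ν, hν, h5⟩
      replace h3 : μ.degree = e := by rw [Finsupp.degree_eq_weight_one]; exact h3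
      rw [Finsupp.degree_eq_sum] at h3
      simp only [List.not_mem_nil, not_false_eq_true, Finset.filter_true] at h4
      omega
    | cons a l ih =>
      intro hl T w h1 h2 L hL i e he
      obtain ⟨p, L, ⟨M, rfl⟩, hL', rfl⟩ := List.forall₂_cons_left_iff.1 hL
      replace hL' : Pows (l.map X) L := hL'
      obtain ⟨ha, hl⟩ := List.nodup_cons.1 hl
      refine h.step (fun e r hr => h.closed ?_ e hr) (h.pow (X_mem a) (M + 1)) (fun c hc => ?_)
        (hL'.hom h (by simp [X_mem])) ?_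
      · rintro _ ⟨μ, _, rfl⟩
        exact ⟨_, mem_Ap.2 (isHomogeneous_monomial (d := μ) (1 : K) rfl)⟩
      · refine mem_ideal_span_monomial_image.2 fun μ hμ => ?_
        obtain ⟨ν, hν, h3⟩ := mem_ideal_span_monomial_image.1 hc (Finsupp.single a (M + 1) + μ) (by
          rw [mem_support_iff, X_pow_eq_monomial, coeff_monomial_mul, one_mul]
          exact mem_support_iff.1 hμ)
        refine ⟨ν, hν, fun b => ?_⟩
        by_cases hb : b = a
        · rw [hb, h1 ν hν a List.mem_cons_self]; exact Nat.zero_le _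
        · simpa [Finsupp.single_eq_of_ne hb] using h3 b
      · have := ih hl (insert (Finsupp.single a (M + 1)) T) (w + M) (by
          rintro μ (rfl | hμ) b hb
          · exact Finsupp.single_eq_of_ne fun h => ha (h ▸ hb)
          · exact h1 μ hμ b (List.mem_cons_of_mem _ hb)) (fun μ hμ => by
            have h3 := h2 μ fun ν hν => hμ ν (Set.mem_insert_of_mem _ hν)
            have h4 := hμ _ (Set.mem_insert _ _)
            rw [Finsupp.single_le_iff] at h4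
            have h5 : (Finset.univ.filter fun b => b ∉ l) =
                insert a (Finset.univ.filter fun b => b ∉ a :: l) := by
              ext b
              by_cases hb : b = a <;> simp [hb, ha]
            rw [h5, Finset.sum_insert (by simp)]
            omega) L hL' (i + 1) (e + (M + 1 : ℕ)) (by push_cast; omega)
        rwa [Set.image_insert_eq, Ideal.span_insert, sup_comm, ← X_pow_eq_monomial] at this
  intro L hL i e he
  have := key l hl ∅ 0 (by simp) (by simp [hl']) L hL i e (by simpa using he)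
  rwa [Set.image_empty, Ideal.span_empty, conc_bot] at this

/-- The total complex. -/
noncomputable abbrev Lin.tot {X : Cx R} {d : ℤ} (hX : Lin A X d) : DG R where
  E := R × ((i : ℕ) → Fin (X.b i) → R)
  d :=
    { toFun := fun c => (∑ j, c.2 0 j * X.g j, fun i => X.D i *ᵥ c.2 (i + 1))
      map_add' := fun p q => Prod.ext (by simp [add_mul, Finset.sum_add_distrib])
        (funext fun i => Matrix.mulVec_add (X.D i) (p.2 (i + 1)) (q.2 (i + 1)))
      map_smul' := fun r p => Prod.ext (by simp [Finset.mul_sum, mul_assoc])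
        (funext fun i => Matrix.mulVec_smul (X.D i) r (p.2 (i + 1))) }
  dd c := Prod.ext (Cx.mem0.1 (hX.cx 0 _)) (funext fun i => Cx.mem1.1 (hX.cx (i + 1) _))

variable {X : Cx R} {d : ℤ}

/-- The graded pieces of the total complex with last component in `Q`. -/
def Lin.F (hX : Lin A X d) (Q : Ideal R) : Fam hX.tot := fun i e =>
  { carrier := {c | c.1 ∈ conc (cut A Q) i e ∧
      ∀ (k : ℕ) j, c.2 k j ∈ conc (cut A ⊤) (i - k - 1) (e - d - k)}
    add_mem' := fun h h' => ⟨add_mem h.1 h'.1, fun k j => add_mem (h.2 k j) (h'.2 k j)⟩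
    zero_mem' := ⟨zero_mem _, fun _ _ => zero_mem _⟩
    neg_mem' := fun h => ⟨neg_mem h.1, fun k j => neg_mem (h.2 k j)⟩ }

/-- The truncation of the total complex at the first cycles. -/
def Lin.Y (hX : Lin A X d) : Fam hX.tot := fun i e =>
  { carrier := {c | c ∈ hX.F ⊥ i e ∧ (hX.tot.d c).1 = 0}
    add_mem' := fun h h' => ⟨add_mem h.1 h'.1, by
      rw [map_add, Prod.fst_add, h.2, h'.2, add_zero]⟩
    zero_mem' := ⟨zero_mem _, by rw [map_zero]; rfl⟩
    neg_mem' := fun h => ⟨neg_mem h.1, by rw [map_neg, Prod.fst_neg, h.2, neg_zero]⟩ }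

theorem Lin.F_mono (hX : Lin A X d) {Q Q' : Ideal R} (h : Q ≤ Q') : hX.F Q ≤ hX.F Q' :=
  fun _ _ _ hc => ⟨conc_mono (B := cut A Q) (B' := cut A Q') (fun _ _ hr => ⟨hr.1, h hr.2⟩) _ _ hc.1,
    hc.2⟩

theorem Lin.Y_le (hX : Lin A X d) (Q : Ideal R) : hX.Y ≤ hX.F Q :=
  fun _ _ _ hc => hX.F_mono bot_le _ _ hc.1

theorem Lin.Y_fst (hX : Lin A X d) {i e : ℤ} {c : hX.tot.E} (hc : c ∈ hX.Y i e) : c.1 = 0 := by
  have := hc.1.1
  rwa [conc_bot] at this

theorem Gr.dF (h : Gr K A π) (hX : Lin A X d) {Q : Ideal R} {i e : ℤ} {c : hX.tot.E}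
    (hc : c ∈ hX.F Q (i + 1) e) (k : ℕ) (j : Fin (X.b k)) :
    (hX.tot.d c).2 k j ∈ conc (cut A ⊤) (i - k - 1) (e - d - k) := by
  show ∑ q, X.D k j q * c.2 (k + 1) q ∈ _
  refine sum_mem fun q _ => h.conc_mul (hX.D k j q) (e := e - d - (k + 1 : ℕ)) ?_
    Submodule.mem_top (by push_cast; ring)
  have := hc.2 (k + 1) q
  rwa [show i + 1 - (k + 1 : ℕ) - 1 = i - k - 1 by push_cast; ring] at this

theorem Gr.dF1 (h : Gr K A π) (hX : Lin A X d) {Q Q' : Ideal R} (hg : ∀ j, X.g j ∈ Q) {i e : ℤ}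
    {c : hX.tot.E} (hc : c ∈ hX.F Q' (i + 1) e) : (hX.tot.d c).1 ∈ conc (cut A Q) i e := by
  show ∑ q, c.2 0 q * X.g q ∈ _
  refine sum_mem fun q _ => ?_
  have := hc.2 0 q
  rw [show i + 1 - (0 : ℕ) - 1 = i by simp] at this
  rw [mul_comm]
  exact h.conc_mul (hX.g q) this (hg q) (by simp)

theorem Gr.mulF (h : Gr K A π) (hX : Lin A X d) (Q : Ideal R) (k : ℕ) (r : R) (hr : Ah A k r)
    (i e : ℤ) (c : hX.tot.E) (hc : c ∈ hX.F Q i e) : r • c ∈ hX.F Q i (e + k) :=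
  ⟨(ok_conc (h.cut_mul Q)).mul k r hr _ _ _ hc.1,
    fun l j => h.conc_mul hr (hc.2 l j) trivial (by ring)⟩

theorem Gr.okF (h : Gr K A π) (hX : Lin A X d) {Q : Ideal R} (hg : ∀ j, X.g j ∈ Q) :
    Ok (Ah A) (hX.F Q) :=
  ⟨fun _ _ _ hc => ⟨h.dF1 hX hg hc, h.dF hX hc⟩, h.mulF hX Q⟩

theorem Gr.okY (h : Gr K A π) (hX : Lin A X d) : Ok (Ah A) hX.Y :=
  ⟨fun i e c hc => ⟨⟨by rw [hc.2]; exact zero_mem _, h.dF hX hc.1⟩, by rw [hX.tot.dd]; rfl⟩,
    fun k r hr i e c hc => ⟨h.mulF hX ⊥ k r hr i e c hc.1, by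
      rw [map_smul, Prod.smul_fst, hc.2, smul_zero]⟩⟩

/-- A vector as an element of the total complex. -/
noncomputable def Lin.ins (hX : Lin A X d) (i : ℕ) (v : Fin (X.b i) → R) : hX.tot.E :=
  (0, Pi.single (M := fun i => Fin (X.b i) → R) i v)

theorem Lin.ins_mem (hX : Lin A X d) (Q : Ideal R) {i : ℕ} {v : Fin (X.b i) → R} {e : ℤ}
    (hv : ∀ j, v j ∈ A (e - d - i)) : hX.ins i v ∈ hX.F Q (i + 1) e := by
  refine ⟨zero_mem _, fun k j => ?_⟩
  show Pi.single (M := fun i => Fin (X.b i) → R) i v k j ∈ _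
  by_cases hk : k = i
  · subst hk
    rw [Pi.single_eq_same]
    exact mem_conc.2 ⟨fun _ => ⟨hv j, trivial⟩, fun h => absurd (by ring) h⟩
  · rw [Pi.single_eq_of_ne hk]; exact zero_mem _

theorem Lin.d_ins (hX : Lin A X d) (i : ℕ) (w : Fin (X.b (i + 1)) → R) :
    hX.tot.d (hX.ins (i + 1) w) = hX.ins i (X.D i *ᵥ w) := by
  refine Prod.ext ?_ (funext fun k => ?_)
  · show ∑ j, Pi.single (M := fun i => Fin (X.b i) → R) (i + 1) w 0 j * X.g j = 0
    rw [Pi.single_eq_of_ne (by omega)]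
    simp
  · show X.D k *ᵥ Pi.single (M := fun i => Fin (X.b i) → R) (i + 1) w (k + 1) =
      Pi.single (M := fun i => Fin (X.b i) → R) i _ k
    by_cases hk : k = i
    · subst hk; rw [Pi.single_eq_same, Pi.single_eq_same]
    · rw [Pi.single_eq_of_ne (by omega), Pi.single_eq_of_ne hk, Matrix.mulVec_zero]

theorem Lin.d_ins0 (hX : Lin A X d) (v : Fin (X.b 0) → R) :
    hX.tot.d (hX.ins 0 v) = (∑ j, v j * X.g j, 0) := by
  refine Prod.ext rfl (funext fun k => ?_)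
  show X.D k *ᵥ Pi.single (M := fun i => Fin (X.b i) → R) 0 v (k + 1) = 0
  rw [Pi.single_eq_of_ne (by omega), Matrix.mulVec_zero]

theorem Lin.d_ins_eq (hX : Lin A X d) {i : ℕ} {v : Fin (X.b i) → R} :
    hX.tot.d (hX.ins i v) = 0 ↔ v ∈ X.cyc i := by
  rcases i with _ | i
  · rw [hX.d_ins0, Cx.mem0]
    exact ⟨fun h => congrArg Prod.fst h, fun h => by rw [h]; rfl⟩
  · rw [hX.d_ins, Cx.mem1]
    refine ⟨fun h => ?_, fun h => by rw [h]; exact Prod.ext rfl (Pi.single_zero i)⟩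
    have := congrFun (congrArg Prod.snd h) i
    exact (Pi.single_eq_same (M := fun i => Fin (X.b i) → R) i _).symm.trans this

theorem Lin.eq_ins (hX : Lin A X d) {i : ℕ} {e : ℤ} {c : hX.tot.E} {Q : Ideal R}
    (hc : c ∈ hX.F Q (i + 1) e) : (∀ j, c.2 i j ∈ A (e - d - i)) ∧ c = hX.ins i (c.2 i) := by
  refine ⟨fun j => ((mem_conc.1 (hc.2 i j)).1 (by ring)).1,
    Prod.ext ((mem_conc.1 hc.1).2 (by omega)) (funext fun k => ?_)⟩
  show c.2 k = Pi.single (M := fun i => Fin (X.b i) → R) i _ k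
  by_cases hk : k = i
  · subst hk; rw [Pi.single_eq_same]
  · rw [Pi.single_eq_of_ne hk]
    exact funext fun j => (mem_conc.1 (hc.2 k j)).2 (by omega)

theorem Lin.kill (hX : Lin A X d) {u : R} {i e e' : ℤ}
    (h : ∀ k : ℕ, i = k → ∀ v ∈ X.cyc k, (∀ j, v j ∈ A (e - d - k)) →
      ∃ w, (∀ j, w j ∈ A (e' - d - (k + 1 : ℕ))) ∧ X.D k *ᵥ w = u • v) {c : hX.tot.E}
    (hc : c ∈ hX.Y (i + 1) e) (hd : hX.tot.d c = 0) :
    ∃ b ∈ hX.Y (i + 1 + 1) e', hX.tot.d b = u • c := by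
  by_cases hi : i < 0
  · refine ⟨0, zero_mem _, ?_⟩
    have : c = 0 := Prod.ext (hX.Y_fst hc) (funext fun k => funext fun j =>
      (mem_conc.1 (hc.1.2 k j)).2 (by omega))
    rw [this, map_zero, smul_zero]
  obtain ⟨k, rfl⟩ := Int.eq_ofNat_of_zero_le (not_lt.1 hi)
  obtain ⟨h1, h2⟩ := hX.eq_ins hc.1
  rw [h2] at hd
  obtain ⟨w, h3, h4⟩ := h k rfl _ (hX.d_ins_eq.1 hd) h1
  refine ⟨hX.ins (k + 1) w, ⟨by exact_mod_cast hX.ins_mem ⊥ h3, by rw [hX.d_ins]; rfl⟩, ?_⟩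
  rw [hX.d_ins, h4]
  conv_rhs => rw [h2]
  exact Prod.ext (smul_zero u).symm (Pi.single_smul (f := fun i => Fin (X.b i) → R) k u _)

theorem Lin.hz (hX : Lin A X d) {i e : ℤ} (h : Lf A X (e - d - i - 1)) :
    Hz hX.tot hX.Y (fun _ _ => ⊥) i e := fun c hc hd => by
  obtain ⟨b, hb, h1⟩ := hX.kill (u := 1) (e' := e) (by
    rintro k rfl v hv hv'
    obtain ⟨w, h1, h2⟩ := h k v hv (by rwa [sub_add_cancel])
    exact ⟨w, by push_cast; rwa [← sub_sub], by rw [h2, one_smul]⟩) hc hd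
  exact ⟨b, hb, by rw [h1, one_smul, sub_self]; exact zero_mem _⟩

theorem Lin.lf (hX : Lin A X d) (h : ∀ i e, 0 ≤ i → Hz hX.tot hX.Y (fun _ _ => ⊥) i e) (k : ℤ) :
    Lf A X k := fun i v hv hv' => by
  have h0 := hX.d_ins_eq.2 hv
  obtain ⟨b, hb, h1⟩ := h i (k + 1 + i + d) (Int.natCast_nonneg i) (hX.ins i v)
    ⟨hX.ins_mem ⊥ (by rwa [add_sub_cancel_right, add_sub_cancel_right]), by rw [h0]; rfl⟩ h0
  obtain ⟨h2, h3⟩ := hX.eq_ins (i := i + 1) (c := b) (by exact_mod_cast hb.1)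
  refine ⟨b.2 (i + 1), fun j => ?_, ?_⟩
  · have := h2 j
    rwa [show k + 1 + i + d - d - (i + 1 : ℕ) = k by push_cast; ring] at this
  · have := congrFun (congrArg Prod.snd (sub_eq_zero.1 (AddSubgroup.mem_bot.1 h1))) i
    exact this.trans (Pi.single_eq_same (M := fun i => Fin (X.b i) → R) i _)

theorem Gr.acyc (h : Gr K A π) (hX : Lin A X d) (i e : ℤ) :
    Hz hX.tot (hX.F (Ideal.span (Set.range X.g))) hX.Y i e := fun c hc hd => by
  have h0 := hX.Y_fst hd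
  have key : ∀ b ∈ hX.F (Ideal.span (Set.range X.g)) (i + 1 + 1) e, (hX.tot.d b).1 = c.1 →
      hX.tot.d b - c ∈ hX.Y (i + 1) e := fun b hb h1 =>
    ⟨⟨by rw [Prod.fst_sub, h1, sub_self]; exact zero_mem _, fun k j =>
      sub_mem (h.dF hX hb k j) (hc.2 k j)⟩, by
        rw [map_sub, hX.tot.dd, zero_sub, Prod.fst_neg, h0, neg_zero]⟩
  by_cases hi : i + 1 = 0
  · obtain ⟨h1, h2⟩ := (mem_conc.1 hc.1).1 hi
    obtain ⟨v, h3, h4⟩ := h.span hX.g (k := e - d) h2 (by rwa [sub_add_cancel])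
    have h5 : hX.ins 0 v ∈ hX.F (Ideal.span (Set.range X.g)) (i + 1 + 1) e := by
      rw [hi]; exact hX.ins_mem (i := 0) _ (by simpa using h3)
    exact ⟨_, h5, key _ h5 h4⟩
  · exact ⟨0, zero_mem _, key 0 (zero_mem _) (by
      rw [map_zero]; exact ((mem_conc.1 hc.1).2 hi).symm)⟩

theorem Lin.iso (hX : Lin A X d) {R' : Type} [CommRing R'] [Algebra K R'] {A' : ℤ → Submodule K R'}
    (φ : R →+* R') (hφ : ∀ e r', r' ∈ A' e ↔ ∃ r ∈ A e, φ r = r') {Q : Ideal R} {P : Ideal R'}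
    (hQ : ∀ r, r ∈ Q ↔ φ r ∈ P) (hg : ∀ j, X.g j ∈ Q) (h : Gr K A π) :
    Iso φ (C' := DG.triv R' R') (hX.F ⊤) (hX.F Q) (conc (cut A' ⊤)) (conc (cut A' P))
      (φ.toAddMonoidHom.comp (AddMonoidHom.fst _ _)) 1 0 0 := by
  have key : ∀ {Q : Ideal R} {P : Ideal R'}, (∀ r, r ∈ Q → φ r ∈ P) → ∀ i e r,
      r ∈ conc (cut A Q) i e → φ r ∈ conc (cut A' P) i e := fun hQ i e r hr =>
    mem_conc.2 ⟨fun hi => ⟨(hφ _ _).2 ⟨r, ((mem_conc.1 hr).1 hi).1, rfl⟩,
      hQ r ((mem_conc.1 hr).1 hi).2⟩, fun hi => by rw [(mem_conc.1 hr).2 hi, map_zero]⟩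
  refine ⟨by norm_num, fun r c => map_mul φ r c.1, ?_, ?_, ?_, ?_⟩
  · rintro i e _ _ rfl rfl c hc
    rw [add_zero, add_zero]
    exact key (fun _ _ => Submodule.mem_top) i e _ hc.1
  · rintro i e _ _ rfl rfl c hc
    rw [add_zero, add_zero] at hc ⊢
    by_cases hi : i = 0
    · obtain ⟨r, h1, rfl⟩ := (hφ _ _).1 ((mem_conc.1 hc).1 hi).1
      exact ⟨(r, 0), ⟨mem_conc.2 ⟨fun _ => ⟨h1, trivial⟩, fun h => absurd hi h⟩,
        fun _ _ => zero_mem _⟩, by
          show φ r - φ r ∈ _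
          rw [sub_self]; exact zero_mem _⟩
    · exact ⟨0, zero_mem _, by rw [(mem_conc.1 hc).2 hi, map_zero, sub_self]; exact zero_mem _⟩
  · rintro i e _ _ rfl rfl c hc
    rw [add_zero, add_zero]
    exact ⟨fun h => ⟨mem_conc.2 ⟨fun hi => ⟨((mem_conc.1 hc.1).1 hi).1,
      (hQ _).2 ((mem_conc.1 h).1 hi).2⟩, (mem_conc.1 hc.1).2⟩, hc.2⟩,
      fun h => key (fun r => (hQ r).1) i e _ h.1⟩
  · rintro i e _ _ rfl rfl c hc
    rw [add_zero, add_zero]
    show (0 : R') - (1 : ℤ) • φ (hX.tot.d c).1 ∈ _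
    rw [one_smul, zero_sub]
    exact neg_mem (key (fun r => (hQ r).1) i e _ (h.dF1 hX hg hc))

theorem mem_trunc {C : DG R} {F : Fam C} {n j e : ℤ} {c : C.E} :
    c ∈ (if j < n then F j e else ⊥) ↔ c ∈ F j e ∧ (n ≤ j → c = 0) := by
  split_ifs with h
  · exact ⟨fun hc => ⟨hc, fun h' => absurd h (not_lt.2 h')⟩, fun hc => hc.1⟩
  · exact ⟨fun hc => ⟨by rw [AddSubgroup.mem_bot.1 hc]; exact zero_mem _, fun _ => hc⟩,
      fun hc => hc.2 (not_lt.1 h)⟩

theorem Ok.trunc {B : ℕ → R → Prop} {C : DG R} {F : Fam C} (h : Ok B F) (n : ℤ) :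
    Ok B (C := C) fun j e => if j < n then F j e else ⊥ :=
  ⟨fun i e c hc => mem_trunc.2 ⟨h.dc _ _ _ (mem_trunc.1 hc).1, fun hi => by
      rw [(mem_trunc.1 hc).2 (by omega), map_zero]⟩,
    fun k r hr i e c hc => mem_trunc.2 ⟨h.mul k r hr _ _ _ (mem_trunc.1 hc).1, fun hi => by
      rw [(mem_trunc.1 hc).2 hi, smul_zero]⟩⟩

theorem Gr.tot (h : Gr K A π) (hX : Lin A X d) (hd : 1 ≤ d) {xs : List R} (hx : ∀ x ∈ xs, x ∈ A 1)
    {ρ : ℤ} (hr : Reg (A := A) xs ρ) {L : List (R × ℕ)} (hL : Pows xs L) {i e : ℤ}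
    (he : i + ρ + d < e) : V L hX.tot (hX.F ⊤) (fun _ _ => ⊥) i e := by
  have hL' := hL.hom h hx
  have hF := h.okF hX (Q := ⊤) fun _ => trivial
  refine V.filt (F := hX.F ⊤) (fun j hj e c hc => AddSubgroup.mem_bot.2 (Prod.ext
    ((mem_conc.1 hc.1).2 (by omega))
    (funext fun k => funext fun q => (mem_conc.1 (hc.2 k q)).2 (by omega)))) fun n => ?_
  rcases n with _ | k
  · have i1 : Iso (RingHom.id R) (C' := DG.triv R R)
        (fun j e => if j < (0 : ℕ) + 1 then hX.F ⊤ j e else ⊥)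
        (fun j e => if j < (0 : ℕ) then hX.F ⊤ j e else ⊥) (conc (cut A ⊤)) (fun _ _ => ⊥)
        (AddMonoidHom.fst _ _) 1 0 0 := by
      refine ⟨by norm_num, fun _ _ => rfl, ?_, ?_, ?_, ?_⟩
      · rintro i e _ _ rfl rfl c hc
        rw [add_zero, add_zero]
        exact (mem_trunc.1 hc).1.1
      · rintro i e _ _ rfl rfl c hc
        rw [add_zero, add_zero] at hc
        exact ⟨(c, 0), mem_trunc.2 ⟨⟨hc, fun _ _ => zero_mem _⟩, fun hi =>
          Prod.ext ((mem_conc.1 hc).2 (by push_cast at hi; omega)) rfl⟩, sub_self c⟩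
      · rintro i e _ _ rfl rfl c hc
        obtain ⟨h1, h2⟩ := mem_trunc.1 hc
        refine ⟨fun h => mem_trunc.2 ⟨h1, fun hi => ?_⟩, fun h => ?_⟩
        · by_cases h3 : i = 0
          · exact Prod.ext h (funext fun k => funext fun q => (mem_conc.1 (h1.2 k q)).2 (by omega))
          · exact h2 (by push_cast at hi ⊢; omega)
        · by_cases h3 : i = 0
          · rw [(mem_trunc.1 h).2 (by simp [h3])]; exact zero_mem _
          · exact (mem_conc.1 h1.1).2 h3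
      · rintro i e _ _ rfl rfl c hc
        obtain ⟨h1, h2⟩ := mem_trunc.1 hc
        show (0 : R) - (1 : ℤ) • (hX.tot.d c).1 = 0
        rw [one_smul, zero_sub, neg_eq_zero]
        by_cases h3 : i = 0
        · rw [h2 (by simp [h3]), map_zero]; rfl
        · exact (mem_conc.1 (hF.dc _ _ _ h1).1).2 h3
    exact (i1.iff' hL' (hF.trunc _) Ok.bot (add_zero i).symm (add_zero e).symm).2
      (hr L hL i e (by omega))
  · have i1 : Iso (RingHom.id R) (C' := DG.triv R (Fin (X.b k) → R))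
        (fun j e => if j < (k + 1 : ℕ) + 1 then hX.F ⊤ j e else ⊥)
        (fun j e => if j < (k + 1 : ℕ) then hX.F ⊤ j e else ⊥)
        (conc fun e => pw fun _ => cut A ⊤ e) (fun _ _ => ⊥)
        ((Pi.evalAddMonoidHom (fun i => Fin (X.b i) → R) k).comp (AddMonoidHom.snd _ _)) 1
        (-k - 1) (-d - k) := by
      refine ⟨by norm_num, fun _ _ => rfl, ?_, ?_, ?_, ?_⟩
      · rintro i e i' e' hi he c hc
        have h1 := (mem_trunc.1 hc).1.2 k
        rw [show i - k - 1 = i' by omega, show e - d - k = e' by omega] at h1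
        exact mem_conc.2 ⟨fun hi j => (mem_conc.1 (h1 j)).1 hi,
          fun hi => funext fun j => (mem_conc.1 (h1 j)).2 hi⟩
      · rintro i e i' e' hi he c hc
        by_cases h1 : i' = 0
        · obtain rfl : i = k + 1 := by omega
          obtain rfl : e' = e - d - k := by omega
          exact ⟨hX.ins k c, mem_trunc.2 ⟨hX.ins_mem ⊤ fun j => ((mem_conc.1 hc).1 h1 j).1,
            fun hi => absurd hi (by push_cast; omega)⟩, sub_eq_zero.2
              (Pi.single_eq_same (M := fun i => Fin (X.b i) → R) k _)⟩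
        · exact ⟨0, zero_mem _, by rw [(mem_conc.1 hc).2 h1, map_zero, sub_self]; exact zero_mem _⟩
      · rintro i e i' e' hi he c hc
        obtain ⟨h1, h2⟩ := mem_trunc.1 hc
        refine ⟨fun h => mem_trunc.2 ⟨h1, fun hi => ?_⟩, fun h => ?_⟩
        · by_cases h3 : i = k + 1
          · subst h3
            rw [(hX.eq_ins h1).2, show c.2 k = 0 from h]
            exact Prod.ext rfl (Pi.single_zero k)
          · exact h2 (by push_cast at hi ⊢; omega)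
        · by_cases h3 : i = k + 1
          · rw [(mem_trunc.1 h).2 (by simp [h3])]; exact zero_mem _
          · exact funext fun j => (mem_conc.1 (h1.2 k j)).2 (by omega)
      · rintro i e i' e' hi he c hc
        obtain ⟨h1, h2⟩ := mem_trunc.1 hc
        show (0 : Fin (X.b k) → R) - (1 : ℤ) • (hX.tot.d c).2 k = 0
        rw [one_smul, zero_sub, neg_eq_zero]
        by_cases h3 : i = k + 1
        · rw [h2 (by simp [h3]), map_zero]; rfl
        · exact funext fun j => (mem_conc.1 ((hF.dc _ _ _ h1).2 k j)).2 (by omega)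
    exact (i1.iff' hL' (hF.trunc _) Ok.bot rfl rfl).2
      (V.pi hL' (h.cut_mul ⊤) (hr L hL _ _ (by omega)) _)

theorem Pows.lift {R' : Type} [CommRing R'] (φ : R →+* R') {xs : List R} {L : List (R' × ℕ)}
    (hL : Pows (xs.map φ) L) : ∃ L', Pows xs L' ∧ L = L'.map fun p => (φ p.1, p.2) := by
  induction xs generalizing L with
  | nil => exact ⟨[], List.Forall₂.nil, List.forall₂_nil_left_iff.1 hL⟩
  | cons x xs ih =>
    obtain ⟨p, L, ⟨M, rfl⟩, hL', rfl⟩ := List.forall₂_cons_left_iff.1 hL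
    obtain ⟨L', h1, rfl⟩ := ih hL'
    exact ⟨(x ^ (M + 1), M + 1) :: L', List.Forall₂.cons ⟨M, rfl⟩ h1, by simp⟩

theorem Gr.reg_quot (h : Gr K A π) (hX : Lin A X 2) (hXe : X.Exact) {xs : List R}
    (hx : ∀ x ∈ xs, x ∈ A 1) (hr : Reg (A := A) xs 0) {R' : Type} [CommRing R'] [Algebra K R']
    {A' : ℤ → Submodule K R'} (φ : R →+* R') (hφ : ∀ e r', r' ∈ A' e ↔ ∃ r ∈ A e, φ r = r')
    (hk : ∀ r, r ∈ Ideal.span (Set.range X.g) ↔ φ r = 0) : Reg (A := A') (xs.map φ) 1 := by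
  intro L hL i e he
  obtain ⟨L, hL', rfl⟩ := hL.lift
  have hg : ∀ j, X.g j ∈ Ideal.span (Set.range X.g) := fun j => Ideal.subset_span ⟨j, rfl⟩
  have i1 := hX.iso φ hφ (P := ⊥) hk hg h
  rw [conc_bot] at i1
  have h1 := hL'.hom h hx
  refine (i1.iff (A' := Ah A') (fun k r hr => (hφ _ _).2 ⟨r, hr, rfl⟩) h1
    (h.okF hX fun _ => trivial) Ok.bot (add_zero i).symm (add_zero e).symm).1 ?_
  rw [← sub_add_cancel i 1]
  exact V.s2 (fun _ _ => bot_le) (hX.F_mono le_top) Ok.bot h1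
    (h.tot hX (by norm_num) hx hr hL' (by omega))
    (V.s1 (fun _ _ => bot_le) (hX.Y_le _)
      (V.acyc (h.okY hX) Ok.bot h1 (fun _ _ => hX.hz (h.lf hX hXe _)) _ _)
      (V.acyc (h.okF hX hg) (h.okY hX) h1 (h.acyc hX) _ _))

end Pool.Agent.MP_36bee5_al.Tr
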