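import Pool.Statements.S01178
import Pool.Agent.MP_36bee5_al.Main

set_option autoImplicit false
open Pool Pool.MP_36bee5_al

namespace Pool.Agent.S01178

/-- The negation of the preceding statement: For a standard graded algebra with a Koszul filtration F, every nonzero product of d ≥ 1 ideals from F has a d-linear free resolution over R (generated in degree d, linear matrices thereafter), i.e. its regularity over R equals d. -/
theorem result :
    ¬ (∀ (K : Type) [Field K] (n : ℕ) (J : Ideal (MvPolynomial (Fin n) K)),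
      (∀ p ∈ J, ∀ i : ℕ, MvPolynomial.homogeneousComponent i p ∈ J) →
      ∀ (F : Set (Ideal (MvPolynomial (Fin n) K ⧸ J))),
        (∀ I ∈ F, I = Ideal.span {y : MvPolynomial (Fin n) K ⧸ J | y ∈ I ∧
            ∃ p : MvPolynomial (Fin n) K, p.IsHomogeneous 1 ∧ Ideal.Quotient.mk J p = y}) →
        (⊥ ∈ F) →
        (Ideal.span {y : MvPolynomial (Fin n) K ⧸ J |
            ∃ p : MvPolynomial (Fin n) K, p.IsHomogeneous 1 ∧ Ideal.Quotient.mk J p = y} ∈ F) →
        (∀ I ∈ F, I ≠ ⊥ → ∃ I' ∈ F, I' ≤ I ∧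
            (∃ x : MvPolynomial (Fin n) K ⧸ J,
              (∃ p : MvPolynomial (Fin n) K, p.IsHomogeneous 1 ∧ Ideal.Quotient.mk J p = x) ∧
              I = I' ⊔ Ideal.span {x}) ∧
            ∃ C ∈ F, ∀ r : MvPolynomial (Fin n) K ⧸ J, r ∈ C ↔ ∀ y ∈ I, r * y ∈ I') →
        ∀ (d : ℕ), 1 ≤ d → ∀ (I : Fin d → Ideal (MvPolynomial (Fin n) K ⧸ J)),
          (∀ k, I k ∈ F) → (∏ k, I k) ≠ ⊥ →
          ∃ b : ℕ → ℕ, ∃ g : Fin (b 0) → MvPolynomial (Fin n) K ⧸ J,
            ∃ A : (i : ℕ) → Matrix (Fin (b i)) (Fin (b (i + 1))) (MvPolynomial (Fin n) K ⧸ J),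
              (∀ j, ∃ p : MvPolynomial (Fin n) K, p.IsHomogeneous d ∧ Ideal.Quotient.mk J p = g j) ∧
              (∀ i a c, ∃ p : MvPolynomial (Fin n) K, p.IsHomogeneous 1 ∧
                  Ideal.Quotient.mk J p = A i a c) ∧
              Ideal.span (Set.range g) = ∏ k, I k ∧
              (∀ v : Fin (b 0) → MvPolynomial (Fin n) K ⧸ J,
                  ∑ j, v j * g j = 0 ↔ ∃ w, (A 0).mulVec w = v) ∧
              (∀ (i : ℕ) (v : Fin (b (i + 1)) → MvPolynomial (Fin n) K ⧸ J),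
                  (A i).mulVec v = 0 ↔ ∃ w, (A (i + 1)).mulVec w = v)) := by
  intro h
  obtain ⟨b, g, A, hg, hA, hspan, hex, -⟩ :=
    h ℚ 4 Pool.Agent.MP_36bee5_al.JJ Pool.Agent.MP_36bee5_al.JJ_homog Pool.Agent.MP_36bee5_al.FF
      Pool.Agent.MP_36bee5_al.FF_lin (by simp [Pool.Agent.MP_36bee5_al.FF])
      (by
        have := Pool.Agent.MP_36bee5_al.max_eq
        unfold Pool.Agent.MP_36bee5_al.Hom at this
        rw [this]
        simp [Pool.Agent.MP_36bee5_al.FF])
      Pool.Agent.MP_36bee5_al.FF_step 2 (by norm_num) (fun _ => Pool.Agent.MP_36bee5_al.Ia)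
      (fun _ => by simp [Pool.Agent.MP_36bee5_al.FF]) Pool.Agent.MP_36bee5_al.prod_ne
  exact Pool.Agent.MP_36bee5_al.no_linear_presentation g (A 0) hg (hA 0)
    (hspan.trans Pool.Agent.MP_36bee5_al.prod_eq) hex

end Pool.Agent.S01178
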